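import Pool.Agent.Lib.H92SA.Lay

namespace H92SA

variable {h s t1 x : ℕ} {low : ℕ → Bool}

/-- Chunk L3: closed form of `cge` for the even edges, `n = 2 * h - 1`. -/
theorem cge_zero (hh : 1 ≤ h) (hs : s < 2 * h - 1) (t : ℕ) (ht : t ≤ 2 * h - 1) :
    (t ≤ 2 * h - 1 - s → cge (2 * h - 1) s 0 t + (s + t + 1) / 2 = h + (s + 1) / 2) ∧
    (2 * h - 1 - s < t →
      cge (2 * h - 1) s 0 t + (t - (2 * h - 1 - s) + 1) / 2 = (s + 1) / 2) := by
  obtain ⟨n, hn⟩ : ∃ n, n = 2 * h - 1 := ⟨_, rfl⟩
  rw [← hn] at hs ht ⊢
  have hcn := card_even n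
  constructor
  · intro htn
    have h1 : cge n s 0 t = ((Finset.range n).filter
        (fun e => e % 2 = 0 ∧ (e < s ∨ s + t ≤ e))).card := by
      unfold cge
      congr 1
      apply Finset.filter_congr
      intro e he
      have he := Finset.mem_range.mp he
      unfold ti
      split_ifs <;> constructor <;> intro h2 <;> refine ⟨h2.1, ?_⟩ <;> omega
    have h2 : ((Finset.range n).filter (fun e => e % 2 = 0 ∧ e < s + t)).card =
        (s + t + 1) / 2 := by
      rw [← card_even (s + t)]
      congr 1
      ext e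
      simp only [Finset.mem_filter, Finset.mem_range]
      constructor
      · rintro ⟨h3, h4, h5⟩; exact ⟨h5, h4⟩
      · rintro ⟨h3, h4⟩; exact ⟨by omega, h4, h3⟩
    have h3 := Finset.card_union_add_card_inter
      ((Finset.range n).filter (fun e => e % 2 = 0 ∧ (e < s ∨ s + t ≤ e)))
      ((Finset.range n).filter (fun e => e % 2 = 0 ∧ e < s + t))
    have h4 : ((Finset.range n).filter (fun e => e % 2 = 0 ∧ (e < s ∨ s + t ≤ e))) ∪
        ((Finset.range n).filter (fun e => e % 2 = 0 ∧ e < s + t)) =
        (Finset.range n).filter (fun e => e % 2 = 0) := by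
      ext e
      simp only [Finset.mem_union, Finset.mem_filter, Finset.mem_range]
      constructor
      · rintro (h5 | h5)
        · exact ⟨h5.1, h5.2.1⟩
        · exact ⟨h5.1, h5.2.1⟩
      · rintro ⟨h5, h6⟩
        rcases Nat.lt_or_ge e (s + t) with h7 | h7
        · exact Or.inr ⟨h5, h6, h7⟩
        · exact Or.inl ⟨h5, h6, Or.inr h7⟩
    have h5 : ((Finset.range n).filter (fun e => e % 2 = 0 ∧ (e < s ∨ s + t ≤ e))) ∩
        ((Finset.range n).filter (fun e => e % 2 = 0 ∧ e < s + t)) =
        (Finset.range s).filter (fun e => e % 2 = 0) := by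
      ext e
      simp only [Finset.mem_inter, Finset.mem_filter, Finset.mem_range]
      constructor
      · rintro ⟨⟨h6, h7, h8⟩, h9⟩
        exact ⟨by omega, h7⟩
      · rintro ⟨h6, h7⟩
        exact ⟨⟨by omega, h7, Or.inl h6⟩, by omega, h7, by omega⟩
    rw [h4, h5, hcn, card_even s, h2, ← h1] at h3
    omega
  · intro htn
    have h1 : cge n s 0 t = ((Finset.range s).filter
        (fun e => e % 2 = 0 ∧ t - (n - s) ≤ e)).card := by
      unfold cge
      congr 1
      ext e
      simp only [Finset.mem_filter, Finset.mem_range]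
      unfold ti
      split_ifs <;> constructor <;> rintro ⟨h2, h3, h4⟩
      · exact ⟨by omega, h3, by omega⟩
      · exact ⟨by omega, h3, by omega⟩
      · exfalso; omega
      · exfalso; omega
    have h2 : ((Finset.range s).filter (fun e => e % 2 = 0 ∧ e < t - (n - s))).card =
        (t - (n - s) + 1) / 2 := by
      rw [← card_even (t - (n - s))]
      congr 1
      ext e
      simp only [Finset.mem_filter, Finset.mem_range]
      constructor
      · rintro ⟨h3, h4, h5⟩; exact ⟨h5, h4⟩
      · rintro ⟨h3, h4⟩; exact ⟨by omega, h4, h3⟩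
    have h3 : ((Finset.range s).filter (fun e => e % 2 = 0)).card =
        ((Finset.range s).filter (fun e => e % 2 = 0 ∧ t - (n - s) ≤ e)).card +
        ((Finset.range s).filter (fun e => e % 2 = 0 ∧ e < t - (n - s))).card := by
      rw [← Finset.card_union_of_disjoint]
      · congr 1
        ext e
        simp only [Finset.mem_union, Finset.mem_filter, Finset.mem_range]
        constructor
        · rintro ⟨h5, h6⟩
          rcases Nat.lt_or_ge e (t - (n - s)) with h7 | h7
          · exact Or.inr ⟨h5, h6, h7⟩
          · exact Or.inl ⟨h5, h6, h7⟩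
        · rintro (h5 | h5)
          · exact ⟨h5.1, h5.2.1⟩
          · exact ⟨h5.1, h5.2.1⟩
      · rw [Finset.disjoint_left]
        intro e he he'
        simp only [Finset.mem_filter, Finset.mem_range] at he he'
        omega
    rw [card_even s, h2, ← h1] at h3
    omega

/-- Chunk L3: the edges with cyclic index at least `t` are `n - t` many. -/
theorem cge_add (hh : 1 ≤ h) (hs : s < 2 * h - 1) (t : ℕ) (ht : t ≤ 2 * h - 1) :
    cge (2 * h - 1) s 0 t + cge (2 * h - 1) s 1 t = 2 * h - 1 - t := by
  obtain ⟨n, hn⟩ : ∃ n, n = 2 * h - 1 := ⟨_, rfl⟩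
  rw [← hn] at hs ht ⊢
  have h1 : cge n s 0 t + cge n s 1 t =
      ((Finset.range n).filter (fun e => t ≤ ti n s e)).card := by
    unfold cge
    rw [← Finset.card_union_of_disjoint]
    · congr 1
      ext e
      simp only [Finset.mem_union, Finset.mem_filter, Finset.mem_range]
      constructor
      · rintro (h5 | h5)
        · exact ⟨h5.1, h5.2.2⟩
        · exact ⟨h5.1, h5.2.2⟩
      · rintro ⟨h5, h6⟩
        rcases Nat.mod_two_eq_zero_or_one e with h7 | h7
        · exact Or.inl ⟨h5, h7, h6⟩
        · exact Or.inr ⟨h5, h7, h6⟩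
    · rw [Finset.disjoint_left]
      intro e he he'
      simp only [Finset.mem_filter, Finset.mem_range] at he he'
      omega
  rw [h1, ← Nat.card_Ico t n]
  apply Finset.card_bij (fun e _ => ti n s e)
  · intro e he
    simp only [Finset.mem_filter, Finset.mem_range, Finset.mem_Ico] at he ⊢
    refine ⟨he.2, ?_⟩
    have := he.1
    unfold ti
    split_ifs <;> omega
  · intro e he e' he' hee
    simp only [Finset.mem_filter, Finset.mem_range] at he he'
    unfold ti at hee
    split_ifs at hee <;> omega
  · intro t' ht'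
    simp only [Finset.mem_Ico] at ht'
    refine ⟨ei n s t', ?_, ?_⟩
    · simp only [Finset.mem_filter, Finset.mem_range]
      unfold ti ei
      split_ifs <;> omega
    · unfold ti ei
      split_ifs <;> omega

end H92SA
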