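import Pool.Agent.Lib.H92SA.L2

namespace H92SA

variable {h s t1 x : ℕ} {low : ℕ → Bool}

/-- Chunk L4, the general fact behind the formulas. For `t ≤ n` the edges with position in
`(al t, n - (t - al t)]` are exactly the edges with cyclic index at least `t`. -/
theorem posL_window (F : Frame h s low t1 x) (t : ℕ) (ht : t ≤ 2 * h - 1) (e : ℕ)
    (he : e < 2 * h - 1) :
    (al (2 * h - 1) s low t1 t < posL (2 * h - 1) s low t1 e ∧
      posL (2 * h - 1) s low t1 e + (t - al (2 * h - 1) s low t1 t) ≤ 2 * h - 1) ↔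
    t ≤ ti (2 * h - 1) s e := by
  have hs := F.hs
  have ht' := ti_lt hs he
  unfold posL
  generalize ti (2 * h - 1) s e = t' at *
  have a2 := al_succ (2 * h - 1) s low t1 t'
  have b1 := al_le (2 * h - 1) s low t1 t
  have b2 := al_le (2 * h - 1) s low t1 t'
  unfold posC
  rcases Nat.lt_or_ge t' t with h1 | h1
  · have m1 := al_mono (2 * h - 1) s low t1 (show t' + 1 ≤ t from h1)
    split_ifs at a2 ⊢ <;> omega
  · have m1 := al_mono (2 * h - 1) s low t1 h1
    have m2 := al_mono (2 * h - 1) s low t1 (show t ≤ t' + 1 by omega)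
    split_ifs at a2 ⊢ <;> omega

/-- the sum of the ranks of two edges of different parity -/
theorem two_ranks {n : ℕ} {pos : ℕ → ℕ} (hp : IsPos n pos) {a b : ℕ} (ha : a < n) (hb : b < n)
    (hpar : a % 2 ≠ b % 2) (hlt : pos a < pos b) :
    rk n pos a + rk n pos b = pos a + ((Finset.range n).filter
      (fun e => e % 2 = b % 2 ∧ pos a < pos e ∧ pos e ≤ pos b)).card := by
  have h1 := cE_add_cO hp (hp.range a ha).2
  have split : ∀ r : ℕ, ((Finset.range n).filter (fun e => e % 2 = r ∧ pos e ≤ pos b)).card =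
      ((Finset.range n).filter (fun e => e % 2 = r ∧ pos e ≤ pos a)).card +
      ((Finset.range n).filter (fun e => e % 2 = r ∧ pos a < pos e ∧ pos e ≤ pos b)).card := by
    intro r
    rw [← Finset.card_union_of_disjoint]
    · congr 1
      ext e
      simp only [Finset.mem_union, Finset.mem_filter, Finset.mem_range]
      constructor
      · rintro ⟨h5, h6, h7⟩
        rcases Nat.lt_or_ge (pos a) (pos e) with h8 | h8
        · exact Or.inr ⟨h5, h6, h8, h7⟩
        · exact Or.inl ⟨h5, h6, h8⟩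
      · rintro (h5 | h5)
        · exact ⟨h5.1, h5.2.1, by omega⟩
        · exact ⟨h5.1, h5.2.1, h5.2.2.2⟩
    · rw [Finset.disjoint_left]
      intro e he he'
      simp only [Finset.mem_filter, Finset.mem_range] at he he'
      omega
  rcases Nat.mod_two_eq_zero_or_one b with h0 | h0
  · rw [rk_odd (e := a) (by omega), rk_even h0]
    have h2 := split 0
    unfold cE cO at *
    rw [h0]
    omega
  · rw [rk_even (e := a) (by omega), rk_odd h0]
    have h2 := split 1
    unfold cE cO at *
    rw [h0]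
    omega

/-- Chunk L4, (i): both edges of the joint are stacked from the bottom (they are adjacent). -/
theorem sum_i (F : Frame h s low t1 x) (j : ℕ) (hj1 : 1 ≤ j) (hj : j < 2 * h - 1) (hjs : j ≠ s)
    (ht : t1 < ti (2 * h - 1) s j) :
    rk (2 * h - 1) (posL (2 * h - 1) s low t1) (j - 1) + rk (2 * h - 1) (posL (2 * h - 1) s low t1) j
      = al (2 * h - 1) s low t1 (ti (2 * h - 1) s j) + 1 := by
  have hs := F.hs
  obtain ⟨p1, p2, p3⟩ := ti_pred hs hj1 hj hjs
  have hp := posL_isPos F
  have e1 : posL (2 * h - 1) s low t1 j = al (2 * h - 1) s low t1 (ti (2 * h - 1) s j) + 1 := by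
    unfold posL posC
    rw [if_pos (Or.inr ht.le)]
  have e2 : posL (2 * h - 1) s low t1 (j - 1) = al (2 * h - 1) s low t1 (ti (2 * h - 1) s j) := by
    have a1 := al_succ (2 * h - 1) s low t1 (ti (2 * h - 1) s j - 1)
    rw [if_pos (Or.inr (by omega)), show ti (2 * h - 1) s j - 1 + 1 = ti (2 * h - 1) s j by omega]
      at a1
    unfold posL posC
    rw [p2, if_pos (Or.inr (by omega))]
    exact a1.symm
  obtain ⟨q1, q2, q3⟩ := joint_vals hp hj1 hj (by omega)
  have hm : max (posL (2 * h - 1) s low t1 (j - 1)) (posL (2 * h - 1) s low t1 j) =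
      al (2 * h - 1) s low t1 (ti (2 * h - 1) s j) + 1 := by omega
  rw [hm] at q1 q2 q3
  have q4 := cE_add_cO hp q2
  omega

/-- Chunk L4, (ii): low then high, `t = ti j < t1`. The position of `j - 1` is `u = al t = cl t`, the
position of `j` is `n - (t - cl t)`; the sum of the two ranks is `u` plus the number of edges of the
parity of `j` with position in `(u, n - (t - u)]`. -/
theorem sum_ii (F : Frame h s low t1 x) (j : ℕ) (hj : TJ h low j) (hjs : j ≠ s)
    (ht : ti (2 * h - 1) s j < t1) (hlow : low (j - 1) = true) :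
    rk (2 * h - 1) (posL (2 * h - 1) s low t1) (j - 1) + rk (2 * h - 1) (posL (2 * h - 1) s low t1) j
      = cl (2 * h - 1) s low (ti (2 * h - 1) s j) +
        cge (2 * h - 1) s (j % 2) (ti (2 * h - 1) s j) := by
  obtain ⟨hj1, hj2, hj3⟩ := hj
  have hs := F.hs
  obtain ⟨p1, p2, p3⟩ := ti_pred hs hj1 hj2 hjs
  have hp := posL_isPos F
  have hl1 := lc_ti low hs hj2
  have hl2 := lc_ti low hs (show j - 1 < 2 * h - 1 by omega)
  have htn := ti_lt hs hj2
  have hlowj : low j = false := by
    rw [hlow] at hj3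
    cases hj' : low j
    · rfl
    · rw [hj'] at hj3; exact absurd rfl hj3
  have hal : al (2 * h - 1) s low t1 (ti (2 * h - 1) s j) =
      cl (2 * h - 1) s low (ti (2 * h - 1) s j) := by
    unfold al; rw [if_pos ht.le]
  have b1 := al_le (2 * h - 1) s low t1 (ti (2 * h - 1) s j)
  have e1 : posL (2 * h - 1) s low t1 j =
      2 * h - 1 - (ti (2 * h - 1) s j - al (2 * h - 1) s low t1 (ti (2 * h - 1) s j)) := by
    unfold posL posC
    rw [if_neg]
    rintro (h5 | h5)
    · rw [hl1, hlowj] at h5; exact absurd h5 (by simp)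
    · omega
  have e2 : posL (2 * h - 1) s low t1 (j - 1) = al (2 * h - 1) s low t1 (ti (2 * h - 1) s j) := by
    have hc : lc (2 * h - 1) s low (ti (2 * h - 1) s j - 1) = true := by
      rw [← p2, hl2, hlow]
    have a1 := al_succ (2 * h - 1) s low t1 (ti (2 * h - 1) s j - 1)
    rw [if_pos (Or.inl hc), show ti (2 * h - 1) s j - 1 + 1 = ti (2 * h - 1) s j by omega] at a1
    unfold posL posC
    rw [p2, if_pos (Or.inl hc)]
    exact a1.symm
  have hlt : posL (2 * h - 1) s low t1 (j - 1) < posL (2 * h - 1) s low t1 j := by omega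
  rw [two_ranks hp (show j - 1 < 2 * h - 1 by omega) hj2 (by omega) hlt, e2, hal]
  congr 1
  unfold cge
  congr 1
  apply Finset.filter_congr
  intro e he
  have he := Finset.mem_range.mp he
  have w := posL_window F (ti (2 * h - 1) s j) htn.le e he
  rw [← w, hal]
  rw [e1, hal]
  constructor
  · rintro ⟨h1, h2, h3⟩
    exact ⟨h1, h2, by omega⟩
  · rintro ⟨h1, h2, h3⟩
    exact ⟨h1, h2, by omega⟩

/-- Chunk L4, (iii): high then low, `t = ti j ≤ t1`. The position of `j` is `cl t + 1`, the position of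
`j - 1` is `n - (t - 1 - cl t)`. -/
theorem sum_iii (F : Frame h s low t1 x) (j : ℕ) (hj : TJ h low j) (hjs : j ≠ s)
    (ht : ti (2 * h - 1) s j ≤ t1) (hlow : low (j - 1) = false) :
    rk (2 * h - 1) (posL (2 * h - 1) s low t1) (j - 1) + rk (2 * h - 1) (posL (2 * h - 1) s low t1) j
      = cl (2 * h - 1) s low (ti (2 * h - 1) s j) + 1 +
        cge (2 * h - 1) s ((j - 1) % 2) (ti (2 * h - 1) s j - 1) := by
  obtain ⟨hj1, hj2, hj3⟩ := hj
  have hs := F.hs
  obtain ⟨p1, p2, p3⟩ := ti_pred hs hj1 hj2 hjs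
  have hp := posL_isPos F
  have hl1 := lc_ti low hs hj2
  have hl2 := lc_ti low hs (show j - 1 < 2 * h - 1 by omega)
  have htn := ti_lt hs hj2
  have hlowj : low j = true := by
    rw [hlow] at hj3
    cases hj' : low j
    · rw [hj'] at hj3; exact absurd rfl hj3
    · rfl
  have hal : al (2 * h - 1) s low t1 (ti (2 * h - 1) s j) =
      cl (2 * h - 1) s low (ti (2 * h - 1) s j) := by
    unfold al; rw [if_pos ht]
  have hc : ¬ (lc (2 * h - 1) s low (ti (2 * h - 1) s j - 1) = true ∨
      t1 ≤ ti (2 * h - 1) s j - 1) := by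
    rintro (h5 | h5)
    · rw [← p2, hl2, hlow] at h5; exact absurd h5 (by simp)
    · omega
  have a1 := al_succ (2 * h - 1) s low t1 (ti (2 * h - 1) s j - 1)
  rw [if_neg hc, show ti (2 * h - 1) s j - 1 + 1 = ti (2 * h - 1) s j by omega, Nat.add_zero] at a1
  have b1 := al_le (2 * h - 1) s low t1 (ti (2 * h - 1) s j - 1)
  have e1 : posL (2 * h - 1) s low t1 j =
      al (2 * h - 1) s low t1 (ti (2 * h - 1) s j) + 1 := by
    unfold posL posC
    rw [if_pos (Or.inl (by rw [hl1, hlowj]))]
  have e2 : posL (2 * h - 1) s low t1 (j - 1) =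
      2 * h - 1 - (ti (2 * h - 1) s j - 1 - al (2 * h - 1) s low t1 (ti (2 * h - 1) s j - 1)) := by
    unfold posL posC
    rw [p2, if_neg hc]
  have hlt : posL (2 * h - 1) s low t1 j < posL (2 * h - 1) s low t1 (j - 1) := by
    have hne : posL (2 * h - 1) s low t1 j ≠ posL (2 * h - 1) s low t1 (j - 1) := by
      intro hh'
      have := hp.inj _ _ hj2 (by omega) hh'
      omega
    omega
  rw [Nat.add_comm (rk _ _ (j - 1)), two_ranks hp hj2 (show j - 1 < 2 * h - 1 by omega) (by omega) hlt,
    e1, hal]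
  congr 1
  unfold cge
  congr 1
  apply Finset.filter_congr
  intro e he
  have he := Finset.mem_range.mp he
  have w := posL_window F (ti (2 * h - 1) s j - 1) (by omega) e he
  rw [← w, e2]
  constructor
  · rintro ⟨h1, h2, h3⟩
    exact ⟨h1, by omega, by omega⟩
  · rintro ⟨h1, h2, h3⟩
    have hne : posL (2 * h - 1) s low t1 e ≠ posL (2 * h - 1) s low t1 j := by
      intro hh'
      have := hp.inj _ _ he hj2 hh'
      omega
    exact ⟨h1, by omega, by omega⟩

/-- Chunk L4: above `t1` all turning joints lie at height at least `h` (a turning joint at `t > t1`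
has `t ≥ t1 + (h - x)`). -/
theorem al_ge (F : Frame h s low t1 x) (j : ℕ) (hj : TJ h low j) (hjs : j ≠ s)
    (ht : t1 < ti (2 * h - 1) s j) : h ≤ al (2 * h - 1) s low t1 (ti (2 * h - 1) s j) := by
  obtain ⟨hj1, hj2, hj3⟩ := hj
  have hs := F.hs
  have hx := F.hx
  have hxh := F.xh
  obtain ⟨p1, p2, p3⟩ := ti_pred hs hj1 hj2 hjs
  have hl1 := lc_ti low hs hj2
  have hl2 := lc_ti low hs (show j - 1 < 2 * h - 1 by omega)
  rw [p2] at hl2
  have key : t1 + (h - x) ≤ ti (2 * h - 1) s j := by
    by_contra hcon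
    have r1 := F.run (ti (2 * h - 1) s j) ht.le (by omega)
    have r2 := F.run (ti (2 * h - 1) s j - 1) (by omega) (by omega)
    rw [hl1] at r1
    rw [hl2] at r2
    exact hj3 (by rw [r1, r2])
  unfold al
  rw [if_neg (by omega), ← hx]
  omega

end H92SA
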