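import Pool.Agent.Lib.H92SA.L1
import Pool.Agent.Lib.H92SA.L3
import Pool.Agent.Lib.H92SA.L4

namespace H92SA

variable {h s t1 x : ℕ} {low : ℕ → Bool}

lemma c1_cl_succ (n s : ℕ) (low : ℕ → Bool) (t : ℕ) :
    cl n s low (t + 1) = cl n s low t + (if lc n s low t = true then 1 else 0) := by
  unfold cl
  rw [Finset.range_add_one, Finset.filter_insert]
  split_ifs with h1
  · rw [Finset.card_insert_of_notMem (by simp)]
  · rfl

/-- the edge with cyclic index `ti j` is `j` -/
lemma c1_ei (n s j : ℕ) (hs : s < n) (hj : j < n) : ei n s (ti n s j) = j := by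
  unfold ei ti
  split_ifs <;> omega

/-- cyclic index of the edge before `j` -/
lemma c1_ti_pred (n s j : ℕ) (hj1 : 1 ≤ j) (hjs : j ≠ s) :
    1 ≤ ti n s j ∧ ti n s (j - 1) = ti n s j - 1 ∨ n ≤ s := by
  unfold ti
  split_ifs <;> omega

/-- Chunk C1, first part, used for the codes 1 and 2. If the low height never falls below half of
the number of edges read so far then every turning joint `j ≠ s` has rank sum at least `h`.
(i): `al + 1 ≥ h + 1` by `al_ge`. (ii): `2 * cl t ≥ t + 1` since `2 * cl (t-1) ≥ t - 1` and `t - 1` is
low; now insert the closed form of `cge` (`t ≠ n - s` since `j ≥ 1`; the parity of `j = s + t` or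
`j = s + t - n` is known). (iii) in the same way with `2 * cl t ≥ t`. -/
theorem top_ge (F : Frame h s low t1 x) (hh : 1 ≤ h)
    (W : ∀ t, t ≤ 2 * h - 1 → t ≤ 2 * cl (2 * h - 1) s low t) (j : ℕ) (hj : TJ h low j)
    (hjs : j ≠ s) :
    h ≤ rk (2 * h - 1) (posL (2 * h - 1) s low t1) (j - 1) +
      rk (2 * h - 1) (posL (2 * h - 1) s low t1) j := by
  have hs := F.hs
  obtain ⟨hj1, hj2, hne⟩ := hj
  have hj : TJ h low j := ⟨hj1, hj2, hne⟩
  have htdef : ti (2 * h - 1) s j = if j < s then j + (2 * h - 1 - s) else j - s := rfl
  rcases c1_ti_pred (2 * h - 1) s j hj1 hjs with ⟨ht0, htp⟩ | hbad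
  swap
  · omega
  have htn : ti (2 * h - 1) s j < 2 * h - 1 := by
    rw [htdef]
    split_ifs <;> omega
  have hei := c1_ei (2 * h - 1) s j hs hj2
  have hei' := c1_ei (2 * h - 1) s (j - 1) hs (by omega)
  rw [htp] at hei'
  by_cases ht : t1 < ti (2 * h - 1) s j
  · rw [sum_i F j hj1 hj2 hjs ht]
    have := al_ge F j hj hjs ht
    omega
  · have ht : ti (2 * h - 1) s j ≤ t1 := by omega
    have hti : (j < s ∧ ti (2 * h - 1) s j = j + (2 * h - 1 - s)) ∨
        (s < j ∧ ti (2 * h - 1) s j = j - s) := by
      rw [htdef]
      split_ifs with hc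
      · left
        exact ⟨hc, rfl⟩
      · right
        exact ⟨by omega, rfl⟩
    set t := ti (2 * h - 1) s j with htt
    cases hb : low (j - 1)
    · rw [sum_iii F j hj hjs ht hb, ← htt]
      have w := W t (by omega)
      have c0 := cge_zero hh hs (t - 1) (by omega)
      have c1 := cge_add hh hs (t - 1) (by omega)
      rcases Nat.mod_two_eq_zero_or_one (j - 1) with hp | hp
      · rw [hp]
        rcases hti with ⟨h1, h2⟩ | ⟨h1, h2⟩
        · by_cases h3 : t - 1 ≤ 2 * h - 1 - s
          · have := c0.1 h3
            omega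
          · have := c0.2 (by omega)
            omega
        · have := c0.1 (by omega)
          omega
      · rw [hp]
        rcases hti with ⟨h1, h2⟩ | ⟨h1, h2⟩
        · by_cases h3 : t - 1 ≤ 2 * h - 1 - s
          · have := c0.1 h3
            omega
          · have := c0.2 (by omega)
            omega
        · have := c0.1 (by omega)
          omega
    · have hb' : low j = false := by
        cases hbj : low j
        · rfl
        · rw [hb, hbj] at hne
          exact absurd rfl hne
      have hlt : t < t1 := by
        rcases Nat.lt_or_ge t t1 with h1 | h1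
        · exact h1
        · have h2 : t1 = t := by omega
          have h3 := F.run t1 le_rfl (by have := F.xh; omega)
          unfold lc at h3
          rw [h2, hei, hb'] at h3
          exact absurd h3 (by simp)
      rw [sum_ii F j hj hjs hlt hb, ← htt]
      have w := W (t - 1) (by omega)
      have hcs := c1_cl_succ (2 * h - 1) s low (t - 1)
      have hlc : lc (2 * h - 1) s low (t - 1) = true := by
        unfold lc
        rw [hei', hb]
      rw [if_pos hlc, Nat.sub_add_cancel ht0] at hcs
      have c0 := cge_zero hh hs t (by omega)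
      have c1 := cge_add hh hs t (by omega)
      rcases Nat.mod_two_eq_zero_or_one j with hp | hp
      · rw [hp]
        rcases hti with ⟨h1, h2⟩ | ⟨h1, h2⟩
        · have := c0.2 (by omega)
          omega
        · have := c0.1 (by omega)
          omega
      · rw [hp]
        rcases hti with ⟨h1, h2⟩ | ⟨h1, h2⟩
        · have := c0.2 (by omega)
          omega
        · have := c0.1 (by omega)
          omega

/-- Chunk C1, second part: code 1, start 0. -/
theorem code1 (hh : 1 ≤ h) (W : ∀ t, t ≤ 2 * h - 1 → t ≤ 2 * cl (2 * h - 1) 0 low t) :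
    ∃ pos, Plain h 1 low pos := by
  obtain ⟨t1, x, F⟩ := frame_exists h 0 low hh (by omega) (by
    have := W (2 * h - 1) le_rfl
    omega)
  refine ⟨posL (2 * h - 1) 0 low t1, posL_isPos F, ?_, ?_, Or.inl rfl⟩
  · intro j hj
    exact posL_adj F j hj (by have := hj.1; omega)
  · intro j hj
    have := top_ge F hh W j hj (by have := hj.1; omega)
    omega

end H92SA
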