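import Pool.Agent.Lib.H92SA.C1

namespace H92SA

variable {h s : ℕ} {low : ℕ → Bool}

/-- number of edges of parity `b` with position at most `p` -/
def c2_cB (b n : ℕ) (pos : ℕ → ℕ) (p : ℕ) : ℕ :=
  ((Finset.range n).filter (fun e => e % 2 = b ∧ pos e ≤ p)).card

lemma c2_rk (n : ℕ) (pos : ℕ → ℕ) (e : ℕ) : rk n pos e = c2_cB (e % 2) n pos (pos e) := by
  rcases Nat.mod_two_eq_zero_or_one e with hp | hp
  · rw [rk_even hp, hp]
    rfl
  · rw [rk_odd hp, hp]
    rfl

lemma c2_shift (b n s : ℕ) (hs : s < n) (pos posl : ℕ → ℕ)
    (h1 : ∀ e, e < n → e ≠ s → pos e + 1 = posl e) (h2 : pos s = n) (h3 : posl s = 1) (p : ℕ)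
    (hp : p < n) :
    c2_cB b n posl (p + 1) = c2_cB b n pos p + (if s % 2 = b then 1 else 0) := by
  unfold c2_cB
  split_ifs with hb
  · have hset : (Finset.range n).filter (fun e => e % 2 = b ∧ posl e ≤ p + 1) =
        insert s ((Finset.range n).filter (fun e => e % 2 = b ∧ pos e ≤ p)) := by
      ext e
      simp only [Finset.mem_insert, Finset.mem_filter, Finset.mem_range]
      by_cases he : e = s
      · subst he
        constructor
        · intro _
          exact Or.inl rfl
        · intro _
          refine ⟨hs, hb, by omega⟩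
      · constructor
        · rintro ⟨a1, a2, a3⟩
          right
          have := h1 e a1 he
          exact ⟨a1, a2, by omega⟩
        · rintro (a0 | ⟨a1, a2, a3⟩)
          · exact absurd a0 he
          · have := h1 e a1 he
            exact ⟨a1, a2, by omega⟩
    rw [hset, Finset.card_insert_of_notMem]
    simp only [Finset.mem_filter, Finset.mem_range, not_and]
    intro _ _
    omega
  · refine Eq.trans (congrArg Finset.card ?_) (Nat.add_zero _).symm
    ext e
    simp only [Finset.mem_filter, Finset.mem_range]
    by_cases he : e = s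
    · subst he
      constructor
      · rintro ⟨a1, a2, a3⟩
        exact absurd a2 hb
      · rintro ⟨a1, a2, a3⟩
        exact absurd a2 hb
    · constructor
      · rintro ⟨a1, a2, a3⟩
        have := h1 e a1 he
        exact ⟨a1, a2, by omega⟩
      · rintro ⟨a1, a2, a3⟩
        have := h1 e a1 he
        exact ⟨a1, a2, by omega⟩

/-- Chunk C2: code 2. Take the basic layout from `s` (`posL s = 1`), and move `s` to the top:
`pos e = posL e - 1` for `e ≠ s`, `pos s = n`. Both joints at `s` are turning joints (or absent). For a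
turning joint `j ≠ s, s + 1` exactly one of the two ranks drops by one. At the joints `s`, `s + 1`
the rank sum is at least `1 +` the number of edges of the parity of `s`. -/
theorem code2 (hh : 1 ≤ h) (s1 : 1 ≤ s) (s2 : s < 2 * h - 1) (l0 : low s = true)
    (l1 : low (s - 1) = false) (l2 : s + 1 = 2 * h - 1 ∨ low (s + 1) = false)
    (W : ∀ t, t ≤ 2 * h - 1 → t ≤ 2 * cl (2 * h - 1) s low t) :
    ∃ pos, Plain h 0 low pos := by
  obtain ⟨t1, x, F⟩ := frame_exists h s low hh s2 (by
    have := W (2 * h - 1) le_rfl
    omega)
  have hP := posL_isPos F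
  have hposs : posL (2 * h - 1) s low t1 s = 1 := by
    have ht : ti (2 * h - 1) s s = 0 := by
      unfold ti
      rw [if_neg (by omega)]
      omega
    have hlc : lc (2 * h - 1) s low 0 = true := by
      unfold lc ei
      rwa [if_pos (by omega), Nat.add_zero]
    unfold posL posC
    rw [ht, if_pos (Or.inl hlc)]
    unfold al
    rw [if_pos (Nat.zero_le _)]
    simp [cl]
  have hge2 : ∀ e, e < 2 * h - 1 → e ≠ s → 2 ≤ posL (2 * h - 1) s low t1 e := by
    intro e he hes
    have h1 := (hP.range e he).1
    by_contra hc
    exact hes (hP.inj e s he s2 (by omega))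
  obtain ⟨pos, hpos⟩ : ∃ pos : ℕ → ℕ, ∀ e, pos e =
      if e = s then 2 * h - 1 else posL (2 * h - 1) s low t1 e - 1 := ⟨_, fun e => rfl⟩
  have hps : pos s = 2 * h - 1 := by rw [hpos, if_pos rfl]
  have hpe : ∀ e, e < 2 * h - 1 → e ≠ s → pos e + 1 = posL (2 * h - 1) s low t1 e := by
    intro e he hes
    rw [hpos, if_neg hes]
    have := hge2 e he hes
    omega
  have hle : ∀ e, e < 2 * h - 1 → e ≠ s → 1 ≤ pos e ∧ pos e < 2 * h - 1 := by
    intro e he hes
    have h1 := hpe e he hes
    have h2 := hge2 e he hes
    have h3 := (hP.range e he).2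
    omega
  have hP' : IsPos (2 * h - 1) pos := by
    constructor
    · intro e he
      by_cases hes : e = s
      · rw [hes, hps]
        omega
      · have := hle e he hes
        omega
    · intro e e' he he' heq
      by_cases hes : e = s
      · by_cases hes' : e' = s
        · rw [hes, hes']
        · have := hle e' he' hes'
          rw [hes, hps] at heq
          omega
      · by_cases hes' : e' = s
        · have := hle e he hes
          rw [hes', hps] at heq
          omega
        · have h1 := hpe e he hes
          have h2 := hpe e' he' hes'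
          exact hP.inj e e' he he' (by omega)
  have hSJ : ∀ j, SJ h low j → j ≠ s ∧ j - 1 ≠ s := by
    rintro j ⟨hj1, hj2, hj3⟩
    constructor
    · rintro rfl
      rw [l0, l1] at hj3
      exact absurd hj3 (by simp)
    · intro hc
      have hj : j = s + 1 := by omega
      subst hj
      rcases l2 with l2 | l2
      · omega
      · rw [hc, l0, l2] at hj3
        exact absurd hj3 (by simp)
  have hrk : ∀ e, e < 2 * h - 1 → e ≠ s → rk (2 * h - 1) (posL (2 * h - 1) s low t1) e =
      rk (2 * h - 1) pos e + (if s % 2 = e % 2 then 1 else 0) := by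
    intro e he hes
    rw [c2_rk, c2_rk, ← hpe e he hes]
    exact c2_shift (e % 2) (2 * h - 1) s s2 pos _ hpe hps hposs (pos e) (hle e he hes).2
  have hpos1 : ∀ e, e < 2 * h - 1 → 1 ≤ rk (2 * h - 1) pos e := by
    intro e he
    rcases Nat.mod_two_eq_zero_or_one e with hp | hp
    · exact (rk_bound_even hP' he hp).1
    · exact (rk_bound_odd hP' he hp).1
  have htops : h - 1 ≤ rk (2 * h - 1) pos s := by
    rcases Nat.mod_two_eq_zero_or_one s with hp | hp
    · rw [rk_even hp, hps, cE_top hP']
      omega
    · rw [rk_odd hp, hps, cO_top hP']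
      omega
  refine ⟨pos, hP', ?_, ?_, Or.inr ⟨rfl, ?_⟩⟩
  · intro j hj
    obtain ⟨a1, a2⟩ := hSJ j hj
    have hj1 := hj.1
    have hj2 := hj.2.1
    have b1 := hpe j hj2 a1
    have b2 := hpe (j - 1) (by omega) a2
    rcases posL_adj F j hj a1 with h1 | h1
    · left
      omega
    · right
      omega
  · intro j hj
    have hj1 := hj.1
    have hj2 := hj.2.1
    by_cases hjs : j = s
    · have := hpos1 (j - 1) (by omega)
      rw [hjs] at this ⊢
      omega
    · by_cases hjs' : j - 1 = s
      · have := hpos1 j hj2
        rw [hjs']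
        omega
      · have h1 := top_ge F hh W j hj hjs
        have h2 := hrk j hj2 hjs
        have h3 := hrk (j - 1) (by omega) hjs'
        rw [h2, h3] at h1
        split_ifs at h1 <;> omega
  · intro j hj
    obtain ⟨a1, a2⟩ := hSJ j hj
    have hj1 := hj.1
    have hj2 := hj.2.1
    exact ⟨(hle (j - 1) (by omega) a2).2, (hle j hj2 a1).2⟩

end H92SA
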