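import Pool.Agent.Lib.H92SA.C1

namespace H92SA

variable {h s t1 x : ℕ} {low : ℕ → Bool}

/-- Chunk C3: code 3, the frame has `t1 = 0`: all edges are stacked in cyclic order. At the joint `s`
the rank sum is `1 +` (number of edges of the parity of `s - 1`), at least `h`. -/
theorem code3 (F : Frame h s low 0 x) (hh : 1 ≤ h) (s1 : 1 ≤ s) (l1 : low (s - 1) = false)
    (W : ∀ t, t ≤ 2 * h - 1 → t ≤ 2 * cl (2 * h - 1) s low t) :
    ∃ pos, Plain h 1 low pos := by
  have hs := F.hs
  have lows : low s = true := by
    have h1 := F.run 0 le_rfl (by have := F.xh; omega)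
    unfold lc ei at h1
    rwa [if_pos (by omega), Nat.add_zero] at h1
  have hP := posL_isPos F
  refine ⟨posL (2 * h - 1) s low 0, hP, ?_, ?_, Or.inl rfl⟩
  · intro j hj
    apply posL_adj F j hj
    rintro rfl
    have := hj.2.2
    rw [l1, lows] at this
    exact absurd this (by simp)
  · intro j hj
    by_cases hjs : j = s
    · subst hjs
      have h1 : 1 ≤ rk (2 * h - 1) (posL (2 * h - 1) j low 0) j := by
        rcases Nat.mod_two_eq_zero_or_one j with hp | hp
        · exact (rk_bound_even hP hs hp).1
        · exact (rk_bound_odd hP hs hp).1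
      have hpos : posL (2 * h - 1) j low 0 (j - 1) = 2 * h - 1 := by
        have ht : ti (2 * h - 1) j (j - 1) = 2 * h - 2 := by
          unfold ti
          rw [if_pos (by omega)]
          omega
        unfold posL posC
        rw [ht, if_pos (Or.inr (by omega))]
        unfold al
        rw [if_neg (by omega)]
        have : cl (2 * h - 1) j low 0 = 0 := by simp [cl]
        rw [this]
        omega
      have h2 : h - 1 ≤ rk (2 * h - 1) (posL (2 * h - 1) j low 0) (j - 1) := by
        rcases Nat.mod_two_eq_zero_or_one (j - 1) with hp | hp
        · rw [rk_even hp, hpos, cE_top hP]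
          omega
        · rw [rk_odd hp, hpos, cO_top hP]
          omega
      omega
    · have := top_ge F hh W j hj hjs
      omega

end H92SA
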