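import Pool.Agent.Lib.H92SA.C1

namespace H92SA

variable {h s t1 x : ℕ} {low : ℕ → Bool}

/-- the basic layout with the first block reversed -/
def posQ (n s : ℕ) (low : ℕ → Bool) (t1 x : ℕ) (e : ℕ) : ℕ :=
  if ti n s e < x then x - ti n s e else posL n s low t1 e

/-- Chunk C5: code 5. Before `t1` the edges are low exactly for `t < x`. Reverse the first block:
`pos e = x - ti e` for `ti e < x`, `pos e = posL e` otherwise. The joint `s` has positions `x` and
`n - (t1 - x)`, its rank sum is `x +` (number of edges of the parity of `s - 1` with cyclic index at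
least `t1`) `≥ x + (n - t1) / 2 ≥ h`. The joint between the cyclic indices `x - 1` and `x` (if `x` is
not the cyclic index of edge 0) has positions `1` and `n`. The counts `cE p`, `cO p` for `p ≥ x` do
not change, so all the other turning joints are as in `top_ge`. -/
theorem code5 (F : Frame h s low t1 x) (hh : 1 ≤ h) (s1 : 1 ≤ s) (ht1 : 1 ≤ t1) (hx : 1 ≤ x)
    (l0 : low s = true) (l1 : low (s - 1) = false)
    (W : ∀ t, 1 ≤ t → t ≤ 2 * h - 1 → t + 1 ≤ 2 * cl (2 * h - 1) s low t)
    (hpat : ∀ t, t < t1 → (lc (2 * h - 1) s low t = true ↔ t < x)) :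
    ∃ pos, Plain h 1 low pos := by
  have hs := F.hs
  have hxh := F.xh
  have hle := F.le
  have hp := posL_isPos F
  have hW1 := W t1 ht1 (by omega)
  rw [← F.hx] at hW1
  -- x < t1
  have hxt : x + 1 ≤ t1 := by
    rcases F.hd with hd | hd
    · omega
    · by_contra hc
      have h1 := (hpat (t1 - 1) (by omega)).2 (by omega)
      rw [hd.2] at h1
      exact absurd h1 (by simp)
  -- values of al
  have hal : ∀ t, t ≤ x → al (2 * h - 1) s low t1 t = t := by
    intro t
    induction t with
    | zero => intro _; exact al_zero _ _ _ _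
    | succ t ih =>
      intro ht
      rw [al_succ, ih (by omega), if_pos (Or.inl ((hpat t (by omega)).2 (by omega)))]
  have hal2 : ∀ t, x ≤ t → t ≤ t1 → al (2 * h - 1) s low t1 t = x := by
    intro t ht
    induction t, ht using Nat.le_induction with
    | base => intro _; exact hal x le_rfl
    | succ t ht ih =>
      intro ht2
      have hc : ¬ (lc (2 * h - 1) s low t = true ∨ t1 ≤ t) := by
        rintro (h5 | h5)
        · have := (hpat t (by omega)).1 h5
          omega
        · omega
      rw [al_succ, ih (by omega), if_neg hc]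
      rfl
  have hal1 : al (2 * h - 1) s low t1 t1 = x := hal2 t1 (by omega) le_rfl
  -- positions in the first block
  have hb : ∀ e, e < 2 * h - 1 → ti (2 * h - 1) s e < x →
      posL (2 * h - 1) s low t1 e = ti (2 * h - 1) s e + 1 := by
    intro e he ht
    unfold posL posC
    rw [if_pos (Or.inl ((hpat _ (by omega)).2 ht)), hal _ ht.le]
  have hb2 : ∀ e, e < 2 * h - 1 → x ≤ ti (2 * h - 1) s e →
      x < posL (2 * h - 1) s low t1 e := by
    intro e he ht
    have := ((posL_window F x (by omega) e he).2 ht).1
    rw [hal x le_rfl] at this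
    exact this
  have hQ : ∀ e, x ≤ ti (2 * h - 1) s e →
      posQ (2 * h - 1) s low t1 x e = posL (2 * h - 1) s low t1 e := by
    intro e ht
    unfold posQ
    rw [if_neg (by omega)]
  have hQ' : ∀ e, ti (2 * h - 1) s e < x →
      posQ (2 * h - 1) s low t1 x e = x - ti (2 * h - 1) s e := by
    intro e ht
    unfold posQ
    rw [if_pos ht]
  have hpQ : IsPos (2 * h - 1) (posQ (2 * h - 1) s low t1 x) := by
    constructor
    · intro e he
      rcases Nat.lt_or_ge (ti (2 * h - 1) s e) x with h1 | h1
      · rw [hQ' e h1]; omega
      · rw [hQ e h1]; exact hp.range e he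
    · intro e e' he he' hee
      rcases Nat.lt_or_ge (ti (2 * h - 1) s e) x with h1 | h1 <;>
      rcases Nat.lt_or_ge (ti (2 * h - 1) s e') x with h2 | h2
      · rw [hQ' e h1, hQ' e' h2] at hee
        exact ti_inj (s := s) he he' (by omega)
      · rw [hQ' e h1, hQ e' h2] at hee
        have := hb2 e' he' h2
        omega
      · rw [hQ e h1, hQ' e' h2] at hee
        have := hb2 e he h1
        omega
      · rw [hQ e h1, hQ e' h2] at hee
        exact hp.inj e e' he he' hee
  -- counts at the levels at least x agree
  have hcmp : ∀ p, x ≤ p → ∀ e, e < 2 * h - 1 →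
      (posQ (2 * h - 1) s low t1 x e ≤ p ↔ posL (2 * h - 1) s low t1 e ≤ p) := by
    intro p hpx e he
    rcases Nat.lt_or_ge (ti (2 * h - 1) s e) x with h1 | h1
    · rw [hQ' e h1, hb e he h1]; omega
    · rw [hQ e h1]
  have hcE : ∀ p, x ≤ p → cE (2 * h - 1) (posQ (2 * h - 1) s low t1 x) p =
      cE (2 * h - 1) (posL (2 * h - 1) s low t1) p := by
    intro p hpx
    unfold cE
    congr 1
    apply Finset.filter_congr
    intro e he
    rw [hcmp p hpx e (Finset.mem_range.mp he)]
  have hcO : ∀ p, x ≤ p → cO (2 * h - 1) (posQ (2 * h - 1) s low t1 x) p =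
      cO (2 * h - 1) (posL (2 * h - 1) s low t1) p := by
    intro p hpx
    unfold cO
    congr 1
    apply Finset.filter_congr
    intro e he
    rw [hcmp p hpx e (Finset.mem_range.mp he)]
  have hrk : ∀ e, e < 2 * h - 1 → x ≤ ti (2 * h - 1) s e →
      rk (2 * h - 1) (posQ (2 * h - 1) s low t1 x) e =
        rk (2 * h - 1) (posL (2 * h - 1) s low t1) e := by
    intro e he ht
    have h1 := hb2 e he ht
    unfold rk
    rw [hQ e ht, hcE _ h1.le, hcO _ h1.le]
  refine ⟨posQ (2 * h - 1) s low t1 x, hpQ, ?_, ?_, Or.inl rfl⟩
  · -- straight joints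
    intro j hj
    have hjs : j ≠ s := by
      rintro rfl
      have := hj.2.2
      rw [l0, l1] at this
      exact absurd this (by simp)
    have hadj := posL_adj F j hj hjs
    obtain ⟨hj1, hj2, hj3⟩ := hj
    obtain ⟨p1, p2, p3⟩ := ti_pred hs hj1 hj2 hjs
    rcases lt_trichotomy (ti (2 * h - 1) s j) x with h1 | h1 | h1
    · rw [hQ' j h1, hQ' (j - 1) (by omega), p2]
      omega
    · exfalso
      have e1 := lc_ti low hs hj2
      have e2 := lc_ti low hs (show j - 1 < 2 * h - 1 by omega)
      rw [p2] at e2
      have c1 := (hpat (ti (2 * h - 1) s j - 1) (by omega)).2 (by omega)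
      have c2 : ¬ lc (2 * h - 1) s low (ti (2 * h - 1) s j) = true := by
        intro h5
        have := (hpat _ (by omega)).1 h5
        omega
      rw [e2, hj3, ← e1] at c1
      exact c2 c1
    · rw [hQ j (by omega), hQ (j - 1) (by omega)]
      exact hadj
  · -- turning joints
    intro j hj
    rw [show h - 1 + 1 = h by omega]
    by_cases hjs : j = s
    · subst hjs
      have t0 : ti (2 * h - 1) j j = 0 := by unfold ti; simp
      have tn : ti (2 * h - 1) j (j - 1) = 2 * h - 2 := by unfold ti; rw [if_pos (by omega)]; omega
      have q0 : posQ (2 * h - 1) j low t1 x j = x := by rw [hQ' j (by omega), t0]; rfl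
      have q1 : posQ (2 * h - 1) j low t1 x (j - 1) = 2 * h - 1 - (t1 - x) := by
        rw [hQ (j - 1) (by omega)]
        unfold posL posC
        rw [tn, if_pos (Or.inr (by omega))]
        unfold al
        rw [← F.hx]
        split_ifs with h5
        · have : 2 * h - 2 = t1 := by omega
          rw [this, ← F.hx]
          omega
        · omega
      have hlt : posQ (2 * h - 1) j low t1 x j < posQ (2 * h - 1) j low t1 x (j - 1) := by
        rw [q0, q1]; omega
      rw [Nat.add_comm, two_ranks hpQ hj.2.1 (show j - 1 < 2 * h - 1 by omega) (by omega) hlt]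
      have hcard : ((Finset.range (2 * h - 1)).filter (fun e => e % 2 = (j - 1) % 2 ∧
          posQ (2 * h - 1) j low t1 x j < posQ (2 * h - 1) j low t1 x e ∧
          posQ (2 * h - 1) j low t1 x e ≤ posQ (2 * h - 1) j low t1 x (j - 1))).card =
          cge (2 * h - 1) j ((j - 1) % 2) t1 := by
        unfold cge
        congr 1
        apply Finset.filter_congr
        intro e he
        have he := Finset.mem_range.mp he
        have w := posL_window F t1 (by omega) e he
        rw [hal1] at w
        rw [q0, q1, ← w]
        rcases Nat.lt_or_ge (ti (2 * h - 1) j e) x with h1 | h1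
        · rw [hQ' e h1, hb e he h1]
          constructor
          · rintro ⟨h2, h3, h4⟩; omega
          · rintro ⟨h2, h3, h4⟩; omega
        · rw [hQ e h1]
          constructor
          · rintro ⟨h2, h3, h4⟩; exact ⟨h2, h3, by omega⟩
          · rintro ⟨h2, h3, h4⟩; exact ⟨h2, h3, by omega⟩
      rw [hcard, q0]
      have z0 := cge_zero hh hs t1 (by omega)
      have z1 := cge_add hh hs t1 (by omega)
      rcases Nat.mod_two_eq_zero_or_one (j - 1) with hpar | hpar
      · rw [hpar]
        rcases Nat.lt_or_ge (2 * h - 1 - j) t1 with h5 | h5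
        · have := z0.2 h5; omega
        · have := z0.1 h5; omega
      · rw [hpar]
        rcases Nat.lt_or_ge (2 * h - 1 - j) t1 with h5 | h5
        · have := z0.2 h5; omega
        · have := z0.1 h5; omega
    · have htop := top_ge F hh (by
        intro t ht
        rcases Nat.eq_zero_or_pos t with h5 | h5
        · omega
        · have := W t h5 ht; omega) j hj hjs
      obtain ⟨hj1, hj2, hj3⟩ := hj
      obtain ⟨p1, p2, p3⟩ := ti_pred hs hj1 hj2 hjs
      rcases lt_trichotomy (ti (2 * h - 1) s j) x with h1 | h1 | h1
      · exfalso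
        have e1 := lc_ti low hs hj2
        have e2 := lc_ti low hs (show j - 1 < 2 * h - 1 by omega)
        rw [p2] at e2
        have c1 := (hpat (ti (2 * h - 1) s j - 1) (by omega)).2 (by omega)
        have c2 := (hpat (ti (2 * h - 1) s j) (by omega)).2 h1
        rw [e1] at c2
        rw [e2] at c1
        exact hj3 (by rw [c1, c2])
      · have qj : posQ (2 * h - 1) s low t1 x j = 2 * h - 1 := by
          rw [hQ j (by omega)]
          unfold posL posC
          rw [h1, if_neg, hal x le_rfl]
          · omega
          · rintro (h5 | h5)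
            · have := (hpat x (by omega)).1 h5
              omega
            · omega
        rcases Nat.mod_two_eq_zero_or_one j with hpar | hpar
        · have r1 := rk_bound_odd hpQ (show j - 1 < 2 * h - 1 by omega) (by omega)
          rw [rk_even hpar, qj, cE_top hpQ]
          omega
        · have r1 := rk_bound_even hpQ (show j - 1 < 2 * h - 1 by omega) (by omega)
          rw [rk_odd hpar, qj, cO_top hpQ]
          omega
      · rw [hrk j hj2 (by omega), hrk (j - 1) (by omega) (by omega)]
        exact htop

end H92SA
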