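import Mathlib

/-!
MP_fa3428_co: definitions for the core. The core is a path with `n = 2 * h - 1` edges
`0, ..., n - 1`; the joint `j` (`1 ≤ j < n`) lies between the edges `j - 1` and `j`. A joint is a
turning joint (T) if `low (j - 1) ≠ low j` and a straight joint (S) if `low (j - 1) = low j`.
-/

namespace H92SA

/-- number of even edges `e < n` with `pos e ≤ p` -/
def cE (n : ℕ) (pos : ℕ → ℕ) (p : ℕ) : ℕ :=
  ((Finset.range n).filter (fun e => e % 2 = 0 ∧ pos e ≤ p)).card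

/-- number of odd edges `e < n` with `pos e ≤ p` -/
def cO (n : ℕ) (pos : ℕ → ℕ) (p : ℕ) : ℕ :=
  ((Finset.range n).filter (fun e => e % 2 = 1 ∧ pos e ≤ p)).card

/-- rank of the edge `e` among the edges of the same parity -/
def rk (n : ℕ) (pos : ℕ → ℕ) (e : ℕ) : ℕ :=
  if e % 2 = 0 then cE n pos (pos e) else cO n pos (pos e)

/-- `pos` is a bijection from the edges `0, ..., n - 1` onto the positions `1, ..., n` -/
structure IsPos (n : ℕ) (pos : ℕ → ℕ) : Prop where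
  range : ∀ e, e < n → 1 ≤ pos e ∧ pos e ≤ n
  inj : ∀ e e', e < n → e' < n → pos e = pos e' → e = e'

/-- the number of low edges -/
def lowCount (n : ℕ) (low : ℕ → Bool) : ℕ :=
  ((Finset.range n).filter (fun e => low e = true)).card

/-- straight joint -/
def SJ (h : ℕ) (low : ℕ → Bool) (j : ℕ) : Prop := 1 ≤ j ∧ j < 2 * h - 1 ∧ low (j - 1) = low j

/-- turning joint -/
def TJ (h : ℕ) (low : ℕ → Bool) (j : ℕ) : Prop := 1 ≤ j ∧ j < 2 * h - 1 ∧ low (j - 1) ≠ low j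

instance (h : ℕ) (low : ℕ → Bool) : DecidablePred (TJ h low) := fun j => by
  unfold TJ; infer_instance

/-- A plain arrangement. -/
structure Plain (h ε : ℕ) (low : ℕ → Bool) (pos : ℕ → ℕ) : Prop where
  isPos : IsPos (2 * h - 1) pos
  adj : ∀ j, SJ h low j → pos j = pos (j - 1) + 1 ∨ pos (j - 1) = pos j + 1
  top : ∀ j, TJ h low j → h - 1 + ε ≤ rk (2 * h - 1) pos (j - 1) + rk (2 * h - 1) pos j
  eps : ε = 1 ∨ (ε = 0 ∧ ∀ j, SJ h low j → pos (j - 1) < 2 * h - 1 ∧ pos j < 2 * h - 1)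

/-- An arrangement with one displaced edge `g` (kept at the dummy position 1). -/
structure Disp (h : ℕ) (low : ℕ → Bool) (g x w q : ℕ) (pos : ℕ → ℕ) : Prop where
  isPos : IsPos (2 * h - 1) pos
  g1 : 1 ≤ g
  g2 : g + 1 < 2 * h - 1
  lowg : low g = true
  lowg' : low (g - 1) = false
  lowg1 : low (g + 1) = true
  posg : pos g = 1
  rkg1 : rk (2 * h - 1) pos (g + 1) = q
  q1 : 1 ≤ q
  posg1 : pos (g + 1) ≤ x
  w2 : 2 ≤ w
  wx : w + 1 ≤ x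
  xh : x + 1 ≤ h
  adj : ∀ j, SJ h low j → j ≠ g + 1 → pos j = pos (j - 1) + 1 ∨ pos (j - 1) = pos j + 1
  bdx : ∀ j, SJ h low j → j ≠ g + 1 → max (pos (j - 1)) (pos j) ≠ x + 1
  bdw : ∀ j, SJ h low j → j ≠ g + 1 → max (pos (j - 1)) (pos j) ≠ w + 1
  top : ∀ j, TJ h low j → j ≠ g →
    h + 1 ≤ rk (2 * h - 1) pos (j - 1) + rk (2 * h - 1) pos j ∨
    (pos (j - 1) = 2 * h - 1 ∧ (j - 1) % 2 = g % 2) ∨ (pos j = 2 * h - 1 ∧ j % 2 = g % 2)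
  vst : h + q ≤ rk (2 * h - 1) pos (g - 1) + x

/-- Extra facts about the direct arrangement. -/
structure DispX (h : ℕ) (low : ℕ → Bool) (g x w : ℕ) (pos : ℕ → ℕ) : Prop where
  y2 : 2 ≤ rk (2 * h - 1) pos 0
  t3 : 3 ≤ ((Finset.range (2 * h - 1)).filter (TJ h low)).card
  tt : (∀ j, TJ h low j → j ≠ g →
      h + 1 ≤ rk (2 * h - 1) pos (j - 1) + rk (2 * h - 1) pos j) ∨
    (∀ j, SJ h low j → j ≠ g + 1 → max (pos (j - 1)) (pos j) ≠ 2 * h - 1)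
  th : g % 2 = 0 → (∃ j, SJ h low j ∧ j ≠ g + 1 ∧ max (pos (j - 1)) (pos j) = 2 * h - 1) →
    (∃ e, e < 2 * h - 1 ∧ e % 2 = 0 ∧ pos e = 2 * h - 1) →
    5 ≤ x ∨ x ≤ cE (2 * h - 1) pos x + 1

/-- what the layout theorem delivers -/
def Layout (h : ℕ) (low : ℕ → Bool) : Prop :=
  (∃ pos, Plain h 1 low pos) ∨ (∃ pos, Plain h 0 low pos) ∨
  (∃ g x w pos posr, Disp h low g x w 1 pos ∧ DispX h low g x w pos ∧
    Disp h low g x w (w / 2) posr ∧ rk (2 * h - 1) posr 0 = rk (2 * h - 1) pos 0 ∧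
    cE (2 * h - 1) posr x = cE (2 * h - 1) pos x)

/-- core labelling used when the number of spine edges is odd, and for the cases E0, E. -/
def CoreO (h ε : ℕ) (low : ℕ → Bool) (f : ℕ → ℕ) : Prop :=
  ε ≤ 1 ∧
  (∀ e, e < 2 * h - 1 → e % 2 = 0 → 1 ≤ f e ∧ f e ≤ h) ∧
  (∀ e, e < 2 * h - 1 → e % 2 = 1 → 1 ≤ f e ∧ f e ≤ h - 1) ∧
  (∀ e e', e < 2 * h - 1 → e' < 2 * h - 1 → e % 2 = e' % 2 → f e = f e' → e = e') ∧
  (∀ j j', SJ h low j → SJ h low j' → f (j - 1) + f j = f (j' - 1) + f j' → j = j') ∧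
  (∀ j, SJ h low j → f (j - 1) + f j + 2 ≤ 2 * h + ε) ∧
  (∀ j, TJ h low j → h + ε ≤ f (j - 1) + f j + 1)

/-- core labelling for an even number of spine edges, first spine vertex of degree two -/
def CoreZ (h M : ℕ) (low : ℕ → Bool) : Prop :=
  ∃ (c s : ℕ) (f : ℕ → ℕ),
    1 ≤ c ∧ c ≤ h + M + 1 ∧ 1 ≤ s ∧ c + f 0 = h + M + 1 + s ∧
    (∀ e, e < 2 * h - 1 → e % 2 = 0 → 1 ≤ f e ∧ f e ≤ h + 1 ∧ f e ≠ c ∧ (h + 1 < c → f e ≤ h)) ∧
    (∀ e, e < 2 * h - 1 → e % 2 = 1 → 1 ≤ f e ∧ f e ≤ h - 1) ∧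
    (∀ e e', e < 2 * h - 1 → e' < 2 * h - 1 → e % 2 = e' % 2 → f e = f e' → e = e') ∧
    (∀ j, SJ h low j → f (j - 1) + f j ≠ s) ∧
    (∀ j j', SJ h low j → SJ h low j' → f (j - 1) + f j = f (j' - 1) + f j' → j = j') ∧
    (∀ j, TJ h low j → h ≤ f (j - 1) + f j + 1)

/-- core labelling for an even number of spine edges, both end vertices of the spine of degree at
least three, the second spine vertex of degree two, case B -/
def CoreB (h M : ℕ) (low : ℕ → Bool) : Prop :=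
  ∃ (c v e1 eN : ℕ) (f : ℕ → ℕ),
    1 ≤ c ∧ c ≤ h + 1 ∧ 1 ≤ e1 ∧ e1 ≤ h + 1 ∧ 1 ≤ eN ∧ eN ≤ h + 1 ∧ e1 ≠ eN ∧
    c + f 0 + (h + 1 + M) = v ∧
    (∀ e, e < 2 * h - 1 → e % 2 = 0 → 1 ≤ f e ∧ f e ≤ h + 1 ∧ f e ≠ c) ∧
    (∀ e, e < 2 * h - 1 → e % 2 = 1 → 1 ≤ f e ∧ f e ≤ h + 1 ∧ f e ≠ e1 ∧ f e ≠ eN) ∧
    (∀ e e', e < 2 * h - 1 → e' < 2 * h - 1 → e % 2 = e' % 2 → f e = f e' → e = e') ∧
    (∀ j, SJ h low j → f (j - 1) + f j ≠ v) ∧
    (∀ j j', SJ h low j → SJ h low j' → f (j - 1) + f j = f (j' - 1) + f j' → j = j') ∧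
    (((∀ j, TJ h low j → h ≤ f (j - 1) + f j) ∧ v ≤ 2 * h + 1 ∧
        ∀ j, SJ h low j → f (j - 1) + f j ≤ 2 * h + 1) ∨
      ((∀ j, TJ h low j → h ≤ f (j - 1) + f j + 1) ∧ v ≤ 2 * h ∧
        ∀ j, SJ h low j → f (j - 1) + f j ≤ 2 * h)) ∧
    h ≤ e1 + c ∧ h ≤ f (2 * h - 2) + eN

end H92SA
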