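import Pool.Agent.Lib.H92SA.Lay

/-!
Setting of the direct and reversed displaced arrangements (code 4).
-/

namespace H92SA

/-- The setting of code 4: the start `s` comes from the third alternative of `start`, the frame has
`t1 ≥ 1`, `w` is the length of the first run, and the edges before `t1` are not of the form
low, ..., low, high, ..., high. -/
structure DSet (h s : ℕ) (low : ℕ → Bool) (t1 x w : ℕ) : Prop where
  F : Frame h s low t1 x
  s1 : 1 ≤ s
  s2 : s + 1 < 2 * h - 1
  lows : low s = true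
  lows' : low (s - 1) = false
  lows1 : low (s + 1) = true
  W : ∀ t, 1 ≤ t → t ≤ 2 * h - 1 → t + 1 ≤ 2 * cl (2 * h - 1) s low t
  nc : ∀ t, 1 ≤ t → s + t < 2 * h - 1 → low (s + t) = true → low (s + t - 1) = false →
    2 * cl (2 * h - 1) s low t = t + 1 → s + t + 1 < 2 * h - 1 ∧ low (s + t + 1) = true
  t1pos : 1 ≤ t1
  w2 : 2 ≤ w
  wn : w ≤ 2 * h - 1 - s
  wlow : ∀ t, t < w → lc (2 * h - 1) s low t = true
  wend : w = 2 * h - 1 - s ∨ lc (2 * h - 1) s low w = false
  /-- a high edge before a low edge before `t1` -/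
  pat : ∃ a b, a < b ∧ b < t1 ∧ lc (2 * h - 1) s low a = false ∧ lc (2 * h - 1) s low b = true

/-- the reversed arrangement -/
def posR (n s : ℕ) (low : ℕ → Bool) (t1 w : ℕ) (e : ℕ) : ℕ :=
  if 1 ≤ ti n s e ∧ ti n s e < w then w + 1 - ti n s e else posL n s low t1 e

end H92SA
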