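import Pool.Agent.Lib.H92SA.Lay

namespace H92SA

/-- Chunk L1, first part. -/
theorem cl_full (n s : ℕ) (low : ℕ → Bool) (hs : s < n) : cl n s low n = lowCount n low := by
  unfold cl lowCount lc
  apply Finset.card_bij (fun i _ => ei n s i)
  · intro i hi
    simp only [Finset.mem_filter, Finset.mem_range] at hi ⊢
    refine ⟨?_, hi.2⟩
    unfold ei
    split_ifs <;> omega
  · intro i hi i' hi' he
    simp only [Finset.mem_filter, Finset.mem_range] at hi hi'
    unfold ei at he
    split_ifs at he <;> omega
  · intro e he
    simp only [Finset.mem_filter, Finset.mem_range] at he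
    refine ⟨ti n s e, ?_, ?_⟩
    · simp only [Finset.mem_filter, Finset.mem_range]
      have h1 : ei n s (ti n s e) = e := by
        unfold ei ti
        split_ifs <;> omega
      rw [h1]
      refine ⟨?_, he.2⟩
      unfold ti
      split_ifs <;> omega
    · unfold ei ti
      split_ifs <;> omega

lemma l1_cl_succ (n s : ℕ) (low : ℕ → Bool) (t : ℕ) :
    cl n s low (t + 1) = cl n s low t + (if lc n s low t = true then 1 else 0) := by
  unfold cl
  rw [Finset.range_add_one, Finset.filter_insert]
  split_ifs with h1
  · rw [Finset.card_insert_of_notMem (by simp)]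
  · rfl

/-- Chunk L1, second part. Let `th` be the least `t` with `cl t = h`, and let `t1` be the largest
`t < th`, `t ≥ 1`, with `lc (t - 1) = false`, or `0` if there is none. -/
theorem frame_exists (h s : ℕ) (low : ℕ → Bool) (hh : 1 ≤ h) (hs : s < 2 * h - 1)
    (hl : h ≤ cl (2 * h - 1) s low (2 * h - 1)) : ∃ t1 x, Frame h s low t1 x := by
  obtain ⟨n, hn⟩ : ∃ n, n = 2 * h - 1 := ⟨_, rfl⟩
  rw [← hn] at hs hl
  classical
  -- least t with h ≤ cl t
  have hex : ∃ t, h ≤ cl n s low t := ⟨n, hl⟩
  obtain ⟨th, hth, hmin⟩ : ∃ th, h ≤ cl n s low th ∧ ∀ t, t < th → cl n s low t < h := by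
    refine ⟨Nat.find hex, Nat.find_spec hex, ?_⟩
    intro t ht
    have := Nat.find_min hex ht
    omega
  have hthn : th ≤ n := by
    by_contra hc
    have := hmin n (by omega)
    omega
  have h00 : cl n s low 0 = 0 := by simp [cl]
  have hth0 : 1 ≤ th := by
    rcases Nat.eq_zero_or_pos th with h1 | h1
    · rw [h1] at hth; omega
    · exact h1
  have hthh : cl n s low th = h ∧ lc n s low (th - 1) = true := by
    have h1 := l1_cl_succ n s low (th - 1)
    rw [show th - 1 + 1 = th by omega] at h1
    have h2 := hmin (th - 1) (by omega)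
    split_ifs at h1 with h3
    · exact ⟨by omega, h3⟩
    · omega
  -- descend from th - 1 along low edges
  have key : ∀ d, d + 1 ≤ th → (∀ t, th - 1 - d ≤ t → t < th → lc n s low t = true) →
      ∃ t1, t1 < th ∧ (∀ t, t1 ≤ t → t < th → lc n s low t = true) ∧
        (t1 = 0 ∨ (1 ≤ t1 ∧ lc n s low (t1 - 1) = false)) := by
    intro d
    induction hk : th - 1 - d generalizing d with
    | zero =>
      intro hd hall
      refine ⟨0, by omega, ?_, Or.inl rfl⟩
      intro t _ ht
      exact hall t (by omega) ht
    | succ k ih =>
      intro hd hall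
      by_cases hlk : lc n s low k = true
      · apply ih (d + 1) (by omega) (by omega)
        intro t ht1 ht2
        rcases Nat.eq_or_lt_of_le (show k ≤ t by omega) with h1 | h1
        · rw [← h1]; exact hlk
        · exact hall t (by omega) ht2
      · refine ⟨k + 1, by omega, ?_, Or.inr ⟨by omega, ?_⟩⟩
        · intro t ht1 ht2
          exact hall t (by omega) ht2
        · simpa using hlk
  obtain ⟨t1, ht1, hall, hd⟩ := key 0 (by omega) (by
    intro t h1 h2
    have : t = th - 1 := by omega
    rw [this]; exact hthh.2)
  -- cl th = cl t1 + (th - t1)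
  have hdiff : ∀ t, t1 ≤ t → t ≤ th → cl n s low t = cl n s low t1 + (t - t1) := by
    intro t h1
    induction t, h1 using Nat.le_induction with
    | base => intro _; omega
    | succ t h1 ih =>
      intro h2
      rw [l1_cl_succ, ih (by omega), if_pos (hall t h1 (by omega))]
      omega
  have h3 := hdiff th (by omega) le_rfl
  have h4 := hmin t1 ht1
  refine ⟨t1, cl n s low t1, ?_⟩
  subst hn
  exact
    { hs := hs
      hx := rfl
      xh := h4
      le := by omega
      hd := hd
      run := by
        intro t h5 h6
        exact hall t h5 (by omega) }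

end H92SA
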