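import Pool.Agent.Lib.H92SA.D0
import Pool.Agent.Lib.H92SA.L1
import Pool.Agent.Lib.H92SA.L3
import Pool.Agent.Lib.H92SA.L4

namespace H92SA

variable {h s t1 x w : ℕ} {low : ℕ → Bool}

lemma d1_cl_zero (n s : ℕ) (low : ℕ → Bool) : cl n s low 0 = 0 := by simp [cl]

lemma d1_cl_succ (n s : ℕ) (low : ℕ → Bool) (t : ℕ) :
    cl n s low (t + 1) = cl n s low t + (if lc n s low t = true then 1 else 0) := by
  unfold cl
  rw [Finset.range_add_one, Finset.filter_insert]
  split_ifs with h1
  · rw [Finset.card_insert_of_notMem (by simp)]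
  · rfl

lemma d1_cl_true {n s : ℕ} {low : ℕ → Bool} {t : ℕ} (ht : 1 ≤ t)
    (h : lc n s low (t - 1) = true) : cl n s low t = cl n s low (t - 1) + 1 := by
  obtain ⟨u, rfl⟩ := Nat.exists_eq_add_of_le' ht
  rw [d1_cl_succ, Nat.add_sub_cancel] at *
  rw [if_pos h]

lemma d1_cl_false {n s : ℕ} {low : ℕ → Bool} {t : ℕ} (ht : 1 ≤ t)
    (h : lc n s low (t - 1) = false) : cl n s low t = cl n s low (t - 1) := by
  obtain ⟨u, rfl⟩ := Nat.exists_eq_add_of_le' ht
  rw [d1_cl_succ, Nat.add_sub_cancel] at *
  rw [if_neg (by rw [h]; decide), add_zero]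

lemma d1_cl_mono (n s : ℕ) (low : ℕ → Bool) {t t' : ℕ} (h : t ≤ t') :
    cl n s low t ≤ cl n s low t' ∧ cl n s low t' ≤ cl n s low t + (t' - t) := by
  obtain ⟨d, rfl⟩ := Nat.exists_eq_add_of_le h
  induction d with
  | zero => simp
  | succ d ih =>
    have ih := ih (by omega)
    have h1 := d1_cl_succ n s low (t + d)
    rw [← add_assoc]
    split_ifs at h1 <;> omega

lemma d1_cl_le (n s : ℕ) (low : ℕ → Bool) (t : ℕ) : cl n s low t ≤ t := by
  have h := (d1_cl_mono n s low (Nat.zero_le t)).2
  rw [d1_cl_zero] at h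
  omega

/-- the first run -/
lemma d1_cl_run (D : DSet h s low t1 x w) {t : ℕ} (ht : t ≤ w) :
    cl (2 * h - 1) s low t = t := by
  induction t with
  | zero => exact d1_cl_zero _ _ _
  | succ t ih =>
    rw [d1_cl_succ, ih (by omega), if_pos (D.wlow t (by omega))]

lemma d1_lc0 (D : DSet h s low t1 x w) : lc (2 * h - 1) s low 0 = true :=
  D.wlow 0 (by have := D.w2; omega)

lemma d1_lc1 (D : DSet h s low t1 x w) : lc (2 * h - 1) s low 1 = true :=
  D.wlow 1 (by have := D.w2; omega)

lemma d1_wt1 (D : DSet h s low t1 x w) : w < t1 := by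
  obtain ⟨a, b, hab, hb, ha, _⟩ := D.pat
  have h1 : w ≤ a := by
    by_contra hcon
    have := D.wlow a (by omega)
    rw [ha] at this
    exact absurd this (by decide)
  omega

lemma d1_wx (D : DSet h s low t1 x w) : w + 1 ≤ x := by
  obtain ⟨a, b, hab, hb, ha, hlb⟩ := D.pat
  have h1 : w ≤ a := by
    by_contra hcon
    have := D.wlow a (by omega)
    rw [ha] at this
    exact absurd this (by decide)
  have h2 := d1_cl_run D (le_refl w)
  have h3 := (d1_cl_mono (2 * h - 1) s low (show w ≤ b by omega)).1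
  have h4 := d1_cl_true (n := 2 * h - 1) (s := s) (low := low) (t := b + 1) (by omega)
    (by simpa using hlb)
  have h5 := (d1_cl_mono (2 * h - 1) s low (show b + 1 ≤ t1 by omega)).1
  rw [D.F.hx]
  simp only [Nat.add_sub_cancel] at h4
  omega

/-- cyclic indices of a joint -/
lemma d1_ti (hs : s < 2 * h - 1) {j : ℕ} (hj1 : 1 ≤ j) (hj : j < 2 * h - 1) (hjs : j ≠ s) :
    1 ≤ ti (2 * h - 1) s j ∧ ti (2 * h - 1) s j < 2 * h - 1 ∧
    ti (2 * h - 1) s (j - 1) = ti (2 * h - 1) s j - 1 ∧
    ei (2 * h - 1) s (ti (2 * h - 1) s j) = j ∧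
    ei (2 * h - 1) s (ti (2 * h - 1) s j - 1) = j - 1 ∧
    ((s < j ∧ ti (2 * h - 1) s j + s = j) ∨
      (j < s ∧ ti (2 * h - 1) s j + s = j + (2 * h - 1))) := by
  unfold ti ei
  split_ifs <;> omega

lemma d1_low_lc (hs : s < 2 * h - 1) {j : ℕ} (hj1 : 1 ≤ j) (hj : j < 2 * h - 1) (hjs : j ≠ s) :
    lc (2 * h - 1) s low (ti (2 * h - 1) s j) = low j ∧
    lc (2 * h - 1) s low (ti (2 * h - 1) s j - 1) = low (j - 1) := by
  obtain ⟨_, _, _, h4, h5, _⟩ := d1_ti hs hj1 hj hjs
  unfold lc
  rw [h4, h5]
  exact ⟨rfl, rfl⟩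

lemma d1_posC_low {n s : ℕ} {low : ℕ → Bool} {t1 t : ℕ} (ht : t ≤ t1)
    (h : lc n s low t = true) : posC n s low t1 t = cl n s low t + 1 := by
  unfold posC al
  rw [if_pos (Or.inl h), if_pos ht]

lemma d1_posC_high {n s : ℕ} {low : ℕ → Bool} {t1 t : ℕ} (ht : t < t1)
    (h : lc n s low t = false) : posC n s low t1 t = n - (t - cl n s low t) := by
  unfold posC al
  rw [if_neg (by rw [h]; simp; omega), if_pos ht.le]

lemma d1_posC_up {n s : ℕ} {low : ℕ → Bool} {t1 t : ℕ} (ht : t1 ≤ t) :
    posC n s low t1 t = cl n s low t1 + (t - t1) + 1 := by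
  unfold posC al
  rw [if_pos (Or.inr ht)]
  split_ifs with h1
  · have : t = t1 := by omega
    rw [this, Nat.sub_self]
  · rfl

/-- Chunk D1: simple facts on the direct arrangement: the first edge `s` has position 1, the second
one position 2 and rank 1; `w + 1 ≤ x` (a low edge after the first high edge, or, if
`w = n - s`, see the cyclic index `w`: either it is high, or low and counted); no straight joint has
level `w + 1` or `x + 1` (the edges in the positions `x` and `x + 1` have cyclic indices `≤ t1 - 2`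
and `t1`; the edges in the positions `w` and `w + 1` have cyclic indices `w - 1` and `> w`, or
`w - 1` and `w = ti 0`). -/
theorem dir_pos (D : DSet h s low t1 x w) :
    posL (2 * h - 1) s low t1 s = 1 ∧ posL (2 * h - 1) s low t1 (s + 1) = 2 ∧
    rk (2 * h - 1) (posL (2 * h - 1) s low t1) (s + 1) = 1 ∧ w + 1 ≤ x ∧
    (∀ j, SJ h low j → j ≠ s + 1 →
      max (posL (2 * h - 1) s low t1 (j - 1)) (posL (2 * h - 1) s low t1 j) ≠ x + 1) ∧
    (∀ j, SJ h low j → j ≠ s + 1 →
      max (posL (2 * h - 1) s low t1 (j - 1)) (posL (2 * h - 1) s low t1 j) ≠ w + 1) := by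
  have hs := D.F.hs
  have hs2 := D.s2
  have hw2 := D.w2
  have ht1 := D.t1pos
  have hwt := d1_wt1 D
  have hwx := d1_wx D
  have hx := D.F.hx
  have hle := D.F.le
  have hxh := D.F.xh
  have hP := posL_isPos D.F
  have hp0 : posL (2 * h - 1) s low t1 s = 1 := by
    have e : ti (2 * h - 1) s s = 0 := by unfold ti; rw [if_neg (by omega)]; omega
    unfold posL
    rw [e, d1_posC_low (Nat.zero_le _) (d1_lc0 D), d1_cl_zero]
  have hp1 : posL (2 * h - 1) s low t1 (s + 1) = 2 := by
    have e : ti (2 * h - 1) s (s + 1) = 1 := by unfold ti; rw [if_neg (by omega)]; omega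
    unfold posL
    rw [e, d1_posC_low ht1 (d1_lc1 D), d1_cl_run D (by omega)]
  have hrk : rk (2 * h - 1) (posL (2 * h - 1) s low t1) (s + 1) = 1 := by
    have h1 := cE_add_cO hP (p := 2) (by omega)
    rcases Nat.mod_two_eq_zero_or_one s with h0 | h0
    · rw [rk_odd (by omega), hp1]
      have h2 := cE_lt (pos := posL (2 * h - 1) s low t1) (n := 2 * h - 1) (e := s) (p := 0)
        (by omega) h0 (by rw [hp0]; omega)
      have h3 := cO_lt (pos := posL (2 * h - 1) s low t1) (n := 2 * h - 1) (e := s + 1) (p := 0)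
        (by omega) (by omega) (by rw [hp1]; omega)
      have h4 := cE_mono (n := 2 * h - 1) (pos := posL (2 * h - 1) s low t1)
        (show posL (2 * h - 1) s low t1 s ≤ 2 by omega)
      rw [hp1] at h3
      omega
    · rw [rk_even (by omega), hp1]
      have h2 := cO_lt (pos := posL (2 * h - 1) s low t1) (n := 2 * h - 1) (e := s) (p := 0)
        (by omega) h0 (by rw [hp0]; omega)
      have h3 := cE_lt (pos := posL (2 * h - 1) s low t1) (n := 2 * h - 1) (e := s + 1) (p := 0)
        (by omega) (by omega) (by rw [hp1]; omega)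
      have h4 := cO_mono (n := 2 * h - 1) (pos := posL (2 * h - 1) s low t1)
        (show posL (2 * h - 1) s low t1 s ≤ 2 by omega)
      rw [hp1] at h3
      omega
  -- the levels of the straight joints
  have key : ∀ j, SJ h low j →
      max (posL (2 * h - 1) s low t1 (j - 1)) (posL (2 * h - 1) s low t1 j) ≠ x + 1 ∧
      max (posL (2 * h - 1) s low t1 (j - 1)) (posL (2 * h - 1) s low t1 j) ≠ w + 1 := by
    intro j hj
    obtain ⟨hj1, hj2, hj3⟩ := hj
    have hjs : j ≠ s := by
      rintro rfl
      rw [D.lows, D.lows'] at hj3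
      exact absurd hj3 (by decide)
    obtain ⟨a1, a2, a3, a4, a5, a6⟩ := d1_ti hs hj1 hj2 hjs
    obtain ⟨b1, b2⟩ := d1_low_lc (low := low) hs hj1 hj2 hjs
    unfold posL
    rw [a3]
    generalize ti (2 * h - 1) s j = t at *
    rw [hj3, ← b1] at b2
    rcases lt_trichotomy t t1 with hlt | heq | hgt
    · have m1 := d1_cl_mono (2 * h - 1) s low (show t + 1 ≤ t1 by omega)
      have m2 := d1_cl_mono (2 * h - 1) s low (show t - 1 ≤ t by omega)
      have m3 := d1_cl_le (2 * h - 1) s low (t - 1)
      have m4 := d1_cl_le (2 * h - 1) s low t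
      by_cases hc : lc (2 * h - 1) s low t = true
      · have c1 := d1_cl_true (n := 2 * h - 1) (s := s) (low := low) a1 (by rw [b2, hc])
        have c2 := d1_cl_true (n := 2 * h - 1) (s := s) (low := low) (t := t + 1) (by omega)
          (by simpa using hc)
        simp only [Nat.add_sub_cancel] at c2
        rw [d1_posC_low (by omega) hc, d1_posC_low (by omega) (by rw [b2, hc])]
        refine ⟨by omega, ?_⟩
        intro hcon
        have hcl : cl (2 * h - 1) s low t = w := by omega
        rcases Nat.lt_or_ge w t with h1 | h1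
        · have m5 := d1_cl_mono (2 * h - 1) s low (show w ≤ t - 1 by omega)
          have m6 := d1_cl_run D (le_refl w)
          omega
        · have m6 := d1_cl_run D h1
          have htw : t = w := by omega
          rcases D.wend with h2 | h2
          · omega
          · rw [← htw, hc] at h2
            exact absurd h2 (by decide)
      · have hc' : lc (2 * h - 1) s low t = false := by simpa using hc
        have c1 := d1_cl_false (n := 2 * h - 1) (s := s) (low := low) a1 (by rw [b2, hc'])
        have c2 := d1_cl_false (n := 2 * h - 1) (s := s) (low := low) (t := t + 1) (by omega)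
          (by simpa using hc')
        simp only [Nat.add_sub_cancel] at c2
        rw [d1_posC_high hlt hc', d1_posC_high (by omega) (by rw [b2, hc'])]
        constructor <;> omega
    · exfalso
      have h1 := D.F.run t1 le_rfl (by omega)
      rcases D.F.hd with h2 | ⟨_, h2⟩
      · omega
      · rw [heq] at b2
        rw [h1, h2] at b2
        exact absurd b2 (by decide)
    · rw [d1_posC_up (show t1 ≤ t - 1 by omega), d1_posC_up hgt.le]
      constructor <;> omega
  exact ⟨hp0, hp1, hrk, hwx, fun j hj _ => (key j hj).1, fun j hj _ => (key j hj).2⟩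

end H92SA
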