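import Pool.Agent.Lib.H92SA.D1

namespace H92SA

variable {h s t1 x w : ℕ} {low : ℕ → Bool}

/-- a low-high joint before `t1` -/
lemma d2_lh (D : DSet h s low t1 x w) {j : ℕ} (hj : TJ h low j) (hjs : j ≠ s)
    (ht : ti (2 * h - 1) s j < t1) (hlow : low (j - 1) = true) :
    h + 1 ≤ rk (2 * h - 1) (posL (2 * h - 1) s low t1) (j - 1) +
        rk (2 * h - 1) (posL (2 * h - 1) s low t1) j ∨
      (ti (2 * h - 1) s j = 2 ∧ j = s + 2 ∧ lc (2 * h - 1) s low 2 = false) := by
  have hs := D.F.hs
  have hs2 := D.s2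
  have hle := D.F.le
  have hxh := D.F.xh
  obtain ⟨hj1, hj2, hj3⟩ := hj
  have hsum := sum_ii D.F j ⟨hj1, hj2, hj3⟩ hjs ht hlow
  rw [hsum]
  obtain ⟨a1, a2, a3, a4, a5, a6⟩ := d1_ti hs hj1 hj2 hjs
  obtain ⟨b1, b2⟩ := d1_low_lc (low := low) hs hj1 hj2 hjs
  have hlowj : low j = false := by
    rw [hlow] at hj3
    simpa using hj3.symm
  rw [hlowj] at b1
  rw [hlow] at b2
  clear hsum
  generalize ti (2 * h - 1) s j = t at *
  have z2 := cge_add (h := h) (s := s) (by omega) hs t a2.le
  -- t ≥ 2
  have ht2 : 2 ≤ t := by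
    by_contra hcon
    have : t = 1 := by omega
    rw [this, d1_lc1 D] at b1
    exact absurd b1 (by decide)
  have c1 := d1_cl_true (n := 2 * h - 1) (s := s) (low := low) a1 b2
  have c2 := D.W (t - 1) (by omega) (by omega)
  have c3 : t + 2 ≤ 2 * cl (2 * h - 1) s low t := by omega
  rcases Nat.mod_two_eq_zero_or_one j with hp | hp
  · left
    rw [hp]
    clear z2
    rcases a6 with ⟨h1, h2⟩ | ⟨h1, h2⟩
    · have z3 := (cge_zero (h := h) (s := s) (by omega) hs t a2.le).1 (by omega)
      omega
    · have z3 := (cge_zero (h := h) (s := s) (by omega) hs t a2.le).2 (by omega)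
      omega
  · rw [hp]
    rcases a6 with ⟨h1, h2⟩ | ⟨h1, h2⟩
    · have z3 := (cge_zero (h := h) (s := s) (by omega) hs t a2.le).1 (by omega)
      by_cases h4 : t + 3 ≤ 2 * cl (2 * h - 1) s low t
      · left
        omega
      · by_cases h5 : t = 2
        · right
          subst h5
          exact ⟨rfl, by omega, b1⟩
        · -- contradiction, unless t is odd
          by_cases hpar : t % 2 = 1
          · omega
          · exfalso
            have h6 : 2 * cl (2 * h - 1) s low t = t + 2 := by omega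
            have h7 := D.W (t - 2) (by omega) (by omega)
            by_cases h8 : lc (2 * h - 1) s low (t - 2) = true
            · have c4 := d1_cl_true (n := 2 * h - 1) (s := s) (low := low) (t := t - 1)
                (by omega) (by rw [show t - 1 - 1 = t - 2 by omega]; exact h8)
              rw [show t - 1 - 1 = t - 2 by omega] at c4
              omega
            · have h8' : lc (2 * h - 1) s low (t - 2) = false := by simpa using h8
              have e1 : ei (2 * h - 1) s (t - 1) = s + (t - 1) := by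
                unfold ei; rw [if_pos (by omega)]
              have e2 : ei (2 * h - 1) s (t - 2) = s + (t - 1) - 1 := by
                unfold ei; rw [if_pos (by omega)]; omega
              have h9 := D.nc (t - 1) (by omega) (by omega)
                (by unfold lc at b2; rwa [e1] at b2)
                (by unfold lc at h8'; rwa [e2] at h8') (by omega)
              have e3 : s + (t - 1) + 1 = j := by omega
              rw [e3, hlowj] at h9
              exact absurd h9.2 (by decide)
    · have z3 := (cge_zero (h := h) (s := s) (by omega) hs t a2.le).2 (by omega)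
      left
      omega

/-- a high-low joint up to `t1` -/
lemma d2_hl (D : DSet h s low t1 x w) {j : ℕ} (hj : TJ h low j) (hjs : j ≠ s)
    (ht : ti (2 * h - 1) s j ≤ t1) (hlow : low (j - 1) = false) :
    h + 1 ≤ rk (2 * h - 1) (posL (2 * h - 1) s low t1) (j - 1) +
        rk (2 * h - 1) (posL (2 * h - 1) s low t1) j := by
  have hs := D.F.hs
  have hs2 := D.s2
  have hle := D.F.le
  have hxh := D.F.xh
  obtain ⟨hj1, hj2, hj3⟩ := hj
  have hsum := sum_iii D.F j ⟨hj1, hj2, hj3⟩ hjs ht hlow
  rw [hsum]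
  obtain ⟨a1, a2, a3, a4, a5, a6⟩ := d1_ti hs hj1 hj2 hjs
  obtain ⟨b1, b2⟩ := d1_low_lc (low := low) hs hj1 hj2 hjs
  rw [hlow] at b2
  clear hsum
  generalize ti (2 * h - 1) s j = t at *
  have ht2 : 2 ≤ t := by
    by_contra hcon
    have h1 : t - 1 = 0 := by omega
    rw [h1, d1_lc0 D] at b2
    exact absurd b2 (by decide)
  have c2 := D.W t (by omega) (by omega)
  have ht3 : t - 1 ≤ 2 * h - 1 := by omega
  clear a3 a4 a5 b1 b2 hj3 hjs
  rcases Nat.mod_two_eq_zero_or_one (j - 1) with hp | hp
  · rw [hp]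
    rcases a6 with ⟨h1, h2⟩ | ⟨h1, h2⟩
    · have z3 := (cge_zero (h := h) (s := s) (by omega) hs (t - 1) ht3).1 (by omega)
      omega
    · by_cases h3 : t - 1 ≤ 2 * h - 1 - s
      · have z5 := (cge_zero (h := h) (s := s) (by omega) hs (t - 1) ht3).1 h3
        omega
      · have z5 := (cge_zero (h := h) (s := s) (by omega) hs (t - 1) ht3).2 (by omega)
        omega
  · rw [hp]
    have z2 := cge_add (h := h) (s := s) (by omega) hs (t - 1) ht3
    rcases a6 with ⟨h1, h2⟩ | ⟨h1, h2⟩
    · have z3 := (cge_zero (h := h) (s := s) (by omega) hs (t - 1) ht3).1 (by omega)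
      omega
    · by_cases h3 : t - 1 ≤ 2 * h - 1 - s
      · have z5 := (cge_zero (h := h) (s := s) (by omega) hs (t - 1) ht3).1 h3
        omega
      · have z5 := (cge_zero (h := h) (s := s) (by omega) hs (t - 1) ht3).2 (by omega)
        omega

/-- all turning joints -/
lemma d2_all (D : DSet h s low t1 x w) {j : ℕ} (hj : TJ h low j) (hjs : j ≠ s) :
    h + 1 ≤ rk (2 * h - 1) (posL (2 * h - 1) s low t1) (j - 1) +
        rk (2 * h - 1) (posL (2 * h - 1) s low t1) j ∨
      (ti (2 * h - 1) s j = 2 ∧ j = s + 2 ∧ lc (2 * h - 1) s low 2 = false ∧ 2 < t1) := by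
  have hs := D.F.hs
  obtain ⟨hj1, hj2, hj3⟩ := hj
  obtain ⟨b1, b2⟩ := d1_low_lc (low := low) hs hj1 hj2 hjs
  rcases lt_trichotomy (ti (2 * h - 1) s j) t1 with hlt | heq | hgt
  · by_cases hl : low (j - 1) = true
    · rcases d2_lh D ⟨hj1, hj2, hj3⟩ hjs hlt hl with h1 | ⟨h1, h2, h3⟩
      · exact Or.inl h1
      · exact Or.inr ⟨h1, h2, h3, by omega⟩
    · exact Or.inl (d2_hl D ⟨hj1, hj2, hj3⟩ hjs hlt.le (by simpa using hl))
  · left
    refine d2_hl D ⟨hj1, hj2, hj3⟩ hjs heq.le ?_
    have h1 := D.F.run t1 le_rfl (by have := D.F.xh; omega)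
    rw [heq, h1] at b1
    rw [← b1] at hj3
    simpa using hj3
  · left
    rw [sum_i D.F j hj1 hj2 hjs hgt]
    have := al_ge D.F j ⟨hj1, hj2, hj3⟩ hjs hgt
    omega

/-- Chunk D2: the turning joints of the direct arrangement. With `t = ti j`: for `t > t1` the sum is
`al + 1 ≥ h + 1`. For high then low the sum is at least `h + 1`. For low then high after the wrap
(`t > n - s`): `2 * cl t ≥ t + 2`, sum at least `h + 1`. Before the wrap (`t < n - s`): if
`2 * cl t ≥ t + 3` the sum is at least `h + 1`. If `2 * cl t = t + 2`, then `2 * cl (t-1) = (t-1) + 1`;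
if `t - 2 ≥ 0` is high (`t ≥ 3`) this contradicts `D.nc` with `t - 1`; if it is low then
`2 * cl (t - 2) = t - 2`, so `t = 2`. So `t = 2`, `w = 2` and `j` is in the top position `n`, with the
parity of `s`. Moreover then the edge with the cyclic index 3 is low (or `t1 = 3`, impossible by
`D.pat`) so no straight joint has level `n`. -/
theorem dir_top (D : DSet h s low t1 x w) (hh : 1 ≤ h) :
    (∀ j, TJ h low j → j ≠ s →
      h + 1 ≤ rk (2 * h - 1) (posL (2 * h - 1) s low t1) (j - 1) +
        rk (2 * h - 1) (posL (2 * h - 1) s low t1) j) ∨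
    ((∀ j, TJ h low j → j ≠ s →
      h + 1 ≤ rk (2 * h - 1) (posL (2 * h - 1) s low t1) (j - 1) +
        rk (2 * h - 1) (posL (2 * h - 1) s low t1) j ∨
      (posL (2 * h - 1) s low t1 j = 2 * h - 1 ∧ j % 2 = s % 2)) ∧
     (∀ j, SJ h low j → j ≠ s + 1 →
      max (posL (2 * h - 1) s low t1 (j - 1)) (posL (2 * h - 1) s low t1 j) ≠ 2 * h - 1)) := by
  have hs := D.F.hs
  have hle := D.F.le
  have hxh := D.F.xh
  by_cases hex : ∃ j, TJ h low j ∧ j ≠ s ∧ ti (2 * h - 1) s j = 2 ∧ j = s + 2 ∧
      lc (2 * h - 1) s low 2 = false ∧ 2 < t1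
  · right
    obtain ⟨j0, hj0, _, ht0, hjs0, hl2, ht1⟩ := hex
    have hc2 : cl (2 * h - 1) s low 2 = 2 := d1_cl_run D D.w2
    have hpos2 : posL (2 * h - 1) s low t1 (s + 2) = 2 * h - 1 := by
      unfold posL
      rw [← hjs0, ht0, d1_posC_high ht1 hl2, hc2]
      omega
    constructor
    · intro j hj hjs
      rcases d2_all D hj hjs with h1 | ⟨_, h2, _, _⟩
      · exact Or.inl h1
      · right
        rw [h2, hpos2]
        exact ⟨rfl, by omega⟩
    · intro j hj _ hmax
      obtain ⟨hj1, hj2, hj3⟩ := hj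
      have hjs : j ≠ s := by
        rintro rfl
        rw [D.lows, D.lows'] at hj3
        exact absurd hj3 (by decide)
      obtain ⟨a1, a2, a3, a4, a5, a6⟩ := d1_ti hs hj1 hj2 hjs
      obtain ⟨b1, b2⟩ := d1_low_lc (low := low) hs hj1 hj2 hjs
      have hP := posL_isPos D.F
      have hs22 : s + 2 < 2 * h - 1 := by
        have := hj0.2.1
        omega
      have hcase : posL (2 * h - 1) s low t1 (j - 1) = 2 * h - 1 ∨
          posL (2 * h - 1) s low t1 j = 2 * h - 1 := by omega
      rcases hcase with hc | hc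
      · have h1 := hP.inj (j - 1) (s + 2) (by omega) hs22 (by rw [hc, hpos2])
        have h2 : ti (2 * h - 1) s j = 3 := by omega
        rw [h2] at b1 b2
        simp only [Nat.reduceSub] at b2
        rw [hl2] at b2
        rw [← hj3, ← b2] at b1
        have c3 := d1_cl_false (n := 2 * h - 1) (s := s) (low := low) (t := 3) (by omega) hl2
        have c4 := d1_cl_false (n := 2 * h - 1) (s := s) (low := low) (t := 4) (by omega) b1
        simp only [Nat.reduceSub] at c3 c4
        have := D.W 4 (by omega) (by omega)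
        omega
      · have h1 := hP.inj j (s + 2) (by omega) hs22 (by rw [hc, hpos2])
        have h2 : ti (2 * h - 1) s j = 2 := by omega
        rw [h2] at b1 b2
        simp only [Nat.reduceSub] at b2
        rw [hl2] at b1
        rw [d1_lc1 D] at b2
        rw [← b1, ← b2] at hj3
        exact absurd hj3 (by decide)
  · left
    intro j hj hjs
    rcases d2_all D hj hjs with h1 | ⟨h1, h2, h3, h4⟩
    · exact h1
    · exact absurd ⟨j, hj, hjs, h1, h2, h3, h4⟩ hex

end H92SA
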