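import Pool.Agent.Lib.H92SA.D1

namespace H92SA

variable {h s t1 x w : ℕ} {low : ℕ → Bool}

/-- the edges with position above `n - (t1 - x)` are the high edges with cyclic index below `t1` -/
lemma d3_top (D : DSet h s low t1 x w) {e : ℕ} (he : e < 2 * h - 1) :
    2 * h - 1 - (t1 - x) < posL (2 * h - 1) s low t1 e ↔
      ti (2 * h - 1) s e < t1 ∧ low e = false := by
  have hs := D.F.hs
  have hle := D.F.le
  have hxh := D.F.xh
  have hx := D.F.hx
  have hxt := d1_cl_le (2 * h - 1) s low t1
  have e1 : ei (2 * h - 1) s (ti (2 * h - 1) s e) = e := by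
    unfold ti ei
    split_ifs <;> omega
  have e2 : ti (2 * h - 1) s e < 2 * h - 1 := by
    unfold ti
    split_ifs <;> omega
  have e3 : lc (2 * h - 1) s low (ti (2 * h - 1) s e) = low e := by
    unfold lc
    rw [e1]
  unfold posL
  generalize ti (2 * h - 1) s e = t at *
  clear e1
  by_cases ht : t < t1
  · by_cases hc : low e = true
    · rw [d1_posC_low ht.le (by rw [e3, hc]), hc]
      have m1 := d1_cl_mono (2 * h - 1) s low ht.le
      have m2 := d1_cl_true (n := 2 * h - 1) (s := s) (low := low) (t := t + 1) (by omega)
        (by rw [Nat.add_sub_cancel, e3, hc])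
      have m3 := d1_cl_mono (2 * h - 1) s low (show t + 1 ≤ t1 by omega)
      rw [Nat.add_sub_cancel] at m2
      constructor
      · intro h1
        omega
      · rintro ⟨_, h1⟩
        exact absurd h1 (by decide)
    · have hc' : low e = false := by simpa using hc
      rw [d1_posC_high ht (by rw [e3, hc'])]
      have m2 := d1_cl_false (n := 2 * h - 1) (s := s) (low := low) (t := t + 1) (by omega)
        (by rw [Nat.add_sub_cancel, e3, hc'])
      rw [Nat.add_sub_cancel] at m2
      have m3 := d1_cl_mono (2 * h - 1) s low (show t + 1 ≤ t1 by omega)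
      have m4 := d1_cl_le (2 * h - 1) s low t
      constructor
      · intro _
        exact ⟨ht, hc'⟩
      · intro _
        omega
  · rw [d1_posC_up (by omega)]
    constructor
    · intro h1
      omega
    · rintro ⟨h1, _⟩
      omega

/-- the number of the high edges with cyclic index below `t1` of parity `b` -/
def d3_H (n s : ℕ) (low : ℕ → Bool) (t1 b : ℕ) : ℕ :=
  ((Finset.range n).filter (fun e => e % 2 = b ∧ ti n s e < t1 ∧ low e = false)).card

lemma d3_inj {n s e e' : ℕ} (hs : s < n) (he : e < n) (he' : e' < n)
    (h : ti n s e = ti n s e') : e = e' := by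
  unfold ti at h
  split_ifs at h <;> omega

/-- all high edges with cyclic index below `t` -/
lemma d3_count {n s : ℕ} (hs : s < n) (low : ℕ → Bool) {t : ℕ} (ht : t ≤ n) :
    ((Finset.range n).filter (fun e => ti n s e < t ∧ low e = false)).card + cl n s low t = t := by
  classical
  have h1 : ((Finset.range n).filter (fun e => ti n s e < t ∧ low e = false)).card
      = ((Finset.range t).filter (fun i => ¬ lc n s low i = true)).card := by
    refine Finset.card_bij (fun e _ => ti n s e) ?_ ?_ ?_
    · intro e he
      simp only [Finset.mem_filter, Finset.mem_range] at he ⊢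
      refine ⟨he.2.1, ?_⟩
      have e1 : ei n s (ti n s e) = e := by
        unfold ti ei
        split_ifs <;> omega
      unfold lc
      rw [e1, he.2.2]
      decide
    · intro e he e' he' hee
      simp only [Finset.mem_filter, Finset.mem_range] at he he'
      exact d3_inj hs he.1 he'.1 hee
    · intro i hi
      simp only [Finset.mem_filter, Finset.mem_range] at hi
      refine ⟨ei n s i, ?_, ?_⟩
      · simp only [Finset.mem_filter, Finset.mem_range]
        refine ⟨?_, ?_, ?_⟩
        · unfold ei; split_ifs <;> omega
        · unfold ei ti; split_ifs <;> omega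
        · have := hi.2
          unfold lc at this
          simpa using this
      · unfold ei ti; split_ifs <;> omega
  rw [h1]
  unfold cl
  have h2 := Finset.card_filter_add_card_filter_not (s := Finset.range t)
    (fun i => lc n s low i = true)
  rw [Finset.card_range] at h2
  omega

/-- Chunk D3: the joint at `s` in the direct arrangement. The edge `s - 1` has cyclic index `n - 1`
and position `n - (t1 - x)`; with `b = (s - 1) % 2` its rank is (number of edges of parity `b`) minus
(number of high edges with cyclic index `< t1` of parity `b`). We must show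
(that number of high edges) `+ h + 1 ≤ x +` (number of edges of parity `b`).
As `2 * x ≥ t1 + 1`, there are at most `x - 1` high edges before `t1`. If `b = 0` we are done. If
`b = 1` and equality fails, then all high edges before `t1` are odd and `2 * x = t1 + 1`. Then the
edge `t1 - 1` is high, `2 * cl (t1 - 1) = (t1 - 1) + 2`; the edge `t1 - 2` is low (two adjacent high
edges would have both parities, or, at the wrap, both be even), `2 * cl (t1 - 2) = (t1 - 2) + 1`, and
`t1 - 3` exists and is high (else `t1 = 3` and `D.pat` fails). If `t1 - 2` is before the wrap this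
contradicts `D.nc`. Otherwise, let `i = t1 - 2 - (n - s) ≥ 0` be the edge; all high edges `< i` are
odd so at least half of the edges `< i` are low; hence `2 * cl (n - s) ≤ (n - s) + 1`; the last
edge `n - 1` is even so low, so `2 * cl (n - s - 1) ≤ n - s - 1`, against `D.W`
(`n - s - 1 ≥ 1` by `D.s2`). -/
theorem dir_vst (D : DSet h s low t1 x w) (hh : 1 ≤ h) :
    h + 1 ≤ rk (2 * h - 1) (posL (2 * h - 1) s low t1) (s - 1) + x := by
  classical
  have hs := D.F.hs
  have hs1 := D.s1
  have hs2 := D.s2
  have hle := D.F.le
  have hxh := D.F.xh
  have hx := D.F.hx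
  have hw2 := D.w2
  have hwt := d1_wt1 D
  have hxt := d1_cl_le (2 * h - 1) s low t1
  have hP := posL_isPos D.F
  have hW1 := D.W t1 (by omega) (by omega)
  rw [← hx] at hW1 hxt
  obtain ⟨n, hn⟩ : ∃ n, n = 2 * h - 1 := ⟨_, rfl⟩
  -- position of `s - 1`
  have hts : ti (2 * h - 1) s (s - 1) = 2 * h - 2 := by
    unfold ti
    rw [if_pos (by omega)]
    omega
  have hpos : posL (2 * h - 1) s low t1 (s - 1) = 2 * h - 1 - (t1 - x) := by
    unfold posL
    rw [hts, d1_posC_up (by omega), ← hx]
    omega
  -- total number of high edges before `t1`
  have htot := d3_count hs low (t := t1) (by omega)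
  rw [← hx] at htot
  rcases Nat.mod_two_eq_zero_or_one (s - 1) with hb | hb
  · -- even
    rw [rk_even hb, hpos]
    have h1 : cE (2 * h - 1) (posL (2 * h - 1) s low t1) (2 * h - 1 - (t1 - x)) +
        ((Finset.range (2 * h - 1)).filter
          (fun e => ti (2 * h - 1) s e < t1 ∧ low e = false)).card ≥ h := by
      have h2 := card_even (2 * h - 1)
      rw [show (2 * h - 1 + 1) / 2 = h by omega] at h2
      refine le_trans (le_of_eq h2.symm) ?_
      unfold cE
      refine le_trans (Finset.card_le_card ?_) (Finset.card_union_le _ _)
      intro e he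
      simp only [Finset.mem_filter, Finset.mem_range, Finset.mem_union] at he ⊢
      by_cases hc : posL (2 * h - 1) s low t1 e ≤ 2 * h - 1 - (t1 - x)
      · exact Or.inl ⟨he.1, he.2, hc⟩
      · exact Or.inr ⟨he.1, (d3_top D he.1).1 (not_le.1 hc)⟩
    omega
  · rw [rk_odd hb, hpos]
    have h1 : cO (2 * h - 1) (posL (2 * h - 1) s low t1) (2 * h - 1 - (t1 - x)) +
        d3_H (2 * h - 1) s low t1 1 ≥ h - 1 := by
      have h2 := card_odd (2 * h - 1)
      rw [show (2 * h - 1) / 2 = h - 1 by omega] at h2
      refine le_trans (le_of_eq h2.symm) ?_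
      unfold cO d3_H
      refine le_trans (Finset.card_le_card ?_) (Finset.card_union_le _ _)
      intro e he
      simp only [Finset.mem_filter, Finset.mem_range, Finset.mem_union] at he ⊢
      by_cases hc : posL (2 * h - 1) s low t1 e ≤ 2 * h - 1 - (t1 - x)
      · exact Or.inl ⟨he.1, he.2, hc⟩
      · exact Or.inr ⟨he.1, he.2, (d3_top D he.1).1 (not_le.1 hc)⟩
    have hHle : d3_H (2 * h - 1) s low t1 1 + d3_H (2 * h - 1) s low t1 0 ≤ t1 - x := by
      have h3 : t1 - x = ((Finset.range (2 * h - 1)).filter
          (fun e => ti (2 * h - 1) s e < t1 ∧ low e = false)).card := by omega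
      rw [h3]
      unfold d3_H
      rw [← Finset.card_union_of_disjoint]
      · apply Finset.card_le_card
        intro e he
        simp only [Finset.mem_filter, Finset.mem_range, Finset.mem_union] at he ⊢
        rcases he with he | he
        · exact ⟨he.1, he.2.2⟩
        · exact ⟨he.1, he.2.2⟩
      · rw [Finset.disjoint_left]
        intro e he he'
        simp only [Finset.mem_filter, Finset.mem_range] at he he'
        omega
    by_contra hcon
    have hH0 : d3_H (2 * h - 1) s low t1 0 = 0 := by omega
    have h2x : 2 * x = t1 + 1 := by omega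
    -- high edges before `t1` are odd
    have hodd : ∀ e, e < 2 * h - 1 → ti (2 * h - 1) s e < t1 → low e = false → e % 2 = 1 := by
      intro e he ht hl
      by_contra hc
      unfold d3_H at hH0
      rw [Finset.card_eq_zero, Finset.filter_eq_empty_iff] at hH0
      exact hH0 (Finset.mem_range.2 he) ⟨by omega, ht, hl⟩
    have hoddt : ∀ t, t < t1 → lc (2 * h - 1) s low t = false → ei (2 * h - 1) s t % 2 = 1 := by
      intro t ht hl
      have e1 : ei (2 * h - 1) s t < 2 * h - 1 := by unfold ei; split_ifs <;> omega
      have e2 : ti (2 * h - 1) s (ei (2 * h - 1) s t) = t := by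
        unfold ei ti; split_ifs <;> omega
      exact hodd _ e1 (by rw [e2]; exact ht) hl
    have hl1 : lc (2 * h - 1) s low (t1 - 1) = false := by
      rcases D.F.hd with h3 | ⟨_, h3⟩
      · omega
      · exact h3
    have c1 := d1_cl_false (n := 2 * h - 1) (s := s) (low := low) (t := t1) (by omega) hl1
    have hl2 : lc (2 * h - 1) s low (t1 - 2) = true := by
      by_contra hc
      have hc' : lc (2 * h - 1) s low (t1 - 2) = false := by simpa using hc
      have p1 := hoddt (t1 - 1) (by omega) hl1
      have p2 := hoddt (t1 - 2) (by omega) hc'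
      unfold ei at p1 p2
      split_ifs at p1 p2 <;> omega
    have c2 := d1_cl_true (n := 2 * h - 1) (s := s) (low := low) (t := t1 - 1) (by omega)
      (by rw [show t1 - 1 - 1 = t1 - 2 by omega]; exact hl2)
    rw [show t1 - 1 - 1 = t1 - 2 by omega] at c2
    have c3 : 2 * cl (2 * h - 1) s low (t1 - 2) = (t1 - 2) + 1 := by omega
    have ht4 : 4 ≤ t1 := by
      by_contra hc
      have h3 : t1 = 3 := by omega
      obtain ⟨a, b, hab, hb', ha, hlb⟩ := D.pat
      have ha2 : w ≤ a := by
        by_contra hcon'
        have := D.wlow a (by omega)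
        rw [ha] at this
        exact absurd this (by decide)
      omega
    have hl3 : lc (2 * h - 1) s low (t1 - 3) = false := by
      by_contra hc
      have hc' : lc (2 * h - 1) s low (t1 - 3) = true := by simpa using hc
      have c4 := d1_cl_true (n := 2 * h - 1) (s := s) (low := low) (t := t1 - 2) (by omega)
        (by rw [show t1 - 2 - 1 = t1 - 3 by omega]; exact hc')
      rw [show t1 - 2 - 1 = t1 - 3 by omega] at c4
      have := D.W (t1 - 3) (by omega) (by omega)
      omega
    by_cases hwrap : s + (t1 - 2) < 2 * h - 1
    · have e1 : ei (2 * h - 1) s (t1 - 2) = s + (t1 - 2) := by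
        unfold ei; rw [if_pos hwrap]
      have e2 : ei (2 * h - 1) s (t1 - 3) = s + (t1 - 2) - 1 := by
        unfold ei; rw [if_pos (by omega)]; omega
      have h3 := D.nc (t1 - 2) (by omega) hwrap (by unfold lc at hl2; rwa [e1] at hl2)
        (by unfold lc at hl3; rwa [e2] at hl3) c3
      have e3 : ei (2 * h - 1) s (t1 - 1) = s + (t1 - 2) + 1 := by
        unfold ei; rw [if_pos (by omega)]; omega
      have h4 := h3.2
      unfold lc at hl1
      rw [e3, h4] at hl1
      exact absurd hl1 (by decide)
    · -- after the wrap
      have hns : 2 * h - 1 - s ≤ t1 - 2 := by omega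
      -- between `n - s` and `t1 - 2` at least half of the edges are low
      have hhalf : ∀ i, 2 * h - 1 - s + i ≤ t1 - 2 →
          2 * cl (2 * h - 1) s low (2 * h - 1 - s) + i ≤
            2 * cl (2 * h - 1) s low (2 * h - 1 - s + i) ∧
          (i % 2 = 1 → 2 * cl (2 * h - 1) s low (2 * h - 1 - s) + i + 1 ≤
            2 * cl (2 * h - 1) s low (2 * h - 1 - s + i)) := by
        intro i
        induction i with
        | zero => intro _; exact ⟨le_rfl, fun h => absurd h (by decide)⟩
        | succ i ih =>
          intro hi
          have ih := ih (by omega)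
          have e1 : ei (2 * h - 1) s (2 * h - 1 - s + i) = i := by
            unfold ei; rw [if_neg (by omega)]; omega
          have e2 := d1_cl_succ (2 * h - 1) s low (2 * h - 1 - s + i)
          rw [show 2 * h - 1 - s + (i + 1) = 2 * h - 1 - s + i + 1 by omega]
          by_cases hc : lc (2 * h - 1) s low (2 * h - 1 - s + i) = true
          · rw [if_pos hc] at e2
            rw [e2]
            omega
          · rw [if_neg hc] at e2
            have hc' : lc (2 * h - 1) s low (2 * h - 1 - s + i) = false := by simpa using hc
            have p := hoddt _ (by omega) hc'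
            rw [e1] at p
            have := ih.2 p
            rw [e2]
            omega
      have h5 := (hhalf (t1 - 2 - (2 * h - 1 - s)) (by omega)).1
      rw [show 2 * h - 1 - s + (t1 - 2 - (2 * h - 1 - s)) = t1 - 2 by omega] at h5
      have hll : lc (2 * h - 1) s low (2 * h - 1 - s - 1) = true := by
        by_contra hc
        have hc' : lc (2 * h - 1) s low (2 * h - 1 - s - 1) = false := by simpa using hc
        have p := hoddt _ (by omega) hc'
        unfold ei at p
        split_ifs at p <;> omega
      have c5 := d1_cl_true (n := 2 * h - 1) (s := s) (low := low) (t := 2 * h - 1 - s)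
        (by omega) hll
      have := D.W (2 * h - 1 - s - 1) (by omega) (by omega)
      omega

end H92SA
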