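import Pool.Agent.Lib.H92SA.D1

namespace H92SA

variable {h s t1 x w : ℕ} {low : ℕ → Bool}

/-- Chunk D4: the edge 0 is not the first even edge in the order of the positions (if `s` is even then
`s` is before it; if `s` is odd then `s + 1`, in position 2, is before it: note `s + 1 < n`). -/
theorem dir_y2 (D : DSet h s low t1 x w) (hh : 1 ≤ h) :
    2 ≤ rk (2 * h - 1) (posL (2 * h - 1) s low t1) 0 := by
  obtain ⟨p1, p2, -⟩ := dir_pos D
  have hp := posL_isPos D.F
  have h1 := D.s1
  have h2 := D.s2
  have r0 := hp.range 0 (by omega)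
  have i0 := hp.inj 0 s (by omega) (by omega)
  have i1 := hp.inj 0 (s + 1) (by omega) (by omega)
  rw [rk_even (by omega)]
  have n0 : posL (2 * h - 1) s low t1 0 ≠ 1 := fun h0 => by
    have := i0 (by rw [h0, p1]); omega
  have n1 : posL (2 * h - 1) s low t1 0 ≠ 2 := fun h0 => by
    have := i1 (by rw [h0, p2]); omega
  rcases Nat.mod_two_eq_zero_or_one s with hs | hs
  · have a1 := cE_lt (pos := posL (2 * h - 1) s low t1) (p := 1) (show 0 < 2 * h - 1 by omega) (by omega)
      (by omega)
    have a2 := cE_lt (pos := posL (2 * h - 1) s low t1) (p := 0) (show s < 2 * h - 1 by omega) hs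
      (by omega)
    rw [p1] at a2
    omega
  · have a1 := cE_lt (pos := posL (2 * h - 1) s low t1) (p := 2) (show 0 < 2 * h - 1 by omega) (by omega)
      (by omega)
    have a2 := cE_lt (pos := posL (2 * h - 1) s low t1) (p := 0) (show s + 1 < 2 * h - 1 by omega)
      (by omega) (by omega)
    rw [p2] at a2
    omega

lemma d4_change (f : ℕ → Bool) (p : ℕ) : ∀ q, p < q → f q ≠ f p → ∃ c, p < c ∧ c ≤ q ∧ f (c - 1) ≠ f c := by
  intro q hq
  induction q, hq using Nat.le_induction with
  | base =>
    intro h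
    exact ⟨p + 1, by omega, le_rfl, by simpa using h.symm⟩
  | succ q hq ih =>
    intro h
    by_cases h1 : f q = f p
    · exact ⟨q + 1, by omega, le_rfl, by simpa [h1] using h.symm⟩
    · obtain ⟨c, h2, h3, h4⟩ := ih h1
      exact ⟨c, h2, by omega, h4⟩

lemma d4_tj (hs : s < 2 * h - 1) {c : ℕ} (h1 : 1 ≤ c) (h2 : c < 2 * h - 1) (h3 : c ≠ 2 * h - 1 - s)
    (h4 : lc (2 * h - 1) s low (c - 1) ≠ lc (2 * h - 1) s low c) : TJ h low (ei (2 * h - 1) s c) := by
  have e1 : ei (2 * h - 1) s (c - 1) = ei (2 * h - 1) s c - 1 := by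
    unfold ei; split_ifs <;> omega
  refine ⟨?_, ?_, ?_⟩
  · unfold ei; split_ifs <;> omega
  · unfold ei; split_ifs <;> omega
  · rw [← e1]; exact h4

/-- Chunk D4: there are at least three turning joints: `s`, and at least two of the changes of
`lc` at cyclic indices in `[1, t1]` (there are at least four of them: low at 0, then high, then low,
then high at `t1 - 1`, then low at `t1`; at most one of them is at the wrap). -/
theorem dir_t3 (D : DSet h s low t1 x w) (hh : 1 ≤ h) :
    3 ≤ ((Finset.range (2 * h - 1)).filter (TJ h low)).card := by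
  obtain ⟨a, b, hab, hb, ha', hb'⟩ := D.pat
  have hs := D.F.hs
  have hle := D.F.le
  have hxh := D.F.xh
  have hpos := D.t1pos
  have hrun := D.F.run t1 le_rfl (by omega)
  have ht1 : lc (2 * h - 1) s low (t1 - 1) = false := by
    rcases D.F.hd with h1 | h1
    · omega
    · exact h1.2
  have h0 : lc (2 * h - 1) s low 0 = true := D.wlow 0 (by have := D.w2; omega)
  have ha0 : a ≠ 0 := fun h1 => by rw [h1, h0] at ha'; exact absurd ha' (by simp)
  have hbt : b ≠ t1 - 1 := fun h1 => by rw [h1, ht1] at hb'; exact absurd hb' (by simp)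
  obtain ⟨c1, u1, u2, u3⟩ := d4_change (lc (2 * h - 1) s low) 0 a (by omega) (by rw [h0, ha']; simp)
  obtain ⟨c2, v1, v2, v3⟩ := d4_change (lc (2 * h - 1) s low) a b hab (by rw [hb', ha']; simp)
  obtain ⟨c3, w1, w2, w3⟩ := d4_change (lc (2 * h - 1) s low) b (t1 - 1) (by omega)
    (by rw [ht1, hb']; simp)
  have x3 : lc (2 * h - 1) s low (t1 - 1) ≠ lc (2 * h - 1) s low t1 := by rw [ht1, hrun]; simp
  let C : Finset ℕ := {c1, c2, c3, t1}
  have hC : C.card = 4 := by
    have n1 : c1 ∉ ({c2, c3, t1} : Finset ℕ) := by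
      simp only [Finset.mem_insert, Finset.mem_singleton]; omega
    have n2 : c2 ∉ ({c3, t1} : Finset ℕ) := by
      simp only [Finset.mem_insert, Finset.mem_singleton]; omega
    have n3 : c3 ∉ ({t1} : Finset ℕ) := by
      simp only [Finset.mem_singleton]; omega
    change (insert c1 (insert c2 (insert c3 ({t1} : Finset ℕ)))).card = 4
    rw [Finset.card_insert_of_notMem n1, Finset.card_insert_of_notMem n2, Finset.card_insert_of_notMem n3,
      Finset.card_singleton]
  have hC' : 3 ≤ (C.erase (2 * h - 1 - s)).card := by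
    have := Finset.pred_card_le_card_erase (s := C) (a := 2 * h - 1 - s)
    omega
  have hmem : ∀ c ∈ C.erase (2 * h - 1 - s), 1 ≤ c ∧ c < 2 * h - 1 ∧ c ≠ 2 * h - 1 - s ∧
      lc (2 * h - 1) s low (c - 1) ≠ lc (2 * h - 1) s low c := by
    intro c hc
    rw [Finset.mem_erase] at hc
    obtain ⟨hc1, hc2⟩ := hc
    have : c = c1 ∨ c = c2 ∨ c = c3 ∨ c = t1 := by
      simpa [C] using hc2
    rcases this with rfl | rfl | rfl | rfl
    · exact ⟨by omega, by omega, hc1, u3⟩
    · exact ⟨by omega, by omega, hc1, v3⟩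
    · exact ⟨by omega, by omega, hc1, w3⟩
    · exact ⟨by omega, by omega, hc1, x3⟩
  calc 3 ≤ (C.erase (2 * h - 1 - s)).card := hC'
    _ = ((C.erase (2 * h - 1 - s)).image (ei (2 * h - 1) s)).card := by
      rw [Finset.card_image_of_injOn]
      intro c hc c' hc' hee
      have m1 := hmem c hc
      have m2 := hmem c' hc'
      have e1 := ti_ei hs m1.2.1
      have e2 := ti_ei hs m2.2.1
      rw [hee] at e1
      omega
    _ ≤ _ := by
      apply Finset.card_le_card
      intro j hj
      rw [Finset.mem_image] at hj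
      obtain ⟨c, hc, rfl⟩ := hj
      have m1 := hmem c hc
      have hT := d4_tj (low := low) hs m1.1 m1.2.1 m1.2.2.1 m1.2.2.2
      rw [Finset.mem_filter, Finset.mem_range]
      exact ⟨hT.2.1, hT⟩

end H92SA
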