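import Pool.Agent.Lib.H92SA.D2

namespace H92SA

variable {h s t1 x w : ℕ} {low : ℕ → Bool}

lemma d5_cl_all (n s : ℕ) (low : ℕ → Bool) (a : ℕ) (ha : ∀ t, t < a → lc n s low t = true) :
    cl n s low a = a := by
  induction a with
  | zero => simp [cl]
  | succ a ih =>
    rw [l2_cl_succ, ih (fun t ht => ha t (by omega)), if_pos (ha a (by omega))]

/-- `w + 1 ≤ x ≤ t1` -/
lemma d5_wt (D : DSet h s low t1 x w) : w + 1 ≤ x ∧ x ≤ t1 := by
  refine ⟨(dir_pos D).2.2.2.1, ?_⟩
  rw [D.F.hx]
  have h1 := al_le (2 * h - 1) s low t1 t1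
  unfold al at h1
  rwa [if_pos le_rfl] at h1

/-- the positions of the edges of the first run -/
lemma d5_run (D : DSet h s low t1 x w) {e : ℕ} (ht : ti (2 * h - 1) s e < w) :
    posL (2 * h - 1) s low t1 e = ti (2 * h - 1) s e + 1 := by
  have h1 := d5_wt D
  have h2 := D.wlow _ ht
  unfold posL posC al
  rw [if_pos (Or.inl h2), if_pos (by omega),
    d5_cl_all _ _ _ _ (fun t h3 => D.wlow t (by omega))]

/-- the edges outside the first run have positions greater than `w` -/
lemma d5_out (D : DSet h s low t1 x w) {e : ℕ} (he : e < 2 * h - 1)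
    (ht : w ≤ ti (2 * h - 1) s e) : w < posL (2 * h - 1) s low t1 e := by
  by_contra hc
  have hP := posL_isPos D.F
  have hs := D.F.hs
  have h1 := hP.range e he
  have hw := D.wn
  set p := posL (2 * h - 1) s low t1 e with hp
  -- the edge with the cyclic index p - 1
  have h2 : p - 1 < 2 * h - 1 := by omega
  have h3 := ti_ei (n := 2 * h - 1) hs h2
  have h4 : ei (2 * h - 1) s (p - 1) < 2 * h - 1 := by unfold ei; split_ifs <;> omega
  have h5 := d5_run D (e := ei (2 * h - 1) s (p - 1)) (by rw [h3]; omega)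
  rw [h3] at h5
  have h6 := hP.inj e _ he h4 (by rw [h5, ← hp]; omega)
  rw [h6, h3] at ht
  omega

lemma d5_posR_in {e : ℕ} (h1 : 1 ≤ ti (2 * h - 1) s e) (h2 : ti (2 * h - 1) s e < w) :
    posR (2 * h - 1) s low t1 w e = w + 1 - ti (2 * h - 1) s e := by
  unfold posR
  rw [if_pos ⟨h1, h2⟩]

lemma d5_posR_out {e : ℕ} (h1 : ¬ (1 ≤ ti (2 * h - 1) s e ∧ ti (2 * h - 1) s e < w)) :
    posR (2 * h - 1) s low t1 w e = posL (2 * h - 1) s low t1 e := by
  unfold posR
  rw [if_neg h1]

lemma d5_le_iff (D : DSet h s low t1 x w) (p : ℕ) (hp : w ≤ p) (e : ℕ) :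
    posR (2 * h - 1) s low t1 w e ≤ p ↔ posL (2 * h - 1) s low t1 e ≤ p := by
  by_cases hc : 1 ≤ ti (2 * h - 1) s e ∧ ti (2 * h - 1) s e < w
  · rw [d5_posR_in hc.1 hc.2, d5_run D hc.2]
    omega
  · rw [d5_posR_out hc]

/-- Chunk D5, first part: comparison of the direct and the reversed arrangement. For `p ≥ w` the
counts agree, so the ranks of all edges outside the first run agree. -/
theorem rev_counts (D : DSet h s low t1 x w) (p : ℕ) (hp : w ≤ p) :
    cE (2 * h - 1) (posR (2 * h - 1) s low t1 w) p =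
      cE (2 * h - 1) (posL (2 * h - 1) s low t1) p ∧
    cO (2 * h - 1) (posR (2 * h - 1) s low t1 w) p =
      cO (2 * h - 1) (posL (2 * h - 1) s low t1) p := by
  constructor
  · unfold cE
    simp only [d5_le_iff D p hp]
  · unfold cO
    simp only [d5_le_iff D p hp]

/-- rank of an edge outside the first run -/
lemma d5_rk_out (D : DSet h s low t1 x w) {e : ℕ} (he : e < 2 * h - 1)
    (ht : w ≤ ti (2 * h - 1) s e) :
    rk (2 * h - 1) (posR (2 * h - 1) s low t1 w) e =
      rk (2 * h - 1) (posL (2 * h - 1) s low t1) e := by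
  have h1 := d5_out D he ht
  have h2 := rev_counts D (posL (2 * h - 1) s low t1 e) h1.le
  unfold rk
  rw [d5_posR_out (by omega), h2.1, h2.2]

lemma d5_isPos (D : DSet h s low t1 x w) :
    IsPos (2 * h - 1) (posR (2 * h - 1) s low t1 w) := by
  have hP := posL_isPos D.F
  have hw := D.wn
  have hx := d5_wt D
  have hxh := D.F.xh
  constructor
  · intro e he
    by_cases hc : 1 ≤ ti (2 * h - 1) s e ∧ ti (2 * h - 1) s e < w
    · rw [d5_posR_in hc.1 hc.2]; omega
    · rw [d5_posR_out hc]; exact hP.range e he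
  · intro e e' he he' hee
    by_cases hc : 1 ≤ ti (2 * h - 1) s e ∧ ti (2 * h - 1) s e < w
    · by_cases hc' : 1 ≤ ti (2 * h - 1) s e' ∧ ti (2 * h - 1) s e' < w
      · rw [d5_posR_in hc.1 hc.2, d5_posR_in hc'.1 hc'.2] at hee
        exact ti_inj (s := s) he he' (by omega)
      · rw [d5_posR_in hc.1 hc.2, d5_posR_out hc'] at hee
        exfalso
        rcases Nat.lt_or_ge (ti (2 * h - 1) s e') w with h3 | h3
        · rw [d5_run D h3] at hee; omega
        · have := d5_out D he' h3; omega
    · by_cases hc' : 1 ≤ ti (2 * h - 1) s e' ∧ ti (2 * h - 1) s e' < w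
      · rw [d5_posR_in hc'.1 hc'.2, d5_posR_out hc] at hee
        exfalso
        rcases Nat.lt_or_ge (ti (2 * h - 1) s e) w with h3 | h3
        · rw [d5_run D h3] at hee; omega
        · have := d5_out D he h3; omega
      · rw [d5_posR_out hc, d5_posR_out hc'] at hee
        exact hP.inj e e' he he' hee

/-- number of edges of the parity of `s + 1` in the first run -/
lemma d5_cnt (n s w b : ℕ) (hs : s < n) (hw : w ≤ n - s) (hb : b = (s + 1) % 2) :
    ((Finset.range n).filter (fun e => e % 2 = b ∧ ti n s e < w)).card = w / 2 := by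
  conv_rhs => rw [← Finset.card_range (w / 2)]
  symm
  apply Finset.card_bij (fun i _ => s + 1 + 2 * i)
  · intro i hi
    simp only [Finset.mem_range] at hi
    simp only [Finset.mem_filter, Finset.mem_range]
    unfold ti
    split_ifs <;> omega
  · intro i hi i' hi' hii
    omega
  · intro e he
    simp only [Finset.mem_filter, Finset.mem_range] at he
    obtain ⟨he1, he2, he3⟩ := he
    unfold ti at he3
    split_ifs at he3 with h1
    · omega
    · refine ⟨(e - s - 1) / 2, ?_, ?_⟩
      · simp only [Finset.mem_range]; omega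
      · omega

/-- edges of parity `b` with position at most `p`, as ranks -/
def d5_c (n b : ℕ) (pos : ℕ → ℕ) (p : ℕ) : ℕ :=
  ((Finset.range n).filter (fun e => e % 2 = b ∧ pos e ≤ p)).card

lemma d5_rk_eq {n : ℕ} {pos : ℕ → ℕ} {e : ℕ} : rk n pos e = d5_c n (e % 2) pos (pos e) := by
  unfold rk d5_c
  rcases Nat.mod_two_eq_zero_or_one e with h0 | h0
  · rw [if_pos h0, h0]; rfl
  · rw [if_neg (by omega), h0]; rfl

/-- the joint at `s` -/
lemma d5_vst (D : DSet h s low t1 x w) (hh : 1 ≤ h) :
    h + w / 2 ≤ rk (2 * h - 1) (posR (2 * h - 1) s low t1 w) (s - 1) + x := by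
  classical
  have hP := posL_isPos D.F
  have hw := D.wn
  have hw2 := D.w2
  have hx := d5_wt D
  have hxh := D.F.xh
  have hs := D.F.hs
  have hs1 := D.s1
  have hFx := D.F.hx
  have hle := D.F.le
  have htm : ti (2 * h - 1) s (s - 1) = 2 * h - 2 := by unfold ti; split_ifs <;> omega
  have hsm : s - 1 < 2 * h - 1 := by omega
  rw [d5_rk_out D hsm (by rw [htm]; omega)]
  -- position of s - 1
  have hpos : posL (2 * h - 1) s low t1 (s - 1) = x + (2 * h - 1 - t1) := by
    unfold posL posC al
    rw [htm, if_pos (Or.inr (by omega)), ← hFx]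
    split_ifs with h1
    · have h2 : 2 * h - 2 = t1 := by omega
      rw [h2, ← hFx]; omega
    · omega
  rw [d5_rk_eq, hpos]
  -- lower bound
  have hlow : cge (2 * h - 1) s ((s - 1) % 2) t1 + w / 2 ≤
      d5_c (2 * h - 1) ((s - 1) % 2) (posL (2 * h - 1) s low t1) (x + (2 * h - 1 - t1)) := by
    rw [← d5_cnt (2 * h - 1) s w ((s - 1) % 2) hs hw (by omega)]
    unfold cge d5_c
    rw [← Finset.card_union_of_disjoint]
    · apply Finset.card_le_card
      intro e he
      simp only [Finset.mem_union, Finset.mem_filter, Finset.mem_range] at he ⊢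
      rcases he with ⟨h1, h2, h3⟩ | ⟨h1, h2, h3⟩
      · refine ⟨h1, h2, ?_⟩
        have h4 := ti_lt hs h1
        unfold posL posC al
        rw [if_pos (Or.inr h3), ← hFx]
        split_ifs with h5
        · have h6 : ti (2 * h - 1) s e = t1 := by omega
          rw [h6, ← hFx]; omega
        · omega
      · refine ⟨h1, h2, ?_⟩
        rw [d5_run D h3]; omega
    · rw [Finset.disjoint_left]
      intro e he he'
      simp only [Finset.mem_filter, Finset.mem_range] at he he'
      omega
  have hW := D.W t1 D.t1pos (by omega)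
  rw [← hFx] at hW
  have c0 := cge_zero (h := h) (s := s) hh hs t1 (by omega)
  have ca := cge_add (h := h) (s := s) hh hs t1 (by omega)
  rcases Nat.mod_two_eq_zero_or_one s with h0 | h0
  · have hb : (s - 1) % 2 = 1 := by omega
    rw [hb] at hlow ⊢
    rcases Nat.le_total t1 (2 * h - 1 - s) with h1 | h1
    · have := c0.1 h1; omega
    · rcases Nat.eq_or_lt_of_le h1 with h2 | h2
      · have := c0.1 (by omega); omega
      · have := c0.2 h2; omega
  · have hb : (s - 1) % 2 = 0 := by omega
    rw [hb] at hlow ⊢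
    rcases Nat.le_total t1 (2 * h - 1 - s) with h1 | h1
    · have := c0.1 h1; omega
    · rcases Nat.eq_or_lt_of_le h1 with h2 | h2
      · have := c0.1 (by omega); omega
      · have := c0.2 h2; omega

/-- a straight joint other than `s + 1`: both edges are inside the reversed part or both
are outside of it -/
lemma d5_split (D : DSet h s low t1 x w) {j : ℕ} (hj1 : 1 ≤ j) (hj2 : j < 2 * h - 1)
    (hjs : j ≠ s) (hjs1 : j ≠ s + 1) :
    2 ≤ ti (2 * h - 1) s j ∧ ti (2 * h - 1) s (j - 1) = ti (2 * h - 1) s j - 1 ∧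
    ((ti (2 * h - 1) s j = w ∧ low (j - 1) = true ∧ low j = false) ∨
      (ti (2 * h - 1) s j < w ∧ low (j - 1) = true ∧ low j = true) ∨
      w < ti (2 * h - 1) s j) := by
  have hs := D.F.hs
  obtain ⟨p1, p2, p3⟩ := ti_pred hs hj1 hj2 hjs
  have hw2 := D.w2
  have e1 := lc_ti low hs hj2
  have e2 := lc_ti low hs (show j - 1 < 2 * h - 1 by omega)
  have h2 : 2 ≤ ti (2 * h - 1) s j := by
    by_contra hc
    have h3 : ti (2 * h - 1) s j = 1 := by omega
    unfold ti at h3
    split_ifs at h3 <;> omega
  refine ⟨h2, p2, ?_⟩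
  rcases lt_trichotomy (ti (2 * h - 1) s j) w with h3 | h3 | h3
  · right; left
    refine ⟨h3, ?_, ?_⟩
    · rw [← e2]; exact D.wlow _ (by omega)
    · rw [← e1]; exact D.wlow _ h3
  · left
    refine ⟨h3, ?_, ?_⟩
    · rw [← e2]; exact D.wlow _ (by omega)
    · rcases D.wend with h4 | h4
      · omega
      · rw [← e1, h3]; exact h4
  · exact Or.inr (Or.inr h3)

/-- Chunk D5: the reversed arrangement: the positions of the edges with cyclic indices
`1, ..., w - 1` are reversed. The rank of `s + 1` (position `w`) is the number of edges of its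
parity among `s, ..., s + w - 1`, which is `w / 2`. The only turning joint touching the reversed
edges, other than `s`, is at the cyclic index `w` (if `w < n - s`): positions `2` and `n`.
`vst`: with `b = (s - 1) % 2`: (rank of `s - 1`) = (number of edges of parity `b`) - (number of high
edges before `t1` of parity `b`), and (high edges before `t1` of parity `b`) `+ w / 2 ≤` (all edges
before `t1` of parity `b`) `≤ (t1 + 1) / 2 ≤ x` for `b = 0` and `≤ t1 / 2 ≤ x - 1` for `b = 1`. -/
theorem rev_disp (D : DSet h s low t1 x w) (hh : 1 ≤ h) :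
    Disp h low s x w (w / 2) (posR (2 * h - 1) s low t1 w) := by
  classical
  have hP := posL_isPos D.F
  have hR := d5_isPos D
  have hw := D.wn
  have hw2 := D.w2
  have hx := d5_wt D
  have hxh := D.F.xh
  have hs := D.F.hs
  have hs1 := D.s1
  have hs2 := D.s2
  have hFx := D.F.hx
  have hle := D.F.le
  have ht0 : ti (2 * h - 1) s s = 0 := by unfold ti; split_ifs <;> omega
  have ht1 : ti (2 * h - 1) s (s + 1) = 1 := by unfold ti; split_ifs <;> omega
  have hd := dir_pos D
  have hps1 : posR (2 * h - 1) s low t1 w (s + 1) = w := by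
    rw [d5_posR_in (by omega) (by omega), ht1]; omega
  refine
    { isPos := hR
      g1 := hs1
      g2 := hs2
      lowg := D.lows
      lowg' := D.lows'
      lowg1 := D.lows1
      posg := ?_
      rkg1 := ?_
      q1 := by omega
      posg1 := by rw [hps1]; omega
      w2 := hw2
      wx := hx.1
      xh := by omega
      adj := ?_
      bdx := ?_
      bdw := ?_
      top := ?_
      vst := d5_vst D hh }
  · rw [d5_posR_out (by omega)]; exact hd.1
  · rw [d5_rk_eq, hps1, ← d5_cnt (2 * h - 1) s w ((s + 1) % 2) hs hw rfl]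
    unfold d5_c
    congr 1
    apply Finset.filter_congr
    intro e he
    simp only [Finset.mem_range] at he
    rw [d5_le_iff D w le_rfl]
    constructor
    · rintro ⟨h1, h2⟩
      refine ⟨h1, ?_⟩
      by_contra hc
      have := d5_out D he (by omega)
      omega
    · rintro ⟨h1, h2⟩
      refine ⟨h1, ?_⟩
      rw [d5_run D h2]; omega
  · intro j hj hjs1
    obtain ⟨hj1, hj2, hj3⟩ := hj
    have hjs : j ≠ s := by
      rintro rfl
      rw [D.lows, D.lows'] at hj3
      exact absurd hj3 (by simp)
    obtain ⟨q1, q2, q3⟩ := d5_split D hj1 hj2 hjs hjs1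
    rcases q3 with ⟨q4, q5, q6⟩ | ⟨q4, q5, q6⟩ | q4
    · rw [q5, q6] at hj3; exact absurd hj3 (by simp)
    · rw [d5_posR_in (e := j) (by omega) q4, d5_posR_in (e := j - 1) (by omega) (by omega), q2]
      omega
    · rw [d5_posR_out (e := j) (by omega), d5_posR_out (e := j - 1) (by omega)]
      exact posL_adj D.F j ⟨hj1, hj2, hj3⟩ hjs
  · intro j hj hjs1
    obtain ⟨hj1, hj2, hj3⟩ := hj
    have hjs : j ≠ s := by
      rintro rfl
      rw [D.lows, D.lows'] at hj3
      exact absurd hj3 (by simp)
    obtain ⟨q1, q2, q3⟩ := d5_split D hj1 hj2 hjs hjs1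
    rcases q3 with ⟨q4, q5, q6⟩ | ⟨q4, q5, q6⟩ | q4
    · rw [q5, q6] at hj3; exact absurd hj3 (by simp)
    · rw [d5_posR_in (e := j) (by omega) q4, d5_posR_in (e := j - 1) (by omega) (by omega), q2]
      omega
    · rw [d5_posR_out (e := j) (by omega), d5_posR_out (e := j - 1) (by omega)]
      exact hd.2.2.2.2.1 j ⟨hj1, hj2, hj3⟩ hjs1
  · intro j hj hjs1
    obtain ⟨hj1, hj2, hj3⟩ := hj
    have hjs : j ≠ s := by
      rintro rfl
      rw [D.lows, D.lows'] at hj3
      exact absurd hj3 (by simp)
    obtain ⟨q1, q2, q3⟩ := d5_split D hj1 hj2 hjs hjs1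
    rcases q3 with ⟨q4, q5, q6⟩ | ⟨q4, q5, q6⟩ | q4
    · rw [q5, q6] at hj3; exact absurd hj3 (by simp)
    · rw [d5_posR_in (e := j) (by omega) q4, d5_posR_in (e := j - 1) (by omega) (by omega), q2]
      omega
    · rw [d5_posR_out (e := j) (by omega), d5_posR_out (e := j - 1) (by omega)]
      exact hd.2.2.2.2.2 j ⟨hj1, hj2, hj3⟩ hjs1
  · intro j hj hjs
    obtain ⟨hj1, hj2, hj3⟩ := hj
    have hjs1 : j ≠ s + 1 := by
      rintro rfl
      rw [D.lows1, show s + 1 - 1 = s by omega, D.lows] at hj3
      exact absurd rfl hj3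
    obtain ⟨q1, q2, q3⟩ := d5_split D hj1 hj2 hjs hjs1
    rcases q3 with ⟨q4, q5, q6⟩ | ⟨q4, q5, q6⟩ | q4
    · -- the end of the first run
      have hpj : posR (2 * h - 1) s low t1 w j = 2 * h - 1 := by
        rw [d5_posR_out (by omega)]
        have e1 := lc_ti low hs hj2
        have hcl := d5_cl_all (2 * h - 1) s low w D.wlow
        unfold posL posC al
        rw [e1, q6, q4, hcl]
        rw [if_neg (by simp; omega), if_pos (by omega)]
        omega
      have hpj1 : posR (2 * h - 1) s low t1 w (j - 1) = 2 := by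
        rw [d5_posR_in (by omega) (by omega), q2, q4]
        omega
      have hjw : ti (2 * h - 1) s j = w := q4
      rcases Nat.mod_two_eq_zero_or_one j with h0 | h0
      · -- j even: top rank h
        left
        have r1 : rk (2 * h - 1) (posR (2 * h - 1) s low t1 w) j = h := by
          rw [rk_even h0, hpj, cE_top hR]; omega
        have r2 := rk_bound_odd hR (e := j - 1) (by omega) (by omega)
        omega
      · by_cases hps : j % 2 = s % 2
        · right; right
          exact ⟨hpj, hps⟩
        · left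
          have r1 : rk (2 * h - 1) (posR (2 * h - 1) s low t1 w) j = h - 1 := by
            rw [rk_odd h0, hpj, cO_top hR]; omega
          have r2 : rk (2 * h - 1) (posR (2 * h - 1) s low t1 w) s <
              rk (2 * h - 1) (posR (2 * h - 1) s low t1 w) (j - 1) := by
            apply rk_lt (by omega) (by omega)
            rw [hpj1, d5_posR_out (by omega), hd.1]
            omega
          have r3 := rk_bound_even hR (e := s) hs (by omega)
          omega
    · rw [q5, q6] at hj3; exact absurd rfl hj3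
    · rw [d5_rk_out D (e := j) hj2 (by omega), d5_rk_out D (e := j - 1) (by omega) (by omega)]
      rcases dir_top D hh with h1 | ⟨h1, _⟩
      · exact Or.inl (h1 j ⟨hj1, hj2, hj3⟩ hjs)
      · rcases h1 j ⟨hj1, hj2, hj3⟩ hjs with h2 | h2
        · exact Or.inl h2
        · right; right
          rw [d5_posR_out (e := j) (by omega)]
          exact h2

/-- Chunk D5: rank of edge 0 in both arrangements. -/
theorem rev_zero (D : DSet h s low t1 x w) (hh : 1 ≤ h) :
    rk (2 * h - 1) (posR (2 * h - 1) s low t1 w) 0 =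
      rk (2 * h - 1) (posL (2 * h - 1) s low t1) 0 := by
  apply d5_rk_out D (by omega)
  have h1 := D.s1
  have h2 := D.wn
  unfold ti
  rw [if_pos (by omega)]
  omega

end H92SA
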