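import Pool.Agent.Lib.H92SA.D1

namespace H92SA

variable {h s t1 x w : ℕ} {low : ℕ → Bool}

lemma d7_cl_all (n s : ℕ) (low : ℕ → Bool) (a : ℕ) (ha : ∀ t, t < a → lc n s low t = true) :
    cl n s low a = a := by
  induction a with
  | zero => simp [cl]
  | succ a ih =>
    rw [l2_cl_succ, ih (fun t ht => ha t (by omega)), if_pos (ha a (by omega))]

lemma d7_cl_mono (n s : ℕ) (low : ℕ → Bool) {t t' : ℕ} (htt : t ≤ t') :
    cl n s low t ≤ cl n s low t' := by
  induction t', htt using Nat.le_induction with
  | base => exact le_rfl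
  | succ t' _ ih =>
    rw [l2_cl_succ]
    omega

/-- the position of a low edge with cyclic index below `t1` -/
lemma d7_posL_low {n s t1 e : ℕ} {low : ℕ → Bool} (ht : ti n s e ≤ t1)
    (hl : lc n s low (ti n s e) = true) :
    posL n s low t1 e = cl n s low (ti n s e) + 1 := by
  unfold posL posC al
  rw [if_pos (Or.inl hl), if_pos ht]

/-- the position of a high edge with cyclic index below `t1` -/
lemma d7_posL_high {n s t1 e : ℕ} {low : ℕ → Bool} (ht : ti n s e < t1)
    (hl : lc n s low (ti n s e) = false) :
    posL n s low t1 e = n - (ti n s e - cl n s low (ti n s e)) := by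
  unfold posL posC al
  rw [if_neg, if_pos ht.le]
  rintro (h1 | h1)
  · rw [hl] at h1; exact absurd h1 (by simp)
  · omega

/-- Chunk D7: Let `a` be the first high cyclic index, it has the top position. A straight joint at
level `n` joins `a` and `a + 1`, both high. Then `2 * cl (a + 2) = 2 * a ≥ a + 3`, so `a ≥ 3`. If there is
no wrap up to `a`, the types alternate from `s` (even) to the top edge (even), so `a` is even,
`a ≥ 4`, and `x ≥ a + 1 ≥ 5` (`D.pat`). If `a = 3` the wrap is at `a` (the edges with the
cyclic index 2 and 3 are `n - 1` and `0`), or before (`n - s ≤ 2`, but then `s` even gives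
`n - s` odd, `n - s = 1`, against `D.s2`). So `n - s = 3`, `x ≥ 4`; if `x = 4`, the first three
low edges are `s, s + 1, s + 2` and the fourth low edge is even or `cE x = 2`: we must show that it is
even. Between the wrap and it all cyclic indices `3, ..., b - 1` are high and `b` is low, then
only high up to `t1`; the number of high edges before `b` is at most `2` by `D.W`, and it is
at least `2`; so `b = 5`, and it is the edge `2`. -/
theorem dir_th (D : DSet h s low t1 x w) (hh : 1 ≤ h) (hs : s % 2 = 0)
    (hj : ∃ j, SJ h low j ∧ j ≠ s + 1 ∧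
      max (posL (2 * h - 1) s low t1 (j - 1)) (posL (2 * h - 1) s low t1 j) = 2 * h - 1)
    (he : ∃ e, e < 2 * h - 1 ∧ e % 2 = 0 ∧ posL (2 * h - 1) s low t1 e = 2 * h - 1) :
    5 ≤ x ∨ x ≤ cE (2 * h - 1) (posL (2 * h - 1) s low t1) x + 1 := by
  classical
  obtain ⟨F, s1, s2, lows, lows', lows1, W, nc, t1pos, w2, wn, wlow, wend, a', b', hab, hbt, ha',
    hb'⟩ := D
  obtain ⟨j, ⟨hj1, hj2, hj3⟩, hjs, hjm⟩ := hj
  obtain ⟨e, he1, he2, he3⟩ := he
  have hP := posL_isPos F
  have hFs := F.hs
  have hFx := F.hx
  have hFxh := F.xh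
  have hFle := F.le
  have hrun := F.run t1 le_rfl (by omega)
  generalize hn : 2 * h - 1 = n at *
  obtain ⟨a, ha, hamin⟩ : ∃ a, lc n s low a = false ∧ ∀ t, t < a → lc n s low t = true := by
    have hex : ∃ a, lc n s low a = false := ⟨a', ha'⟩
    refine ⟨Nat.find hex, Nat.find_spec hex, ?_⟩
    intro t ht
    have := Nat.find_min hex ht
    simpa using this
  have haa' : a ≤ a' := by
    by_contra hc
    have := hamin a' (by omega)
    rw [ha'] at this
    exact absurd this (by simp)
  have hcla := d7_cl_all n s low a hamin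
  have hcla1 : cl n s low (a + 1) = a := by
    rw [l2_cl_succ, hcla, ha]; simp
  have hbn : b' < n := by omega
  have han : a < n := by omega
  have hx1 : a + 1 ≤ x := by
    have h1 := d7_cl_mono n s low (show b' + 1 ≤ t1 by omega)
    have h2 := d7_cl_mono n s low (show a + 1 ≤ b' by omega)
    have h3 := l2_cl_succ n s low b'
    rw [if_pos hb'] at h3
    omega
  -- edge ea at the index a has the top position
  have hea_lt : ei n s a < n := by unfold ei; split_ifs <;> omega
  have htea := ti_ei (n := n) hFs han
  have hpa : posL n s low t1 (ei n s a) = n := by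
    rw [d7_posL_high (by rw [htea]; omega) (by rw [htea]; exact ha), htea, hcla]
    omega
  have hee : e = ei n s a := hP.inj e _ he1 hea_lt (by rw [hpa, he3])
  have hjs' : j ≠ s := by
    intro hc
    rw [hc, lows, lows'] at hj3
    exact absurd hj3 (by simp)
  obtain ⟨p1, p2, p3⟩ := ti_pred hFs hj1 hj2 hjs'
  have e1 := lc_ti low hFs hj2
  have e2 := lc_ti low hFs (show j - 1 < n by omega)
  have ha1 : lc n s low (a + 1) = false := by
    rcases max_choice (posL n s low t1 (j - 1)) (posL n s low t1 j) with h1 | h1
    · rw [h1] at hjm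
      have h2 : j - 1 = ei n s a := hP.inj _ _ (by omega) hea_lt (by rw [hpa, hjm])
      have h3 : ti n s (j - 1) = a := by rw [h2, htea]
      have h4 : ti n s j = a + 1 := by omega
      rw [h4] at e1
      rw [e1, ← hj3, ← e2, h3, ha]
    · exfalso
      rw [h1] at hjm
      have h2 : j = ei n s a := hP.inj _ _ (by omega) hea_lt (by rw [hpa, hjm])
      have h3 : ti n s j = a := by rw [h2, htea]
      have h4 := hamin (ti n s (j - 1)) (by omega)
      rw [e2, hj3, ← e1, h3, ha] at h4
      exact absurd h4 (by simp)
  have hat1 : a + 1 ≠ t1 := by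
    intro hc
    rw [← hc, ha1] at hrun
    exact absurd hrun (by simp)
  have hcla2 : cl n s low (a + 2) = a := by
    rw [show a + 2 = (a + 1) + 1 by omega, l2_cl_succ, hcla1, ha1]; simp
  have ha3 : 3 ≤ a := by
    have := W (a + 2) (by omega) (by omega)
    omega
  by_cases hx5 : 5 ≤ x
  · exact Or.inl hx5
  right
  have ha33 : a = 3 := by omega
  have hx4 : x = 4 := by omega
  subst ha33
  -- n - s = 3
  have hns : n = s + 3 := by
    rw [hee] at he2
    unfold ei at he2
    split_ifs at he2 with h1
    · omega
    · omega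
  -- b' = 5
  have hb5 : b' = 5 := by
    have h1 := d7_cl_mono n s low (show b' + 1 ≤ t1 by omega)
    have h2 := d7_cl_mono n s low (show 3 + 1 ≤ b' by omega)
    have h3 := l2_cl_succ n s low b'
    rw [if_pos hb'] at h3
    have h4 := W b' (by omega) (by omega)
    have h5 : b' ≠ 4 := by
      intro hc
      rw [hc] at hb'
      rw [show (3 : ℕ) + 1 = 4 from rfl] at ha1
      rw [ha1] at hb'
      exact absurd hb' (by simp)
    omega
  subst hb5
  have hcl5 : cl n s low 5 = 3 := by
    have h0 := hcla2
    rw [show (3 : ℕ) + 2 = 5 from rfl] at h0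
    exact h0
  have ht0 : ti n s s = 0 := by unfold ti; split_ifs <;> omega
  have ht2 : ti n s (s + 2) = 2 := by unfold ti; split_ifs <;> omega
  have ht5 : ti n s 2 = 5 := by unfold ti; split_ifs <;> omega
  have q0 : posL n s low t1 s = 1 := by
    rw [d7_posL_low (by rw [ht0]; omega) (by rw [ht0]; exact hamin 0 (by omega)), ht0,
      d7_cl_all n s low 0 (by omega)]
  have q2 : posL n s low t1 (s + 2) = 3 := by
    rw [d7_posL_low (by rw [ht2]; omega) (by rw [ht2]; exact hamin 2 (by omega)), ht2,
      d7_cl_all n s low 2 (fun t ht => hamin t (by omega))]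
  have q5 : posL n s low t1 2 = 4 := by
    rw [d7_posL_low (by rw [ht5]; omega) (by rw [ht5]; exact hb'), ht5, hcl5]
  have hsub : ({s, s + 2, 2} : Finset ℕ) ⊆
      (Finset.range n).filter (fun e => e % 2 = 0 ∧ posL n s low t1 e ≤ x) := by
    intro e he
    simp only [Finset.mem_insert, Finset.mem_singleton] at he
    simp only [Finset.mem_filter, Finset.mem_range]
    rcases he with rfl | rfl | rfl
    · rw [q0]; omega
    · rw [q2]; omega
    · rw [q5]; omega
  have hcard := Finset.card_le_card hsub
  rw [Finset.card_insert_of_notMem (by simp; omega), Finset.card_insert_of_notMem (by simp; omega),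
    Finset.card_singleton] at hcard
  unfold cE
  omega

end H92SA
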