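import Pool.Agent.Lib.H92SA.V3

namespace H92SA

/-- Chunk V4: `CoreZ` for an even displaced edge with `s = w`, `r = x - 1`, `c ≥ x`: the value `w` is
not attained: at levels `p ≤ w` the sum is `p - 1` (`A ≤ w ≤ x - 1`), level `w + 1` does not occur, at
levels `≥ w + 2` the sum is at least `w + 1`, and the joint `g + 1` has the sum `x ≥ w + 1`. -/
theorem coreZ_even_w (h g x w c M : ℕ) (hh : 1 ≤ h) (low : ℕ → Bool) (pos : ℕ → ℕ)
    (D : Disp h low g x w 1 pos) (hg : g % 2 = 0) (hx : x ≤ c) (hK : c ≤ h + M + 1)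
    (hc : c + yf (rk (2 * h - 1) pos 0) c (x - 1) = h + M + 1 + w) : CoreZ h M low := by
  have hp := D.isPos
  obtain ⟨d1, d2, d3, d4, d5, d6, d7, d8⟩ := v1_disp h g x w 1 hh low pos D
  have d2' : cE (2 * h - 1) pos x + 1 ≤ x := by
    have : v1c (2 * h - 1) g pos x = cE (2 * h - 1) pos x := by
      unfold v1c
      rw [if_pos (by omega)]
    omega
  have hwx := D.wx
  have hw2 := D.w2
  have hxh := D.xh
  have hA : Allowed (cE (2 * h - 1) pos x) x 1 c (x - 1) :=
    ⟨by omega, Or.inl ⟨by omega, by omega, rfl⟩⟩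
  obtain ⟨a1, a2, a3, a4, a5, a6⟩ := fE_facts h g x w 1 c (x - 1) hh low pos D hg hA
  obtain ⟨key, kg⟩ := v3_key h g x w 1 c (x - 1) hh low pos D hg
  have hg1 := D.g1
  have v0 : fE h g c (x - 1) pos 0 = yf (rk (2 * h - 1) pos 0) c (x - 1) := by
    have : (0 : ℕ) ≠ g := by omega
    simp [fE, this]
  have hyf : ∀ y, (y ≤ min c (x - 1) ∧ yf y c (x - 1) = y - 1) ∨
      (min c (x - 1) < y ∧ y < max c (x - 1) ∧ yf y c (x - 1) = y) ∨
      (max c (x - 1) ≤ y ∧ yf y c (x - 1) = y + 1) := by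
    intro y
    unfold yf
    split_ifs <;> omega
  refine ⟨c, w, fE h g c (x - 1) pos, by omega, hK, by omega, by omega, ?_, a2, a3, ?_, a4, ?_⟩
  · intro e he h0
    have := a1 e he h0
    omega
  · intro j hj hs
    by_cases h1 : j = g + 1
    · rw [h1, kg] at hs
      omega
    · obtain ⟨p, -, p1, p2, p3, p4, p5, p6, p7⟩ := key j hj h1
      have f := hyf (cE (2 * h - 1) pos p)
      have s := cE_add_cO hp p1
      omega
  · intro j hj
    have := a6 j hj
    omega

/-- Chunk V4: the arithmetic of the choice of `(c, r)`. For `c` from `1` to `a1` take `r = x - q + 1`, for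
`c ≥ a1`, `c ≠ x - q` take `r = x - q`; the value `c + yf y c r` runs through all values except the
conflict value. (`omega` after unfolding and case distinctions; candidates: `c = t - y + 1`,
`t - y`, `t - y - 1`, and their neighbours.) -/
theorem sel (a1 x q y t : ℕ) (hq : 1 ≤ q) (ha1 : 1 ≤ a1) (hax : a1 + q ≤ x) (hy : 2 ≤ y)
    (ht : y + 2 ≤ t ∨ (y + q ≤ x ∧ y + 1 ≤ t))
    (hnc : ¬ ((y + 1 + q ≤ x ∧ t + 1 + q = x + y) ∨ (x + 1 ≤ y + q ∧ t + q = x + y + 1)) ∨
      x ≤ a1 + q) :
    ∃ c r, Allowed a1 x q c r ∧ c + yf y c r = t := by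
  obtain ⟨R, hR⟩ : ∃ R, x = R + q := ⟨x - q, by omega⟩
  subst hR
  -- the two kinds of candidates
  have A : ∀ c, 1 ≤ c → a1 ≤ c → c ≠ R →
      c + (y - 1 + (if min c R < y then 1 else 0) + (if max c R ≤ y then 1 else 0)) = t →
      ∃ c r, Allowed a1 (R + q) q c r ∧ c + yf y c r = t := by
    intro c h1 h2 h3 h4
    refine ⟨c, R, ⟨h1, Or.inl ⟨h2, by omega, by omega⟩⟩, ?_⟩
    unfold yf
    exact h4
  have B : ∀ c, 1 ≤ c → c ≤ a1 →
      c + (y - 1 + (if min c (R + 1) < y then 1 else 0) + (if max c (R + 1) ≤ y then 1 else 0)) = t →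
      ∃ c r, Allowed a1 (R + q) q c r ∧ c + yf y c r = t := by
    intro c h1 h2 h4
    refine ⟨c, R + 1, ⟨h1, Or.inr ⟨h2, by omega⟩⟩, ?_⟩
    unfold yf
    exact h4
  by_cases hyR : y ≤ R
  · by_cases ht2 : t + 1 ≤ 2 * y
    · by_cases hc : t - y ≤ a1
      · apply B (t - y) (by omega) hc
        split_ifs <;> omega
      · by_cases hyR2 : y = R
        · apply A (t - y - 1) (by omega) (by omega) (by omega)
          split_ifs <;> omega
        · apply A (t - y) (by omega) (by omega) (by omega)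
          split_ifs <;> omega
    · by_cases hc : t - y + 1 ≤ a1
      · apply B (t - y + 1) (by omega) hc
        split_ifs <;> omega
      · apply A (t - y + 1) (by omega) (by omega) (by omega)
        split_ifs <;> omega
  · by_cases hc : t - y - 1 ≤ a1
    · apply B (t - y - 1) (by omega) hc
      split_ifs <;> omega
    · by_cases hc2 : t - y - 1 ≤ y
      · apply A (t - y - 1) (by omega) (by omega) (by omega)
        split_ifs <;> omega
      · apply A (t - y) (by omega) (by omega) (by omega)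
        split_ifs <;> omega

end H92SA
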