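import Pool.Agent.Lib.H92SA.V0

namespace H92SA

private theorem v5_P_even {h c : ℕ} {pos : ℕ → ℕ} {e : ℕ} (he : e % 2 = 0) :
    fP h c pos e = if c ≤ rk (2 * h - 1) pos e then rk (2 * h - 1) pos e + 1
      else rk (2 * h - 1) pos e := by
  unfold fP
  rw [if_pos he]

private theorem v5_P_odd {h c : ℕ} {pos : ℕ → ℕ} {e : ℕ} (he : e % 2 = 1) :
    fP h c pos e = rk (2 * h - 1) pos e := by
  unfold fP
  rw [if_neg (by omega)]

private theorem v5_P_joint {h ε c : ℕ} {low : ℕ → Bool} {pos : ℕ → ℕ}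
    (P : Plain h ε low pos) {j : ℕ} (hj : SJ h low j) :
    2 ≤ max (pos (j - 1)) (pos j) ∧ max (pos (j - 1)) (pos j) ≤ 2 * h - 1 ∧
    cE (2 * h - 1) pos (max (pos (j - 1)) (pos j)) +
      cO (2 * h - 1) pos (max (pos (j - 1)) (pos j)) = max (pos (j - 1)) (pos j) ∧
    fP h c pos (j - 1) + fP h c pos j =
      (if c ≤ cE (2 * h - 1) pos (max (pos (j - 1)) (pos j)) then
        cE (2 * h - 1) pos (max (pos (j - 1)) (pos j)) + 1
      else cE (2 * h - 1) pos (max (pos (j - 1)) (pos j))) +
        cO (2 * h - 1) pos (max (pos (j - 1)) (pos j)) := by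
  have hj0 := hj
  obtain ⟨j1, j2, _⟩ := hj
  obtain ⟨h1, h2, h3⟩ := joint_vals P.isPos j1 j2 (P.adj j hj0)
  refine ⟨h1, h2, cE_add_cO P.isPos h2, ?_⟩
  rcases h3 with ⟨h4, h5, h6⟩ | ⟨h4, h5, h6⟩
  · rw [v5_P_odd (e := j - 1) (by omega), v5_P_even h4, h5, h6]
    split_ifs <;> omega
  · rw [v5_P_even (e := j - 1) (by omega), v5_P_odd h4, h5, h6]

/-- Chunk V5, plain case of `CoreB`: `τ = h - 1 - M + ε`, `c = τ - y` if this is `> y`, else
`c = τ - y - 1` (`y = rk 0`); `v = 2 * h + ε`, `e1 = h + 1`, `eN = h`, labels `fP`. -/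
theorem coreB_plain (h ε M : ℕ) (hh : 1 ≤ h) (low : ℕ → Bool) (pos : ℕ → ℕ)
    (P : Plain h ε low pos) (hy : rk (2 * h - 1) pos 0 + 3 + M ≤ h + ε) : CoreB h M low := by
  have hε : ε ≤ 1 := by
    rcases P.eps with h1 | ⟨h1, _⟩ <;> omega
  have hy1 := rk_bound_even P.isPos (e := 0) (by omega) (by norm_num)
  obtain ⟨c, hc1, hc⟩ : ∃ c, 1 ≤ c ∧
      (c + fP h c pos 0 + M + 1 = h + ε) := by
    by_cases h1 : rk (2 * h - 1) pos 0 + rk (2 * h - 1) pos 0 + M + 1 < h + ε
    · refine ⟨h + ε - M - 1 - rk (2 * h - 1) pos 0, by omega, ?_⟩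
      rw [v5_P_even (by norm_num), if_neg (by omega)]
      omega
    · refine ⟨h + ε - M - 2 - rk (2 * h - 1) pos 0, by omega, ?_⟩
      rw [v5_P_even (by norm_num), if_pos (by omega)]
      omega
  have hEv : ∀ e, e < 2 * h - 1 → e % 2 = 0 → 1 ≤ fP h c pos e ∧ fP h c pos e ≤ h + 1 ∧
      fP h c pos e ≠ c := by
    intro e he h0
    have h1 := rk_bound_even P.isPos he h0
    rw [v5_P_even h0]
    split_ifs <;> omega
  have hOd : ∀ e, e < 2 * h - 1 → e % 2 = 1 → 1 ≤ fP h c pos e ∧ fP h c pos e ≤ h - 1 := by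
    intro e he h0
    have h1 := rk_bound_odd P.isPos he h0
    rw [v5_P_odd h0]
    omega
  have hTJ : ∀ j, TJ h low j → h - 1 + ε ≤ fP h c pos (j - 1) + fP h c pos j := by
    intro j hj
    have h1 := P.top j hj
    obtain ⟨j1, j2, _⟩ := hj
    have h2 : ∀ e, rk (2 * h - 1) pos e ≤ fP h c pos e := by
      intro e
      unfold fP
      split_ifs <;> omega
    have h3 := h2 (j - 1)
    have h4 := h2 j
    omega
  have hSJ : ∀ j, SJ h low j → fP h c pos (j - 1) + fP h c pos j ≤ 2 * h ∧
      (ε = 0 → fP h c pos (j - 1) + fP h c pos j ≤ 2 * h - 1) := by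
    intro j hj
    obtain ⟨h1, h2, h3, h4⟩ := v5_P_joint (c := c) P hj
    rw [h4]
    refine ⟨by split_ifs <;> omega, ?_⟩
    intro hε0
    rcases P.eps with h5 | ⟨_, h5⟩
    · omega
    · have h6 := h5 j hj
      split_ifs <;> omega
  refine ⟨c, 2 * h + ε, h + 1, h, fP h c pos, hc1, ?_, by omega, by omega, by omega, by omega,
    by omega, by omega, hEv, ?_, ?_, ?_, ?_, ?_, by omega, by omega⟩
  · have := hEv 0 (by omega) (by norm_num)
    omega
  · intro e he h0
    have := hOd e he h0
    omega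
  · intro e e' he he' hpar hff
    refine rk_inj P.isPos he he' hpar ?_
    rcases Nat.mod_two_eq_zero_or_one e with h0 | h0
    · rw [v5_P_even h0, v5_P_even (by omega)] at hff
      split_ifs at hff <;> omega
    · rw [v5_P_odd h0, v5_P_odd (by omega)] at hff
      exact hff
  · intro j hj
    have h1 := hSJ j hj
    omega
  · intro j j' hj hj' hff
    obtain ⟨h1, h2, h3, h4⟩ := v5_P_joint (c := c) P hj
    obtain ⟨h1', h2', h3', h4'⟩ := v5_P_joint (c := c) P hj'
    rw [h4, h4'] at hff
    refine level_inj P.isPos hj.1 hj.2.1 hj'.1 hj'.2.1 (P.adj j hj) (P.adj j' hj') ?_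
    rcases Nat.lt_trichotomy (max (pos (j - 1)) (pos j)) (max (pos (j' - 1)) (pos j')) with
      hlt | heq | hgt
    · obtain ⟨a1, a2, _, _⟩ := level_cmp P.isPos hlt.le h2'
      split_ifs at hff <;> omega
    · exact heq
    · obtain ⟨a1, a2, _, _⟩ := level_cmp P.isPos hgt.le h2
      split_ifs at hff <;> omega
  · rcases Nat.lt_or_ge 0 ε with h1 | h1
    · left
      refine ⟨?_, by omega, ?_⟩
      · intro j hj
        have := hTJ j hj
        omega
      · intro j hj
        have := hSJ j hj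
        omega
    · right
      refine ⟨?_, by omega, ?_⟩
      · intro j hj
        have := hTJ j hj
        omega
      · intro j hj
        have := hSJ j hj
        omega

private theorem v5_D_even {h g c r : ℕ} {pos : ℕ → ℕ} {e : ℕ} (hg : g % 2 = 1) (he : e % 2 = 0) :
    fD h g c r pos e = if c ≤ rk (2 * h - 1) pos e then rk (2 * h - 1) pos e + 1
      else rk (2 * h - 1) pos e := by
  unfold fD
  rw [if_neg (by omega), if_pos he]

private theorem v5_D_odd {h g c r : ℕ} {pos : ℕ → ℕ} {e : ℕ} (he : e % 2 = 1) (hne : e ≠ g) :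
    fD h g c r pos e = if rk (2 * h - 1) pos e ≤ r then rk (2 * h - 1) pos e - 1
      else rk (2 * h - 1) pos e := by
  unfold fD
  rw [if_neg hne, if_neg (by omega)]

private theorem v5_D_g {h g c r : ℕ} {pos : ℕ → ℕ} : fD h g c r pos g = r := by
  unfold fD
  rw [if_pos rfl]

/-- the condition on `r` -/
private def V5R (a1 x c r : ℕ) : Prop :=
  (1 < c ∧ c ≤ a1 ∧ r = x) ∨ ((c = 1 ∨ a1 < c) ∧ r = x - 1)

private theorem v5_rkg {h : ℕ} {low : ℕ → Bool} {g x w : ℕ} {pos : ℕ → ℕ}
    (D : Disp h low g x w 1 pos) (hg : g % 2 = 1) : rk (2 * h - 1) pos g = 1 := by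
  have g2 := D.g2
  have h1 := rk_bound_odd D.isPos (e := g) (by omega) hg
  have h2 := rk_le_pos D.isPos (e := g) (by omega)
  rw [D.posg] at h2
  omega

private theorem v5_rk2 {h : ℕ} {low : ℕ → Bool} {g x w : ℕ} {pos : ℕ → ℕ}
    (D : Disp h low g x w 1 pos) (hg : g % 2 = 1) {e : ℕ} (he : e < 2 * h - 1) (h0 : e % 2 = 1)
    (hne : e ≠ g) : 2 ≤ rk (2 * h - 1) pos e := by
  have g2 := D.g2
  have h1 := rk_bound_odd D.isPos he h0
  by_contra hcon
  exact hne (rk_inj D.isPos he (by omega) (by omega) (by rw [v5_rkg D hg]; omega))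

private theorem v5_x {h : ℕ} {low : ℕ → Bool} {g x w : ℕ} {pos : ℕ → ℕ}
    (D : Disp h low g x w 1 pos) (hg : g % 2 = 1) :
    1 ≤ cE (2 * h - 1) pos x ∧ 1 ≤ cO (2 * h - 1) pos x ∧
      cE (2 * h - 1) pos x + cO (2 * h - 1) pos x = x := by
  have g2 := D.g2
  have xh := D.xh
  have wx := D.wx
  have h1 := cE_lt (pos := pos) (p := 0) (e := g + 1) (n := 2 * h - 1) (by omega) (by omega)
    (by have := (D.isPos.range (g + 1) (by omega)).1; omega)
  have h2 := cE_mono (n := 2 * h - 1) (pos := pos) D.posg1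
  have h3 := cO_lt (pos := pos) (p := 0) (e := g) (n := 2 * h - 1) (by omega) hg
    (by rw [D.posg]; omega)
  rw [D.posg] at h3
  have h4 := cO_mono (n := 2 * h - 1) (pos := pos) (p := 1) (p' := x) (by omega)
  exact ⟨by omega, by omega, cE_add_cO D.isPos (by omega)⟩

private theorem v5_D_joint {h : ℕ} {low : ℕ → Bool} {g x w : ℕ} {pos : ℕ → ℕ}
    (D : Disp h low g x w 1 pos) (hg : g % 2 = 1) (c r : ℕ) {j : ℕ} (hj : SJ h low j)
    (hne : j ≠ g + 1) :
    2 ≤ max (pos (j - 1)) (pos j) ∧ max (pos (j - 1)) (pos j) ≤ 2 * h - 1 ∧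
    max (pos (j - 1)) (pos j) ≠ x + 1 ∧
    2 ≤ cO (2 * h - 1) pos (max (pos (j - 1)) (pos j)) ∧
    cE (2 * h - 1) pos (max (pos (j - 1)) (pos j)) +
      cO (2 * h - 1) pos (max (pos (j - 1)) (pos j)) = max (pos (j - 1)) (pos j) ∧
    (max (pos (j - 1)) (pos j) ≤ x →
      cE (2 * h - 1) pos (max (pos (j - 1)) (pos j)) ≤ cE (2 * h - 1) pos x ∧
      cO (2 * h - 1) pos (max (pos (j - 1)) (pos j)) ≤ cO (2 * h - 1) pos x) ∧
    (x ≤ max (pos (j - 1)) (pos j) →
      cE (2 * h - 1) pos x ≤ cE (2 * h - 1) pos (max (pos (j - 1)) (pos j)) ∧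
      cO (2 * h - 1) pos x ≤ cO (2 * h - 1) pos (max (pos (j - 1)) (pos j))) ∧
    fD h g c r pos (j - 1) + fD h g c r pos j =
      (if c ≤ cE (2 * h - 1) pos (max (pos (j - 1)) (pos j)) then
        cE (2 * h - 1) pos (max (pos (j - 1)) (pos j)) + 1
      else cE (2 * h - 1) pos (max (pos (j - 1)) (pos j))) +
        (if cO (2 * h - 1) pos (max (pos (j - 1)) (pos j)) ≤ r then
          cO (2 * h - 1) pos (max (pos (j - 1)) (pos j)) - 1
        else cO (2 * h - 1) pos (max (pos (j - 1)) (pos j))) := by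
  have hjg : j ≠ g := by
    rintro rfl
    have h1 := hj.2.2
    rw [D.lowg, D.lowg'] at h1
    cases h1
  have hj0 := hj
  obtain ⟨j1, j2, _⟩ := hj
  obtain ⟨h1, h2, h3⟩ := joint_vals D.isPos j1 j2 (D.adj j hj0 hne)
  refine ⟨h1, h2, D.bdx j hj0 hne, ?_, cE_add_cO D.isPos h2,
    fun h => ⟨cE_mono h, cO_mono h⟩, fun h => ⟨cE_mono h, cO_mono h⟩, ?_⟩
  · rcases h3 with ⟨h4, h5, h6⟩ | ⟨h4, h5, h6⟩
    · rw [← h6]
      exact v5_rk2 D hg (by omega) (by omega) (by omega)
    · rw [← h5]
      exact v5_rk2 D hg (by omega) (by omega) (by omega)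
  · rcases h3 with ⟨h4, h5, h6⟩ | ⟨h4, h5, h6⟩
    · rw [v5_D_odd (e := j - 1) (by omega) (by omega), v5_D_even hg h4, h5, h6, Nat.add_comm]
    · rw [v5_D_even (e := j - 1) hg (by omega), v5_D_odd h4 hjg, h5, h6]

private theorem v5_D_g1 {h : ℕ} {low : ℕ → Bool} {g x w : ℕ} {pos : ℕ → ℕ}
    (D : Disp h low g x w 1 pos) (hg : g % 2 = 1) (c r : ℕ) (hc : 1 ≤ c) :
    fD h g c r pos (g + 1 - 1) + fD h g c r pos (g + 1) = r + (if c = 1 then 2 else 1) := by
  rw [Nat.add_sub_cancel, v5_D_g, v5_D_even hg (by omega), D.rkg1]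
  split_ifs <;> omega

private theorem v5_D_all {h : ℕ} (hh : 1 ≤ h) {low : ℕ → Bool} {g x w : ℕ} {pos : ℕ → ℕ}
    (D : Disp h low g x w 1 pos) (hg : g % 2 = 1) {c r : ℕ} (hc : 1 ≤ c)
    (hr : V5R (cE (2 * h - 1) pos x) x c r) :
    (∀ e, e < 2 * h - 1 → e % 2 = 0 → 1 ≤ fD h g c r pos e ∧ fD h g c r pos e ≤ h + 1 ∧
      fD h g c r pos e ≠ c) ∧
    (∀ e, e < 2 * h - 1 → e % 2 = 1 → 1 ≤ fD h g c r pos e ∧ fD h g c r pos e ≤ h - 1) ∧
    (∀ e e', e < 2 * h - 1 → e' < 2 * h - 1 → e % 2 = e' % 2 →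
      fD h g c r pos e = fD h g c r pos e' → e = e') ∧
    (∀ j j', SJ h low j → SJ h low j' →
      fD h g c r pos (j - 1) + fD h g c r pos j = fD h g c r pos (j' - 1) + fD h g c r pos j' →
      j = j') ∧
    (∀ j, SJ h low j → fD h g c r pos (j - 1) + fD h g c r pos j ≤ 2 * h ∧
      ((∀ j, SJ h low j → j ≠ g + 1 → max (pos (j - 1)) (pos j) ≠ 2 * h - 1) →
        fD h g c r pos (j - 1) + fD h g c r pos j ≤ 2 * h - 1)) ∧
    (∀ j, TJ h low j → (j = g ∨ h + 1 ≤ rk (2 * h - 1) pos (j - 1) + rk (2 * h - 1) pos j) →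
      h ≤ fD h g c r pos (j - 1) + fD h g c r pos j) ∧
    (∀ j, TJ h low j → h ≤ fD h g c r pos (j - 1) + fD h g c r pos j + 1) ∧
    (c = 1 → ∀ j, TJ h low j → h ≤ fD h g c r pos (j - 1) + fD h g c r pos j) := by
  have hp := D.isPos
  have g1 := D.g1
  have g2 := D.g2
  have xh := D.xh
  have wx := D.wx
  have w2 := D.w2
  obtain ⟨x1, x2, x3⟩ := v5_x D hg
  unfold V5R at hr
  have hgl : ∀ j, TJ h low j → j ≠ g + 1 := by
    rintro j hj rfl
    have h1 := hj.2.2
    rw [Nat.add_sub_cancel, D.lowg, D.lowg1] at h1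
    exact h1 rfl
  have hvg : h ≤ fD h g c r pos (g - 1) + fD h g c r pos g ∧
      (c = 1 → h ≤ fD h g c r pos (g - 1) + fD h g c r pos g) := by
    have h1 := D.vst
    rw [v5_D_g, v5_D_even hg (by omega)]
    constructor
    · split_ifs <;> omega
    · intro _
      split_ifs <;> omega
  refine ⟨?_, ?_, ?_, ?_, ?_, ?_, ?_, ?_⟩
  · intro e he h0
    have h1 := rk_bound_even hp he h0
    rw [v5_D_even hg h0]
    split_ifs <;> omega
  · intro e he h0
    by_cases heg : e = g
    · subst heg
      rw [v5_D_g]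
      omega
    · have h1 := rk_bound_odd hp he h0
      have h2 := v5_rk2 D hg he h0 heg
      rw [v5_D_odd h0 heg]
      split_ifs <;> omega
  · intro e e' he he' hpar hff
    rcases Nat.mod_two_eq_zero_or_one e with h0 | h0
    · refine rk_inj hp he he' hpar ?_
      rw [v5_D_even hg h0, v5_D_even hg (by omega)] at hff
      split_ifs at hff <;> omega
    · by_cases heg : e = g
      · by_cases heg' : e' = g
        · omega
        · exfalso
          subst heg
          have h2 := v5_rk2 D hg he' (by omega) heg'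
          rw [v5_D_g, v5_D_odd (by omega) heg'] at hff
          split_ifs at hff <;> omega
      · by_cases heg' : e' = g
        · exfalso
          subst heg'
          have h2 := v5_rk2 D hg he h0 heg
          rw [v5_D_g, v5_D_odd h0 heg] at hff
          split_ifs at hff <;> omega
        · refine rk_inj hp he he' hpar ?_
          have h2 := v5_rk2 D hg he h0 heg
          have h3 := v5_rk2 D hg he' (by omega) heg'
          rw [v5_D_odd h0 heg, v5_D_odd (by omega) heg'] at hff
          split_ifs at hff <;> omega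
  · have key : ∀ j, SJ h low j → j ≠ g + 1 →
        fD h g c r pos (j - 1) + fD h g c r pos j ≠
          fD h g c r pos (g + 1 - 1) + fD h g c r pos (g + 1) := by
      intro j hj hne
      obtain ⟨a1, a2, a3, a4, a5, a6, a7, a8⟩ := v5_D_joint D hg c r hj hne
      rw [a8, v5_D_g1 D hg c r hc]
      rcases Nat.lt_or_ge x (max (pos (j - 1)) (pos j)) with hx | hx
      · have h1 := a7 hx.le
        split_ifs <;> omega
      · have h1 := a6 hx
        split_ifs <;> omega
    intro j j' hj hj' hff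
    by_cases hne : j = g + 1
    · by_cases hne' : j' = g + 1
      · omega
      · exfalso
        subst hne
        exact key j' hj' hne' hff.symm
    · by_cases hne' : j' = g + 1
      · exfalso
        subst hne'
        exact key j hj hne hff
      · obtain ⟨a1, a2, a3, a4, a5, a6, a7, a8⟩ := v5_D_joint D hg c r hj hne
        obtain ⟨b1, b2, b3, b4, b5, b6, b7, b8⟩ := v5_D_joint D hg c r hj' hne'
        rw [a8, b8] at hff
        refine level_inj hp hj.1 hj.2.1 hj'.1 hj'.2.1 (D.adj j hj hne) (D.adj j' hj' hne') ?_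
        rcases Nat.lt_trichotomy (max (pos (j - 1)) (pos j)) (max (pos (j' - 1)) (pos j')) with
          hlt | heq | hgt
        · obtain ⟨c1, c2, _, _⟩ := level_cmp hp hlt.le b2
          split_ifs at hff <;> omega
        · exact heq
        · obtain ⟨c1, c2, _, _⟩ := level_cmp hp hgt.le a2
          split_ifs at hff <;> omega
  · intro j hj
    by_cases hne : j = g + 1
    · subst hne
      rw [v5_D_g1 D hg c r hc]
      constructor
      · split_ifs <;> omega
      · intro _
        split_ifs <;> omega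
    · obtain ⟨a1, a2, a3, a4, a5, a6, a7, a8⟩ := v5_D_joint D hg c r hj hne
      rw [a8]
      constructor
      · split_ifs <;> omega
      · intro hn
        have h1 := hn j hj hne
        split_ifs <;> omega
  · intro j hj hor
    by_cases hjg : j = g
    · subst hjg
      exact hvg.1
    · have h1 : h + 1 ≤ rk (2 * h - 1) pos (j - 1) + rk (2 * h - 1) pos j := by
        rcases hor with hor | hor
        · exact absurd hor hjg
        · exact hor
      have hj1 := hgl j hj
      obtain ⟨j1, j2, _⟩ := hj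
      rcases Nat.mod_two_eq_zero_or_one j with h0 | h0
      · rw [v5_D_odd (e := j - 1) (by omega) (by omega), v5_D_even hg h0]
        split_ifs <;> omega
      · rw [v5_D_even (e := j - 1) hg (by omega), v5_D_odd h0 hjg]
        split_ifs <;> omega
  · intro j hj
    by_cases hjg : j = g
    · subst hjg
      omega
    · have h1 := D.top j hj hjg
      have hj1 := hgl j hj
      obtain ⟨j1, j2, _⟩ := hj
      have t1 := cO_top hp
      rcases Nat.mod_two_eq_zero_or_one j with h0 | h0
      · have e1 := rk_bound_even hp j2 h0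
        have e2 : pos (j - 1) = 2 * h - 1 → rk (2 * h - 1) pos (j - 1) = h - 1 := by
          intro h3
          rw [rk_odd (by omega), h3, t1]
          omega
        rw [v5_D_odd (e := j - 1) (by omega) (by omega), v5_D_even hg h0]
        split_ifs <;> omega
      · have e1 := rk_bound_even hp (e := j - 1) (by omega) (by omega)
        have e2 : pos j = 2 * h - 1 → rk (2 * h - 1) pos j = h - 1 := by
          intro h3
          rw [rk_odd h0, h3, t1]
          omega
        rw [v5_D_even (e := j - 1) hg (by omega), v5_D_odd h0 hjg]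
        split_ifs <;> omega
  · intro hc1 j hj
    by_cases hjg : j = g
    · subst hjg
      exact hvg.1
    · have h1 := D.top j hj hjg
      have hj1 := hgl j hj
      obtain ⟨j1, j2, _⟩ := hj
      have t1 := cO_top hp
      rcases Nat.mod_two_eq_zero_or_one j with h0 | h0
      · have e1 := rk_bound_even hp j2 h0
        have e2 : pos (j - 1) = 2 * h - 1 → rk (2 * h - 1) pos (j - 1) = h - 1 := by
          intro h3
          rw [rk_odd (by omega), h3, t1]
          omega
        rw [v5_D_odd (e := j - 1) (by omega) (by omega), v5_D_even hg h0]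
        split_ifs <;> omega
      · have e1 := rk_bound_even hp (e := j - 1) (by omega) (by omega)
        have e2 : pos j = 2 * h - 1 → rk (2 * h - 1) pos j = h - 1 := by
          intro h3
          rw [rk_odd h0, h3, t1]
          omega
        rw [v5_D_even (e := j - 1) hg (by omega), v5_D_odd h0 hjg]
        split_ifs <;> omega

private theorem v5_r (a1 x c : ℕ) (hc : 1 ≤ c) : ∃ r, V5R a1 x c r := by
  unfold V5R
  by_cases h : 1 < c ∧ c ≤ a1
  · exact ⟨x, Or.inl ⟨h.1, h.2, rfl⟩⟩
  · exact ⟨x - 1, Or.inr ⟨by omega, rfl⟩⟩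

/-- Chunk V5, odd displaced edge. Labels `fD`, `r` as in `coreZ_odd`, `e1 = h + 1`, `eN = h`. Let
`τ = h - M`, `y = rk 0 ≤ τ - 2`. If the first alternative of `X.tt` holds: `v = 2 * h + 1`, `c = τ - y`
or `τ - y - 1`. Otherwise there is no straight joint at level `n`: if `y = τ - 2` take `c = 1`,
`v = 2 * h + 1` (then `r = x - 1 < h - 1`, and at a turning joint with a top edge the other edge has
label at least 2); else `v = 2 * h`, `c = τ - 1 - y` or `τ - 2 - y`. -/
theorem coreB_odd (h g x w M : ℕ) (hh : 1 ≤ h) (low : ℕ → Bool) (pos : ℕ → ℕ)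
    (D : Disp h low g x w 1 pos) (X : DispX h low g x w pos) (hg : g % 2 = 1)
    (hy : rk (2 * h - 1) pos 0 + 2 + M ≤ h) : CoreB h M low := by
  have hy1 := rk_bound_even D.isPos (e := 0) (by omega) (by norm_num)
  -- solving for `c`
  have solve : ∀ t, rk (2 * h - 1) pos 0 + 2 ≤ t → ∃ c r, 1 ≤ c ∧
      V5R (cE (2 * h - 1) pos x) x c r ∧ c + fD h g c r pos 0 = t := by
    intro t ht
    by_cases h1 : rk (2 * h - 1) pos 0 + rk (2 * h - 1) pos 0 < t
    · obtain ⟨r, hr⟩ := v5_r (cE (2 * h - 1) pos x) x (t - rk (2 * h - 1) pos 0)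
        (by omega)
      refine ⟨t - rk (2 * h - 1) pos 0, r, by omega, hr, ?_⟩
      rw [v5_D_even hg (by norm_num), if_neg (by omega)]
      omega
    · obtain ⟨r, hr⟩ := v5_r (cE (2 * h - 1) pos x) x (t - 1 - rk (2 * h - 1) pos 0)
        (by omega)
      refine ⟨t - 1 - rk (2 * h - 1) pos 0, r, by omega, hr, ?_⟩
      rw [v5_D_even hg (by norm_num), if_pos (by omega)]
      omega
  rcases X.tt with htt | htt
  · obtain ⟨c, r, hc, hr, hcr⟩ := solve (h - M) (by omega)
    obtain ⟨f1, f2, f3, f4, f5, f6, f7, _⟩ := v5_D_all hh D hg hc hr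
    have f0 := f1 0 (by omega) (by norm_num)
    refine ⟨c, 2 * h + 1, h + 1, h, fD h g c r pos, hc, by omega, by omega, by omega, by omega,
      by omega, by omega, by omega, f1, ?_, f3, ?_, f4, ?_, by omega, by omega⟩
    · intro e he h0
      have := f2 e he h0
      omega
    · intro j hj
      have := f5 j hj
      omega
    · left
      refine ⟨?_, by omega, ?_⟩
      · intro j hj
        refine f6 j hj ?_
        by_cases hjg : j = g
        · exact Or.inl hjg
        · exact Or.inr (htt j hj hjg)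
      · intro j hj
        have := f5 j hj
        omega
  · by_cases hlt : rk (2 * h - 1) pos 0 + 3 + M ≤ h
    · obtain ⟨c, r, hc, hr, hcr⟩ := solve (h - M - 1) (by omega)
      obtain ⟨f1, f2, f3, f4, f5, f6, f7, _⟩ := v5_D_all hh D hg hc hr
      have f0 := f1 0 (by omega) (by norm_num)
      refine ⟨c, 2 * h, h + 1, h, fD h g c r pos, hc, by omega, by omega, by omega, by omega,
        by omega, by omega, by omega, f1, ?_, f3, ?_, f4, ?_, by omega, by omega⟩
      · intro e he h0
        have := f2 e he h0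
        omega
      · intro j hj
        have := (f5 j hj).2 htt
        omega
      · right
        refine ⟨f7, le_refl _, ?_⟩
        intro j hj
        have := (f5 j hj).1
        omega
    · obtain ⟨r, hr⟩ := v5_r (cE (2 * h - 1) pos x) x 1 (le_refl 1)
      obtain ⟨f1, f2, f3, f4, f5, f6, f7, f8⟩ := v5_D_all hh D hg (le_refl 1) hr
      have f0 : fD h g 1 r pos 0 = rk (2 * h - 1) pos 0 + 1 := by
        rw [v5_D_even hg (by norm_num), if_pos (by omega)]
      refine ⟨1, 2 * h + 1, h + 1, h, fD h g 1 r pos, le_refl _, by omega, by omega, by omega,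
        by omega, by omega, by omega, by omega, f1, ?_, f3, ?_, f4, ?_, by omega, by omega⟩
      · intro e he h0
        have := f2 e he h0
        omega
      · intro j hj
        have := f5 j hj
        omega
      · left
        refine ⟨f8 rfl, by omega, ?_⟩
        intro j hj
        have := f5 j hj
        omega

end H92SA
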