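import Pool.Agent.Lib.H92SA.V3

namespace H92SA

private theorem v6_L_even {h g c r : ℕ} {pos : ℕ → ℕ} {e : ℕ} (he : e % 2 = 0) (hne : e ≠ g) :
    fL h g c r pos e = yf (rk (2 * h - 1) pos e) c r := by
  unfold fL
  rw [if_neg hne, if_pos he]

private theorem v6_L_odd {h g c r : ℕ} {pos : ℕ → ℕ} {e : ℕ} (hg : g % 2 = 0) (he : e % 2 = 1) :
    fL h g c r pos e = if h - 1 ≤ rk (2 * h - 1) pos e then rk (2 * h - 1) pos e + 1
      else rk (2 * h - 1) pos e := by
  unfold fL
  rw [if_neg (by omega), if_neg (by omega)]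

private theorem v6_L_g {h g c r : ℕ} {pos : ℕ → ℕ} : fL h g c r pos g = r := by
  unfold fL
  rw [if_pos rfl]

private theorem v6_E_even {h g c r : ℕ} {pos : ℕ → ℕ} {e : ℕ} (he : e % 2 = 0) (hne : e ≠ g) :
    fE h g c r pos e = yf (rk (2 * h - 1) pos e) c r := by
  unfold fE
  rw [if_neg hne, if_pos he]

private theorem v6_E_odd {h g c r : ℕ} {pos : ℕ → ℕ} {e : ℕ} (hg : g % 2 = 0) (he : e % 2 = 1) :
    fE h g c r pos e = rk (2 * h - 1) pos e := by
  unfold fE
  rw [if_neg (by omega), if_neg (by omega)]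

private theorem v6_E_g {h g c r : ℕ} {pos : ℕ → ℕ} : fE h g c r pos g = r := by
  unfold fE
  rw [if_pos rfl]

private theorem v6_LE {h g c r : ℕ} {pos : ℕ → ℕ} (hg : g % 2 = 0) (e : ℕ) :
    fE h g c r pos e ≤ fL h g c r pos e := by
  by_cases heg : e = g
  · subst heg
    rw [v6_L_g, v6_E_g]
  · rcases Nat.mod_two_eq_zero_or_one e with h0 | h0
    · rw [v6_L_even h0 heg, v6_E_even h0 heg]
    · rw [v6_L_odd hg h0, v6_E_odd hg h0]
      split_ifs <;> omega

private theorem v6_even {h g c r : ℕ} {pos : ℕ → ℕ} {e : ℕ} (he : e % 2 = 0) :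
    fL h g c r pos e = fE h g c r pos e := by
  by_cases heg : e = g
  · subst heg
    rw [v6_L_g, v6_E_g]
  · rw [v6_L_even he heg, v6_E_even he heg]

/-- sums at the joints `≠ g + 1` -/
private theorem v6_joint {h : ℕ} {low : ℕ → Bool} {g x w : ℕ} {pos : ℕ → ℕ}
    (D : Disp h low g x w 1 pos) (hg : g % 2 = 0) (c r : ℕ) {j : ℕ} (hj : SJ h low j)
    (hne : j ≠ g + 1) :
    max (pos (j - 1)) (pos j) ≤ 2 * h - 1 ∧
    cE (2 * h - 1) pos (max (pos (j - 1)) (pos j)) +
      cO (2 * h - 1) pos (max (pos (j - 1)) (pos j)) = max (pos (j - 1)) (pos j) ∧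
    fE h g c r pos (j - 1) + fE h g c r pos j =
      yf (cE (2 * h - 1) pos (max (pos (j - 1)) (pos j))) c r +
        cO (2 * h - 1) pos (max (pos (j - 1)) (pos j)) ∧
    fL h g c r pos (j - 1) + fL h g c r pos j =
      yf (cE (2 * h - 1) pos (max (pos (j - 1)) (pos j))) c r +
        (if h - 1 ≤ cO (2 * h - 1) pos (max (pos (j - 1)) (pos j)) then
          cO (2 * h - 1) pos (max (pos (j - 1)) (pos j)) + 1
        else cO (2 * h - 1) pos (max (pos (j - 1)) (pos j))) := by
  have hjg : j ≠ g := by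
    rintro rfl
    have h1 := hj.2.2
    rw [D.lowg, D.lowg'] at h1
    cases h1
  have hj0 := hj
  obtain ⟨j1, j2, _⟩ := hj
  obtain ⟨h1, h2, h3⟩ := joint_vals D.isPos j1 j2 (D.adj j hj0 hne)
  refine ⟨h2, cE_add_cO D.isPos h2, ?_, ?_⟩
  · rcases h3 with ⟨h4, h5, h6⟩ | ⟨h4, h5, h6⟩
    · rw [v6_E_odd (e := j - 1) hg (by omega), v6_E_even h4 hjg, h5, h6, Nat.add_comm]
    · rw [v6_E_even (e := j - 1) (by omega) (by omega), v6_E_odd hg h4, h5, h6]
  · rcases h3 with ⟨h4, h5, h6⟩ | ⟨h4, h5, h6⟩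
    · rw [v6_L_odd (e := j - 1) hg (by omega), v6_L_even h4 hjg, h5, h6, Nat.add_comm]
    · rw [v6_L_even (e := j - 1) (by omega) (by omega), v6_L_odd hg h4, h5, h6]

private theorem v6_g1 {h : ℕ} {low : ℕ → Bool} {g x w : ℕ} {pos : ℕ → ℕ}
    (D : Disp h low g x w 1 pos) (hg : g % 2 = 0) (c r : ℕ) :
    fE h g c r pos (g + 1 - 1) + fE h g c r pos (g + 1) = r + 1 ∧
    fL h g c r pos (g + 1 - 1) + fL h g c r pos (g + 1) = r + 1 := by
  have wx := D.wx
  have w2 := D.w2
  have xh := D.xh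
  rw [Nat.add_sub_cancel, v6_E_g, v6_L_g, v6_E_odd hg (by omega), v6_L_odd hg (by omega), D.rkg1,
    if_neg (by omega)]
  exact ⟨rfl, rfl⟩

private theorem v6_yf (A c r : ℕ) : yf A c r ≤ A + 1 := by
  unfold yf
  split_ifs <;> omega

/-- the common part of the two cases: `N` is a bound for the levels which have the same sum as for
`fE`, the sums at these levels are at most `N + 1` -/
private theorem v6_core {h g x w c r M v : ℕ} (hh : 1 ≤ h) {low : ℕ → Bool} {pos : ℕ → ℕ}
    (D : Disp h low g x w 1 pos) (hg : g % 2 = 0)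
    (hA : Allowed (cE (2 * h - 1) pos x) x 1 c r)
    (hc : c + yf (rk (2 * h - 1) pos 0) c r + (h + 1 + M) = v) (hv : v ≤ 2 * h)
    (hlev : ∀ j, SJ h low j → j ≠ g + 1 →
      (cO (2 * h - 1) pos (max (pos (j - 1)) (pos j)) + 2 ≤ h ∧
        max (pos (j - 1)) (pos j) + 2 ≤ v) ∨
      (v < fL h g c r pos (j - 1) + fL h g c r pos j ∧
        fL h g c r pos (j - 1) + fL h g c r pos j ≤ 2 * h + 1 ∧
        max (pos (j - 1)) (pos j) + 2 = fL h g c r pos (j - 1) + fL h g c r pos j)) :
    CoreB h M low := by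
  obtain ⟨f1, f2, f3, f4, f5, f6⟩ := fE_facts h g x w 1 c r hh low pos D hg hA
  have hp := D.isPos
  have g1 := D.g1
  have g2 := D.g2
  have xh := D.xh
  have wx := D.wx
  have w2 := D.w2
  obtain ⟨e1, e2⟩ := v6_g1 D hg c r
  have hr : r ≤ x := by
    obtain ⟨_, hA⟩ := hA
    omega
  have hc1 : 1 ≤ c := hA.1
  have f0 : fL h g c r pos 0 = yf (rk (2 * h - 1) pos 0) c r := v6_L_even (by norm_num) (by omega)
  have hf0 := f1 0 (by omega) (by norm_num)
  rw [← v6_even (by norm_num), f0] at hf0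
  have hvh : h + r + 1 ≤ v + r ∧ r + 2 ≤ h + 1 := by omega
  refine ⟨c, v, h - 1, h + 1, fL h g c r pos, hc1, by omega, by omega, by omega, by omega,
    by omega, by omega, by rw [f0]; exact hc, ?_, ?_, ?_, ?_, ?_, ?_, by omega, by omega⟩
  · intro e he h0
    rw [v6_even h0]
    have := f1 e he h0
    exact ⟨this.1, this.2.1, this.2.2.1⟩
  · intro e he h0
    have h1 := rk_bound_odd hp he h0
    rw [v6_L_odd hg h0]
    split_ifs <;> omega
  · intro e e' he he' hpar hff
    rcases Nat.mod_two_eq_zero_or_one e with h0 | h0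
    · rw [v6_even h0, v6_even (by omega)] at hff
      exact f3 e e' he he' hpar hff
    · refine rk_inj hp he he' hpar ?_
      rw [v6_L_odd hg h0, v6_L_odd hg (by omega)] at hff
      split_ifs at hff <;> omega
  · intro j hj
    by_cases hne : j = g + 1
    · subst hne
      rw [e2]
      omega
    · rcases hlev j hj hne with ⟨h1, h2⟩ | ⟨h1, _⟩
      · obtain ⟨a1, a2, a3, a4⟩ := v6_joint D hg c r hj hne
        rw [a4, if_neg (by omega)]
        have := v6_yf (cE (2 * h - 1) pos (max (pos (j - 1)) (pos j))) c r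
        omega
      · omega
  · have key : ∀ j, SJ h low j →
        (fL h g c r pos (j - 1) + fL h g c r pos j =
          fE h g c r pos (j - 1) + fE h g c r pos j ∧
          fL h g c r pos (j - 1) + fL h g c r pos j < v) ∨
        (v < fL h g c r pos (j - 1) + fL h g c r pos j ∧ j ≠ g + 1 ∧
          max (pos (j - 1)) (pos j) + 2 = fL h g c r pos (j - 1) + fL h g c r pos j) := by
      intro j hj
      by_cases hne : j = g + 1
      · subst hne
        left
        rw [e2, e1]
        refine ⟨rfl, by omega⟩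
      · rcases hlev j hj hne with ⟨h1, h2⟩ | ⟨h1, h2, h3⟩
        · obtain ⟨a1, a2, a3, a4⟩ := v6_joint D hg c r hj hne
          left
          rw [a4, a3, if_neg (by omega)]
          have := v6_yf (cE (2 * h - 1) pos (max (pos (j - 1)) (pos j))) c r
          refine ⟨rfl, by omega⟩
        · right
          exact ⟨h1, hne, h3⟩
    intro j j' hj hj' hff
    rcases key j hj with ⟨k1, k2⟩ | ⟨k1, k2, k3⟩
    · rcases key j' hj' with ⟨k1', k2'⟩ | ⟨k1', k2', k3'⟩
      · exact f4 j j' hj hj' (by omega)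
      · omega
    · rcases key j' hj' with ⟨k1', k2'⟩ | ⟨k1', k2', k3'⟩
      · omega
      · exact level_inj hp hj.1 hj.2.1 hj'.1 hj'.2.1 (D.adj j hj k2) (D.adj j' hj' k2') (by omega)
  · left
    refine ⟨?_, by omega, ?_⟩
    · intro j hj
      have h1 := f6 j hj
      have h2 := v6_LE (h := h) (c := c) (r := r) (pos := pos) hg (j - 1)
      have h3 := v6_LE (h := h) (c := c) (r := r) (pos := pos) hg j
      omega
    · intro j hj
      by_cases hne : j = g + 1
      · subst hne
        rw [e2]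
        omega
      · rcases hlev j hj hne with ⟨h1, h2⟩ | ⟨h1, h2, _⟩
        · obtain ⟨a1, a2, a3, a4⟩ := v6_joint D hg c r hj hne
          rw [a4, if_neg (by omega)]
          have := v6_yf (cE (2 * h - 1) pos (max (pos (j - 1)) (pos j))) c r
          omega
        · exact h2

/-- Chunk V6: even displaced edge, straight joint at level `n`, the top edge is odd; labels `fL`,
`e1 = h - 1`, `eN = h + 1`, `v = 2 * h`. The joint at level `n` has the sum `2 * h + 1`, at the levels
`< n` we have `B ≤ h - 2` and sum at most `2 * h - 1`. -/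
theorem coreB_even_L (h g x w c r M : ℕ) (hh : 1 ≤ h) (low : ℕ → Bool) (pos : ℕ → ℕ)
    (D : Disp h low g x w 1 pos) (hg : g % 2 = 0)
    (hA : Allowed (cE (2 * h - 1) pos x) x 1 c r)
    (ht : ∃ e, e < 2 * h - 1 ∧ e % 2 = 1 ∧ pos e = 2 * h - 1)
    (hc : c + yf (rk (2 * h - 1) pos 0) c r + M + 1 = h) : CoreB h M low := by
  have hp := D.isPos
  have xh := D.xh
  have wx := D.wx
  have hr : r ≤ x := by
    obtain ⟨_, hA⟩ := hA
    omega
  have tE := cE_top hp
  have tO := cO_top hp
  obtain ⟨e, he, he1, hpe⟩ := ht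
  refine v6_core (v := 2 * h) hh D hg hA (by omega) (le_refl _) ?_
  intro j hj hne
  obtain ⟨a1, a2, a3, a4⟩ := v6_joint D hg c r hj hne
  rcases Nat.lt_or_ge (max (pos (j - 1)) (pos j)) (2 * h - 1) with hlt | hge
  · left
    have h1 := cO_lt (pos := pos) (p := max (pos (j - 1)) (pos j)) he he1 (by omega)
    rw [hpe, tO] at h1
    omega
  · right
    have hpn : max (pos (j - 1)) (pos j) = 2 * h - 1 := by omega
    rw [a4, hpn, tE, tO]
    have hyf : yf ((2 * h - 1 + 1) / 2) c r = h + 1 := by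
      unfold yf
      split_ifs <;> omega
    rw [hyf]
    split_ifs <;> omega

/-- Chunk V6: even displaced edge, straight joint at level `n`, the top edge is even (so the edge in
position `n - 1` is odd); labels `fL`, `e1 = h - 1`, `eN = h + 1`, `v = 2 * h - 1`. The joint at level `n`
has the sum `2 * h + 1`, at level `n - 1` the sum is `2 * h`, at the levels `≤ n - 2` we have
`B ≤ h - 2` and sum at most `2 * h - 2`. -/
theorem coreB_even_H (h g x w c r M : ℕ) (hh : 1 ≤ h) (low : ℕ → Bool) (pos : ℕ → ℕ)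
    (D : Disp h low g x w 1 pos) (hg : g % 2 = 0)
    (hA : Allowed (cE (2 * h - 1) pos x) x 1 c r)
    (hj : ∃ j, SJ h low j ∧ j ≠ g + 1 ∧ max (pos (j - 1)) (pos j) = 2 * h - 1)
    (ht : ∃ e, e < 2 * h - 1 ∧ e % 2 = 0 ∧ pos e = 2 * h - 1)
    (hc : c + yf (rk (2 * h - 1) pos 0) c r + M + 2 = h) : CoreB h M low := by
  have hp := D.isPos
  have xh := D.xh
  have wx := D.wx
  have hr : r ≤ x := by
    obtain ⟨_, hA⟩ := hA
    omega
  have tE := cE_top hp
  have tO := cO_top hp
  obtain ⟨e, he, he1, hpe⟩ := ht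
  -- the edge in position `n - 1`
  obtain ⟨e', he', he1', hpe'⟩ : ∃ e', e' < 2 * h - 1 ∧ e' % 2 = 1 ∧ pos e' = 2 * h - 2 := by
    obtain ⟨j, hj, hne, hmax⟩ := hj
    have hadj := D.adj j hj hne
    obtain ⟨j1, j2, _⟩ := hj
    rcases hadj with h1 | h1
    · have h2 : j = e := hp.inj j e j2 he (by omega)
      exact ⟨j - 1, by omega, by omega, by omega⟩
    · have h2 : j - 1 = e := hp.inj (j - 1) e (by omega) he (by omega)
      exact ⟨j, j2, by omega, by omega⟩
  have hn1 := cE_lt (pos := pos) (p := 2 * h - 2) he he1 (by omega)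
  rw [hpe, tE] at hn1
  have hs1 := cE_add_cO hp (p := 2 * h - 2) (by omega)
  have hn2 := cO_mono (n := 2 * h - 1) (pos := pos) (p := 2 * h - 2) (p' := 2 * h - 1) (by omega)
  rw [tO] at hn2
  refine v6_core (v := 2 * h - 1) hh D hg hA (by omega) (by omega) ?_
  intro j hj hne
  obtain ⟨a1, a2, a3, a4⟩ := v6_joint D hg c r hj hne
  rcases Nat.lt_or_ge (max (pos (j - 1)) (pos j)) (2 * h - 2) with hlt | hge
  · left
    have h1 := cO_lt (pos := pos) (p := max (pos (j - 1)) (pos j)) he' he1' (by omega)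
    rw [hpe'] at h1
    omega
  · right
    rcases Nat.lt_or_ge (max (pos (j - 1)) (pos j)) (2 * h - 1) with hlt2 | hge2
    · have hpn : max (pos (j - 1)) (pos j) = 2 * h - 2 := by omega
      rw [a4, hpn]
      have hE : cE (2 * h - 1) pos (2 * h - 2) = h - 1 := by omega
      have hO : cO (2 * h - 1) pos (2 * h - 2) = h - 1 := by omega
      rw [hE, hO]
      have hyf : yf (h - 1) c r = h := by
        unfold yf
        split_ifs <;> omega
      rw [hyf]
      split_ifs <;> omega
    · have hpn : max (pos (j - 1)) (pos j) = 2 * h - 1 := by omega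
      rw [a4, hpn, tE, tO]
      have hyf : yf ((2 * h - 1 + 1) / 2) c r = h + 1 := by
        unfold yf
        split_ifs <;> omega
      rw [hyf]
      split_ifs <;> omega

end H92SA
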