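import Pool.Agent.Lib.H92SA.V3

namespace H92SA

private theorem V7_f0 (h g c r : ℕ) (pos : ℕ → ℕ) (hg : 1 ≤ g) :
    fE h g c r pos 0 = yf (rk (2 * h - 1) pos 0) c r := by
  unfold fE
  rw [if_neg (by omega), if_pos (by omega)]

private theorem V7_yf_le (y c r : ℕ) (hy : 1 ≤ y) : yf y c r ≤ y + 1 := by
  unfold yf
  split_ifs <;> omega

private theorem V7_sum (h g x w c r : ℕ) (low : ℕ → Bool) (pos : ℕ → ℕ)
    (D : Disp h low g x w 1 pos) {j : ℕ} (hj : SJ h low j) (hjg : j ≠ g + 1) :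
    fE h g c r pos (j - 1) + fE h g c r pos j ≤ max (pos (j - 1)) (pos j) + 1 := by
  obtain ⟨h1, h2, h3⟩ := hj
  have hjg' : j ≠ g := by
    rintro rfl
    rw [D.lowg, D.lowg'] at h3
    exact absurd h3 (by simp)
  have hadj := D.adj j ⟨h1, h2, h3⟩ hjg
  obtain ⟨l1, l2, l3⟩ := joint_vals D.isPos h1 h2 hadj
  have hs := cE_add_cO D.isPos l2
  have hf : ∀ e, e ≠ g → e % 2 = 0 → fE h g c r pos e = yf (rk (2 * h - 1) pos e) c r := by
    intro e h4 h5
    unfold fE
    rw [if_neg h4, if_pos h5]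
  have hf' : ∀ e, e ≠ g → e % 2 = 1 → fE h g c r pos e = rk (2 * h - 1) pos e := by
    intro e h4 h5
    unfold fE
    rw [if_neg h4, if_neg (by omega)]
  rcases l3 with ⟨p1, p2, p3⟩ | ⟨p1, p2, p3⟩
  · rw [hf j hjg' p1, hf' (j - 1) (by omega) (by omega)]
    have b := rk_bound_even D.isPos h2 p1
    have := V7_yf_le (rk (2 * h - 1) pos j) c r b.1
    omega
  · rw [hf' j hjg' p1, hf (j - 1) (by omega) (by omega)]
    have b := rk_bound_even (e := j - 1) D.isPos (by omega) (by omega)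
    have := V7_yf_le (rk (2 * h - 1) pos (j - 1)) c r b.1
    omega

/-- Chunk V7, even displaced edge, `v = 2 * h + 1`. -/
theorem coreB_even (h g x w c r M : ℕ) (hh : 1 ≤ h) (low : ℕ → Bool) (pos : ℕ → ℕ)
    (D : Disp h low g x w 1 pos) (hg : g % 2 = 0)
    (hA : Allowed (cE (2 * h - 1) pos x) x 1 c r)
    (hc : c + yf (rk (2 * h - 1) pos 0) c r + M = h) : CoreB h M low := by
  obtain ⟨f1, f2, f3, f4, f5, f6⟩ := fE_facts h g x w 1 c r hh low pos D hg hA
  have hf0 := V7_f0 h g c r pos D.g1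
  have hc1 : 1 ≤ c := hA.1
  refine ⟨c, 2 * h + 1, h + 1, h, fE h g c r pos, hc1, by omega, by omega, by omega, by omega,
    by omega, by omega, by omega, ?_, ?_, f3, ?_, f4, Or.inl ⟨f6, le_rfl, ?_⟩, by omega, by omega⟩
  · intro e he h0
    obtain ⟨a1, a2, a3, _⟩ := f1 e he h0
    exact ⟨a1, a2, a3⟩
  · intro e he h0
    obtain ⟨a1, a2⟩ := f2 e he h0
    exact ⟨a1, by omega, by omega, by omega⟩
  · intro j hj
    have := (f5 j hj).2
    omega
  · intro j hj
    have := (f5 j hj).2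
    omega

/-- Chunk V7, even displaced edge, no straight joint at level `n`, `v = 2 * h`. -/
theorem coreB_even_u (h g x w c r M : ℕ) (hh : 1 ≤ h) (low : ℕ → Bool) (pos : ℕ → ℕ)
    (D : Disp h low g x w 1 pos) (hg : g % 2 = 0)
    (hA : Allowed (cE (2 * h - 1) pos x) x 1 c r)
    (hu : ∀ j, SJ h low j → j ≠ g + 1 → max (pos (j - 1)) (pos j) ≠ 2 * h - 1)
    (hc : c + yf (rk (2 * h - 1) pos 0) c r + M + 1 = h) : CoreB h M low := by
  obtain ⟨f1, f2, f3, f4, f5, f6⟩ := fE_facts h g x w 1 c r hh low pos D hg hA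
  have hf0 := V7_f0 h g c r pos D.g1
  have hc1 : 1 ≤ c := hA.1
  have hs : ∀ j, SJ h low j → fE h g c r pos (j - 1) + fE h g c r pos j ≠ 2 * h := by
    intro j hj
    by_cases hjg : j = g + 1
    · subst hjg
      have e1 : fE h g c r pos (g + 1 - 1) = r := by
        unfold fE
        rw [if_pos (by omega)]
      have e2 : fE h g c r pos (g + 1) = 1 := by
        unfold fE
        rw [if_neg (by omega), if_neg (by omega), D.rkg1]
      rw [e1, e2]
      have hx := D.xh
      have hw := D.wx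
      have hw2 := D.w2
      have hr : r ≤ x := by
        rcases hA.2 with ⟨_, _, h3⟩ | ⟨_, h3⟩ <;> omega
      omega
    · have h1 := V7_sum h g x w c r low pos D hj hjg
      have h2 := hu j hj hjg
      obtain ⟨l1, l2, l3⟩ := joint_vals D.isPos hj.1 hj.2.1 (D.adj j hj hjg)
      omega
  refine ⟨c, 2 * h, h + 1, h, fE h g c r pos, hc1, by omega, by omega, by omega, by omega,
    by omega, by omega, by omega, ?_, ?_, f3, hs, f4, Or.inl ⟨f6, by omega, ?_⟩, by omega, by omega⟩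
  · intro e he h0
    obtain ⟨a1, a2, a3, _⟩ := f1 e he h0
    exact ⟨a1, a2, a3⟩
  · intro e he h0
    obtain ⟨a1, a2⟩ := f2 e he h0
    exact ⟨a1, by omega, by omega, by omega⟩
  · intro j hj
    have := (f5 j hj).2
    omega

end H92SA
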