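import Pool.Agent.Lib.H92SA.V1
import Pool.Agent.Lib.H92SA.V4
import Pool.Agent.Lib.H92SA.V5
import Pool.Agent.Lib.H92SA.V6
import Pool.Agent.Lib.H92SA.V7

namespace H92SA

/-- Chunk EB, easy part. -/
theorem coreO_of_layout (h : ℕ) (hh : 1 ≤ h) (low : ℕ → Bool) (L : Layout h low) :
    ∃ ε f, CoreO h ε low f := by
  rcases L with ⟨pos, P⟩ | ⟨pos, P⟩ | ⟨g, x, w, pos, posr, D, X, Dr, hr, ha⟩
  · exact ⟨1, _, coreO_plain h 1 hh low pos P⟩
  · exact ⟨0, _, coreO_plain h 0 hh low pos P⟩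
  · exact ⟨1, _, coreO_disp h g x w 1 hh low pos D⟩

private theorem eb_bounds {h : ℕ} {low : ℕ → Bool} {g x w q : ℕ} {pos : ℕ → ℕ}
    (D : Disp h low g x w q pos) (hg : g % 2 = 0) :
    1 ≤ cE (2 * h - 1) pos x ∧ cE (2 * h - 1) pos x + q ≤ x := by
  have hp := D.isPos
  have g2 := D.g2
  have xh := D.xh
  have wx := D.wx
  have h1 := cE_lt (pos := pos) (p := 0) (e := g) (n := 2 * h - 1) (by omega) hg
    (by rw [D.posg]; omega)
  rw [D.posg] at h1
  have h2 := cE_mono (n := 2 * h - 1) (pos := pos) (p := 1) (p' := x) (by omega)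
  have h3 := D.rkg1
  rw [rk_odd (by omega)] at h3
  have h4 := cO_mono (n := 2 * h - 1) (pos := pos) D.posg1
  have h5 := cE_add_cO hp (p := x) (by omega)
  omega

/-- Chunk EB. Plain arrangements: `rk 0` decides. Displaced arrangement: `fO 0` decides (for `g` even it
is `y - 1` if `y ≤ x - 1` and `y` otherwise, for `g` odd it is `y`; `y = rk 0`). In the second case,
`g` even: put `t = h - M`; if `(y, t)` is not a conflict use `sel` and `coreB_even`. If it is a
conflict: if there is no straight joint `≠ g + 1` at level `n` use `sel` with `t - 1` and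
`coreB_even_u`; otherwise look at the parity of the edge in position `n` (`exists_pos`) and use
`sel` with `t - 1` and `coreB_even_L`, or `sel` with `t - 2` and `coreB_even_H` (here
`X.th` gives `5 ≤ x`, since the conflict requires `a1 + 1 < x`). -/
theorem coreEB_of_layout (h M : ℕ) (hh : 1 ≤ h) (low : ℕ → Bool) (L : Layout h low) :
    (∃ ε f, CoreO h ε low f ∧ h + ε ≤ f 0 + M + 2) ∨ CoreB h M low := by
  have plain : ∀ ε pos, Plain h ε low pos →
      (∃ ε f, CoreO h ε low f ∧ h + ε ≤ f 0 + M + 2) ∨ CoreB h M low := by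
    intro ε pos P
    by_cases hc : h + ε ≤ rk (2 * h - 1) pos 0 + M + 2
    · exact Or.inl ⟨ε, _, coreO_plain h ε hh low pos P, hc⟩
    · exact Or.inr (coreB_plain h ε M hh low pos P (by omega))
  rcases L with ⟨pos, P⟩ | ⟨pos, P⟩ | ⟨g, x, w, pos, posr, D, X, Dr, hr, ha⟩
  · exact plain 1 pos P
  · exact plain 0 pos P
  by_cases hc : h + 1 ≤ fO h g x 1 pos 0 + M + 2
  · exact Or.inl ⟨1, _, coreO_disp h g x w 1 hh low pos D, hc⟩
  right
  have g1 := D.g1
  have g2 := D.g2
  have xh := D.xh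
  have wx := D.wx
  have w2 := D.w2
  have y2 := X.y2
  rcases Nat.mod_two_eq_zero_or_one g with hg | hg
  swap
  · have e0 : fO h g x 1 pos 0 = rk (2 * h - 1) pos 0 := by
      unfold fO
      rw [if_neg (by omega), if_neg (by omega)]
    exact coreB_odd h g x w M hh low pos D X hg (by omega)
  obtain ⟨b1, b2⟩ := eb_bounds D hg
  have e0 : fO h g x 1 pos 0 = (if rk (2 * h - 1) pos 0 ≤ x - 1 then rk (2 * h - 1) pos 0 - 1
      else rk (2 * h - 1) pos 0) := by
    unfold fO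
    rw [if_neg (by omega), if_pos (by omega)]
  rw [e0] at hc
  have hc' : (rk (2 * h - 1) pos 0 + 1 ≤ x ∧ rk (2 * h - 1) pos 0 + 1 + M ≤ h) ∨
      (x ≤ rk (2 * h - 1) pos 0 ∧ rk (2 * h - 1) pos 0 + 2 + M ≤ h) := by
    split_ifs at hc with h1
    · left; omega
    · right; omega
  by_cases hconf : (¬ ((rk (2 * h - 1) pos 0 + 1 + 1 ≤ x ∧ (h - M) + 1 + 1 = x + rk (2 * h - 1) pos 0) ∨
      (x + 1 ≤ rk (2 * h - 1) pos 0 + 1 ∧ (h - M) + 1 = x + rk (2 * h - 1) pos 0 + 1))) ∨
      x ≤ cE (2 * h - 1) pos x + 1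
  · obtain ⟨c, r, hAl, hcr⟩ := sel (cE (2 * h - 1) pos x) x 1 (rk (2 * h - 1) pos 0) (h - M) le_rfl b1 b2
      y2 (by omega) hconf
    exact coreB_even h g x w c r M hh low pos D hg hAl (by omega)
  · push Not at hconf
    obtain ⟨hcf, hxa⟩ := hconf
    have hcf' : (rk (2 * h - 1) pos 0 + 2 ≤ x ∧ h + 2 = x + rk (2 * h - 1) pos 0 + M) ∨
        (x ≤ rk (2 * h - 1) pos 0 ∧ h = x + rk (2 * h - 1) pos 0 + M) := by
      rcases hcf with h1 | h1
      · left; omega
      · right; omega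
    by_cases hu : ∀ j, SJ h low j → j ≠ g + 1 → max (pos (j - 1)) (pos j) ≠ 2 * h - 1
    · obtain ⟨c, r, hAl, hcr⟩ := sel (cE (2 * h - 1) pos x) x 1 (rk (2 * h - 1) pos 0) (h - M - 1) le_rfl
        b1 b2 y2 (by omega) (Or.inl (by omega))
      exact coreB_even_u h g x w c r M hh low pos D hg hAl hu (by omega)
    · have hj : ∃ j, SJ h low j ∧ j ≠ g + 1 ∧ max (pos (j - 1)) (pos j) = 2 * h - 1 := by
        push Not at hu
        exact hu
      obtain ⟨e, he, hpe⟩ := exists_pos D.isPos (p := 2 * h - 1) (by omega) le_rfl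
      rcases Nat.mod_two_eq_zero_or_one e with h0 | h0
      · have h5 : 5 ≤ x := by
          rcases X.th hg hj ⟨e, he, h0, hpe⟩ with h6 | h6
          · exact h6
          · omega
        obtain ⟨c, r, hAl, hcr⟩ := sel (cE (2 * h - 1) pos x) x 1 (rk (2 * h - 1) pos 0) (h - M - 2)
          le_rfl b1 b2 y2 (by omega) (Or.inl (by omega))
        exact coreB_even_H h g x w c r M hh low pos D hg hAl hj ⟨e, he, h0, hpe⟩ (by omega)
      · obtain ⟨c, r, hAl, hcr⟩ := sel (cE (2 * h - 1) pos x) x 1 (rk (2 * h - 1) pos 0) (h - M - 1)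
          le_rfl b1 b2 y2 (by omega) (Or.inl (by omega))
        exact coreB_even_L h g x w c r M hh low pos D hg hAl ⟨e, he, h0, hpe⟩ (by omega)

end H92SA
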