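import Pool.Agent.Lib.H92SA.Graph

namespace H92SA

variable {V : Type*} [Fintype V] [DecidableEq V]

/-- segment of a path -/
private theorem g1_seg {G : SimpleGraph V} {a b : V} (p : G.Walk a b) (hp : p.IsPath) {i j : ℕ}
    (hij : i ≤ j) (hj : j ≤ p.length) :
    ∃ q : G.Walk (p.getVert i) (p.getVert j), q.IsPath ∧ q.length = j - i ∧
      ∀ x ∈ q.support, x ∈ p.support := by
  have h : (p.drop i).getVert (j - i) = p.getVert j := by
    rw [SimpleGraph.Walk.drop_getVert]
    congr 1
    omega
  refine ⟨((p.drop i).take (j - i)).copy rfl h, ?_, ?_, ?_⟩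
  · rw [SimpleGraph.Walk.isPath_copy]
    exact (hp.drop i).take (j - i)
  · rw [SimpleGraph.Walk.length_copy, SimpleGraph.Walk.take_length, SimpleGraph.Walk.drop_length]
    omega
  · intro x hx
    rw [SimpleGraph.Walk.support_copy, SimpleGraph.Walk.support_take] at hx
    have h1 := List.mem_of_mem_take hx
    rw [SimpleGraph.Walk.drop_support_eq_support_drop_min] at h1
    exact List.mem_of_mem_drop h1

/-- two adjacent vertices of a path in a forest are consecutive -/
private theorem g1_consec {G : SimpleGraph V} (hG : G.IsAcyclic) {a b : V} (p : G.Walk a b)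
    (hp : p.IsPath) {i j : ℕ} (hij : i < j) (hj : j ≤ p.length)
    (h : G.Adj (p.getVert i) (p.getVert j)) : j = i + 1 := by
  obtain ⟨q, hq, hq2, -⟩ := g1_seg p hp hij.le hj
  have h1 : (SimpleGraph.Walk.cons h SimpleGraph.Walk.nil).IsPath := by
    rw [SimpleGraph.Walk.cons_isPath_iff]
    refine ⟨SimpleGraph.Walk.IsPath.nil, ?_⟩
    simpa using h.ne
  have h2 := hG.path_unique ⟨q, hq⟩ ⟨_, h1⟩
  have h3 : q = SimpleGraph.Walk.cons h SimpleGraph.Walk.nil := congrArg Subtype.val h2
  rw [h3] at hq2
  simp at hq2
  omega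

/-- a walk between two vertices of a path with an inner vertex off the path is impossible -/
private theorem g1_off {G : SimpleGraph V} (hG : G.IsAcyclic) {a b : V} (p : G.Walk a b)
    (hp : p.IsPath) {i j : ℕ} (hi : i ≤ p.length) (hj : j ≤ p.length)
    (q : G.Walk (p.getVert i) (p.getVert j)) (hq : q.IsPath) {x : V} (hx : x ∈ q.support) :
    x ∈ p.support := by
  rcases le_total i j with h | h
  · obtain ⟨r, hr, -, hr3⟩ := g1_seg p hp h hj
    have h2 : q = r := congrArg Subtype.val (hG.path_unique ⟨q, hq⟩ ⟨r, hr⟩)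
    rw [h2] at hx
    exact hr3 x hx
  · obtain ⟨r, hr, -, hr3⟩ := g1_seg p hp h hi
    have h2 : q.reverse = r := congrArg Subtype.val (hG.path_unique ⟨q.reverse, hq.reverse⟩ ⟨r, hr⟩)
    refine hr3 x ?_
    rw [← h2, SimpleGraph.Walk.support_reverse, List.mem_reverse]
    exact hx

/-- Chunk G1. Take a path dominating all vertices, of maximal length among all such paths. Its
length is at least 2 (there are three vertices). Write it `v 0, ..., v (k+1)`. A vertex off the path
cannot be adjacent to an end of the path (otherwise the path could be prolonged), so it is adjacent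
to an interior vertex `v (a x)`; it has no other neighbour (a tree has no cycle: two neighbours on
the path, or a neighbour off the path, give two different paths between two vertices). Two path
vertices are adjacent only if they are consecutive (again no cycle). -/
theorem exists_spine (G : SimpleGraph V) (hG : IsCaterpillar G) (hV : 3 ≤ Fintype.card V) :
    ∃ (k : ℕ) (v : ℕ → V) (P : Finset V) (a : V → ℕ), 1 ≤ k ∧ IsSpine G k v P a := by
  classical
  obtain ⟨hT, a0, b0, p0, hp0, hd0⟩ := hG
  have hac : G.IsAcyclic := hT.IsAcyclic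
  let Q : ℕ → Prop := fun m => ∃ (a b : V) (p : G.Walk a b), p.IsPath ∧ p.length = m ∧
    ∀ x : V, x ∈ p.support ∨ ∃ y ∈ p.support, G.Adj x y
  have hQ0 : Q p0.length := ⟨a0, b0, p0, hp0, rfl, hd0⟩
  have hbd : ∀ m, Q m → m ≤ Fintype.card V := by
    rintro m ⟨a, b, p, hp, rfl, -⟩
    exact hp.length_lt.le
  have hN : Q (Nat.findGreatest Q (Fintype.card V)) :=
    Nat.findGreatest_spec (hbd _ hQ0) hQ0
  obtain ⟨a, b, p, hp, hpl, hd⟩ := hN
  have hmax : ∀ m, Q m → m ≤ p.length := by
    intro m hm
    rw [hpl]
    exact Nat.le_findGreatest (hbd m hm) hm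
  -- a vertex off the path is not adjacent to the first vertex
  have hfirst : ∀ x, x ∉ p.support → ¬ G.Adj x a := by
    intro x hx hxa
    have h1 : (SimpleGraph.Walk.cons hxa p).IsPath := by
      rw [SimpleGraph.Walk.cons_isPath_iff]
      exact ⟨hp, hx⟩
    have h2 := hmax (p.length + 1) ⟨x, b, SimpleGraph.Walk.cons hxa p, h1, by simp, by
      intro y
      rcases hd y with h | ⟨z, hz, hyz⟩
      · exact Or.inl (by simp [h])
      · exact Or.inr ⟨z, by simp [hz], hyz⟩⟩
    omega
  have hlast : ∀ x, x ∉ p.support → ¬ G.Adj x b := by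
    intro x hx hxb
    have h1 : (SimpleGraph.Walk.cons hxb p.reverse).IsPath := by
      rw [SimpleGraph.Walk.cons_isPath_iff]
      exact ⟨hp.reverse, by simpa using hx⟩
    have h2 := hmax (p.length + 1) ⟨x, a, SimpleGraph.Walk.cons hxb p.reverse, h1, by simp, by
      intro y
      rcases hd y with h | ⟨z, hz, hyz⟩
      · exact Or.inl (by simp [h])
      · exact Or.inr ⟨z, by simp [hz], hyz⟩⟩
    omega
  have hlen : 2 ≤ p.length := by
    by_contra hlt
    have h1 : p.support.toFinset.card < Fintype.card V := by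
      have h2 : p.support.toFinset.card ≤ p.support.length := List.toFinset_card_le _
      rw [SimpleGraph.Walk.length_support] at h2
      omega
    obtain ⟨x, hx⟩ : ∃ x, x ∉ p.support.toFinset := by
      by_contra hall
      push Not at hall
      have h2 : p.support.toFinset = Finset.univ := Finset.eq_univ_iff_forall.2 hall
      rw [h2, Finset.card_univ] at h1
      exact absurd h1 (lt_irrefl _)
    rw [List.mem_toFinset] at hx
    rcases hd x with h | ⟨y, hy, hxy⟩
    · exact hx h
    · rw [SimpleGraph.Walk.mem_support_iff_exists_getVert] at hy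
      obtain ⟨i, hi, hil⟩ := hy
      have h3 : i = 0 ∨ i = p.length := by omega
      rcases h3 with h3 | h3
      · rw [h3, SimpleGraph.Walk.getVert_zero] at hi
        rw [← hi] at hxy
        exact hfirst x hx hxy
      · rw [h3, SimpleGraph.Walk.getVert_length] at hi
        rw [← hi] at hxy
        exact hlast x hx hxy
  obtain ⟨k, hk⟩ : ∃ k, p.length = k + 1 := ⟨p.length - 1, by omega⟩
  -- the attachment
  have hatt : ∀ x, x ∉ p.support → ∃ i, 1 ≤ i ∧ i ≤ k ∧ G.Adj x (p.getVert i) := by
    intro x hx
    rcases hd x with h | ⟨y, hy, hxy⟩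
    · exact absurd h hx
    · rw [SimpleGraph.Walk.mem_support_iff_exists_getVert] at hy
      obtain ⟨i, hi, hil⟩ := hy
      rw [← hi] at hxy
      refine ⟨i, ?_, ?_, hxy⟩
      · rcases Nat.eq_zero_or_pos i with h | h
        · rw [h, SimpleGraph.Walk.getVert_zero] at hxy
          exact absurd hxy (hfirst x hx)
        · exact h
      · by_contra h
        have h2 : i = p.length := by omega
        rw [h2, SimpleGraph.Walk.getVert_length] at hxy
        exact hlast x hx hxy
  -- a vertex off the path has only one neighbour on the path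
  have huniq : ∀ x, x ∉ p.support → ∀ i j, i ≤ p.length → j ≤ p.length →
      G.Adj x (p.getVert i) → G.Adj x (p.getVert j) → i = j := by
    intro x hx i j hi hj h1 h2
    by_contra hne
    have hne' : p.getVert i ≠ p.getVert j := fun h => hne (hp.getVert_injOn hi hj h)
    have h3 : (SimpleGraph.Walk.cons h1.symm (SimpleGraph.Walk.cons h2 SimpleGraph.Walk.nil)).IsPath := by
      rw [SimpleGraph.Walk.cons_isPath_iff, SimpleGraph.Walk.cons_isPath_iff]
      refine ⟨⟨SimpleGraph.Walk.IsPath.nil, by simpa using h2.ne⟩, ?_⟩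
      simp only [SimpleGraph.Walk.support_cons, SimpleGraph.Walk.support_nil, List.mem_cons,
        List.not_mem_nil, or_false, not_or]
      exact ⟨h1.ne', hne'⟩
    exact hx (g1_off hac p hp hi hj _ h3 (x := x) (by simp))
  have hoff2 : ∀ x y, x ∉ p.support → y ∉ p.support → ¬ G.Adj x y := by
    intro x y hx hy hxy
    obtain ⟨i, hi1, hi2, hi3⟩ := hatt x hx
    obtain ⟨j, hj1, hj2, hj3⟩ := hatt y hy
    have hxi : x ≠ p.getVert i := hi3.ne
    have hxj : x ≠ p.getVert j := fun h => hx (by rw [h]; exact p.getVert_mem_support j)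
    have hyi : y ≠ p.getVert i := fun h => hy (by rw [h]; exact p.getVert_mem_support i)
    by_cases hij : i = j
    · -- a triangle
      rw [hij] at hi3 hxi hyi
      have h3 : (SimpleGraph.Walk.cons hxy (SimpleGraph.Walk.cons hj3
          SimpleGraph.Walk.nil)).IsPath := by
        rw [SimpleGraph.Walk.cons_isPath_iff, SimpleGraph.Walk.cons_isPath_iff]
        refine ⟨⟨SimpleGraph.Walk.IsPath.nil, by simpa using hj3.ne⟩, ?_⟩
        simp only [SimpleGraph.Walk.support_cons, SimpleGraph.Walk.support_nil, List.mem_cons,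
          List.not_mem_nil, or_false, not_or]
        exact ⟨hxy.ne, hxj⟩
      have h4 : (SimpleGraph.Walk.cons hi3 SimpleGraph.Walk.nil).IsPath := by
        rw [SimpleGraph.Walk.cons_isPath_iff]
        exact ⟨SimpleGraph.Walk.IsPath.nil, by simpa using hi3.ne⟩
      have h5 := congrArg (fun q : G.Path x (p.getVert j) => q.1.length)
        (hac.path_unique ⟨_, h3⟩ ⟨_, h4⟩)
      simp at h5
    · have hne' : p.getVert i ≠ p.getVert j := fun h => hij (hp.getVert_injOn
        (show i ≤ p.length by omega) (show j ≤ p.length by omega) h)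
      have h3 : (SimpleGraph.Walk.cons hi3.symm (SimpleGraph.Walk.cons hxy
          (SimpleGraph.Walk.cons hj3 SimpleGraph.Walk.nil))).IsPath := by
        rw [SimpleGraph.Walk.cons_isPath_iff, SimpleGraph.Walk.cons_isPath_iff,
          SimpleGraph.Walk.cons_isPath_iff]
        refine ⟨⟨⟨SimpleGraph.Walk.IsPath.nil, by simpa using hj3.ne⟩, ?_⟩, ?_⟩
        · simp only [SimpleGraph.Walk.support_cons, SimpleGraph.Walk.support_nil, List.mem_cons,
            List.not_mem_nil, or_false, not_or]
          exact ⟨hxy.ne, hxj⟩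
        · simp only [SimpleGraph.Walk.support_cons, SimpleGraph.Walk.support_nil, List.mem_cons,
            List.not_mem_nil, or_false, not_or]
          exact ⟨hxi.symm, hyi.symm, hne'⟩
      exact hx (g1_off hac p hp (i := i) (j := j) (by omega) (by omega) _ h3 (x := x) (by simp))
  have hsup : ∀ x, x ∈ p.support ↔ ∃ i, i ≤ k + 1 ∧ x = p.getVert i := by
    intro x
    rw [SimpleGraph.Walk.mem_support_iff_exists_getVert]
    constructor
    · rintro ⟨i, h1, h2⟩
      exact ⟨i, by omega, h1.symm⟩
    · rintro ⟨i, h1, h2⟩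
      exact ⟨i, h2.symm, by omega⟩
  have hatt' : ∀ x, ∃ i, x ∉ p.support → 1 ≤ i ∧ i ≤ k ∧ G.Adj x (p.getVert i) := by
    intro x
    by_cases hx : x ∈ p.support
    · exact ⟨0, fun h => absurd hx h⟩
    · obtain ⟨i, hi⟩ := hatt x hx
      exact ⟨i, fun _ => hi⟩
  choose f hf using hatt'
  refine ⟨k, p.getVert, Finset.univ.filter (fun x => x ∉ p.support), f, by omega, ?_, ?_, ?_, ?_⟩
  · intro i j hi hj h
    exact hp.getVert_injOn (show i ≤ p.length by omega) (show j ≤ p.length by omega) h
  · intro x
    rw [Finset.mem_filter, hsup]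
    push Not
    simp
  · intro x hx
    have := hf x (Finset.mem_filter.1 hx).2
    exact ⟨this.1, this.2.1⟩
  · intro x y
    constructor
    · intro hxy
      by_cases hx : x ∈ p.support
      · by_cases hy : y ∈ p.support
        · left
          obtain ⟨i, hi, rfl⟩ := (hsup x).1 hx
          obtain ⟨j, hj, rfl⟩ := (hsup y).1 hy
          rcases lt_trichotomy i j with h | h | h
          · have := g1_consec hac p hp h (by omega) hxy
            exact ⟨i, by omega, Or.inl ⟨rfl, by rw [this]⟩⟩
          · rw [h] at hxy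
            exact absurd hxy (G.loopless.irrefl _)
          · have := g1_consec hac p hp h (by omega) hxy.symm
            exact ⟨j, by omega, Or.inr ⟨rfl, by rw [this]⟩⟩
        · right; right
          refine ⟨Finset.mem_filter.2 ⟨Finset.mem_univ _, hy⟩, ?_⟩
          obtain ⟨i, hi, rfl⟩ := (hsup x).1 hx
          have h1 := hf y hy
          have := huniq y hy i (f y) (by omega) (by omega) hxy.symm h1.2.2
          rw [this]
      · right; left
        refine ⟨Finset.mem_filter.2 ⟨Finset.mem_univ _, hx⟩, ?_⟩
        by_cases hy : y ∈ p.support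
        · obtain ⟨j, hj, rfl⟩ := (hsup y).1 hy
          have h1 := hf x hx
          have := huniq x hx j (f x) (by omega) (by omega) hxy h1.2.2
          rw [this]
        · exact absurd hxy (hoff2 x y hx hy)
    · rintro (⟨i, hi, ⟨rfl, rfl⟩ | ⟨rfl, rfl⟩⟩ | ⟨hx, rfl⟩ | ⟨hy, rfl⟩)
      · exact p.adj_getVert_succ (by omega)
      · exact (p.adj_getVert_succ (by omega)).symm
      · exact (hf x (Finset.mem_filter.1 hx).2).2.2
      · exact (hf y (Finset.mem_filter.1 hy).2).2.2.symm

end H92SA
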