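import Pool.Agent.Lib.H92SA.Graph

namespace H92SA

variable {V : Type*} [DecidableEq V]

omit [DecidableEq V] in
private theorem g2_order (κ : V → ℕ) : ∀ (n : ℕ) (P : Finset V) (U : Finset ℕ), P.card = n →
    U.card = n → ∃ g : V → ℕ, (∀ x ∈ P, g x ∈ U) ∧ (∀ x ∈ P, ∀ y ∈ P, g x = g y → x = y) ∧
      ∀ x ∈ P, ∀ y ∈ P, κ x < κ y → g x < g y := by
  classical
  intro n
  induction n with
  | zero =>
    intro P U hP _
    rw [Finset.card_eq_zero] at hP
    subst hP
    exact ⟨fun _ => 0, by simp, by simp, by simp⟩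
  | succ n ih =>
    intro P U hP hU
    have hPne : P.Nonempty := Finset.card_pos.1 (by omega)
    have hUne : U.Nonempty := Finset.card_pos.1 (by omega)
    obtain ⟨z, hz, hmax⟩ := P.exists_max_image κ hPne
    obtain ⟨g, h1, h2, h3⟩ := ih (P.erase z) (U.erase (U.max' hUne))
      (by rw [Finset.card_erase_of_mem hz, hP, Nat.add_sub_cancel])
      (by rw [Finset.card_erase_of_mem (U.max'_mem hUne), hU, Nat.add_sub_cancel])
    have hlt : ∀ x ∈ P, x ≠ z → g x < U.max' hUne := by
      intro x hx hxz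
      have h4 := h1 x (Finset.mem_erase.2 ⟨hxz, hx⟩)
      rw [Finset.mem_erase] at h4
      exact lt_of_le_of_ne (U.le_max' _ h4.2) h4.1
    refine ⟨fun x => if x = z then U.max' hUne else g x, ?_, ?_, ?_⟩
    · intro x hx
      by_cases hxz : x = z
      · simp only [if_pos hxz]
        exact U.max'_mem hUne
      · simp only [if_neg hxz]
        exact Finset.mem_of_mem_erase (h1 x (Finset.mem_erase.2 ⟨hxz, hx⟩))
    · intro x hx y hy hxy
      by_cases hxz : x = z <;> by_cases hyz : y = z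
      · rw [hxz, hyz]
      · simp only [if_pos hxz, if_neg hyz] at hxy
        have := hlt y hy hyz
        omega
      · simp only [if_neg hxz, if_pos hyz] at hxy
        have := hlt x hx hxz
        omega
      · simp only [if_neg hxz, if_neg hyz] at hxy
        exact h2 x (Finset.mem_erase.2 ⟨hxz, hx⟩) y (Finset.mem_erase.2 ⟨hyz, hy⟩) hxy
    · intro x hx y hy hκ
      have hxz : x ≠ z := by
        rintro rfl
        have := hmax y hy
        omega
      by_cases hyz : y = z
      · simp only [if_neg hxz, if_pos hyz]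
        exact hlt x hx hxz
      · simp only [if_neg hxz, if_neg hyz]
        exact h3 x (Finset.mem_erase.2 ⟨hxz, hx⟩) y (Finset.mem_erase.2 ⟨hyz, hy⟩) hκ

omit [DecidableEq V] in
/-- sums over two sets, the same size -/
private theorem g2_sum_eq (g : V → ℕ) (A B : Finset V) (hAB : A.card = B.card) (hA : 1 ≤ A.card)
    (h : ∀ x ∈ A, ∀ y ∈ B, g x < g y) : ∑ x ∈ A, g x < ∑ y ∈ B, g y := by
  obtain ⟨z, hz, hmax⟩ := A.exists_max_image g (Finset.card_pos.1 (by omega))
  have h1 : ∑ x ∈ A, g x ≤ A.card * g z := by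
    have := Finset.sum_le_card_nsmul A g (g z) hmax
    simpa using this
  have h2 : B.card * (g z + 1) ≤ ∑ y ∈ B, g y := by
    have := Finset.card_nsmul_le_sum B g (g z + 1) (fun y hy => h z hz y hy)
    simpa using this
  rw [← hAB, Nat.mul_add, Nat.mul_one] at h2
  omega

/-- sums over two sets, the second one is larger -/
private theorem g2_sum_lt (g : V → ℕ) (A B : Finset V) (u : ℕ) (hAB : A.card < B.card)
    (hA : 1 ≤ A.card) (hu : ∀ x ∈ A, u ≤ g x) (hinj : ∀ x ∈ B, ∀ y ∈ B, g x = g y → x = y)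
    (h : ∀ x ∈ A, ∀ y ∈ B, g x < g y) : ∑ x ∈ A, g x + u + 2 ≤ ∑ y ∈ B, g y := by
  obtain ⟨z, hz, hmin⟩ := B.exists_min_image g (Finset.card_pos.1 (by omega))
  obtain ⟨x0, hx0⟩ := Finset.card_pos.1 (show 0 < A.card by omega)
  have h0 := h x0 hx0 z hz
  have h00 := hu x0 hx0
  have h1 : ∑ x ∈ A, g x ≤ A.card * (g z - 1) := by
    have := Finset.sum_le_card_nsmul A g (g z - 1) (fun x hx => by have := h x hx z hz; omega)
    simpa using this
  have h2 : (B.erase z).card * (g z + 1) ≤ ∑ y ∈ B.erase z, g y := by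
    have := Finset.card_nsmul_le_sum (B.erase z) g (g z + 1) (fun y hy => by
      rw [Finset.mem_erase] at hy
      have h3 := hmin y hy.2
      have h4 : g y ≠ g z := fun h5 => hy.1 (hinj y hy.2 z hz h5)
      omega)
    simpa using this
  rw [Finset.card_erase_of_mem hz] at h2
  have h3 := Finset.add_sum_erase B g hz
  have h4 : A.card * (g z + 1) ≤ (B.card - 1) * (g z + 1) := Nat.mul_le_mul_right _ (by omega)
  have h5 : A.card * (g z + 1) = A.card * (g z - 1) + A.card * 2 := by
    rw [← Nat.mul_add]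
    congr 1
    omega
  omega

/-- Chunk G2. Let `m = k + 1 + P.card` and let `U` be the set of the labels in `1..m` which are not
of the form `l i`; `U.card = P.card`. Order `P` by the key
`(number of pendants at a x, l (a x) + l (a x + 1), a x)` lexicographically (ties arbitrary), and let
`g` be the increasing bijection of `P` (in this order) onto `U`. If `i` has a smaller key than `j`
then all the labels at `i` are smaller than all the labels at `j`. Same number of pendants:
`spSum i < spSum j` since the bases are ordered and the pendant sums are strictly ordered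
(there is at least one pendant). Fewer pendants at `i` (`s < s'`): the smallest label at `j` is at
least `u + s`, and the other ones beat the labels at `i` one by one, so
`pendant sum at j ≥ pendant sum at i + u + 2`, while `base i ≤ base j + u + 1`. If `i` has no
pendant: `base i < base j + u ≤ spSum j`. Two vertices without pendants: distinct by `Cert`. All leaf
labels are `≤ K`, and `K <` spSum of every spine vertex. -/
theorem pendants (k : ℕ) (hk : 1 ≤ k) (P : Finset V) (a : V → ℕ)
    (ha : ∀ x ∈ P, 1 ≤ a x ∧ a x ≤ k) (hc : Cert k P.card (fun i => ∃ x ∈ P, a x = i)) :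
    ∃ (l : ℕ → ℕ) (g : V → ℕ),
      (∀ i, 1 ≤ i → i ≤ k + 1 → 1 ≤ l i ∧ l i ≤ k + 1 + P.card) ∧
      (∀ x ∈ P, 1 ≤ g x ∧ g x ≤ k + 1 + P.card) ∧
      (∀ i j, 1 ≤ i → i ≤ k + 1 → 1 ≤ j → j ≤ k + 1 → l i = l j → i = j) ∧
      (∀ x ∈ P, ∀ y ∈ P, g x = g y → x = y) ∧
      (∀ x ∈ P, ∀ i, 1 ≤ i → i ≤ k + 1 → l i ≠ g x) ∧
      (∀ i j, 1 ≤ i → i ≤ k → 1 ≤ j → j ≤ k → spSum P a l g i = spSum P a l g j → i = j) ∧
      (∀ i, 1 ≤ i → i ≤ k → l 1 < spSum P a l g i ∧ l (k + 1) < spSum P a l g i ∧
        ∀ x ∈ P, g x < spSum P a l g i) ∧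
      (∀ i j, 1 ≤ i → i ≤ k → 1 ≤ j → j ≤ k →
        (P.filter (fun x => a x = i)).card < (P.filter (fun x => a x = j)).card →
        spSum P a l g i < spSum P a l g j) := by
  classical
  obtain ⟨l, K, u, c1, c2, c3, c4, c4', c5, c6, c7, c8, c9⟩ := hc
  set M := P.card with hM
  set m := k + 1 + M with hm
  set L : Finset ℕ := (Finset.Icc 1 (k + 1)).image l with hL
  set U : Finset ℕ := Finset.Icc 1 m \ L with hU
  have hLsub : L ⊆ Finset.Icc 1 m := by
    intro y hy
    rw [hL, Finset.mem_image] at hy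
    obtain ⟨i, hi, rfl⟩ := hy
    rw [Finset.mem_Icc] at hi ⊢
    exact c1 i hi.1 hi.2
  have hLcard : L.card = k + 1 := by
    rw [hL, Finset.card_image_of_injOn]
    · simp
    · intro i hi j hj hij
      rw [Finset.mem_coe, Finset.mem_Icc] at hi hj
      exact c2 i j hi.1 hi.2 hj.1 hj.2 hij
  have hUcard : U.card = M := by
    rw [hU, Finset.card_sdiff_of_subset hLsub, hLcard]
    simp
    omega
  have hUu : ∀ y ∈ U, u ≤ y ∧ y ≤ K := by
    intro y hy
    rw [hU, Finset.mem_sdiff, Finset.mem_Icc] at hy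
    refine c3 y hy.1.1 hy.1.2 ?_
    intro i hi1 hi2 h
    refine hy.2 ?_
    rw [hL, Finset.mem_image]
    exact ⟨i, Finset.mem_Icc.2 ⟨hi1, hi2⟩, h⟩
  -- the key
  let pc : ℕ → ℕ := fun i => (P.filter (fun x => a x = i)).card
  let bs : ℕ → ℕ := fun i => l i + l (i + 1)
  let κ0 : ℕ → ℕ := fun i => (pc i * (2 * m + 1) + bs i) * (k + 1) + i
  obtain ⟨g, g1, g2, g3⟩ := g2_order (fun x => κ0 (a x)) M P U hM.symm hUcard
  have hbs : ∀ i, 1 ≤ i → i ≤ k → bs i < 2 * m + 1 := by
    intro i h1 h2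
    have e1 := c1 i h1 (by omega)
    have e2 := c1 (i + 1) (by omega) (by omega)
    show l i + l (i + 1) < 2 * m + 1
    omega
  have hκ : ∀ i j, 1 ≤ i → i ≤ k → 1 ≤ j → j ≤ k →
      (pc i < pc j ∨ (pc i = pc j ∧ (bs i < bs j ∨ (bs i = bs j ∧ i < j)))) → κ0 i < κ0 j := by
    intro i j hi1 hi2 hj1 hj2 h
    have e1 := hbs i hi1 hi2
    show (pc i * (2 * m + 1) + bs i) * (k + 1) + i < (pc j * (2 * m + 1) + bs j) * (k + 1) + j
    rcases h with h | ⟨hp, h | ⟨h, h'⟩⟩
    · have h1 : (pc i + 1) * (2 * m + 1) ≤ pc j * (2 * m + 1) := Nat.mul_le_mul_right _ h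
      have h2 : pc i * (2 * m + 1) + bs i + 1 ≤ pc j * (2 * m + 1) + bs j := by
        rw [Nat.add_mul, Nat.one_mul] at h1
        omega
      have h3 := Nat.mul_le_mul_right (k + 1) h2
      rw [Nat.add_mul, Nat.one_mul] at h3
      omega
    · have h2 : pc i * (2 * m + 1) + bs i + 1 ≤ pc j * (2 * m + 1) + bs j := by
        rw [hp]
        omega
      have h3 := Nat.mul_le_mul_right (k + 1) h2
      rw [Nat.add_mul, Nat.one_mul] at h3
      omega
    · rw [h, hp]
      omega
  have hT : ∀ i, (∃ x ∈ P, a x = i) ↔ 1 ≤ pc i := by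
    intro i
    constructor
    · rintro ⟨x, hx, hxi⟩
      exact Finset.card_pos.2 ⟨x, Finset.mem_filter.2 ⟨hx, hxi⟩⟩
    · intro h
      obtain ⟨x, hx⟩ := Finset.card_pos.1 (show 0 < pc i from h)
      rw [Finset.mem_filter] at hx
      exact ⟨x, hx.1, hx.2⟩
  -- labels
  have hgP : ∀ x ∈ P, u ≤ g x ∧ g x ≤ K := fun x hx => hUu _ (g1 x hx)
  have hlab : ∀ i j, κ0 i < κ0 j → ∀ x ∈ P.filter (fun x => a x = i),
      ∀ y ∈ P.filter (fun x => a x = j), g x < g y := by
    intro i j hij x hx y hy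
    rw [Finset.mem_filter] at hx hy
    refine g3 x hx.1 y hy.1 ?_
    rw [hx.2, hy.2]
    exact hij
  -- main comparison
  have main : ∀ i j, 1 ≤ i → i ≤ k → 1 ≤ j → j ≤ k → 1 ≤ pc j →
      (pc i = 0 ∨ κ0 i < κ0 j) → pc i ≤ pc j → (pc i = pc j → bs i ≤ bs j) →
      spSum P a l g i < spSum P a l g j := by
    intro i j hi1 hi2 hj1 hj2 hpj hor hle hbb
    show bs i + ∑ x ∈ P.filter (fun x => a x = i), g x <
      bs j + ∑ x ∈ P.filter (fun x => a x = j), g x
    by_cases h0 : pc i = 0
    · have h1 : P.filter (fun x => a x = i) = ∅ := Finset.card_eq_zero.1 h0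
      rw [h1, Finset.sum_empty, Nat.add_zero]
      have hTi : ¬ ∃ x ∈ P, a x = i := by
        rw [hT]
        omega
      have hTj : ∃ x ∈ P, a x = j := (hT j).2 hpj
      have h2 := c8 i j hi1 hi2 hTi hj1 hj2 hTj
      obtain ⟨x, hx⟩ := Finset.card_pos.1 (show 0 < pc j from hpj)
      have h3 : g x ≤ ∑ x ∈ P.filter (fun x => a x = j), g x :=
        Finset.single_le_sum (fun _ _ => Nat.zero_le _) hx
      have h4 := (hgP x (Finset.mem_filter.1 hx).1).1
      show l i + l (i + 1) < l j + l (j + 1) + _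
      omega
    · have hκij : κ0 i < κ0 j := by
        rcases hor with h | h
        · exact absurd h h0
        · exact h
      have hTi : ∃ x ∈ P, a x = i := (hT i).2 (by omega)
      have hTj : ∃ x ∈ P, a x = j := (hT j).2 hpj
      rcases Nat.lt_or_ge (pc i) (pc j) with hlt | hge
      · have h1 := g2_sum_lt g (P.filter (fun x => a x = i)) (P.filter (fun x => a x = j)) u hlt
          (show 1 ≤ pc i by omega) (fun x hx => (hgP x (Finset.mem_filter.1 hx).1).1)
          (fun x hx y hy => g2 x (Finset.mem_filter.1 hx).1 y (Finset.mem_filter.1 hy).1)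
          (hlab i j hκij)
        have h2 := c9 i j hi1 hi2 hTi hj1 hj2 hTj
        show l i + l (i + 1) + _ < l j + l (j + 1) + _
        omega
      · have heq : pc i = pc j := by omega
        have h1 := g2_sum_eq g (P.filter (fun x => a x = i)) (P.filter (fun x => a x = j)) heq
          (show 1 ≤ pc i by omega) (hlab i j hκij)
        have h2 := hbb heq
        omega
  refine ⟨l, g, c1, ?_, c2, g2, ?_, ?_, ?_, ?_⟩
  · intro x hx
    have h1 := g1 x hx
    rw [hU, Finset.mem_sdiff, Finset.mem_Icc] at h1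
    exact h1.1
  · intro x hx i hi1 hi2 h
    have h1 := g1 x hx
    rw [hU, Finset.mem_sdiff] at h1
    refine h1.2 ?_
    rw [hL, Finset.mem_image]
    exact ⟨i, Finset.mem_Icc.2 ⟨hi1, hi2⟩, h⟩
  · -- distinct
    have wlog' : ∀ i j, 1 ≤ i → i ≤ k → 1 ≤ j → j ≤ k →
        (pc i < pc j ∨ (pc i = pc j ∧ (bs i < bs j ∨ (bs i = bs j ∧ i < j)))) →
        spSum P a l g i = spSum P a l g j → i = j := by
      intro i j hi1 hi2 hj1 hj2 h heq
      by_cases hpj : 1 ≤ pc j
      · have h1 := main i j hi1 hi2 hj1 hj2 hpj (Or.inr (hκ i j hi1 hi2 hj1 hj2 h)) (by omega)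
          (by omega)
        omega
      · have hpi : pc i = 0 := by omega
        have hpj0 : pc j = 0 := by omega
        have hTi : ¬ ∃ x ∈ P, a x = i := by
          rw [hT]
          omega
        have hTj : ¬ ∃ x ∈ P, a x = j := by
          rw [hT]
          omega
        refine c6 i j hi1 hi2 hTi hj1 hj2 hTj ?_
        have e1 : P.filter (fun x => a x = i) = ∅ := Finset.card_eq_zero.1 hpi
        have e2 : P.filter (fun x => a x = j) = ∅ := Finset.card_eq_zero.1 hpj0
        unfold spSum at heq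
        rw [e1, e2, Finset.sum_empty] at heq
        exact heq
    intro i j hi1 hi2 hj1 hj2 heq
    have htri : (pc i < pc j ∨ (pc i = pc j ∧ (bs i < bs j ∨ (bs i = bs j ∧ i < j)))) ∨ i = j ∨
        (pc j < pc i ∨ (pc j = pc i ∧ (bs j < bs i ∨ (bs j = bs i ∧ j < i)))) := by omega
    rcases htri with h | h | h
    · exact wlog' i j hi1 hi2 hj1 hj2 h heq
    · exact h
    · exact (wlog' j i hj1 hj2 hi1 hi2 h heq.symm).symm
  · -- all leaf labels are small
    have hbig : ∀ i, 1 ≤ i → i ≤ k → K < spSum P a l g i := by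
      intro i hi1 hi2
      unfold spSum
      by_cases hTi : ∃ x ∈ P, a x = i
      · have h1 := c7 i hi1 hi2 hTi
        obtain ⟨x, hx, hxi⟩ := hTi
        have h3 : g x ≤ ∑ x ∈ P.filter (fun x => a x = i), g x :=
          Finset.single_le_sum (fun _ _ => Nat.zero_le _) (Finset.mem_filter.2 ⟨hx, hxi⟩)
        have h4 := g1 x hx
        rw [hU, Finset.mem_sdiff, Finset.mem_Icc] at h4
        omega
      · have h1 := c5 i hi1 hi2 hTi
        omega
    intro i hi1 hi2
    have h1 := hbig i hi1 hi2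
    refine ⟨by omega, by omega, ?_⟩
    intro x hx
    have h2 := (hgP x hx).2
    omega
  · intro i j hi1 hi2 hj1 hj2 hlt
    have hlt' : pc i < pc j := hlt
    exact main i j hi1 hi2 hj1 hj2 (by omega) (Or.inr (hκ i j hi1 hi2 hj1 hj2 (Or.inl hlt')))
      (by omega) (by omega)

end H92SA
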