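import Pool.Agent.Lib.H92SA.G2

namespace H92SA

variable {V : Type*} [Fintype V] [DecidableEq V]

section

variable {G : SimpleGraph V} [DecidableRel G.Adj] {k : ℕ} {v : ℕ → V} {P : Finset V} {a : V → ℕ}

private theorem g3_notP (hs : IsSpine G k v P a) {i : ℕ} (hi : i ≤ k + 1) : v i ∉ P := by
  intro h
  exact (hs.mem (v i)).1 h i hi rfl

private theorem g3_spine_inj (hs : IsSpine G k v P a) {i j : ℕ} (hi : i ≤ k) (hj : j ≤ k)
    (h : s(v i, v (i + 1)) = s(v j, v (j + 1))) : i = j := by
  rw [Sym2.eq_iff] at h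
  rcases h with ⟨h1, -⟩ | ⟨h1, h2⟩
  · exact hs.inj i j (by omega) (by omega) h1
  · have h3 := hs.inj i (j + 1) (by omega) (by omega) h1
    have h4 := hs.inj (i + 1) j (by omega) (by omega) h2
    omega

private theorem g3_pend_inj (hs : IsSpine G k v P a) {x y : V} (hx : x ∈ P) (hy : y ∈ P)
    (h : s(x, v (a x)) = s(y, v (a y))) : x = y := by
  rw [Sym2.eq_iff] at h
  rcases h with ⟨h1, -⟩ | ⟨h1, h2⟩
  · exact h1
  · have := hs.att y hy
    exact absurd (h1 ▸ hx) (g3_notP hs (by omega))

private theorem g3_ne (hs : IsSpine G k v P a) {i : ℕ} (hi : i ≤ k) {x : V} (hx : x ∈ P) :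
    s(v i, v (i + 1)) ≠ s(x, v (a x)) := by
  intro h
  rw [Sym2.eq_iff] at h
  rcases h with ⟨h1, -⟩ | ⟨-, h2⟩
  · exact g3_notP hs (i := i) (by omega) (h1 ▸ hx)
  · exact g3_notP hs (i := i + 1) (by omega) (h2 ▸ hx)

private theorem g3_edges (hs : IsSpine G k v P a) : G.edgeFinset =
    ((Finset.range (k + 1)).image fun i => s(v i, v (i + 1))) ∪
      (P.image fun x => s(x, v (a x))) := by
  ext e
  rw [SimpleGraph.mem_edgeFinset]
  induction e using Sym2.ind with
  | _ x y =>
    rw [SimpleGraph.mem_edgeSet, hs.adj]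
    simp only [Finset.mem_union, Finset.mem_image, Finset.mem_range, Sym2.eq_iff]
    constructor
    · rintro (⟨i, hi, ⟨rfl, rfl⟩ | ⟨rfl, rfl⟩⟩ | ⟨hx, rfl⟩ | ⟨hy, rfl⟩)
      · exact Or.inl ⟨i, by omega, Or.inl ⟨rfl, rfl⟩⟩
      · exact Or.inl ⟨i, by omega, Or.inr ⟨rfl, rfl⟩⟩
      · exact Or.inr ⟨x, hx, Or.inl ⟨rfl, rfl⟩⟩
      · exact Or.inr ⟨y, hy, Or.inr ⟨rfl, rfl⟩⟩
    · rintro (⟨i, hi, ⟨h1, h2⟩ | ⟨h1, h2⟩⟩ | ⟨z, hz, ⟨h1, h2⟩ | ⟨h1, h2⟩⟩)
      · exact Or.inl ⟨i, by omega, Or.inl ⟨h1.symm, h2.symm⟩⟩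
      · exact Or.inl ⟨i, by omega, Or.inr ⟨h1.symm, h2.symm⟩⟩
      · subst h1
        exact Or.inr (Or.inl ⟨hz, h2.symm⟩)
      · subst h1
        exact Or.inr (Or.inr ⟨hz, h2.symm⟩)

private theorem g3_disj (hs : IsSpine G k v P a) :
    Disjoint ((Finset.range (k + 1)).image fun i => s(v i, v (i + 1)))
      (P.image fun x => s(x, v (a x))) := by
  rw [Finset.disjoint_left]
  intro e he he'
  obtain ⟨i, hi, rfl⟩ := Finset.mem_image.1 he
  obtain ⟨x, hx, h⟩ := Finset.mem_image.1 he'
  exact g3_ne hs (by have := Finset.mem_range.1 hi; omega) hx h.symm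

private theorem g3_sum (hs : IsSpine G k v P a) (F : Sym2 V → ℕ) (u : V) :
    ∑ e ∈ G.edgeFinset.filter (fun e => u ∈ e), F e =
      (∑ i ∈ Finset.range (k + 1), if u ∈ s(v i, v (i + 1)) then F s(v i, v (i + 1)) else 0) +
        ∑ x ∈ P, if u ∈ s(x, v (a x)) then F s(x, v (a x)) else 0 := by
  rw [Finset.sum_filter, g3_edges hs, Finset.sum_union (g3_disj hs), Finset.sum_image,
    Finset.sum_image]
  · intro x hx y hy h
    exact g3_pend_inj hs hx hy h
  · intro i hi j hj h
    have h1 := Finset.mem_range.1 hi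
    have h2 := Finset.mem_range.1 hj
    exact g3_spine_inj hs (by omega) (by omega) h

private theorem g3_sum_mid (hs : IsSpine G k v P a) (F : Sym2 V → ℕ) {j : ℕ} (h1 : 1 ≤ j)
    (h2 : j ≤ k) : ∑ e ∈ G.edgeFinset.filter (fun e => v j ∈ e), F e =
      F s(v (j - 1), v (j - 1 + 1)) + F s(v j, v (j + 1)) +
        ∑ x ∈ P.filter (fun x => a x = j), F s(x, v (a x)) := by
  rw [g3_sum hs]
  congr 1
  · have h3 : ∀ i ∈ Finset.range (k + 1), (if v j ∈ s(v i, v (i + 1)) then
        F s(v i, v (i + 1)) else 0) =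
        (if i = j - 1 then F s(v (j - 1), v (j - 1 + 1)) else 0) +
          if i = j then F s(v j, v (j + 1)) else 0 := by
      intro i hi
      have hi' := Finset.mem_range.1 hi
      simp only [Sym2.mem_iff]
      by_cases hA : i = j
      · subst hA
        have : i ≠ i - 1 := by omega
        simp [this]
      · by_cases hB : i = j - 1
        · subst hB
          have h4 : j - 1 ≠ j := by omega
          have h5 : j - 1 + 1 = j := by omega
          have h6 : v j = v (j - 1 + 1) := by rw [h5]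
          simp [h4, h6]
        · have h4 : ¬ (v j = v i ∨ v j = v (i + 1)) := by
            rintro (h | h)
            · have := hs.inj j i (by omega) (by omega) h
              omega
            · have := hs.inj j (i + 1) (by omega) (by omega) h
              omega
          simp [hA, hB, h4]
    rw [Finset.sum_congr rfl h3, Finset.sum_add_distrib, Finset.sum_ite_eq', Finset.sum_ite_eq',
      if_pos (Finset.mem_range.2 (by omega)), if_pos (Finset.mem_range.2 (by omega))]
  · rw [Finset.sum_filter]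
    refine Finset.sum_congr rfl fun x hx => ?_
    have h3 := hs.att x hx
    have h4 : v j ∈ s(x, v (a x)) ↔ a x = j := by
      rw [Sym2.mem_iff]
      constructor
      · rintro (h | h)
        · exact absurd (h ▸ hx) (g3_notP hs (i := j) (by omega))
        · exact (hs.inj j (a x) (by omega) (by omega) h).symm
      · rintro h
        exact Or.inr (by rw [h])
    simp only [h4]

private theorem g3_sum_first (hs : IsSpine G k v P a) (F : Sym2 V → ℕ) :
    ∑ e ∈ G.edgeFinset.filter (fun e => v 0 ∈ e), F e = F s(v 0, v (0 + 1)) := by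
  rw [g3_sum hs]
  have h3 : ∀ i ∈ Finset.range (k + 1), (if v 0 ∈ s(v i, v (i + 1)) then
      F s(v i, v (i + 1)) else 0) = if i = 0 then F s(v 0, v (0 + 1)) else 0 := by
    intro i hi
    have hi' := Finset.mem_range.1 hi
    simp only [Sym2.mem_iff]
    by_cases hA : i = 0
    · subst hA
      simp
    · have h4 : ¬ (v 0 = v i ∨ v 0 = v (i + 1)) := by
        rintro (h | h)
        · have := hs.inj 0 i (by omega) (by omega) h
          omega
        · have := hs.inj 0 (i + 1) (by omega) (by omega) h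
          omega
      simp [hA, h4]
  have h4 : ∀ x ∈ P, (if v 0 ∈ s(x, v (a x)) then F s(x, v (a x)) else 0) = 0 := by
    intro x hx
    have h5 := hs.att x hx
    rw [if_neg]
    rw [Sym2.mem_iff]
    rintro (h | h)
    · exact absurd (h ▸ hx) (g3_notP hs (i := 0) (by omega))
    · have := hs.inj 0 (a x) (by omega) (by omega) h
      omega
  rw [Finset.sum_congr rfl h3, Finset.sum_congr rfl h4, Finset.sum_ite_eq',
    if_pos (Finset.mem_range.2 (by omega)), Finset.sum_const_zero, add_zero]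

private theorem g3_sum_last (hs : IsSpine G k v P a) (F : Sym2 V → ℕ) :
    ∑ e ∈ G.edgeFinset.filter (fun e => v (k + 1) ∈ e), F e = F s(v k, v (k + 1)) := by
  rw [g3_sum hs]
  have h3 : ∀ i ∈ Finset.range (k + 1), (if v (k + 1) ∈ s(v i, v (i + 1)) then
      F s(v i, v (i + 1)) else 0) = if i = k then F s(v k, v (k + 1)) else 0 := by
    intro i hi
    have hi' := Finset.mem_range.1 hi
    simp only [Sym2.mem_iff]
    by_cases hA : i = k
    · subst hA
      simp
    · have h4 : ¬ (v (k + 1) = v i ∨ v (k + 1) = v (i + 1)) := by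
        rintro (h | h)
        · have := hs.inj (k + 1) i (by omega) (by omega) h
          omega
        · have := hs.inj (k + 1) (i + 1) (by omega) (by omega) h
          omega
      simp [hA, h4]
  have h4 : ∀ x ∈ P, (if v (k + 1) ∈ s(x, v (a x)) then F s(x, v (a x)) else 0) = 0 := by
    intro x hx
    have h5 := hs.att x hx
    rw [if_neg]
    rw [Sym2.mem_iff]
    rintro (h | h)
    · exact absurd (h ▸ hx) (g3_notP hs (i := k + 1) (by omega))
    · have := hs.inj (k + 1) (a x) (by omega) (by omega) h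
      omega
  rw [Finset.sum_congr rfl h3, Finset.sum_congr rfl h4, Finset.sum_ite_eq',
    if_pos (Finset.mem_range.2 (by omega)), Finset.sum_const_zero, add_zero]

private theorem g3_sum_pend (hs : IsSpine G k v P a) (F : Sym2 V → ℕ) {u : V} (hu : u ∈ P) :
    ∑ e ∈ G.edgeFinset.filter (fun e => u ∈ e), F e = F s(u, v (a u)) := by
  rw [g3_sum hs]
  have h3 : ∀ i ∈ Finset.range (k + 1), (if u ∈ s(v i, v (i + 1)) then
      F s(v i, v (i + 1)) else 0) = 0 := by
    intro i hi
    have hi' := Finset.mem_range.1 hi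
    rw [if_neg]
    rw [Sym2.mem_iff]
    rintro (h | h)
    · exact (hs.mem u).1 hu i (by omega) h
    · exact (hs.mem u).1 hu (i + 1) (by omega) h
  have h4 : ∀ x ∈ P, (if u ∈ s(x, v (a x)) then F s(x, v (a x)) else 0) =
      if x = u then F s(u, v (a u)) else 0 := by
    intro x hx
    have h5 := hs.att x hx
    by_cases hxu : x = u
    · subst hxu
      simp
    · rw [if_neg hxu, if_neg]
      rw [Sym2.mem_iff]
      rintro (h | h)
      · exact hxu h.symm
      · exact (hs.mem u).1 hu (a x) (by omega) h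
  rw [Finset.sum_congr rfl h3, Finset.sum_congr rfl h4, Finset.sum_ite_eq', if_pos hu,
    Finset.sum_const_zero, zero_add]

private theorem g3_vertex (hs : IsSpine G k v P a) (u : V) :
    u ∈ P ∨ u = v 0 ∨ u = v (k + 1) ∨ ∃ j, 1 ≤ j ∧ j ≤ k ∧ u = v j := by
  by_cases hu : u ∈ P
  · exact Or.inl hu
  · have h : ¬ ∀ i, i ≤ k + 1 → u ≠ v i := fun h => hu ((hs.mem u).2 h)
    push Not at h
    obtain ⟨i, hi, rfl⟩ := h
    rcases Nat.eq_zero_or_pos i with h0 | h0
    · exact Or.inr (Or.inl (by rw [h0]))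
    · rcases Nat.lt_or_ge k i with h1 | h1
      · have : i = k + 1 := by omega
        exact Or.inr (Or.inr (Or.inl (by rw [this])))
      · exact Or.inr (Or.inr (Or.inr ⟨i, h0, h1, rfl⟩))

private theorem g3_degree (u : V) :
    G.degree u = ∑ e ∈ G.edgeFinset.filter (fun e => u ∈ e), (1 : ℕ) := by
  rw [← SimpleGraph.card_incidenceFinset_eq_degree, SimpleGraph.incidenceFinset_eq_filter,
    Finset.card_eq_sum_ones]

end

/-- Chunk G3. Assembly of the labelling of the graph from the spine data: label the edge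
`s(v (i-1), v i)` with `l i` and the edge `s(x, v (a x))` with `g x`. The degree of `v i`
(`1 ≤ i ≤ k`) is two plus the number of `x ∈ P` with `a x = i`, all other degrees are one. The
vertex sum of `v i` is `spSum`, of `v 0` it is `l 1`, of `v (k+1)` it is `l (k+1)`, of `x ∈ P` it
is `g x`. The number of edges is `k + 1 + P.card`. Use `pendants`. -/
theorem assemble (G : SimpleGraph V) [DecidableRel G.Adj] (k : ℕ) (hk : 1 ≤ k) (v : ℕ → V)
    (P : Finset V) (a : V → ℕ) (hs : IsSpine G k v P a)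
    (hc : Cert k P.card (fun i => ∃ x ∈ P, a x = i)) : IsStronglyAntimagic G := by
  classical
  obtain ⟨l, g, hl, hg, hli, hgi, hlg, hsp, hlf, hdeg⟩ := pendants k hk P a hs.att hc
  let f : Sym2 V → ℕ := fun e =>
    if h : ∃ i, i ≤ k ∧ e = s(v i, v (i + 1)) then l (Classical.choose h + 1)
    else if h' : ∃ x, x ∈ P ∧ e = s(x, v (a x)) then g (Classical.choose h') else 0
  have f1 : ∀ i, i ≤ k → f s(v i, v (i + 1)) = l (i + 1) := by
    intro i hi
    have h : ∃ i', i' ≤ k ∧ s(v i, v (i + 1)) = s(v i', v (i' + 1)) := ⟨i, hi, rfl⟩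
    have h1 : f s(v i, v (i + 1)) = l (Classical.choose h + 1) := dif_pos h
    rw [h1]
    have h2 := Classical.choose_spec h
    rw [← g3_spine_inj hs hi h2.1 h2.2]
  have f2 : ∀ x, x ∈ P → f s(x, v (a x)) = g x := by
    intro x hx
    have h : ¬ ∃ i', i' ≤ k ∧ s(x, v (a x)) = s(v i', v (i' + 1)) := by
      rintro ⟨i, hi, h⟩
      exact g3_ne hs hi hx h.symm
    have h' : ∃ y, y ∈ P ∧ s(x, v (a x)) = s(y, v (a y)) := ⟨x, hx, rfl⟩
    have h1 : f s(x, v (a x)) = g (Classical.choose h') := by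
      show (if h : ∃ i', i' ≤ k ∧ s(x, v (a x)) = s(v i', v (i' + 1)) then _ else _) = _
      rw [dif_neg h, dif_pos h']
    rw [h1]
    have h2 := Classical.choose_spec h'
    rw [← g3_pend_inj hs hx h2.1 h2.2]
  have hE := g3_edges hs
  have hcard : G.edgeFinset.card = k + 1 + P.card := by
    rw [hE, Finset.card_union_of_disjoint (g3_disj hs), Finset.card_image_of_injOn,
      Finset.card_image_of_injOn, Finset.card_range]
    · intro x hx y hy h
      exact g3_pend_inj hs hx hy h
    · intro i hi j hj h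
      have h1 := Finset.mem_range.1 (Finset.mem_coe.1 hi)
      have h2 := Finset.mem_range.1 (Finset.mem_coe.1 hj)
      exact g3_spine_inj hs (by omega) (by omega) h
  have hcases : ∀ e ∈ G.edgeFinset, (∃ i, i ≤ k ∧ e = s(v i, v (i + 1))) ∨
      ∃ x, x ∈ P ∧ e = s(x, v (a x)) := by
    intro e he
    rw [hE, Finset.mem_union, Finset.mem_image, Finset.mem_image] at he
    rcases he with ⟨i, hi, rfl⟩ | ⟨x, hx, rfl⟩
    · exact Or.inl ⟨i, by have := Finset.mem_range.1 hi; omega, rfl⟩
    · exact Or.inr ⟨x, hx, rfl⟩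
  have hmaps : ∀ e ∈ G.edgeFinset, f e ∈ Finset.Icc 1 G.edgeFinset.card := by
    intro e he
    rw [Finset.mem_Icc, hcard]
    rcases hcases e he with ⟨i, hi, rfl⟩ | ⟨x, hx, rfl⟩
    · rw [f1 i hi]
      exact hl (i + 1) (by omega) (by omega)
    · rw [f2 x hx]
      exact hg x hx
  have hinj : ∀ e ∈ G.edgeFinset, ∀ e' ∈ G.edgeFinset, f e = f e' → e = e' := by
    intro e he e' he' h
    rcases hcases e he with ⟨i, hi, rfl⟩ | ⟨x, hx, rfl⟩ <;>
      rcases hcases e' he' with ⟨j, hj, rfl⟩ | ⟨y, hy, rfl⟩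
    · rw [f1 i hi, f1 j hj] at h
      have := hli (i + 1) (j + 1) (by omega) (by omega) (by omega) (by omega) h
      have h2 : i = j := by omega
      rw [h2]
    · rw [f1 i hi, f2 y hy] at h
      exact absurd h (hlg y hy (i + 1) (by omega) (by omega))
    · rw [f2 x hx, f1 j hj] at h
      exact absurd h.symm (hlg x hx (j + 1) (by omega) (by omega))
    · rw [f2 x hx, f2 y hy] at h
      rw [hgi x hx y hy h]
  have himg : G.edgeFinset.image f = Finset.Icc 1 G.edgeFinset.card := by
    refine Finset.eq_of_subset_of_card_le ?_ ?_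
    · intro y hy
      obtain ⟨e, he, rfl⟩ := Finset.mem_image.1 hy
      exact hmaps e he
    · rw [Finset.card_image_of_injOn (fun e he e' he' h => hinj e he e' he' h)]
      simp
  -- vertex sums
  have v1 : ∀ j, 1 ≤ j → j ≤ k → vsum G f (v j) = spSum P a l g j := by
    intro j h1 h2
    unfold vsum spSum
    rw [g3_sum_mid hs f h1 h2, f1 (j - 1) (by omega), f1 j h2]
    have h3 : j - 1 + 1 = j := by omega
    rw [h3]
    congr 1
    exact Finset.sum_congr rfl fun x hx => f2 x (Finset.mem_filter.1 hx).1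
  have v2 : vsum G f (v 0) = l 1 := by
    unfold vsum
    rw [g3_sum_first hs f, f1 0 (by omega)]
  have v3 : vsum G f (v (k + 1)) = l (k + 1) := by
    unfold vsum
    rw [g3_sum_last hs f, f1 k le_rfl]
  have v4 : ∀ x ∈ P, vsum G f x = g x := by
    intro x hx
    unfold vsum
    rw [g3_sum_pend hs f hx, f2 x hx]
  -- degrees
  have d1 : ∀ j, 1 ≤ j → j ≤ k → G.degree (v j) = 2 + (P.filter (fun x => a x = j)).card := by
    intro j h1 h2
    rw [g3_degree, g3_sum_mid hs (fun _ => 1) h1 h2, Finset.card_eq_sum_ones]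
  have d2 : G.degree (v 0) = 1 := by rw [g3_degree, g3_sum_first hs (fun _ => 1)]
  have d3 : G.degree (v (k + 1)) = 1 := by rw [g3_degree, g3_sum_last hs (fun _ => 1)]
  have d4 : ∀ x ∈ P, G.degree x = 1 := by
    intro x hx
    rw [g3_degree, g3_sum_pend hs (fun _ => 1) hx]
  refine ⟨f, ⟨?_, ?_, ?_⟩, ?_, ?_⟩
  · intro e he
    have h := hmaps e (SimpleGraph.mem_edgeFinset.2 he)
    rw [Finset.mem_Icc] at h
    exact h
  · intro e he e' he' h
    exact hinj e (SimpleGraph.mem_edgeFinset.2 he) e' (SimpleGraph.mem_edgeFinset.2 he') h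
  · intro y hy
    have h : y ∈ G.edgeFinset.image f := by
      rw [himg, Finset.mem_Icc]
      exact hy
    obtain ⟨e, he, h2⟩ := Finset.mem_image.1 h
    exact ⟨e, SimpleGraph.mem_edgeFinset.1 he, h2⟩
  · intro x y hxy
    rcases g3_vertex hs x with hx | rfl | rfl | ⟨i, hi1, hi2, rfl⟩ <;>
      rcases g3_vertex hs y with hy | rfl | rfl | ⟨j, hj1, hj2, rfl⟩
    · rw [v4 x hx, v4 y hy] at hxy
      exact hgi x hx y hy hxy
    · rw [v4 x hx, v2] at hxy
      exact absurd hxy.symm (hlg x hx 1 le_rfl (by omega))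
    · rw [v4 x hx, v3] at hxy
      exact absurd hxy.symm (hlg x hx (k + 1) (by omega) le_rfl)
    · rw [v4 x hx, v1 j hj1 hj2] at hxy
      have := (hlf j hj1 hj2).2.2 x hx
      omega
    · rw [v4 y hy, v2] at hxy
      exact absurd hxy (hlg y hy 1 le_rfl (by omega))
    · rfl
    · rw [v2, v3] at hxy
      have := hli 1 (k + 1) le_rfl (by omega) (by omega) le_rfl hxy
      omega
    · rw [v2, v1 j hj1 hj2] at hxy
      have := (hlf j hj1 hj2).1
      omega
    · rw [v4 y hy, v3] at hxy
      exact absurd hxy (hlg y hy (k + 1) (by omega) le_rfl)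
    · rw [v2, v3] at hxy
      have := hli 1 (k + 1) le_rfl (by omega) (by omega) le_rfl hxy.symm
      omega
    · rfl
    · rw [v3, v1 j hj1 hj2] at hxy
      have := (hlf j hj1 hj2).2.1
      omega
    · rw [v1 i hi1 hi2, v4 y hy] at hxy
      have := (hlf i hi1 hi2).2.2 y hy
      omega
    · rw [v1 i hi1 hi2, v2] at hxy
      have := (hlf i hi1 hi2).1
      omega
    · rw [v1 i hi1 hi2, v3] at hxy
      have := (hlf i hi1 hi2).2.1
      omega
    · rw [v1 i hi1 hi2, v1 j hj1 hj2] at hxy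
      rw [hsp i j hi1 hi2 hj1 hj2 hxy]
  · intro x y hxy
    rcases g3_vertex hs y with hy | rfl | rfl | ⟨j, hj1, hj2, rfl⟩
    · exfalso
      rw [d4 y hy] at hxy
      rcases g3_vertex hs x with hx | rfl | rfl | ⟨i, hi1, hi2, rfl⟩
      · rw [d4 x hx] at hxy
        omega
      · rw [d2] at hxy
        omega
      · rw [d3] at hxy
        omega
      · rw [d1 i hi1 hi2] at hxy
        omega
    · exfalso
      rw [d2] at hxy
      rcases g3_vertex hs x with hx | rfl | rfl | ⟨i, hi1, hi2, rfl⟩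
      · rw [d4 x hx] at hxy
        omega
      · rw [d2] at hxy
        omega
      · rw [d3] at hxy
        omega
      · rw [d1 i hi1 hi2] at hxy
        omega
    · exfalso
      rw [d3] at hxy
      rcases g3_vertex hs x with hx | rfl | rfl | ⟨i, hi1, hi2, rfl⟩
      · rw [d4 x hx] at hxy
        omega
      · rw [d2] at hxy
        omega
      · rw [d3] at hxy
        omega
      · rw [d1 i hi1 hi2] at hxy
        omega
    · rw [v1 j hj1 hj2]
      rcases g3_vertex hs x with hx | rfl | rfl | ⟨i, hi1, hi2, rfl⟩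
      · rw [v4 x hx]
        exact (hlf j hj1 hj2).2.2 x hx
      · rw [v2]
        exact (hlf j hj1 hj2).1
      · rw [v3]
        exact (hlf j hj1 hj2).2.1
      · rw [d1 i hi1 hi2, d1 j hj1 hj2] at hxy
        rw [v1 i hi1 hi2]
        exact hdeg i j hi1 hi2 hj1 hj2 (by omega)

end H92SA
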