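import Mathlib

/-!
MP_fa3428_co: every caterpillar with at least three vertices is strongly antimagic.
Graph level definitions.
-/

namespace H92SA

variable {V : Type*}

/-- A caterpillar is a tree with a path such that every vertex lies on the path or is adjacent
to a vertex of the path. -/
def IsCaterpillar (G : SimpleGraph V) : Prop :=
  G.IsTree ∧ ∃ (a b : V) (p : G.Walk a b), p.IsPath ∧
    ∀ x : V, x ∈ p.support ∨ ∃ y ∈ p.support, G.Adj x y

/-- The vertex sum: the sum of the labels `f e` over the edges `e` incident to `v`. -/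
def vsum [Fintype V] [DecidableEq V] (G : SimpleGraph V) [DecidableRel G.Adj]
    (f : Sym2 V → ℕ) (v : V) : ℕ :=
  ∑ e ∈ G.edgeFinset.filter (fun e => v ∈ e), f e

/-- Strongly antimagic: there is a bijection from the edges onto `1, ..., m` whose vertex sums are
pairwise distinct and strictly increase with the degree. -/
def IsStronglyAntimagic [Fintype V] [DecidableEq V] (G : SimpleGraph V) [DecidableRel G.Adj] :
    Prop :=
  ∃ f : Sym2 V → ℕ, Set.BijOn f G.edgeSet (Set.Icc 1 G.edgeFinset.card) ∧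
    Function.Injective (vsum G f) ∧ ∀ u v : V, G.degree u < G.degree v → vsum G f u < vsum G f v

/-- A spine: the vertices `v 0, ..., v (k+1)` form a path, `P` is the set of all other vertices and
every `x` in `P` is a leaf hanging at the interior spine vertex `v (a x)`. -/
structure IsSpine (G : SimpleGraph V) (k : ℕ) (v : ℕ → V) (P : Finset V) (a : V → ℕ) : Prop where
  inj : ∀ i j, i ≤ k + 1 → j ≤ k + 1 → v i = v j → i = j
  mem : ∀ x, x ∈ P ↔ ∀ i, i ≤ k + 1 → x ≠ v i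
  att : ∀ x ∈ P, 1 ≤ a x ∧ a x ≤ k
  adj : ∀ x y, G.Adj x y ↔
    (∃ i, i ≤ k ∧ ((x = v i ∧ y = v (i + 1)) ∨ (y = v i ∧ x = v (i + 1)))) ∨
      (x ∈ P ∧ y = v (a x)) ∨ (y ∈ P ∧ x = v (a y))

/-- The certificate for a labelling of the spine. The spine vertices are `1, ..., k`, the spine
edges have labels `l 1, ..., l (k+1)` (edge `i` joins the spine vertices `i-1` and `i`), `M` is the
number of pendant edges, `T i` says that spine vertex `i` has degree at least three. All unused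
labels lie between `u` and `K`. -/
def Cert (k M : ℕ) (T : ℕ → Prop) : Prop :=
  ∃ (l : ℕ → ℕ) (K u : ℕ),
    (∀ i, 1 ≤ i → i ≤ k + 1 → 1 ≤ l i ∧ l i ≤ k + 1 + M) ∧
    (∀ i j, 1 ≤ i → i ≤ k + 1 → 1 ≤ j → j ≤ k + 1 → l i = l j → i = j) ∧
    (∀ y, 1 ≤ y → y ≤ k + 1 + M → (∀ i, 1 ≤ i → i ≤ k + 1 → l i ≠ y) → u ≤ y ∧ y ≤ K) ∧
    l 1 ≤ K ∧ l (k + 1) ≤ K ∧
    (∀ i, 1 ≤ i → i ≤ k → ¬ T i → K < l i + l (i + 1)) ∧
    (∀ i j, 1 ≤ i → i ≤ k → ¬ T i → 1 ≤ j → j ≤ k → ¬ T j →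
      l i + l (i + 1) = l j + l (j + 1) → i = j) ∧
    (∀ i, 1 ≤ i → i ≤ k → T i → K ≤ l i + l (i + 1)) ∧
    (∀ i j, 1 ≤ i → i ≤ k → ¬ T i → 1 ≤ j → j ≤ k → T j →
      l i + l (i + 1) < l j + l (j + 1) + u) ∧
    (∀ i j, 1 ≤ i → i ≤ k → T i → 1 ≤ j → j ≤ k → T j →
      l i + l (i + 1) ≤ l j + l (j + 1) + u + 1)

/-- the final vertex sum of the interior spine vertex `i` -/
def spSum (P : Finset V) (a : V → ℕ) (l : ℕ → ℕ) (g : V → ℕ) (i : ℕ) : ℕ :=
  l i + l (i + 1) + ∑ x ∈ P.filter (fun x => a x = i), g x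

end H92SA
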