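import Pool.Agent.Lib.H92SA.Graph
import Pool.Agent.Lib.H92SA.Core

namespace H92SA

/-- an injective map from `n` points into an interval of length `n` is onto -/
theorem K1_surj (n a : ℕ) (g : ℕ → ℕ) (hr : ∀ i, i < n → a + 1 ≤ g i ∧ g i ≤ a + n)
    (hinj : ∀ i j, i < n → j < n → g i = g j → i = j) (y : ℕ) (h1 : a + 1 ≤ y) (h2 : y ≤ a + n) :
    ∃ i, i < n ∧ g i = y := by
  have hsub : (Finset.range n).image g ⊆ Finset.Icc (a + 1) (a + n) := by
    intro y hy
    obtain ⟨i, hi, rfl⟩ := Finset.mem_image.1 hy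
    exact Finset.mem_Icc.2 (hr i (Finset.mem_range.1 hi))
  have hcard : ((Finset.range n).image g).card = n := by
    rw [Finset.card_image_of_injOn, Finset.card_range]
    intro i hi j hj hij
    exact hinj i j (Finset.mem_range.1 hi) (Finset.mem_range.1 hj) hij
  have heq : (Finset.range n).image g = Finset.Icc (a + 1) (a + n) := by
    apply Finset.eq_of_subset_of_card_le hsub
    rw [hcard, Nat.card_Icc]
    omega
  have hy : y ∈ (Finset.range n).image g := by
    rw [heq]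
    exact Finset.mem_Icc.2 ⟨h1, h2⟩
  obtain ⟨i, hi, hiy⟩ := Finset.mem_image.1 hy
  exact ⟨i, Finset.mem_range.1 hi, hiy⟩

/-- all ranks `1, ..., h` are used by the even edges -/
theorem K1_even {h : ℕ} {f : ℕ → ℕ} (hev : ∀ e, e < 2 * h - 1 → e % 2 = 0 → 1 ≤ f e ∧ f e ≤ h)
    (hinj : ∀ e e', e < 2 * h - 1 → e' < 2 * h - 1 → e % 2 = e' % 2 → f e = f e' → e = e')
    (y : ℕ) (h1 : 1 ≤ y) (h2 : y ≤ h) : ∃ e, e < 2 * h - 1 ∧ e % 2 = 0 ∧ f e = y := by
  obtain ⟨i, hi, hy⟩ := K1_surj h 0 (fun i => f (2 * i))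
    (fun i hi => by
      have := hev (2 * i) (by omega) (by omega)
      show 0 + 1 ≤ f (2 * i) ∧ f (2 * i) ≤ 0 + h
      omega)
    (fun i j hi hj hij => by
      have := hinj (2 * i) (2 * j) (by omega) (by omega) (by omega) hij
      omega) y (by omega) (by omega)
  exact ⟨2 * i, by omega, by omega, hy⟩

/-- all ranks `1, ..., h - 1` are used by the odd edges -/
theorem K1_odd {h : ℕ} {f : ℕ → ℕ}
    (hod : ∀ e, e < 2 * h - 1 → e % 2 = 1 → 1 ≤ f e ∧ f e ≤ h - 1)
    (hinj : ∀ e e', e < 2 * h - 1 → e' < 2 * h - 1 → e % 2 = e' % 2 → f e = f e' → e = e')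
    (y : ℕ) (h1 : 1 ≤ y) (h2 : y ≤ h - 1) : ∃ e, e < 2 * h - 1 ∧ e % 2 = 1 ∧ f e = y := by
  obtain ⟨i, hi, hy⟩ := K1_surj (h - 1) 0 (fun i => f (2 * i + 1))
    (fun i hi => by
      have := hod (2 * i + 1) (by omega) (by omega)
      show 0 + 1 ≤ f (2 * i + 1) ∧ f (2 * i + 1) ≤ 0 + (h - 1)
      omega)
    (fun i j hi hj hij => by
      have := hinj (2 * i + 1) (2 * j + 1) (by omega) (by omega) (by omega) hij
      omega) y (by omega) (by omega)
  exact ⟨2 * i + 1, by omega, by omega, hy⟩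

/-- Chunk K1: `K = h + M`, `u = h + 1`, `l i = f (i - 1)` for `i` odd and `K + f (i - 1)` for `i` even. The
even edges of the core use all of `1, ..., h`, the odd ones all of `1, ..., h - 1`. -/
theorem cert_even (h M ε : ℕ) (hh : 2 ≤ h) (low : ℕ → Bool) (T : ℕ → Prop) (f : ℕ → ℕ)
    (hT : ∀ j, 1 ≤ j → j < 2 * h - 1 → (T j ↔ low (j - 1) ≠ low j))
    (hc : CoreO h ε low f) : Cert (2 * h - 2) M T := by
  obtain ⟨hε, hev, hod, hinj, hdist, hS, hTu⟩ := hc
  have hl1 : ∀ i, i % 2 = 1 → (fun i => if i % 2 = 1 then f (i - 1) else h + M + f (i - 1)) i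
      = f (i - 1) := fun i hi => if_pos hi
  have hl2 : ∀ i, i % 2 = 0 → (fun i => if i % 2 = 1 then f (i - 1) else h + M + f (i - 1)) i
      = h + M + f (i - 1) := fun i hi => if_neg (by omega)
  generalize (fun i => if i % 2 = 1 then f (i - 1) else h + M + f (i - 1)) = l at hl1 hl2
  have hbase : ∀ i, 1 ≤ i → l i + l (i + 1) = h + M + (f (i - 1) + f i) := by
    intro i hi
    rcases Nat.mod_two_eq_zero_or_one i with h0 | h0
    · rw [hl2 i h0, hl1 (i + 1) (by omega)]
      show _ + f (i + 1 - 1) = _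
      rw [Nat.add_sub_cancel]
      omega
    · rw [hl1 i h0, hl2 (i + 1) (by omega)]
      show _ + (_ + f (i + 1 - 1)) = _
      rw [Nat.add_sub_cancel]
      omega
  have hSJ : ∀ i, 1 ≤ i → i ≤ 2 * h - 2 → ¬ T i → SJ h low i := by
    intro i h1 h2 h3
    rw [hT i h1 (by omega), not_not] at h3
    exact ⟨h1, by omega, h3⟩
  have hTJ : ∀ i, 1 ≤ i → i ≤ 2 * h - 2 → T i → TJ h low i := by
    intro i h1 h2 h3
    rw [hT i h1 (by omega)] at h3
    exact ⟨h1, by omega, h3⟩
  have hrange : ∀ e, e < 2 * h - 1 → 1 ≤ f e ∧ f e ≤ h := by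
    intro e he
    rcases Nat.mod_two_eq_zero_or_one e with h0 | h0
    · exact hev e he h0
    · have := hod e he h0
      omega
  have hsum : ∀ i, 1 ≤ i → i ≤ 2 * h - 2 → f (i - 1) + f i ≤ 2 * h - 1 := by
    intro i h1 h2
    rcases Nat.mod_two_eq_zero_or_one i with h0 | h0
    · have a1 := hev i (by omega) h0
      have a2 := hod (i - 1) (by omega) (by omega)
      omega
    · have a1 := hod i (by omega) h0
      have a2 := hev (i - 1) (by omega) (by omega)
      omega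
  refine ⟨l, h + M, h + 1, ?_, ?_, ?_, ?_, ?_, ?_, ?_, ?_, ?_, ?_⟩
  · intro i h1 h2
    rcases Nat.mod_two_eq_zero_or_one i with h0 | h0
    · rw [hl2 i h0]
      have := hod (i - 1) (by omega) (by omega)
      omega
    · rw [hl1 i h0]
      have := hev (i - 1) (by omega) (by omega)
      omega
  · intro i j hi1 hi2 hj1 hj2 hij
    have ai := hrange (i - 1) (by omega)
    have aj := hrange (j - 1) (by omega)
    rcases Nat.mod_two_eq_zero_or_one i with h0 | h0 <;>
      rcases Nat.mod_two_eq_zero_or_one j with h0' | h0'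
    · rw [hl2 i h0, hl2 j h0'] at hij
      have := hinj (i - 1) (j - 1) (by omega) (by omega) (by omega) (by omega)
      omega
    · rw [hl2 i h0, hl1 j h0'] at hij
      omega
    · rw [hl1 i h0, hl2 j h0'] at hij
      omega
    · rw [hl1 i h0, hl1 j h0'] at hij
      have := hinj (i - 1) (j - 1) (by omega) (by omega) (by omega) (by omega)
      omega
  · intro y hy1 hy2 hun
    constructor
    · by_contra hcon
      obtain ⟨e, he, he0, hey⟩ := K1_even hev hinj y hy1 (by omega)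
      apply hun (e + 1) (by omega) (by omega)
      rw [hl1 (e + 1) (by omega), Nat.add_sub_cancel]
      exact hey
    · by_contra hcon
      obtain ⟨e, he, he0, hey⟩ := K1_odd hod hinj (y - (h + M)) (by omega) (by omega)
      apply hun (e + 1) (by omega) (by omega)
      rw [hl2 (e + 1) (by omega), Nat.add_sub_cancel]
      omega
  · rw [hl1 1 (by omega)]
    have := hev 0 (by omega) (by omega)
    show f 0 ≤ _
    omega
  · rw [hl1 (2 * h - 2 + 1) (by omega)]
    have := hrange (2 * h - 2 + 1 - 1) (by omega)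
    omega
  · intro i h1 h2 _
    rw [hbase i h1]
    have := hrange i (by omega)
    omega
  · intro i j hi1 hi2 hi3 hj1 hj2 hj3 hij
    rw [hbase i hi1, hbase j hj1] at hij
    exact hdist i j (hSJ i hi1 hi2 hi3) (hSJ j hj1 hj2 hj3) (by omega)
  · intro i h1 h2 _
    rw [hbase i h1]
    omega
  · intro i j hi1 hi2 hi3 hj1 hj2 hj3
    rw [hbase i hi1, hbase j hj1]
    have a1 := hS i (hSJ i hi1 hi2 hi3)
    have a2 := hTu j (hTJ j hj1 hj2 hj3)
    omega
  · intro i j hi1 hi2 hi3 hj1 hj2 hj3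
    rw [hbase i hi1, hbase j hj1]
    have a1 := hsum i hi1 hi2
    have a2 := hTu j (hTJ j hj1 hj2 hj3)
    omega

/-- Chunk K1: star. `l 1 = M + 2`, `l 2 = M + 1`, `K = M + 2`, `u = 1`. -/
theorem cert_star (M : ℕ) (T : ℕ → Prop) (hT : T 1) (hM : 1 ≤ M) : Cert 1 M T := by
  have key : ∀ i, 1 ≤ i → i ≤ 1 → i = 1 := fun i h1 h2 => by omega
  refine ⟨fun i => if i = 1 then M + 2 else M + 1, M + 2, 1, ?_, ?_, ?_, ?_, ?_, ?_, ?_, ?_, ?_, ?_⟩
  · intro i h1 h2
    show 1 ≤ (if i = 1 then M + 2 else M + 1) ∧ (if i = 1 then M + 2 else M + 1) ≤ 1 + 1 + M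
    split_ifs <;> omega
  · intro i j hi1 hi2 hj1 hj2 hij
    simp only at hij
    split_ifs at hij <;> omega
  · intro y h1 h2 _
    omega
  · show (if 1 = 1 then M + 2 else M + 1) ≤ M + 2
    simp
  · show (if 1 + 1 = 1 then M + 2 else M + 1) ≤ M + 2
    simp
  · intro i h1 h2 h3
    rw [key i h1 h2] at h3
    exact absurd hT h3
  · intro i j h1 h2 h3
    rw [key i h1 h2] at h3
    exact absurd hT h3
  · intro i h1 h2 _
    rw [key i h1 h2]
    simp
  · intro i j h1 h2 h3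
    rw [key i h1 h2] at h3
    exact absurd hT h3
  · intro i j h1 h2 _ h3 h4 _
    rw [key i h1 h2, key j h3 h4]
    omega

/-- Chunk K1: reflection. -/
theorem cert_reflect (k M : ℕ) (hk : 1 ≤ k) (T : ℕ → Prop)
    (h : Cert k M (fun i => T (k + 1 - i))) : Cert k M T := by
  obtain ⟨l, K, u, c1, c2, c3, c4, c5, c6, c7, c8, c9, c10⟩ := h
  have hb : ∀ i, 1 ≤ i → i ≤ k →
      l (k + 2 - i) + l (k + 2 - (i + 1)) = l (k + 1 - i) + l (k + 1 - i + 1) := by
    intro i h1 h2
    have e1 : k + 2 - i = k + 1 - i + 1 := by omega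
    have e2 : k + 2 - (i + 1) = k + 1 - i := by omega
    rw [e1, e2]
    omega
  have hTT : ∀ i, 1 ≤ i → i ≤ k → (T (k + 1 - (k + 1 - i)) ↔ T i) := by
    intro i h1 h2
    have : k + 1 - (k + 1 - i) = i := by omega
    rw [this]
  refine ⟨fun i => l (k + 2 - i), K, u, ?_, ?_, ?_, ?_, ?_, ?_, ?_, ?_, ?_, ?_⟩
  · intro i h1 h2
    exact c1 (k + 2 - i) (by omega) (by omega)
  · intro i j hi1 hi2 hj1 hj2 hij
    have := c2 (k + 2 - i) (k + 2 - j) (by omega) (by omega) (by omega) (by omega) hij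
    omega
  · intro y h1 h2 h3
    apply c3 y h1 h2
    intro i hi1 hi2
    have := h3 (k + 2 - i) (by omega) (by omega)
    have e : k + 2 - (k + 2 - i) = i := by omega
    simp only [e] at this
    exact this
  · show l (k + 2 - 1) ≤ K
    have e : k + 2 - 1 = k + 1 := by omega
    rw [e]
    exact c5
  · show l (k + 2 - (k + 1)) ≤ K
    have e : k + 2 - (k + 1) = 1 := by omega
    rw [e]
    exact c4
  · intro i h1 h2 h3
    show K < l (k + 2 - i) + l (k + 2 - (i + 1))
    rw [hb i h1 h2]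
    exact c6 (k + 1 - i) (by omega) (by omega) (fun hh => h3 ((hTT i h1 h2).1 hh))
  · intro i j hi1 hi2 hi3 hj1 hj2 hj3 hij
    have hij' : l (k + 2 - i) + l (k + 2 - (i + 1)) = l (k + 2 - j) + l (k + 2 - (j + 1)) := hij
    rw [hb i hi1 hi2, hb j hj1 hj2] at hij'
    have := c7 (k + 1 - i) (k + 1 - j) (by omega) (by omega) (fun hh => hi3 ((hTT i hi1 hi2).1 hh))
      (by omega) (by omega) (fun hh => hj3 ((hTT j hj1 hj2).1 hh)) hij'
    omega
  · intro i h1 h2 h3
    show K ≤ l (k + 2 - i) + l (k + 2 - (i + 1))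
    rw [hb i h1 h2]
    exact c8 (k + 1 - i) (by omega) (by omega) ((hTT i h1 h2).2 h3)
  · intro i j hi1 hi2 hi3 hj1 hj2 hj3
    show l (k + 2 - i) + l (k + 2 - (i + 1)) < l (k + 2 - j) + l (k + 2 - (j + 1)) + u
    rw [hb i hi1 hi2, hb j hj1 hj2]
    exact c9 (k + 1 - i) (k + 1 - j) (by omega) (by omega) (fun hh => hi3 ((hTT i hi1 hi2).1 hh))
      (by omega) (by omega) ((hTT j hj1 hj2).2 hj3)
  · intro i j hi1 hi2 hi3 hj1 hj2 hj3
    show l (k + 2 - i) + l (k + 2 - (i + 1)) ≤ l (k + 2 - j) + l (k + 2 - (j + 1)) + u + 1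
    rw [hb i hi1 hi2, hb j hj1 hj2]
    exact c10 (k + 1 - i) (k + 1 - j) (by omega) (by omega) ((hTT i hi1 hi2).2 hi3)
      (by omega) (by omega) ((hTT j hj1 hj2).2 hj3)

end H92SA
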