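import Pool.Agent.Lib.H92SA.Graph
import Pool.Agent.Lib.H92SA.Core
import Pool.Agent.Lib.H92SA.K1

namespace H92SA

/-- Common form of the cases E0, E, B: `l 1 = p`, `l 2 = q`, `l (2 * h + 2) = r`,
and for `3 ≤ i ≤ 2 * h + 1`: `l i = K + f (i - 3)` for `i` odd, `l i = f (i - 3)` for `i` even. -/
theorem K2_gen (h M : ℕ) (hh : 1 ≤ h) (low : ℕ → Bool) (T : ℕ → Prop) (f : ℕ → ℕ)
    (hT : ∀ j, 1 ≤ j → j < 2 * h - 1 → (T (j + 2) ↔ low (j - 1) ≠ low j))
    (h1 : T 1) (hk : T (2 * h + 1)) (K u p q r a b c : ℕ)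
    (hev : ∀ e, e < 2 * h - 1 → e % 2 = 0 → 1 ≤ f e ∧ K + f e ≤ 2 * h + 2 + M ∧
      K + f e ≠ p ∧ K + f e ≠ q ∧ K + f e ≠ r)
    (hod : ∀ e, e < 2 * h - 1 → e % 2 = 1 → 1 ≤ f e ∧ f e ≤ K ∧ f e ≤ 2 * h + 2 + M ∧
      f e ≠ p ∧ f e ≠ q ∧ f e ≠ r)
    (hinj : ∀ e e', e < 2 * h - 1 → e' < 2 * h - 1 → e % 2 = e' % 2 → f e = f e' → e = e')
    (hp : 1 ≤ p ∧ p ≤ K ∧ p ≤ 2 * h + 2 + M) (hq : 1 ≤ q ∧ q ≤ 2 * h + 2 + M)
    (hr : 1 ≤ r ∧ r ≤ K ∧ r ≤ 2 * h + 2 + M)
    (hpq : p ≠ q) (hpr : p ≠ r) (hqr : q ≠ r)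
    (hlow : ∀ y, 1 ≤ y → y < u →
      (∃ e, e < 2 * h - 1 ∧ e % 2 = 1 ∧ f e = y) ∨ y = p ∨ y = q ∨ y = r)
    (hhigh : ∀ y, K < y → y ≤ 2 * h + 2 + M →
      (∃ e, e < 2 * h - 1 ∧ e % 2 = 0 ∧ K + f e = y) ∨ y = p ∨ y = q ∨ y = r)
    (hdist : ∀ j j', SJ h low j → SJ h low j' → f (j - 1) + f j = f (j' - 1) + f j' → j = j')
    (hd2 : ¬ T 2 → ∀ j, SJ h low j → f (j - 1) + f j ≠ q + f 0)
    (hSa : ∀ j, SJ h low j → f (j - 1) + f j ≤ a) (h2a : ¬ T 2 → q + f 0 ≤ a)
    (hTb : ∀ j, TJ h low j → b ≤ f (j - 1) + f j) (h1b : K + b ≤ p + q)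
    (h2b : T 2 → b ≤ q + f 0) (hNb : b ≤ f (2 * h - 2) + r) (hab : a < b + u)
    (hTc : ∀ j, TJ h low j → f (j - 1) + f j ≤ c) (h1c : p + q ≤ K + c)
    (h2c : T 2 → q + f 0 ≤ c) (hNc : f (2 * h - 2) + r ≤ c) (hcb : c ≤ b + u + 1) :
    Cert (2 * h + 1) M T := by
  obtain ⟨l, l1, l2, lN, le, lo⟩ : ∃ l : ℕ → ℕ, l 1 = p ∧ l 2 = q ∧ l (2 * h + 2) = r ∧
      (∀ e, e < 2 * h - 1 → e % 2 = 0 → l (e + 3) = K + f e) ∧
      (∀ e, e < 2 * h - 1 → e % 2 = 1 → l (e + 3) = f e) := by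
    refine ⟨fun i => if i = 1 then p else if i = 2 then q else if i = 2 * h + 2 then r
      else if i % 2 = 1 then K + f (i - 3) else f (i - 3), ?_, ?_, ?_, ?_, ?_⟩
    · simp
    · simp
    · show (if 2 * h + 2 = 1 then p else if 2 * h + 2 = 2 then q else if 2 * h + 2 = 2 * h + 2 then r
        else _) = r
      rw [if_neg (by omega), if_neg (by omega), if_pos rfl]
    · intro e he h0
      show (if e + 3 = 1 then p else if e + 3 = 2 then q else if e + 3 = 2 * h + 2 then r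
        else if (e + 3) % 2 = 1 then K + f (e + 3 - 3) else f (e + 3 - 3)) = K + f e
      rw [if_neg (by omega), if_neg (by omega), if_neg (by omega), if_pos (by omega),
        Nat.add_sub_cancel]
    · intro e he h0
      show (if e + 3 = 1 then p else if e + 3 = 2 then q else if e + 3 = 2 * h + 2 then r
        else if (e + 3) % 2 = 1 then K + f (e + 3 - 3) else f (e + 3 - 3)) = f e
      rw [if_neg (by omega), if_neg (by omega), if_neg (by omega), if_neg (by omega),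
        Nat.add_sub_cancel]
  -- the edges
  have edge : ∀ i, 1 ≤ i → i ≤ 2 * h + 2 → (i = 1 ∧ l i = p) ∨ (i = 2 ∧ l i = q) ∨
      (i = 2 * h + 2 ∧ l i = r) ∨
      (∃ e, e < 2 * h - 1 ∧ e % 2 = 0 ∧ i = e + 3 ∧ l i = K + f e) ∨
      (∃ e, e < 2 * h - 1 ∧ e % 2 = 1 ∧ i = e + 3 ∧ l i = f e) := by
    intro i hi1 hi2
    by_cases a1 : i = 1
    · left; rw [a1]; exact ⟨rfl, l1⟩
    by_cases a2 : i = 2
    · right; left; rw [a2]; exact ⟨rfl, l2⟩
    by_cases a3 : i = 2 * h + 2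
    · right; right; left; rw [a3]; exact ⟨rfl, lN⟩
    obtain ⟨e, rfl⟩ : ∃ e, i = e + 3 := ⟨i - 3, by omega⟩
    rcases Nat.mod_two_eq_zero_or_one e with h0 | h0
    · right; right; right; left
      exact ⟨e, by omega, h0, rfl, le e (by omega) h0⟩
    · right; right; right; right
      exact ⟨e, by omega, h0, rfl, lo e (by omega) h0⟩
  -- the vertices
  have b1 : l 1 + l (1 + 1) = p + q := by rw [l1]; show p + l 2 = _; rw [l2]
  have b2 : l 2 + l (2 + 1) = K + (q + f 0) := by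
    rw [l2]
    have := le 0 (by omega) (by omega)
    show q + l (0 + 3) = _
    rw [this]
    omega
  have bN : l (2 * h + 1) + l (2 * h + 1 + 1) = K + (f (2 * h - 2) + r) := by
    have e1 : 2 * h + 1 = (2 * h - 2) + 3 := by omega
    have e2 := le (2 * h - 2) (by omega) (by omega)
    rw [← e1] at e2
    rw [e2, lN]
    omega
  have bj : ∀ j, 1 ≤ j → j < 2 * h - 1 → l (j + 2) + l (j + 2 + 1) = K + (f (j - 1) + f j) := by
    intro j hj1 hj2
    have e1 : j + 2 = (j - 1) + 3 := by omega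
    have e2 : j + 2 + 1 = j + 3 := by omega
    rw [e2]
    rcases Nat.mod_two_eq_zero_or_one j with h0 | h0
    · have f1 := le j hj2 h0
      have f2 := lo (j - 1) (by omega) (by omega)
      rw [← e1] at f2
      rw [f1, f2]
      omega
    · have f1 := lo j hj2 h0
      have f2 := le (j - 1) (by omega) (by omega)
      rw [← e1] at f2
      rw [f1, f2]
      omega
  have vert : ∀ i, 1 ≤ i → i ≤ 2 * h + 1 → i = 1 ∨ i = 2 ∨ i = 2 * h + 1 ∨
      ∃ j, 1 ≤ j ∧ j < 2 * h - 1 ∧ i = j + 2 := by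
    intro i hi1 hi2
    by_cases a1 : i = 1
    · left; exact a1
    by_cases a2 : i = 2
    · right; left; exact a2
    by_cases a3 : i = 2 * h + 1
    · right; right; left; exact a3
    right; right; right
    exact ⟨i - 2, by omega, by omega, by omega⟩
  -- straight vertices
  have vS : ∀ i, 1 ≤ i → i ≤ 2 * h + 1 → ¬ T i → (i = 2 ∧ l i + l (i + 1) = K + (q + f 0) ∧ ¬ T 2) ∨
      ∃ j, SJ h low j ∧ i = j + 2 ∧ l i + l (i + 1) = K + (f (j - 1) + f j) := by
    intro i hi1 hi2 hi3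
    rcases vert i hi1 hi2 with rfl | rfl | rfl | ⟨j, hj1, hj2, rfl⟩
    · exact absurd h1 hi3
    · left; exact ⟨rfl, b2, hi3⟩
    · exact absurd hk hi3
    · right
      rw [hT j hj1 hj2, not_not] at hi3
      exact ⟨j, ⟨hj1, hj2, hi3⟩, rfl, bj j hj1 hj2⟩
  -- bounds for the turning vertices
  have vT : ∀ i, 1 ≤ i → i ≤ 2 * h + 1 → T i → K + b ≤ l i + l (i + 1) ∧ l i + l (i + 1) ≤ K + c := by
    intro i hi1 hi2 hi3
    rcases vert i hi1 hi2 with rfl | rfl | rfl | ⟨j, hj1, hj2, rfl⟩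
    · rw [b1]; exact ⟨h1b, h1c⟩
    · rw [b2]
      have e1 := h2b hi3
      have e2 := h2c hi3
      omega
    · rw [bN]
      omega
    · rw [bj j hj1 hj2]
      rw [hT j hj1 hj2] at hi3
      have e1 := hTb j ⟨hj1, hj2, hi3⟩
      have e2 := hTc j ⟨hj1, hj2, hi3⟩
      omega
  have hf0 := hev 0 (by omega) (by omega)
  refine ⟨l, K, u, ?_, ?_, ?_, ?_, ?_, ?_, ?_, ?_, ?_, ?_⟩
  · intro i hi1 hi2
    rcases edge i hi1 hi2 with ⟨_, e⟩ | ⟨_, e⟩ | ⟨_, e⟩ | ⟨e', he, h0, _, e⟩ | ⟨e', he, h0, _, e⟩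
    · omega
    · omega
    · omega
    · have := hev e' he h0
      omega
    · have := hod e' he h0
      omega
  · intro i j hi1 hi2 hj1 hj2 hij
    rcases edge i hi1 hi2 with ⟨x1, e⟩ | ⟨x1, e⟩ | ⟨x1, e⟩ | ⟨e', he, h0, x1, e⟩ | ⟨e', he, h0, x1, e⟩
      <;> rcases edge j hj1 hj2 with
        ⟨x2, d⟩ | ⟨x2, d⟩ | ⟨x2, d⟩ | ⟨d', hd, h0', x2, d⟩ | ⟨d', hd, h0', x2, d⟩ <;>
      rw [e, d] at hij
    · omega
    · omega
    · omega
    · have := hev d' hd h0'; omega
    · have := hod d' hd h0'; omega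
    · omega
    · omega
    · omega
    · have := hev d' hd h0'; omega
    · have := hod d' hd h0'; omega
    · omega
    · omega
    · omega
    · have := hev d' hd h0'; omega
    · have := hod d' hd h0'; omega
    · have := hev e' he h0; omega
    · have := hev e' he h0; omega
    · have := hev e' he h0; omega
    · have := hinj e' d' he hd (by omega) (by omega); omega
    · have := hev e' he h0; have := hod d' hd h0'; omega
    · have := hod e' he h0; omega
    · have := hod e' he h0; omega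
    · have := hod e' he h0; omega
    · have := hev d' hd h0'; have := hod e' he h0; omega
    · have := hinj e' d' he hd (by omega) (by omega); omega
  · intro y hy1 hy2 hun
    have hu1 := hun 1 (by omega) (by omega)
    have hu2 := hun 2 (by omega) (by omega)
    have huN := hun (2 * h + 2) (by omega) (by omega)
    constructor
    · by_contra hcon
      rcases hlow y hy1 (by omega) with ⟨e, he, h0, hey⟩ | hy | hy | hy
      · apply hun (e + 3) (by omega) (by omega)
        rw [lo e he h0]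
        exact hey
      · omega
      · omega
      · omega
    · by_contra hcon
      rcases hhigh y (by omega) (by omega) with ⟨e, he, h0, hey⟩ | hy | hy | hy
      · apply hun (e + 3) (by omega) (by omega)
        rw [le e he h0]
        exact hey
      · omega
      · omega
      · omega
  · omega
  · have e1 : 2 * h + 1 + 1 = 2 * h + 2 := by omega
    rw [e1]
    omega
  · intro i hi1 hi2 hi3
    rcases vS i hi1 hi2 hi3 with ⟨_, e, _⟩ | ⟨j, hj, _, e⟩
    · omega
    · have : 1 ≤ f j := by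
        rcases Nat.mod_two_eq_zero_or_one j with h0 | h0
        · exact (hev j hj.2.1 h0).1
        · exact (hod j hj.2.1 h0).1
      omega
  · intro i j hi1 hi2 hi3 hj1 hj2 hj3 hij
    rcases vS i hi1 hi2 hi3 with ⟨x1, e, t1⟩ | ⟨i', hi', x1, e⟩ <;>
      rcases vS j hj1 hj2 hj3 with ⟨x2, d, t2⟩ | ⟨j', hj', x2, d⟩ <;> rw [e, d] at hij
    · omega
    · have := hd2 t1 j' hj'; omega
    · have := hd2 t2 i' hi'; omega
    · have := hdist i' j' hi' hj' (by omega); omega
  · intro i hi1 hi2 hi3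
    have := vT i hi1 hi2 hi3
    omega
  · intro i j hi1 hi2 hi3 hj1 hj2 hj3
    have t := vT j hj1 hj2 hj3
    rcases vS i hi1 hi2 hi3 with ⟨_, e, t1⟩ | ⟨i', hi', _, e⟩
    · have := h2a t1; omega
    · have := hSa i' hi'; omega
  · intro i j hi1 hi2 hi3 hj1 hj2 hj3
    have t := vT j hj1 hj2 hj3
    have t' := vT i hi1 hi2 hi3
    omega

/-- the sum of two neighbours -/
theorem K2_sum {h : ℕ} {f : ℕ → ℕ} (hev : ∀ e, e < 2 * h - 1 → e % 2 = 0 → 1 ≤ f e ∧ f e ≤ h)
    (hod : ∀ e, e < 2 * h - 1 → e % 2 = 1 → 1 ≤ f e ∧ f e ≤ h - 1) (j : ℕ) (h1 : 1 ≤ j)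
    (h2 : j < 2 * h - 1) : f (j - 1) + f j ≤ 2 * h - 1 := by
  rcases Nat.mod_two_eq_zero_or_one j with h0 | h0
  · have a1 := hev j (by omega) h0
    have a2 := hod (j - 1) (by omega) (by omega)
    omega
  · have a1 := hod j (by omega) h0
    have a2 := hev (j - 1) (by omega) (by omega)
    omega

/-- Chunk K2, case E0: `K = h + M + 2`, `u = h + 2`, `l 1 = K`, `l 2 = h`, `l (2 * h + 2) = h + 1`,
and for `3 ≤ i ≤ 2 * h + 1`: `l i = K + f (i - 3)` for `i` odd, `l i = f (i - 3)` for `i` even. -/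
theorem cert_E0 (h M ε : ℕ) (hh : 1 ≤ h) (low : ℕ → Bool) (T : ℕ → Prop) (f : ℕ → ℕ)
    (hT : ∀ j, 1 ≤ j → j < 2 * h - 1 → (T (j + 2) ↔ low (j - 1) ≠ low j))
    (h1 : T 1) (h2 : T 2) (hk : T (2 * h + 1))
    (hc : CoreO h ε low f) : Cert (2 * h + 1) M T := by
  obtain ⟨hε, hev, hod, hinj, hdist, hS, hTu⟩ := hc
  have hf0 := hev 0 (by omega) (by omega)
  have hfN := hev (2 * h - 2) (by omega) (by omega)
  refine K2_gen h M hh low T f hT h1 hk (h + M + 2) (h + 2) (h + M + 2) h (h + 1)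
    (2 * h - 2 + ε) (h + ε - 1) (2 * h + 1) ?_ ?_ hinj ?_ ?_ ?_ ?_ ?_ ?_ ?_ ?_ hdist ?_ ?_ ?_ ?_ ?_ ?_
    ?_ ?_ ?_ ?_ ?_ ?_ ?_
  · intro e he h0
    have := hev e he h0
    omega
  · intro e he h0
    have := hod e he h0
    omega
  · omega
  · omega
  · omega
  · omega
  · omega
  · omega
  · intro y hy1 hy2
    by_cases hy : y ≤ h - 1
    · left
      exact K1_odd hod hinj y hy1 hy
    · omega
  · intro y hy1 hy2
    left
    obtain ⟨e, he, h0, hey⟩ := K1_even hev hinj (y - (h + M + 2)) (by omega) (by omega)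
    exact ⟨e, he, h0, by omega⟩
  · intro h2'
    exact absurd h2 h2'
  · intro j hj
    have := hS j hj
    omega
  · intro h2'
    exact absurd h2 h2'
  · intro j hj
    have := hTu j hj
    omega
  · omega
  · intro _
    omega
  · omega
  · omega
  · intro j hj
    have := K2_sum hev hod j hj.1 hj.2.1
    omega
  · omega
  · intro _
    omega
  · omega
  · omega

/-- Chunk K2, case E: `K = h + M + 2`, `l 1 = K`, `s = max (2 * h - 1 + ε) (h + f 0)`, `l 2 = s - f 0`,
`l (2 * h + 2) = h + 1` and `u = h + 2` if `s - f 0 = h`, and `h`, `u = h + 1` otherwise; the other labels as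
in case E0. -/
theorem cert_E (h M ε : ℕ) (hh : 1 ≤ h) (low : ℕ → Bool) (T : ℕ → Prop) (f : ℕ → ℕ)
    (hT : ∀ j, 1 ≤ j → j < 2 * h - 1 → (T (j + 2) ↔ low (j - 1) ≠ low j))
    (h1 : T 1) (h2 : ¬ T 2) (hk : T (2 * h + 1))
    (hc : CoreO h ε low f) (hy : h + ε ≤ f 0 + M + 2) : Cert (2 * h + 1) M T := by
  obtain ⟨hε, hev, hod, hinj, hdist, hS, hTu⟩ := hc
  have hf0 := hev 0 (by omega) (by omega)
  have hfN := hev (2 * h - 2) (by omega) (by omega)
  by_cases hcase : 2 * h - 1 + ε ≤ h + f 0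
  · -- `s = h + f 0`, `q = h`
    refine K2_gen h M hh low T f hT h1 hk (h + M + 2) (h + 2) (h + M + 2) h (h + 1)
      (h + f 0) (h + ε - 1) (2 * h + 1) ?_ ?_ hinj ?_ ?_ ?_ ?_ ?_ ?_ ?_ ?_ hdist ?_ ?_ ?_ ?_ ?_ ?_
      ?_ ?_ ?_ ?_ ?_ ?_ ?_
    · intro e he h0
      have := hev e he h0
      omega
    · intro e he h0
      have := hod e he h0
      omega
    · omega
    · omega
    · omega
    · omega
    · omega
    · omega
    · intro y hy1 hy2
      by_cases hy : y ≤ h - 1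
      · left
        exact K1_odd hod hinj y hy1 hy
      · omega
    · intro y hy1 hy2
      left
      obtain ⟨e, he, h0, hey⟩ := K1_even hev hinj (y - (h + M + 2)) (by omega) (by omega)
      exact ⟨e, he, h0, by omega⟩
    · intro _ j hj
      have := hS j hj
      omega
    · intro j hj
      have := hS j hj
      omega
    · intro _
      omega
    · intro j hj
      have := hTu j hj
      omega
    · omega
    · intro _
      omega
    · omega
    · omega
    · intro j hj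
      have := K2_sum hev hod j hj.1 hj.2.1
      omega
    · omega
    · intro _
      omega
    · omega
    · omega
  · -- `s = 2 h - 1 + ε`
    refine K2_gen h M hh low T f hT h1 hk (h + M + 2) (h + 1) (h + M + 2) (2 * h - 1 + ε - f 0) h
      (2 * h - 1 + ε) (h + ε - 1) (2 * h) ?_ ?_ hinj ?_ ?_ ?_ ?_ ?_ ?_ ?_ ?_ hdist ?_ ?_ ?_ ?_ ?_ ?_
      ?_ ?_ ?_ ?_ ?_ ?_ ?_
    · intro e he h0
      have := hev e he h0
      omega
    · intro e he h0
      have := hod e he h0
      omega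
    · omega
    · omega
    · omega
    · omega
    · omega
    · omega
    · intro y hy1 hy2
      by_cases hy : y ≤ h - 1
      · left
        exact K1_odd hod hinj y hy1 hy
      · omega
    · intro y hy1 hy2
      left
      obtain ⟨e, he, h0, hey⟩ := K1_even hev hinj (y - (h + M + 2)) (by omega) (by omega)
      exact ⟨e, he, h0, by omega⟩
    · intro _ j hj
      have := hS j hj
      omega
    · intro j hj
      have := hS j hj
      omega
    · intro _
      omega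
    · intro j hj
      have := hTu j hj
      omega
    · omega
    · intro _
      omega
    · omega
    · omega
    · intro j hj
      have := K2_sum hev hod j hj.1 hj.2.1
      omega
    · omega
    · intro _
      omega
    · omega
    · omega

end H92SA
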