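import Pool.Agent.Lib.H92SA.Graph
import Pool.Agent.Lib.H92SA.Core
import Pool.Agent.Lib.H92SA.K2

namespace H92SA

/-- `n - 1` distinct numbers and one more in an interval of length `n` fill the interval -/
theorem K3_surj1 (n : ℕ) (g : ℕ → ℕ) (c : ℕ) (hr : ∀ i, i < n → 1 ≤ g i ∧ g i ≤ n + 1 ∧ g i ≠ c)
    (hinj : ∀ i j, i < n → j < n → g i = g j → i = j) (hc : 1 ≤ c ∧ c ≤ n + 1)
    (y : ℕ) (h1 : 1 ≤ y) (h2 : y ≤ n + 1) : (∃ i, i < n ∧ g i = y) ∨ y = c := by
  obtain ⟨i, hi, hy⟩ := K1_surj (n + 1) 0 (fun i => if i = n then c else g i)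
    (fun i hi => by
      show 0 + 1 ≤ (if i = n then c else g i) ∧ (if i = n then c else g i) ≤ 0 + (n + 1)
      split_ifs with h
      · omega
      · have := hr i (by omega)
        omega)
    (fun i j hi hj hij => by
      split_ifs at hij with h h' h'
      · omega
      · have := hr j (by omega)
        omega
      · have := hr i (by omega)
        omega
      · exact hinj i j (by omega) (by omega) hij) y (by omega) (by omega)
  split_ifs at hy with h
  · right; exact hy.symm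
  · left; exact ⟨i, by omega, hy⟩

/-- Chunk K3, case B: `K = h + 1 + M`, `u = h + 2`, `l 1 = e1`, `l 2 = K + c`, `l (2 * h + 2) = eN`,
and for `3 ≤ i ≤ 2 * h + 1`: `l i = K + f (i - 3)` for `i` odd, `l i = f (i - 3)` for `i` even. -/
theorem cert_B (h M : ℕ) (hh : 1 ≤ h) (low : ℕ → Bool) (T : ℕ → Prop)
    (hT : ∀ j, 1 ≤ j → j < 2 * h - 1 → (T (j + 2) ↔ low (j - 1) ≠ low j))
    (h1 : T 1) (h2 : ¬ T 2) (hk : T (2 * h + 1))
    (hc : CoreB h M low) : Cert (2 * h + 1) M T := by
  obtain ⟨c, v, e1, eN, f, hc1, hc2, he1, he1', heN, heN', hne, hv, hev, hod, hinj, hnv, hdist,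
    halt, hec, hfe⟩ := hc
  have hf0 := hev 0 (by omega) (by omega)
  have hfN := hev (2 * h - 2) (by omega) (by omega)
  -- all ranks are used
  have huseE : ∀ y, 1 ≤ y → y ≤ h + 1 → (∃ e, e < 2 * h - 1 ∧ e % 2 = 0 ∧ f e = y) ∨ y = c := by
    intro y hy1 hy2
    rcases K3_surj1 h (fun i => f (2 * i)) c
      (fun i hi => by
        have := hev (2 * i) (by omega) (by omega)
        exact this)
      (fun i j hi hj hij => by
        have := hinj (2 * i) (2 * j) (by omega) (by omega) (by omega) hij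
        omega) ⟨hc1, hc2⟩ y hy1 hy2 with ⟨i, hi, hy⟩ | hy
    · left; exact ⟨2 * i, by omega, by omega, hy⟩
    · right; exact hy
  have huseO : ∀ y, 1 ≤ y → y ≤ h + 1 →
      (∃ e, e < 2 * h - 1 ∧ e % 2 = 1 ∧ f e = y) ∨ y = e1 ∨ y = eN := by
    intro y hy1 hy2
    rcases K3_surj1 h (fun i => if i = h - 1 then eN else f (2 * i + 1)) e1
      (fun i hi => by
        show 1 ≤ (if i = h - 1 then eN else f (2 * i + 1)) ∧
          (if i = h - 1 then eN else f (2 * i + 1)) ≤ h + 1 ∧
          (if i = h - 1 then eN else f (2 * i + 1)) ≠ e1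
        split_ifs with hi'
        · omega
        · have := hod (2 * i + 1) (by omega) (by omega)
          omega)
      (fun i j hi hj hij => by
        split_ifs at hij with hi' hj' hj'
        · omega
        · have := hod (2 * j + 1) (by omega) (by omega)
          omega
        · have := hod (2 * i + 1) (by omega) (by omega)
          omega
        · have := hinj (2 * i + 1) (2 * j + 1) (by omega) (by omega) (by omega) hij
          omega) ⟨he1, he1'⟩ y hy1 hy2 with ⟨i, hi, hy⟩ | hy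
    · split_ifs at hy with hi'
      · right; right; exact hy.symm
      · left; exact ⟨2 * i + 1, by omega, by omega, hy⟩
    · right; left; exact hy
  have hsum : ∀ j, 1 ≤ j → j < 2 * h - 1 → f (j - 1) + f j ≤ 2 * h + 2 := by
    intro j hj1 hj2
    rcases Nat.mod_two_eq_zero_or_one j with h0 | h0
    · have a1 := hev j (by omega) h0
      have a2 := hod (j - 1) (by omega) (by omega)
      omega
    · have a1 := hod j (by omega) h0
      have a2 := hev (j - 1) (by omega) (by omega)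
      omega
  -- the two alternatives
  obtain ⟨a, b, hab, hbh, hb1, hTb, hva, hSa⟩ : ∃ a b, a < b + (h + 2) ∧ b ≤ h ∧ h ≤ b + 1 ∧
      (∀ j, TJ h low j → b ≤ f (j - 1) + f j) ∧ v ≤ a ∧ ∀ j, SJ h low j → f (j - 1) + f j ≤ a := by
    rcases halt with ⟨t1, t2, t3⟩ | ⟨t1, t2, t3⟩
    · exact ⟨2 * h + 1, h, by omega, by omega, by omega, t1, t2, t3⟩
    · refine ⟨2 * h, h - 1, by omega, by omega, by omega, fun j hj => ?_, t2, t3⟩
      have := t1 j hj
      omega
  refine K2_gen h M hh low T f hT h1 hk (h + 1 + M) (h + 2) e1 (h + 1 + M + c) eN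
    a b (2 * h + 2) ?_ ?_ hinj ?_ ?_ ?_ ?_ ?_ ?_ ?_ ?_ hdist ?_ hSa ?_ hTb ?_ ?_ ?_ hab
    ?_ ?_ ?_ ?_ ?_
  · intro e he h0
    have := hev e he h0
    omega
  · intro e he h0
    have := hod e he h0
    omega
  · omega
  · omega
  · omega
  · omega
  · omega
  · omega
  · intro y hy1 hy2
    rcases huseO y hy1 (by omega) with hy | hy | hy
    · left; exact hy
    · right; left; exact hy
    · right; right; right; exact hy
  · intro y hy1 hy2
    rcases huseE (y - (h + 1 + M)) (by omega) (by omega) with ⟨e, he, h0, hy⟩ | hy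
    · left; exact ⟨e, he, h0, by omega⟩
    · right; right; left; omega
  · intro _ j hj
    have := hnv j hj
    omega
  · intro _
    omega
  · omega
  · intro h2'
    exact absurd h2' h2
  · omega
  · intro j hj
    exact hsum j hj.1 hj.2.1
  · omega
  · intro h2'
    exact absurd h2' h2
  · omega
  · omega

/-- Chunk K3, case F1: `K = h + M + 1`, `l 1 = c`, and for `2 ≤ i ≤ 2 * h`: `l i = f (i - 2)` for `i` even,
`l i = K + f (i - 2)` for `i` odd; `u = h + 2` if `c ≤ h + 1` and `u = h + 1` otherwise. Note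
`s ≤ f 0`. -/
theorem cert_Z (h M : ℕ) (hh : 1 ≤ h) (low : ℕ → Bool) (T : ℕ → Prop)
    (hT : ∀ j, 1 ≤ j → j < 2 * h - 1 → (T (j + 1) ↔ low (j - 1) ≠ low j))
    (h1 : ¬ T 1) (hc : CoreZ h M low) : Cert (2 * h - 1) M T := by
  obtain ⟨c, s, f, hc1, hc2, hs, hcs, hev, hod, hinj, hns, hdist, hTu⟩ := hc
  have hf0 := hev 0 (by omega) (by omega)
  have hfN := hev (2 * h - 2) (by omega) (by omega)
  obtain ⟨l, l1, le, lo⟩ : ∃ l : ℕ → ℕ, l 1 = c ∧
      (∀ e, e < 2 * h - 1 → e % 2 = 0 → l (e + 2) = f e) ∧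
      (∀ e, e < 2 * h - 1 → e % 2 = 1 → l (e + 2) = h + M + 1 + f e) := by
    refine ⟨fun i => if i = 1 then c
      else if i % 2 = 0 then f (i - 2) else h + M + 1 + f (i - 2), ?_, ?_, ?_⟩
    · simp
    · intro e he h0
      show (if e + 2 = 1 then c
        else if (e + 2) % 2 = 0 then f (e + 2 - 2) else h + M + 1 + f (e + 2 - 2)) = f e
      rw [if_neg (by omega), if_pos (by omega), Nat.add_sub_cancel]
    · intro e he h0
      show (if e + 2 = 1 then c
        else if (e + 2) % 2 = 0 then f (e + 2 - 2) else h + M + 1 + f (e + 2 - 2))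
          = h + M + 1 + f e
      rw [if_neg (by omega), if_neg (by omega), Nat.add_sub_cancel]
  have edge : ∀ i, 1 ≤ i → i ≤ 2 * h → (i = 1 ∧ l i = c) ∨
      (∃ e, e < 2 * h - 1 ∧ e % 2 = 0 ∧ i = e + 2 ∧ l i = f e) ∨
      (∃ e, e < 2 * h - 1 ∧ e % 2 = 1 ∧ i = e + 2 ∧ l i = h + M + 1 + f e) := by
    intro i hi1 hi2
    by_cases a1 : i = 1
    · left; rw [a1]; exact ⟨rfl, l1⟩
    obtain ⟨e, rfl⟩ : ∃ e, i = e + 2 := ⟨i - 2, by omega⟩
    rcases Nat.mod_two_eq_zero_or_one e with h0 | h0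
    · right; left
      exact ⟨e, by omega, h0, rfl, le e (by omega) h0⟩
    · right; right
      exact ⟨e, by omega, h0, rfl, lo e (by omega) h0⟩
  have b1 : l 1 + l (1 + 1) = h + M + 1 + s := by
    have := le 0 (by omega) (by omega)
    show l 1 + l (0 + 2) = _
    rw [this, l1]
    exact hcs
  have bj : ∀ j, 1 ≤ j → j < 2 * h - 1 →
      l (j + 1) + l (j + 1 + 1) = h + M + 1 + (f (j - 1) + f j) := by
    intro j hj1 hj2
    have e1 : j + 1 = (j - 1) + 2 := by omega
    have e2 : j + 1 + 1 = j + 2 := by omega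
    rw [e2]
    rcases Nat.mod_two_eq_zero_or_one j with h0 | h0
    · have f1 := le j hj2 h0
      have f2 := lo (j - 1) (by omega) (by omega)
      rw [← e1] at f2
      rw [f1, f2]
      omega
    · have f1 := lo j hj2 h0
      have f2 := le (j - 1) (by omega) (by omega)
      rw [← e1] at f2
      rw [f1, f2]
      omega
  have vS : ∀ i, 1 ≤ i → i ≤ 2 * h - 1 → ¬ T i → (i = 1 ∧ l i + l (i + 1) = h + M + 1 + s) ∨
      ∃ j, SJ h low j ∧ i = j + 1 ∧ l i + l (i + 1) = h + M + 1 + (f (j - 1) + f j) := by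
    intro i hi1 hi2 hi3
    by_cases a1 : i = 1
    · left; rw [a1]; exact ⟨rfl, b1⟩
    · obtain ⟨j, rfl⟩ : ∃ j, i = j + 1 := ⟨i - 1, by omega⟩
      right
      rw [hT j (by omega) (by omega), not_not] at hi3
      exact ⟨j, ⟨by omega, by omega, hi3⟩, rfl, bj j (by omega) (by omega)⟩
  have hsum : ∀ j, 1 ≤ j → j < 2 * h - 1 →
      f (j - 1) + f j ≤ 2 * h ∧ (h + 1 < c → f (j - 1) + f j ≤ 2 * h - 1) := by
    intro j hj1 hj2
    rcases Nat.mod_two_eq_zero_or_one j with h0 | h0
    · have a1 := hev j (by omega) h0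
      have a2 := hod (j - 1) (by omega) (by omega)
      omega
    · have a1 := hod j (by omega) h0
      have a2 := hev (j - 1) (by omega) (by omega)
      omega
  have vT : ∀ i, 1 ≤ i → i ≤ 2 * h - 1 → T i → h + M + 1 + h ≤ l i + l (i + 1) + 1 ∧
      l i + l (i + 1) ≤ h + M + 1 + 2 * h := by
    intro i hi1 hi2 hi3
    by_cases a1 : i = 1
    · rw [a1] at hi3
      exact absurd hi3 h1
    · obtain ⟨j, rfl⟩ : ∃ j, i = j + 1 := ⟨i - 1, by omega⟩
      rw [hT j (by omega) (by omega)] at hi3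
      have e1 := hTu j ⟨by omega, by omega, hi3⟩
      have e2 := hsum j (by omega) (by omega)
      rw [bj j (by omega) (by omega)]
      omega
  have hsf : s ≤ f 0 := by omega
  -- all ranks are used
  have huseE : c ≤ h + 1 → ∀ y, 1 ≤ y → y ≤ h + 1 →
      (∃ e, e < 2 * h - 1 ∧ e % 2 = 0 ∧ f e = y) ∨ y = c := by
    intro hch y hy1 hy2
    rcases K3_surj1 h (fun i => f (2 * i)) c
      (fun i hi => by
        have := hev (2 * i) (by omega) (by omega)
        exact ⟨this.1, this.2.1, this.2.2.1⟩)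
      (fun i j hi hj hij => by
        have := hinj (2 * i) (2 * j) (by omega) (by omega) (by omega) hij
        omega) ⟨hc1, hch⟩ y hy1 hy2 with ⟨i, hi, hy⟩ | hy
    · left; exact ⟨2 * i, by omega, by omega, hy⟩
    · right; exact hy
  have huseE' : h + 1 < c → ∀ y, 1 ≤ y → y ≤ h →
      ∃ e, e < 2 * h - 1 ∧ e % 2 = 0 ∧ f e = y := by
    intro hch y hy1 hy2
    exact K1_even (fun e he h0 => ⟨(hev e he h0).1, (hev e he h0).2.2.2 hch⟩) hinj y hy1 hy2
  obtain ⟨u, hu⟩ : ∃ u, (c ≤ h + 1 ∧ u = h + 2) ∨ (h + 1 < c ∧ u = h + 1) := by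
    by_cases hch : c ≤ h + 1
    · exact ⟨h + 2, Or.inl ⟨hch, rfl⟩⟩
    · exact ⟨h + 1, Or.inr ⟨by omega, rfl⟩⟩
  have e2h : 2 * h - 1 + 1 = 2 * h := by omega
  refine ⟨l, h + M + 1, u, ?_, ?_, ?_, ?_, ?_, ?_, ?_, ?_, ?_, ?_⟩
  · intro i hi1 hi2
    rcases edge i hi1 (by omega) with ⟨_, e⟩ | ⟨e', he, h0, _, e⟩ | ⟨e', he, h0, _, e⟩
    · omega
    · have := hev e' he h0
      omega
    · have := hod e' he h0
      omega
  · intro i j hi1 hi2 hj1 hj2 hij
    rcases edge i hi1 (by omega) with ⟨x1, e⟩ | ⟨e', he, h0, x1, e⟩ | ⟨e', he, h0, x1, e⟩ <;>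
      rcases edge j hj1 (by omega) with
        ⟨x2, d⟩ | ⟨d', hd, h0', x2, d⟩ | ⟨d', hd, h0', x2, d⟩ <;>
      rw [e, d] at hij
    · omega
    · have := hev d' hd h0'; omega
    · have := hod d' hd h0'; omega
    · have := hev e' he h0; omega
    · have := hinj e' d' he hd (by omega) (by omega); omega
    · have := hev e' he h0; have := hod d' hd h0'; omega
    · have := hod e' he h0; omega
    · have := hev d' hd h0'; have := hod e' he h0; omega
    · have := hinj e' d' he hd (by omega) (by omega); omega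
  · intro y hy1 hy2 hun
    have hu1 := hun 1 (by omega) (by omega)
    constructor
    · by_contra hcon
      rcases hu with ⟨hch, rfl⟩ | ⟨hch, rfl⟩
      · rcases huseE hch y hy1 (by omega) with ⟨e, he, h0, hey⟩ | hy
        · apply hun (e + 2) (by omega) (by omega)
          rw [le e he h0]
          exact hey
        · omega
      · obtain ⟨e, he, h0, hey⟩ := huseE' hch y hy1 (by omega)
        apply hun (e + 2) (by omega) (by omega)
        rw [le e he h0]
        exact hey
    · by_contra hcon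
      obtain ⟨e, he, h0, hey⟩ := K1_odd hod hinj (y - (h + M + 1)) (by omega) (by omega)
      apply hun (e + 2) (by omega) (by omega)
      rw [lo e he h0]
      omega
  · omega
  · rw [e2h]
    have e1 : 2 * h = (2 * h - 2) + 2 := by omega
    have e2 := le (2 * h - 2) (by omega) (by omega)
    rw [← e1] at e2
    omega
  · intro i hi1 hi2 hi3
    rcases vS i hi1 hi2 hi3 with ⟨_, e⟩ | ⟨j, hj, _, e⟩
    · omega
    · have : 1 ≤ f j := by
        rcases Nat.mod_two_eq_zero_or_one j with h0 | h0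
        · exact (hev j hj.2.1 h0).1
        · exact (hod j hj.2.1 h0).1
      omega
  · intro i j hi1 hi2 hi3 hj1 hj2 hj3 hij
    rcases vS i hi1 hi2 hi3 with ⟨x1, e⟩ | ⟨i', hi', x1, e⟩ <;>
      rcases vS j hj1 hj2 hj3 with ⟨x2, d⟩ | ⟨j', hj', x2, d⟩ <;> rw [e, d] at hij
    · omega
    · have := hns j' hj'; omega
    · have := hns i' hi'; omega
    · have := hdist i' j' hi' hj' (by omega); omega
  · intro i hi1 hi2 hi3
    have := vT i hi1 hi2 hi3
    omega
  · intro i j hi1 hi2 hi3 hj1 hj2 hj3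
    have t := vT j hj1 hj2 hj3
    rcases vS i hi1 hi2 hi3 with ⟨_, e⟩ | ⟨i', hi', _, e⟩
    · omega
    · have := hsum i' hi'.1 hi'.2.1; omega
  · intro i j hi1 hi2 hi3 hj1 hj2 hj3
    have t := vT j hj1 hj2 hj3
    have t' := vT i hi1 hi2 hi3
    omega

end H92SA
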