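import Pool.Agent.Lib.H92SA.Lay

namespace H92SA

variable {h s t1 x : ℕ} {low : ℕ → Bool}

lemma l2_cl_succ (n s : ℕ) (low : ℕ → Bool) (t : ℕ) :
    cl n s low (t + 1) = cl n s low t + (if lc n s low t = true then 1 else 0) := by
  unfold cl
  rw [Finset.range_add_one, Finset.filter_insert]
  split_ifs with h1
  · rw [Finset.card_insert_of_notMem (by simp)]
  · rfl

lemma al_succ (n s : ℕ) (low : ℕ → Bool) (t1 t : ℕ) :
    al n s low t1 (t + 1) =
      al n s low t1 t + (if lc n s low t = true ∨ t1 ≤ t then 1 else 0) := by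
  unfold al
  have h1 := l2_cl_succ n s low t
  rcases lt_trichotomy t t1 with h2 | h2 | h2
  · rw [if_pos (by omega), if_pos (by omega), h1]
    by_cases h3 : lc n s low t = true
    · simp [h3]
    · simp [h3, h2]
  · subst h2
    rw [if_neg (by omega), if_pos le_rfl, if_pos (Or.inr le_rfl)]
    omega
  · rw [if_neg (by omega), if_neg (by omega), if_pos (Or.inr (by omega))]
    omega

lemma al_zero (n s : ℕ) (low : ℕ → Bool) (t1 : ℕ) : al n s low t1 0 = 0 := by
  unfold al
  rw [if_pos (Nat.zero_le _)]
  simp [cl]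

/-- `al` is monotone and grows at most by the step -/
lemma al_mono (n s : ℕ) (low : ℕ → Bool) (t1 : ℕ) {t t' : ℕ} (h : t ≤ t') :
    al n s low t1 t ≤ al n s low t1 t' ∧ al n s low t1 t' + t ≤ al n s low t1 t + t' := by
  induction t', h using Nat.le_induction with
  | base => exact ⟨le_rfl, le_rfl⟩
  | succ t' h ih =>
    rw [al_succ]
    split_ifs <;> omega

lemma al_le (n s : ℕ) (low : ℕ → Bool) (t1 t : ℕ) : al n s low t1 t ≤ t := by
  have := (al_mono n s low t1 (Nat.zero_le t)).2
  rw [al_zero] at this
  omega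

lemma ti_lt {n s e : ℕ} (hs : s < n) (he : e < n) : ti n s e < n := by
  unfold ti; split_ifs <;> omega

lemma ti_inj {n s e e' : ℕ} (he : e < n) (he' : e' < n) (h : ti n s e = ti n s e') :
    e = e' := by
  unfold ti at h; split_ifs at h <;> omega

lemma ei_ti {n s e : ℕ} (hs : s < n) (he : e < n) : ei n s (ti n s e) = e := by
  unfold ei ti; split_ifs <;> omega

lemma ti_ei {n s t : ℕ} (hs : s < n) (ht : t < n) : ti n s (ei n s t) = t := by
  unfold ei ti; split_ifs <;> omega

lemma lc_ti {n s e : ℕ} (low : ℕ → Bool) (hs : s < n) (he : e < n) :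
    lc n s low (ti n s e) = low e := by
  unfold lc; rw [ei_ti hs he]

/-- consecutive edges have consecutive cyclic indices unless the second one is the start -/
lemma ti_pred {n s j : ℕ} (hs : s < n) (h1 : 1 ≤ j) (h2 : j < n) (hjs : j ≠ s) :
    1 ≤ ti n s j ∧ ti n s (j - 1) = ti n s j - 1 ∧ ti n s j ≠ n - s := by
  unfold ti
  split_ifs <;> omega

/-- Chunk L2, first part: the positions of the edges stacked from the bottom are `al t + 1`
(strictly increasing in `t`), the other ones are `n - (t - al t)` (strictly decreasing). -/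
theorem posL_isPos (F : Frame h s low t1 x) : IsPos (2 * h - 1) (posL (2 * h - 1) s low t1) := by
  obtain ⟨n, hn⟩ : ∃ n, n = 2 * h - 1 := ⟨_, rfl⟩
  have hs := F.hs
  rw [← hn] at hs ⊢
  have key : ∀ t t', t < t' → t' < n →
      posC n s low t1 t ≠ posC n s low t1 t' := by
    intro t t' htt ht'
    have m1 := al_mono n s low t1 (show t + 1 ≤ t' from htt)
    have m2 := al_mono n s low t1 (show t' + 1 ≤ n from ht')
    have a1 := al_succ n s low t1 t
    have a2 := al_succ n s low t1 t'
    have b1 := al_le n s low t1 t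
    have b2 := al_le n s low t1 t'
    have b3 := al_le n s low t1 n
    unfold posC
    split_ifs at a1 a2 ⊢ with c1 c2 <;> omega
  constructor
  · intro e he
    have ht := ti_lt hs he
    have m2 := al_mono n s low t1 (show ti n s e + 1 ≤ n from ht)
    have a2 := al_succ n s low t1 (ti n s e)
    have b2 := al_le n s low t1 (ti n s e)
    have b3 := al_le n s low t1 n
    unfold posL posC
    split_ifs at a2 ⊢ <;> omega
  · intro e e' he he' hee
    have ht := ti_lt hs he
    have ht' := ti_lt hs he'
    rcases lt_trichotomy (ti n s e) (ti n s e') with h1 | h1 | h1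
    · exact absurd hee (key _ _ h1 ht')
    · exact ti_inj he he' h1
    · exact absurd hee.symm (key _ _ h1 ht)

/-- Chunk L2, second part. For `j ≠ s` the edges `j - 1` and `j` have consecutive cyclic indices
`t - 1` and `t` with `t = ti j ≥ 1`. If `t = t1` then `lc (t - 1) = false`, `lc t = true`, so the joint
is not straight. -/
theorem posL_adj (F : Frame h s low t1 x) : ∀ j, SJ h low j → j ≠ s →
    posL (2 * h - 1) s low t1 j = posL (2 * h - 1) s low t1 (j - 1) + 1 ∨
    posL (2 * h - 1) s low t1 (j - 1) = posL (2 * h - 1) s low t1 j + 1 := by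
  intro j hj hjs
  obtain ⟨hj1, hj2, hj3⟩ := hj
  have hs := F.hs
  obtain ⟨p1, p2, p3⟩ := ti_pred hs hj1 hj2 hjs
  have e1 := lc_ti low hs hj2
  have e2 := lc_ti low hs (show j - 1 < 2 * h - 1 by omega)
  have ht := ti_lt hs hj2
  have hxh := F.xh
  have hd := F.hd
  have hrun := F.run t1 le_rfl (by omega)
  unfold posL
  rw [p2] at e2 ⊢
  generalize ti (2 * h - 1) s j = t at *
  obtain ⟨t', rfl⟩ : ∃ t', t = t' + 1 := ⟨t - 1, by omega⟩
  rw [show t' + 1 - 1 = t' by omega] at e2 ⊢
  have a1 := al_succ (2 * h - 1) s low t1 t'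
  have b1 := al_le (2 * h - 1) s low t1 t'
  have b2 := al_le (2 * h - 1) s low t1 (t' + 1)
  have hll : lc (2 * h - 1) s low t' = lc (2 * h - 1) s low (t' + 1) := by rw [e1, e2, hj3]
  unfold posC
  by_cases ht1 : t' + 1 = t1
  · exfalso
    rcases hd with hd | hd
    · omega
    · have h1 : lc (2 * h - 1) s low t' = false := by
        rw [show t' = t1 - 1 by omega]; exact hd.2
      rw [hll, ht1, hrun] at h1
      exact absurd h1 (by simp)
  · by_cases hlc : lc (2 * h - 1) s low t' = true
    · have hlc' : lc (2 * h - 1) s low (t' + 1) = true := by rw [← hll]; exact hlc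
      rw [if_pos (Or.inl hlc)] at a1
      rw [if_pos (Or.inl hlc), if_pos (Or.inl hlc')]
      left; omega
    · have hlc' : ¬ lc (2 * h - 1) s low (t' + 1) = true := by rw [← hll]; exact hlc
      by_cases hge : t1 ≤ t'
      · rw [if_pos (Or.inr hge)] at a1
        rw [if_pos (Or.inr hge), if_pos (Or.inr (by omega))]
        left; omega
      · have c1 : ¬ (lc (2 * h - 1) s low t' = true ∨ t1 ≤ t') := by
          rintro (h5 | h5)
          · exact hlc h5
          · exact hge h5
        have c2 : ¬ (lc (2 * h - 1) s low (t' + 1) = true ∨ t1 ≤ t' + 1) := by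
          rintro (h5 | h5)
          · exact hlc' h5
          · omega
        rw [if_neg c1] at a1
        rw [if_neg c1, if_neg c2]
        right; omega

end H92SA
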