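import Pool.Agent.Lib.H92SA.PosLib

/-!
Definitions for the layout. The edges are read cyclically from a start edge `s`; `ti n s e` is the
cyclic index of the edge `e` and `ei n s t` is the edge with the cyclic index `t`.
-/

namespace H92SA

/-- cyclic index of the edge `e`, for the start `s` -/
def ti (n s e : ℕ) : ℕ := if e < s then e + (n - s) else e - s

/-- the edge with the cyclic index `t`, for the start `s` -/
def ei (n s t : ℕ) : ℕ := if s + t < n then s + t else s + t - n

/-- lowness in cyclic coordinates -/
def lc (n s : ℕ) (low : ℕ → Bool) (t : ℕ) : Bool := low (ei n s t)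

/-- number of low edges among the first `t` edges in cyclic order -/
def cl (n s : ℕ) (low : ℕ → Bool) (t : ℕ) : ℕ :=
  ((Finset.range t).filter (fun i => lc n s low i = true)).card

/-- A frame: `t1` is the beginning of the block of low edges in which the low height reaches `h`;
`x` is the low height at `t1`. -/
structure Frame (h s : ℕ) (low : ℕ → Bool) (t1 x : ℕ) : Prop where
  hs : s < 2 * h - 1
  hx : x = cl (2 * h - 1) s low t1
  xh : x < h
  le : t1 + (h - x) ≤ 2 * h - 1
  hd : t1 = 0 ∨ (1 ≤ t1 ∧ lc (2 * h - 1) s low (t1 - 1) = false)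
  run : ∀ t, t1 ≤ t → t < t1 + (h - x) → lc (2 * h - 1) s low t = true

/-- number of edges with cyclic index below `t` that are stacked from the bottom -/
def al (n s : ℕ) (low : ℕ → Bool) (t1 t : ℕ) : ℕ :=
  if t ≤ t1 then cl n s low t else cl n s low t1 + (t - t1)

/-- position of the edge with the cyclic index `t` -/
def posC (n s : ℕ) (low : ℕ → Bool) (t1 t : ℕ) : ℕ :=
  if lc n s low t = true ∨ t1 ≤ t then al n s low t1 t + 1 else n - (t - al n s low t1 t)

/-- the basic layout -/
def posL (n s : ℕ) (low : ℕ → Bool) (t1 : ℕ) (e : ℕ) : ℕ := posC n s low t1 (ti n s e)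

/-- number of edges of parity `b` with cyclic index at least `t` -/
def cge (n s b t : ℕ) : ℕ :=
  ((Finset.range n).filter (fun e => e % 2 = b ∧ t ≤ ti n s e)).card

end H92SA
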