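import Pool.Agent.Lib.H92SA.S2
import Pool.Agent.Lib.H92SA.C2
import Pool.Agent.Lib.H92SA.C3
import Pool.Agent.Lib.H92SA.C5
import Pool.Agent.Lib.H92SA.D3
import Pool.Agent.Lib.H92SA.D4
import Pool.Agent.Lib.H92SA.D5
import Pool.Agent.Lib.H92SA.D7

namespace H92SA

lemma d6_cl_succ (n s : ℕ) (low : ℕ → Bool) (t : ℕ) :
    cl n s low (t + 1) = cl n s low t + (if lc n s low t = true then 1 else 0) := by
  unfold cl
  rw [Finset.range_add_one, Finset.filter_insert]
  split_ifs with h1
  · rw [Finset.card_insert_of_notMem (by simp)]
  · rfl

lemma d6_cl_le (n s : ℕ) (low : ℕ → Bool) (t : ℕ) : cl n s low t ≤ t := by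
  unfold cl
  have := Finset.card_filter_le (Finset.range t) (fun i => lc n s low i = true)
  simpa using this

lemma d6_cl_mono (n s : ℕ) (low : ℕ → Bool) {t t' : ℕ} (h : t ≤ t') : cl n s low t ≤ cl n s low t' := by
  induction t', h using Nat.le_induction with
  | base => exact le_rfl
  | succ t' h ih =>
    rw [d6_cl_succ]
    omega

lemma d6_cl_all (n s : ℕ) (low : ℕ → Bool) (t : ℕ) (h : ∀ i, i < t → lc n s low i = true) :
    cl n s low t = t := by
  induction t with
  | zero => simp [cl]
  | succ t ih =>
    rw [d6_cl_succ, ih (fun i hi => h i (by omega)), if_pos (h t (by omega))]

lemma d6_cl_none (n s : ℕ) (low : ℕ → Bool) {t t' : ℕ} (htt : t ≤ t')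
    (h : ∀ i, t ≤ i → i < t' → lc n s low i = false) : cl n s low t' = cl n s low t := by
  induction t', htt using Nat.le_induction with
  | base => rfl
  | succ t' htt ih =>
    rw [d6_cl_succ, ih (fun i h1 h2 => h i h1 (by omega)), h t' htt (by omega)]
    simp

/-- Chunk D6: assembly of the layout theorem from `start`, `frame_exists`, the codes 1, 2, 3, 5 and the
lemmas `dir_*`, `rev_*`. -/
theorem layout (h : ℕ) (hh : 1 ≤ h) (low : ℕ → Bool) (hl : h ≤ lowCount (2 * h - 1) low) :
    Layout h low := by
  rcases start h hh low hl with W | ⟨s, s1, s2, l0, l1, l2, W⟩ | ⟨s, s1, s2, l0, l1, l2, W, nc⟩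
  · exact Or.inl (code1 hh W)
  · exact Or.inr (Or.inl (code2 hh s1 s2 l0 l1 l2 W))
  · have hs : s < 2 * h - 1 := by omega
    have W' : ∀ t, t ≤ 2 * h - 1 → t ≤ 2 * cl (2 * h - 1) s low t := by
      intro t ht
      rcases Nat.eq_zero_or_pos t with h0 | h0
      · omega
      · have := W t h0 ht
        omega
    obtain ⟨t1, x, F⟩ := frame_exists h s low hh hs (by rw [cl_full _ _ _ hs]; exact hl)
    rcases Nat.eq_zero_or_pos t1 with h0 | h0
    · subst h0
      exact Or.inl (code3 F hh s1 l1 W')
    · have lc0 : lc (2 * h - 1) s low 0 = true := by
        unfold lc ei
        rw [if_pos (by omega)]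
        simpa using l0
      have lc1 : lc (2 * h - 1) s low 1 = true := by
        unfold lc ei
        rw [if_pos (by omega)]
        exact l2
      by_cases hpat : ∃ a b, a < b ∧ b < t1 ∧ lc (2 * h - 1) s low a = false ∧ lc (2 * h - 1) s low b = true
      · -- the displaced arrangement
        right; right
        have hex : ∃ w, w = 2 * h - 1 - s ∨ lc (2 * h - 1) s low w = false := ⟨2 * h - 1 - s, Or.inl rfl⟩
        obtain ⟨w, hw, hmin⟩ : ∃ w, (w = 2 * h - 1 - s ∨ lc (2 * h - 1) s low w = false) ∧
            ∀ t, t < w → ¬ (t = 2 * h - 1 - s ∨ lc (2 * h - 1) s low t = false) :=
          ⟨Nat.find hex, Nat.find_spec hex, fun t ht => Nat.find_min hex ht⟩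
        have wlow : ∀ t, t < w → lc (2 * h - 1) s low t = true := by
          intro t ht
          have := hmin t ht
          push Not at this
          simpa using this.2
        have wn : w ≤ 2 * h - 1 - s := by
          by_contra hc
          exact hmin (2 * h - 1 - s) (by omega) (Or.inl rfl)
        have w2 : 2 ≤ w := by
          by_contra hc
          have : w = 0 ∨ w = 1 := by omega
          rcases this with h3 | h3
          · rw [h3] at hw
            rcases hw with h4 | h4
            · omega
            · rw [lc0] at h4; exact absurd h4 (by simp)
          · rw [h3] at hw
            rcases hw with h4 | h4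
            · omega
            · rw [lc1] at h4; exact absurd h4 (by simp)
        have D : DSet h s low t1 x w :=
          { F := F
            s1 := s1
            s2 := s2
            lows := l0
            lows' := l1
            lows1 := l2
            W := W
            nc := nc
            t1pos := h0
            w2 := w2
            wn := wn
            wlow := wlow
            wend := hw
            pat := hpat }
        obtain ⟨p1, p2, p3, p4, p5, p6⟩ := dir_pos D
        have top := dir_top D hh
        have hns : ∀ j, SJ h low j → j ≠ s := by
          rintro j ⟨-, -, hj⟩ rfl
          rw [l0, l1] at hj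
          exact absurd hj (by simp)
        refine ⟨s, x, w, posL (2 * h - 1) s low t1, posR (2 * h - 1) s low t1 w, ?_, ?_, rev_disp D hh,
          rev_zero D hh, (rev_counts D x (by omega)).1⟩
        · exact
            { isPos := posL_isPos F
              g1 := s1
              g2 := s2
              lowg := l0
              lowg' := l1
              lowg1 := l2
              posg := p1
              rkg1 := p3
              q1 := le_rfl
              posg1 := by rw [p2]; omega
              w2 := w2
              wx := p4
              xh := F.xh
              adj := fun j hj _ => posL_adj F j hj (hns j hj)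
              bdx := p5
              bdw := p6
              top := by
                intro j hj hjs
                rcases top with ht | ht
                · exact Or.inl (ht j hj hjs)
                · rcases ht.1 j hj hjs with h5 | h5
                  · exact Or.inl h5
                  · exact Or.inr (Or.inr h5)
              vst := dir_vst D hh }
        · exact
            { y2 := dir_y2 D hh
              t3 := dir_t3 D hh
              tt := by
                rcases top with ht | ht
                · exact Or.inl ht
                · exact Or.inr ht.2
              th := fun hs0 hj he => dir_th D hh hs0 hj he }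
      · -- code 5
        left
        have hpat' : ∀ t, t < t1 → (lc (2 * h - 1) s low t = true ↔ t < x) := by
          intro t ht
          rw [F.hx]
          constructor
          · intro htt
            have h1 : ∀ i, i < t + 1 → lc (2 * h - 1) s low i = true := by
              intro i hi
              by_contra hc
              have hc' : lc (2 * h - 1) s low i = false := by simpa using hc
              rcases Nat.lt_or_ge i t with h2 | h2
              · exact hpat ⟨i, t, h2, ht, hc', htt⟩
              · have : i = t := by omega
                rw [this] at hc
                exact hc htt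
            have h2 := d6_cl_all (2 * h - 1) s low (t + 1) h1
            have h3 := d6_cl_mono (2 * h - 1) s low (show t + 1 ≤ t1 from ht)
            omega
          · intro htx
            by_contra hc
            have hc' : lc (2 * h - 1) s low t = false := by simpa using hc
            have h1 : ∀ i, t ≤ i → i < t1 → lc (2 * h - 1) s low i = false := by
              intro i hi1 hi2
              by_contra hd
              have hd' : lc (2 * h - 1) s low i = true := by simpa using hd
              rcases Nat.lt_or_ge t i with h2 | h2
              · exact hpat ⟨t, i, h2, hi2, hc', hd'⟩
              · have : i = t := by omega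
                rw [this] at hd
                exact hd hc'
            have h2 := d6_cl_none (2 * h - 1) s low (show t ≤ t1 by omega) h1
            have h3 := d6_cl_le (2 * h - 1) s low t
            omega
        have hx1 : 1 ≤ x := by
          have := (hpat' 0 h0).1 lc0
          omega
        exact code5 F hh s1 h0 hx1 l0 l1 W hpat'

end H92SA
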