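import Pool.Agent.Lib.H92SA.Core

namespace H92SA

/-- Chunk S1. Let `low0 j` be the parity of the number of `i` with `1 ≤ i ≤ j` and `J i`. Either
`low0` or its complement has at least `h` true values among the `2 * h - 1` edges. -/
theorem low_exists (h : ℕ) (hh : 1 ≤ h) (J : ℕ → Prop) :
    ∃ low : ℕ → Bool, (∀ j, 1 ≤ j → j < 2 * h - 1 → (J j ↔ low (j - 1) ≠ low j)) ∧
      h ≤ lowCount (2 * h - 1) low := by
  classical
  let c : ℕ → ℕ := fun j => ((Finset.range (j + 1)).filter (fun i => J i)).card
  have hc : ∀ j, c (j + 1) = c j + (if J (j + 1) then 1 else 0) := by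
    intro j
    show ((Finset.range (j + 1 + 1)).filter (fun i => J i)).card = _
    rw [Finset.range_add_one, Finset.filter_insert]
    split_ifs with h1
    · rw [Finset.card_insert_of_notMem (by simp)]
    · rfl
  let low0 : ℕ → Bool := fun j => decide (c j % 2 = 0)
  have h0 : ∀ j, 1 ≤ j → (J j ↔ low0 (j - 1) ≠ low0 j) := by
    intro j hj
    have h1 := hc (j - 1)
    rw [show j - 1 + 1 = j by omega] at h1
    show J j ↔ decide (c (j - 1) % 2 = 0) ≠ decide (c j % 2 = 0)
    by_cases hJ : J j
    · rw [if_pos hJ] at h1
      simp only [hJ, true_iff, ne_eq, decide_eq_decide]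
      omega
    · rw [if_neg hJ] at h1
      simp only [hJ, false_iff, ne_eq, not_not, decide_eq_decide]
      omega
  by_cases hcount : h ≤ lowCount (2 * h - 1) low0
  · exact ⟨low0, fun j hj _ => h0 j hj, hcount⟩
  · refine ⟨fun j => !(low0 j), ?_, ?_⟩
    · intro j hj _
      rw [h0 j hj]
      simp
    · have h2 : lowCount (2 * h - 1) low0 + lowCount (2 * h - 1) (fun j => !(low0 j)) = 2 * h - 1 := by
        unfold lowCount
        rw [← Finset.card_union_of_disjoint]
        · rw [← Finset.filter_or]
          rw [Finset.filter_true_of_mem]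
          · simp
          · intro e _
            rcases Bool.eq_false_or_eq_true (low0 e) with h3 | h3
            · exact Or.inl h3
            · exact Or.inr (by show (!low0 e) = true; rw [h3]; rfl)
        · rw [Finset.disjoint_left]
          intro e he he'
          simp only [Finset.mem_filter, Finset.mem_range] at he he'
          rw [he.2] at he'
          simp at he'
      omega

end H92SA
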