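import Pool.Agent.Lib.H92SA.V2
import Pool.Agent.Lib.H92SA.V4

namespace H92SA

private theorem z_bounds {h : ℕ} {low : ℕ → Bool} {g x w q : ℕ} {pos : ℕ → ℕ}
    (D : Disp h low g x w q pos) (hg : g % 2 = 0) :
    1 ≤ cE (2 * h - 1) pos x ∧ cE (2 * h - 1) pos x + q ≤ x := by
  have hp := D.isPos
  have g2 := D.g2
  have xh := D.xh
  have wx := D.wx
  have h1 := cE_lt (pos := pos) (p := 0) (e := g) (n := 2 * h - 1) (by omega) hg
    (by rw [D.posg]; omega)
  rw [D.posg] at h1
  have h2 := cE_mono (n := 2 * h - 1) (pos := pos) (p := 1) (p' := x) (by omega)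
  have h3 := D.rkg1
  rw [rk_odd (by omega)] at h3
  have h4 := cO_mono (n := 2 * h - 1) (pos := pos) D.posg1
  have h5 := cE_add_cO hp (p := x) (by omega)
  omega

/-- Chunk Z: `CoreZ` from the layout. Only the even displaced case needs an argument. Put
`y = rk 0`, `a1 = cE x`, `t = h + M + 2`. If `(y, t)` is not a conflict for `q = 1`: `sel` and
`coreZ_even`. If it is a conflict (`y + 2 ≤ x ∧ t + 2 = x + y`, or `x ≤ y ∧ t = x + y`):
if `w + 1 ≤ y` use `coreZ_even_w` with `c = x + w - 2` (if `y + 2 ≤ x`, or `x ≤ y` and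
`x + w - 2 ≤ y`), or `c = x + w - 1` (otherwise). If `y ≤ w` then the first conflict holds,
`y = h + M + 4 - x ≥ M + 5 ≥ 8` so `w / 2 ≥ 4`, and the reversed arrangement with `q = w / 2` is
not in conflict: `sel` and `coreZ_even` for it. -/
theorem coreZ_of_layout (h M : ℕ) (hh : 1 ≤ h) (low : ℕ → Bool) (L : Layout h low)
    (hM : ((Finset.range (2 * h - 1)).filter (TJ h low)).card ≤ M) : CoreZ h M low := by
  rcases L with ⟨pos, P⟩ | ⟨pos, P⟩ | ⟨g, x, w, pos, posr, D, X, Dr, hr, ha⟩
  · exact coreZ_plain h 1 M hh low pos P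
  · exact coreZ_plain h 0 M hh low pos P
  rcases Nat.mod_two_eq_zero_or_one g with hg | hg
  swap
  · exact coreZ_odd h g x w M hh low pos D hg
  obtain ⟨b1, b2⟩ := z_bounds D hg
  obtain ⟨b3, b4⟩ := z_bounds Dr hg
  have g2 := D.g2
  have g1 := D.g1
  have xh := D.xh
  have wx := D.wx
  have w2 := D.w2
  have q1 := Dr.q1
  have y2 := X.y2
  have t3 := X.t3
  have hy := rk_bound_even D.isPos (e := 0) (by omega) (by norm_num)
  by_cases hA : rk (2 * h - 1) pos 0 + 2 ≤ x ∧ h + M + 4 = x + rk (2 * h - 1) pos 0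
  · by_cases hw : w + 1 ≤ rk (2 * h - 1) pos 0
    · refine coreZ_even_w h g x w (x + w - 2) M hh low pos D hg (by omega) (by omega) ?_
      unfold yf
      rw [if_neg (by omega), if_neg (by omega)]
      omega
    · obtain ⟨c, r, hAl, hc⟩ := sel (cE (2 * h - 1) posr x) x (w / 2) (rk (2 * h - 1) posr 0)
        (h + M + 2) q1 b3 b4 (by omega) (by omega) (Or.inl (by omega))
      exact coreZ_even h g x w (w / 2) c r M hh low posr Dr hg (by omega) hAl hc
  · by_cases hB : x ≤ rk (2 * h - 1) pos 0 ∧ h + M + 2 = x + rk (2 * h - 1) pos 0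
    · by_cases hc : x + w - 2 ≤ rk (2 * h - 1) pos 0
      · refine coreZ_even_w h g x w (x + w - 2) M hh low pos D hg (by omega) (by omega) ?_
        unfold yf
        rw [if_pos (by omega), if_pos (by omega)]
        omega
      · refine coreZ_even_w h g x w (x + w - 1) M hh low pos D hg (by omega) (by omega) ?_
        unfold yf
        rw [if_pos (by omega), if_neg (by omega)]
        omega
    · obtain ⟨c, r, hAl, hc⟩ := sel (cE (2 * h - 1) pos x) x 1 (rk (2 * h - 1) pos 0)
        (h + M + 2) (le_refl _) b1 b2 y2 (by omega) (Or.inl (by omega))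
      exact coreZ_even h g x w 1 c r M hh low pos D hg y2 hAl hc

end H92SA
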