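import Pool.Agent.Lib.H92SA.G1
import Pool.Agent.Lib.H92SA.G3
import Pool.Agent.Lib.H92SA.S1
import Pool.Agent.Lib.H92SA.Layout
import Pool.Agent.Lib.H92SA.Z
import Pool.Agent.Lib.H92SA.EB
import Pool.Agent.Lib.H92SA.K1
import Pool.Agent.Lib.H92SA.K2
import Pool.Agent.Lib.H92SA.K3

namespace H92SA

private theorem m1_even (k M : ℕ) (hk : 1 ≤ k) (he : k % 2 = 0) (T : ℕ → Prop) : Cert k M T := by
  obtain ⟨low, h1, h2⟩ := low_exists ((k + 2) / 2) (by omega) T
  obtain ⟨ε, f, hc⟩ := coreO_of_layout ((k + 2) / 2) (by omega) low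
    (layout ((k + 2) / 2) (by omega) low h2)
  have h3 := cert_even ((k + 2) / 2) M ε (by omega) low T f h1 hc
  have e : 2 * ((k + 2) / 2) - 2 = k := by omega
  rwa [e] at h3

private theorem m1_Z (k M : ℕ) (ho : k % 2 = 1) (T : ℕ → Prop) [DecidablePred T]
    (hM : ((Finset.Icc 1 k).filter T).card ≤ M) (h1 : ¬ T 1) : Cert k M T := by
  obtain ⟨low, h2, h3⟩ := low_exists ((k + 1) / 2) (by omega) (fun j => T (j + 1))
  have hcard : ((Finset.range (2 * ((k + 1) / 2) - 1)).filter (TJ ((k + 1) / 2) low)).card ≤ M := by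
    refine le_trans ?_ hM
    refine Finset.card_le_card_of_injOn (fun j => j + 1) ?_ ?_
    · intro j hj
      have hj' := (Finset.mem_filter.1 (Finset.mem_coe.1 hj)).2
      obtain ⟨a1, a2, a3⟩ := hj'
      have h4 := (h2 j a1 a2).2 a3
      refine Finset.mem_coe.2 (Finset.mem_filter.2
        ⟨Finset.mem_Icc.2 ⟨by beta_reduce; omega, by beta_reduce; omega⟩, h4⟩)
    · intro a _ b _ hab
      simp only at hab
      omega
  have hc := coreZ_of_layout ((k + 1) / 2) M (by omega) low
    (layout ((k + 1) / 2) (by omega) low h3) hcard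
  have h4 := cert_Z ((k + 1) / 2) M (by omega) low T h2 h1 hc
  have e : 2 * ((k + 1) / 2) - 1 = k := by omega
  rwa [e] at h4

/-- Chunk M1: the numerical main theorem. `k` even: `h = (k + 2) / 2`, `J j = T j`, `cert_even`.
`k` odd and `¬ T 1`: `h = (k + 1) / 2`, `J j = T (j + 1)`, `cert_Z`. `k` odd and `¬ T k`: reflect. `k = 1`
and `T 1`: star. `k ≥ 3` odd, `T 1`, `T k`: `h = (k - 1) / 2`, `J j = T (j + 2)`; `T 2`: `cert_E0`,
otherwise `coreEB_of_layout` and `cert_E` or `cert_B`. -/
theorem cert_all (k M : ℕ) (hk : 1 ≤ k) (T : ℕ → Prop) [DecidablePred T]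
    (hM : ((Finset.Icc 1 k).filter T).card ≤ M) : Cert k M T := by
  by_cases he : k % 2 = 0
  · exact m1_even k M hk he T
  by_cases h1 : T 1
  · by_cases hkT : T k
    · by_cases hk1 : k = 1
      · subst hk1
        refine cert_star M T h1 ?_
        refine le_trans ?_ hM
        rw [Nat.one_le_iff_ne_zero, Ne, Finset.card_eq_zero]
        intro h0
        have : 1 ∈ (Finset.Icc 1 1).filter T :=
          Finset.mem_filter.2 ⟨Finset.mem_Icc.2 ⟨le_refl _, le_refl _⟩, h1⟩
        rw [h0] at this
        simp at this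
      · obtain ⟨low, h2, h3⟩ := low_exists ((k - 1) / 2) (by omega) (fun j => T (j + 2))
        have e : 2 * ((k - 1) / 2) + 1 = k := by omega
        have hL := layout ((k - 1) / 2) (by omega) low h3
        have hkT' : T (2 * ((k - 1) / 2) + 1) := by rw [e]; exact hkT
        by_cases hT2 : T 2
        · obtain ⟨ε, f, hc⟩ := coreO_of_layout ((k - 1) / 2) (by omega) low hL
          have h4 := cert_E0 ((k - 1) / 2) M ε (by omega) low T f h2 h1 hT2 hkT' hc
          rwa [e] at h4
        · rcases coreEB_of_layout ((k - 1) / 2) M (by omega) low hL with ⟨ε, f, hc, hy⟩ | hc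
          · have h4 := cert_E ((k - 1) / 2) M ε (by omega) low T f h2 h1 hT2 hkT' hc hy
            rwa [e] at h4
          · have h4 := cert_B ((k - 1) / 2) M (by omega) low T h2 h1 hT2 hkT' hc
            rwa [e] at h4
    · refine cert_reflect k M hk T ?_
      refine m1_Z k M (by omega) (fun i => T (k + 1 - i)) ?_ ?_
      · refine le_trans ?_ hM
        refine Finset.card_le_card_of_injOn (fun j => k + 1 - j) ?_ ?_
        · intro j hj
          have hj' := Finset.mem_filter.1 (Finset.mem_coe.1 hj)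
          have hj2 := Finset.mem_Icc.1 hj'.1
          exact Finset.mem_coe.2 (Finset.mem_filter.2
            ⟨Finset.mem_Icc.2 ⟨by beta_reduce; omega, by beta_reduce; omega⟩, hj'.2⟩)
        · intro a ha b hb hab
          have ha2 := Finset.mem_Icc.1 (Finset.mem_filter.1 (Finset.mem_coe.1 ha)).1
          have hb2 := Finset.mem_Icc.1 (Finset.mem_filter.1 (Finset.mem_coe.1 hb)).1
          simp only at hab
          omega
      · show ¬ T (k + 1 - 1)
        rw [Nat.add_sub_cancel]
        exact hkT
  · exact m1_Z k M (by omega) T hM h1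

/-- The main theorem. -/
theorem caterpillar_strongly_antimagic {V : Type*} [Fintype V] [DecidableEq V]
    (G : SimpleGraph V) [DecidableRel G.Adj] (hG : IsCaterpillar G)
    (hV : 3 ≤ Fintype.card V) : IsStronglyAntimagic G := by
  classical
  obtain ⟨k, v, P, a, hk, hs⟩ := exists_spine G hG hV
  refine assemble G k hk v P a hs ?_
  refine cert_all k P.card hk _ ?_
  have : ((Finset.Icc 1 k).filter (fun i => ∃ x ∈ P, a x = i)) ⊆ P.image a := by
    intro i hi
    simp only [Finset.mem_filter, Finset.mem_image] at hi ⊢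
    exact hi.2
  exact (Finset.card_le_card this).trans Finset.card_image_le

end H92SA
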