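import Pool.Agent.Lib.H92SA.Core

/-!
Basic facts about positions and ranks.
-/

namespace H92SA

open Finset

variable {n : ℕ} {pos : ℕ → ℕ}

lemma cE_mono {p p' : ℕ} (h : p ≤ p') : cE n pos p ≤ cE n pos p' := by
  unfold cE
  apply Finset.card_le_card
  intro e he
  simp only [Finset.mem_filter, Finset.mem_range] at he ⊢
  exact ⟨he.1, he.2.1, he.2.2.trans h⟩

lemma cO_mono {p p' : ℕ} (h : p ≤ p') : cO n pos p ≤ cO n pos p' := by
  unfold cO
  apply Finset.card_le_card
  intro e he
  simp only [Finset.mem_filter, Finset.mem_range] at he ⊢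
  exact ⟨he.1, he.2.1, he.2.2.trans h⟩

lemma cE_add_cO (hp : IsPos n pos) {p : ℕ} (hpn : p ≤ n) : cE n pos p + cO n pos p = p := by
  classical
  have h1 : cE n pos p + cO n pos p = ((Finset.range n).filter (fun e => pos e ≤ p)).card := by
    unfold cE cO
    rw [← Finset.card_union_of_disjoint]
    · congr 1
      ext e
      simp only [Finset.mem_union, Finset.mem_filter, Finset.mem_range]
      constructor
      · rintro (h | h)
        · exact ⟨h.1, h.2.2⟩
        · exact ⟨h.1, h.2.2⟩
      · intro h
        rcases Nat.mod_two_eq_zero_or_one e with he | he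
        · exact Or.inl ⟨h.1, he, h.2⟩
        · exact Or.inr ⟨h.1, he, h.2⟩
    · rw [Finset.disjoint_left]
      intro e he he'
      simp only [Finset.mem_filter, Finset.mem_range] at he he'
      omega
  rw [h1]
  -- pos is a bijection of range n onto Icc 1 n
  have himg : (Finset.range n).image pos = Finset.Icc 1 n := by
    apply Finset.eq_of_subset_of_card_le
    · intro y hy
      simp only [Finset.mem_image, Finset.mem_range, Finset.mem_Icc] at hy ⊢
      obtain ⟨e, he, rfl⟩ := hy
      exact hp.range e he
    · rw [Finset.card_image_of_injOn]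
      · simp
      · intro e he e' he' hee
        exact hp.inj e e' (by simpa using he) (by simpa using he') hee
  have h2 : ((Finset.range n).filter (fun e => pos e ≤ p)).image pos = Finset.Icc 1 p := by
    ext y
    simp only [Finset.mem_image, Finset.mem_filter, Finset.mem_range, Finset.mem_Icc]
    constructor
    · rintro ⟨e, ⟨he, hep⟩, rfl⟩
      exact ⟨(hp.range e he).1, hep⟩
    · rintro ⟨hy1, hyp⟩
      have : y ∈ (Finset.range n).image pos := by
        rw [himg]; simp; omega
      simp only [Finset.mem_image, Finset.mem_range] at this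
      obtain ⟨e, he, rfl⟩ := this
      exact ⟨e, ⟨he, hyp⟩, rfl⟩
  have h3 : ((Finset.range n).filter (fun e => pos e ≤ p)).card =
      (((Finset.range n).filter (fun e => pos e ≤ p)).image pos).card := by
    rw [Finset.card_image_of_injOn]
    intro e he e' he' hee
    simp only [Finset.coe_filter, Finset.mem_range, Set.mem_setOf_eq] at he he'
    exact hp.inj e e' he.1 he'.1 hee
  rw [h3, h2]
  simp

lemma card_even (n : ℕ) : ((Finset.range n).filter (fun e => e % 2 = 0)).card = (n + 1) / 2 := by
  induction n with
  | zero => simp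
  | succ n ih =>
    rw [Finset.range_add_one, Finset.filter_insert]
    split_ifs with h
    · rw [Finset.card_insert_of_notMem (by simp), ih]; omega
    · rw [ih]; omega

lemma card_odd (n : ℕ) : ((Finset.range n).filter (fun e => e % 2 = 1)).card = n / 2 := by
  induction n with
  | zero => simp
  | succ n ih =>
    rw [Finset.range_add_one, Finset.filter_insert]
    split_ifs with h
    · rw [Finset.card_insert_of_notMem (by simp), ih]; omega
    · rw [ih]; omega

lemma cE_top (hp : IsPos n pos) : cE n pos n = (n + 1) / 2 := by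
  rw [← card_even n]
  unfold cE
  congr 1
  apply Finset.filter_congr
  intro e he
  have := (hp.range e (by simpa using he)).2
  simp [this]

lemma cO_top (hp : IsPos n pos) : cO n pos n = n / 2 := by
  rw [← card_odd n]
  unfold cO
  congr 1
  apply Finset.filter_congr
  intro e he
  have := (hp.range e (by simpa using he)).2
  simp [this]

lemma cE_lt {e p : ℕ} (he : e < n) (h0 : e % 2 = 0) (hlt : p < pos e) :
    cE n pos p + 1 ≤ cE n pos (pos e) := by
  unfold cE
  rw [Nat.succ_le_iff]
  apply Finset.card_lt_card
  rw [Finset.ssubset_iff_of_subset]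
  · refine ⟨e, ?_, ?_⟩
    · simp [he, h0]
    · simp [he, h0, hlt]
  · intro e' he'
    simp only [Finset.mem_filter, Finset.mem_range] at he' ⊢
    exact ⟨he'.1, he'.2.1, he'.2.2.trans hlt.le⟩

lemma cO_lt {e p : ℕ} (he : e < n) (h0 : e % 2 = 1) (hlt : p < pos e) :
    cO n pos p + 1 ≤ cO n pos (pos e) := by
  unfold cO
  rw [Nat.succ_le_iff]
  apply Finset.card_lt_card
  rw [Finset.ssubset_iff_of_subset]
  · refine ⟨e, ?_, ?_⟩
    · simp [he, h0]
    · simp [he, h0, hlt]
  · intro e' he'
    simp only [Finset.mem_filter, Finset.mem_range] at he' ⊢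
    exact ⟨he'.1, he'.2.1, he'.2.2.trans hlt.le⟩

lemma rk_even {e : ℕ} (h : e % 2 = 0) : rk n pos e = cE n pos (pos e) := by
  simp [rk, h]

lemma rk_odd {e : ℕ} (h : e % 2 = 1) : rk n pos e = cO n pos (pos e) := by
  simp [rk, h]

/-- bounds for ranks -/
lemma rk_bound_even (hp : IsPos n pos) {e : ℕ} (he : e < n) (h : e % 2 = 0) :
    1 ≤ rk n pos e ∧ rk n pos e ≤ (n + 1) / 2 := by
  rw [rk_even h]
  constructor
  · have := cE_lt (pos := pos) (p := 0) he h (by have := (hp.range e he).1; omega)
    omega
  · rw [← cE_top hp]; exact cE_mono (hp.range e he).2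

lemma rk_bound_odd (hp : IsPos n pos) {e : ℕ} (he : e < n) (h : e % 2 = 1) :
    1 ≤ rk n pos e ∧ rk n pos e ≤ n / 2 := by
  rw [rk_odd h]
  constructor
  · have := cO_lt (pos := pos) (p := 0) he h (by have := (hp.range e he).1; omega)
    omega
  · rw [← cO_top hp]; exact cO_mono (hp.range e he).2

/-- ranks are strictly increasing with the position -/
lemma rk_lt {e e' : ℕ} (he' : e' < n) (hpar : e % 2 = e' % 2)
    (hlt : pos e < pos e') : rk n pos e < rk n pos e' := by
  rcases Nat.mod_two_eq_zero_or_one e with h0 | h0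
  · rw [rk_even h0, rk_even (by omega)]
    have := cE_lt (pos := pos) he' (by omega) hlt
    omega
  · rw [rk_odd h0, rk_odd (by omega)]
    have := cO_lt (pos := pos) he' (by omega) hlt
    omega

lemma rk_inj (hp : IsPos n pos) {e e' : ℕ} (he : e < n) (he' : e' < n) (hpar : e % 2 = e' % 2)
    (h : rk n pos e = rk n pos e') : e = e' := by
  rcases lt_trichotomy (pos e) (pos e') with hlt | heq | hgt
  · have := rk_lt he' hpar hlt; omega
  · exact hp.inj e e' he he' heq
  · have := rk_lt he hpar.symm hgt; omega

/-- a rank is at most the position -/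
lemma rk_le_pos (hp : IsPos n pos) {e : ℕ} (he : e < n) : rk n pos e ≤ pos e := by
  have h1 := cE_add_cO hp (hp.range e he).2
  rcases Nat.mod_two_eq_zero_or_one e with h0 | h0
  · rw [rk_even h0]; omega
  · rw [rk_odd h0]; omega

/-- the edge in position `p` -/
lemma exists_pos (hp : IsPos n pos) {p : ℕ} (h1 : 1 ≤ p) (h2 : p ≤ n) : ∃ e, e < n ∧ pos e = p := by
  classical
  have himg : (Finset.range n).image pos = Finset.Icc 1 n := by
    apply Finset.eq_of_subset_of_card_le
    · intro y hy
      simp only [Finset.mem_image, Finset.mem_range, Finset.mem_Icc] at hy ⊢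
      obtain ⟨e, he, rfl⟩ := hy
      exact hp.range e he
    · rw [Finset.card_image_of_injOn]
      · simp
      · intro e he e' he' hee
        exact hp.inj e e' (by simpa using he) (by simpa using he') hee
  have : p ∈ (Finset.range n).image pos := by rw [himg]; simp; omega
  simpa using this

/-- Values of an adjacent joint: its two ranks are `cE p` and `cO p` for the larger position `p`. -/
lemma joint_vals (hp : IsPos n pos) {j : ℕ} (h1 : 1 ≤ j) (h2 : j < n)
    (hadj : pos j = pos (j - 1) + 1 ∨ pos (j - 1) = pos j + 1) :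
    2 ≤ max (pos (j - 1)) (pos j) ∧ max (pos (j - 1)) (pos j) ≤ n ∧
    ((j % 2 = 0 ∧ rk n pos j = cE n pos (max (pos (j - 1)) (pos j)) ∧
        rk n pos (j - 1) = cO n pos (max (pos (j - 1)) (pos j))) ∨
      (j % 2 = 1 ∧ rk n pos j = cO n pos (max (pos (j - 1)) (pos j)) ∧
        rk n pos (j - 1) = cE n pos (max (pos (j - 1)) (pos j)))) := by
  have r1 := hp.range j h2
  have r2 := hp.range (j - 1) (by omega)
  -- general: if pos b = pos a + 1 with different parities then counts of a's parity agree
  have key : ∀ a b : ℕ, a < n → b < n → a % 2 ≠ b % 2 → pos b = pos a + 1 →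
      (a % 2 = 0 → cE n pos (pos b) = cE n pos (pos a)) ∧
      (a % 2 = 1 → cO n pos (pos b) = cO n pos (pos a)) := by
    intro a b ha hb hab hpos
    have ra := hp.range a ha
    have rb := hp.range b hb
    have s1 := cE_add_cO hp ra.2
    have s2 := cE_add_cO hp rb.2
    constructor
    · intro h0
      have := cO_lt (pos := pos) (p := pos a) hb (by omega) (by omega)
      have := cE_mono (n := n) (pos := pos) (p := pos a) (p' := pos b) (by omega)
      omega
    · intro h0
      have := cE_lt (pos := pos) (p := pos a) hb (by omega) (by omega)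
      have := cO_mono (n := n) (pos := pos) (p := pos a) (p' := pos b) (by omega)
      omega
  rcases hadj with h | h
  · have hm : max (pos (j - 1)) (pos j) = pos j := by omega
    rw [hm]
    have k := key (j - 1) j (by omega) h2 (by omega) h
    refine ⟨by omega, by omega, ?_⟩
    rcases Nat.mod_two_eq_zero_or_one j with h0 | h0
    · left
      refine ⟨h0, rk_even h0, ?_⟩
      rw [rk_odd (by omega), k.2 (by omega)]
    · right
      refine ⟨h0, rk_odd h0, ?_⟩
      rw [rk_even (by omega), k.1 (by omega)]
  · have hm : max (pos (j - 1)) (pos j) = pos (j - 1) := by omega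
    rw [hm]
    have k := key j (j - 1) h2 (by omega) (by omega) h
    refine ⟨by omega, by omega, ?_⟩
    rcases Nat.mod_two_eq_zero_or_one j with h0 | h0
    · left
      refine ⟨h0, ?_, ?_⟩
      · rw [rk_even h0, k.1 h0]
      · rw [rk_odd (by omega)]
    · right
      refine ⟨h0, ?_, ?_⟩
      · rw [rk_odd h0, k.2 h0]
      · rw [rk_even (by omega)]

/-- different adjacent joints have different levels -/
lemma level_inj (hp : IsPos n pos) {j j' : ℕ} (h1 : 1 ≤ j) (h2 : j < n) (h1' : 1 ≤ j') (h2' : j' < n)
    (hadj : pos j = pos (j - 1) + 1 ∨ pos (j - 1) = pos j + 1)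
    (hadj' : pos j' = pos (j' - 1) + 1 ∨ pos (j' - 1) = pos j' + 1)
    (h : max (pos (j - 1)) (pos j) = max (pos (j' - 1)) (pos j')) : j = j' := by
  have i1 := fun (hh : pos j = pos j') => hp.inj j j' h2 h2' hh
  have i2 := fun (hh : pos (j - 1) = pos (j' - 1)) =>
    hp.inj (j - 1) (j' - 1) (by omega) (by omega) hh
  have i3 := fun (hh : pos (j - 1) = pos j') => hp.inj (j - 1) j' (by omega) h2' hh
  have i4 := fun (hh : pos j = pos (j' - 1)) => hp.inj j (j' - 1) h2 (by omega) hh
  rcases hadj with ha | ha <;> rcases hadj' with hb | hb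
  · exact i1 (by omega)
  · have a1 := i4 (by omega)
    have a2 := i3 (by omega)
    omega
  · have a1 := i4 (by omega)
    have a2 := i3 (by omega)
    omega
  · have a1 := i2 (by omega)
    omega

/-- comparison of two levels, ready for `omega` -/
lemma level_cmp (hp : IsPos n pos) {p p' : ℕ} (h : p ≤ p') (h' : p' ≤ n) :
    cE n pos p ≤ cE n pos p' ∧ cO n pos p ≤ cO n pos p' ∧
    cE n pos p + cO n pos p = p ∧ cE n pos p' + cO n pos p' = p' :=
  ⟨cE_mono h, cO_mono h, cE_add_cO hp (h.trans h'), cE_add_cO hp h'⟩

end H92SA
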