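import Pool.Agent.Lib.H92SA.Lay

namespace H92SA

lemma s2_count_succ (low : ℕ → Bool) (i : ℕ) :
    lowCount (i + 1) low = lowCount i low + (if low i = true then 1 else 0) := by
  unfold lowCount
  rw [Finset.range_add_one, Finset.filter_insert]
  split_ifs with h1
  · rw [Finset.card_insert_of_notMem (by simp)]
  · rfl

lemma s2_cl_succ (n s : ℕ) (low : ℕ → Bool) (t : ℕ) :
    cl n s low (t + 1) = cl n s low t + (if low (ei n s t) = true then 1 else 0) := by
  unfold cl lc
  rw [Finset.range_add_one, Finset.filter_insert]
  split_ifs with h1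
  · rw [Finset.card_insert_of_notMem (by simp)]
  · rfl

lemma s2_cl (n s : ℕ) (low : ℕ → Bool) (hs : s < n) (t : ℕ) (ht : t ≤ n) :
    (s + t ≤ n → cl n s low t + lowCount s low = lowCount (s + t) low) ∧
    (n ≤ s + t → cl n s low t + lowCount s low = lowCount n low + lowCount (s + t - n) low) := by
  induction t with
  | zero =>
    constructor
    · intro _; simp [cl]
    · intro h
      omega
  | succ t ih =>
    have ih := ih (by omega)
    rw [s2_cl_succ]
    constructor
    · intro h
      have e1 : ei n s t = s + t := by unfold ei; rw [if_pos (by omega)]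
      have h1 := ih.1 (by omega)
      have h2 := s2_count_succ low (s + t)
      rw [e1]
      rw [show s + (t + 1) = s + t + 1 by ring, h2]
      omega
    · intro h
      by_cases hst : s + t < n
      · have hn : s + t + 1 = n := by omega
        have e1 : ei n s t = s + t := by unfold ei; rw [if_pos (by omega)]
        have h1 := ih.1 (by omega)
        have h2 := s2_count_succ low (s + t)
        rw [e1, show s + (t + 1) - n = 0 by omega]
        rw [hn] at h2
        have h0 : lowCount 0 low = 0 := by simp [lowCount]
        omega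
      · have e1 : ei n s t = s + t - n := by unfold ei; rw [if_neg (by omega)]
        have h1 := ih.2 (by omega)
        have h2 := s2_count_succ low (s + t - n)
        rw [e1, show s + (t + 1) - n = s + t - n + 1 by omega, h2]
        omega

lemma s2_last_min (f : ℕ → ℤ) (n : ℕ) :
    ∃ l, l ≤ n ∧ (∀ j, j ≤ n → f l ≤ f j) ∧ (∀ j, j ≤ n → l < j → f l < f j) := by
  induction n with
  | zero =>
    refine ⟨0, le_rfl, ?_, ?_⟩
    · intro j hj
      have : j = 0 := by omega
      rw [this]
    · intro j hj hlj
      omega
  | succ n ih =>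
    obtain ⟨l, hl, h1, h2⟩ := ih
    by_cases hc : f (n + 1) ≤ f l
    · refine ⟨n + 1, le_rfl, ?_, ?_⟩
      · intro j hj
        rcases Nat.lt_or_ge n j with h | h
        · have : j = n + 1 := by omega
          rw [this]
        · exact hc.trans (h1 j h)
      · intro j hj hlj
        omega
    · refine ⟨l, by omega, ?_, ?_⟩
      · intro j hj
        rcases Nat.lt_or_ge n j with h | h
        · have : j = n + 1 := by omega
          rw [this]; omega
        · exact h1 j h
      · intro j hj hlj
        rcases Nat.lt_or_ge n j with h | h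
        · have : j = n + 1 := by omega
          rw [this]; omega
        · exact h2 j h hlj

/-- Chunk S2. Let `f i` (an integer, `0 ≤ i ≤ n`) be the number of low edges minus the number of
high edges among the edges `e < i`; `f 0 = 0`, `f n ≥ 1`. Let `l` be the last index in `[0, n]` where
`f` attains its minimum `m ≤ 0`; `l < n`. In cyclic coordinates from a start `s`:
`2 * cl t - t = f (s + t) - f s` for `s + t ≤ n` and `= f n - f s + f (s + t - n)` afterwards.
If `l = 0` the first alternative holds (`m = 0`). Otherwise edge `l` is low, edge `l - 1` is high.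
If there is `s ≥ l` with `s` low, `s - 1` high, `s + 1 = n` or `s + 1` high, `f s ≤ m + 1`, the
second alternative holds for this `s`. Otherwise the third one holds with `s = l`. -/
theorem start (h : ℕ) (hh : 1 ≤ h) (low : ℕ → Bool) (hl : h ≤ lowCount (2 * h - 1) low) :
    (∀ t, t ≤ 2 * h - 1 → t ≤ 2 * cl (2 * h - 1) 0 low t) ∨
    (∃ s, 1 ≤ s ∧ s < 2 * h - 1 ∧ low s = true ∧ low (s - 1) = false ∧
      (s + 1 = 2 * h - 1 ∨ low (s + 1) = false) ∧
      ∀ t, t ≤ 2 * h - 1 → t ≤ 2 * cl (2 * h - 1) s low t) ∨
    (∃ s, 1 ≤ s ∧ s + 1 < 2 * h - 1 ∧ low s = true ∧ low (s - 1) = false ∧ low (s + 1) = true ∧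
      (∀ t, 1 ≤ t → t ≤ 2 * h - 1 → t + 1 ≤ 2 * cl (2 * h - 1) s low t) ∧
      (∀ t, 1 ≤ t → s + t < 2 * h - 1 → low (s + t) = true → low (s + t - 1) = false →
        2 * cl (2 * h - 1) s low t = t + 1 → s + t + 1 < 2 * h - 1 ∧ low (s + t + 1) = true)) := by
  obtain ⟨n, hn⟩ : ∃ n, n = 2 * h - 1 := ⟨_, rfl⟩
  rw [← hn] at hl ⊢
  have hn1 : 1 ≤ n := by omega
  let f : ℕ → ℤ := fun i => 2 * (lowCount i low : ℤ) - i
  have hf : ∀ i, f i = 2 * (lowCount i low : ℤ) - i := fun i => rfl
  obtain ⟨l, hln, hmin, hlast⟩ := s2_last_min f n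
  have f0 : f 0 = 0 := by rw [hf]; simp [lowCount]
  have fn : 1 ≤ f n := by rw [hf]; omega
  have hm0 : f l ≤ 0 := by have := hmin 0 (by omega); omega
  have hl' : l < n := by
    rcases Nat.lt_or_ge l n with h1 | h1
    · exact h1
    · have : l = n := by omega
      rw [this] at hm0; omega
  -- the height function in cyclic coordinates
  have hcl1 : ∀ s t, s < n → t ≤ n → s + t ≤ n → 2 * (cl n s low t : ℤ) - t = f (s + t) - f s := by
    intro s t hs ht hst
    have := (s2_cl n s low hs t ht).1 hst
    rw [hf, hf]
    push_cast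
    omega
  have hcl2 : ∀ s t, s < n → t ≤ n → n ≤ s + t →
      2 * (cl n s low t : ℤ) - t = f n - f s + f (s + t - n) := by
    intro s t hs ht hst
    have := (s2_cl n s low hs t ht).2 hst
    rw [hf, hf, hf]
    have e : ((s + t - n : ℕ) : ℤ) = s + t - n := by omega
    rw [e]
    omega
  have fsucc : ∀ i, f (i + 1) = f i + (if low i = true then 1 else -1) := by
    intro i
    rw [hf, hf, s2_count_succ]
    split_ifs <;> push_cast <;> ring
  by_cases hl0 : l = 0
  · left
    intro t ht
    have h1 := hcl1 0 t hn1 ht (by omega)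
    have h2 := hmin t ht
    rw [hl0] at h2
    simp only [Nat.zero_add] at h1
    omega
  right
  have lowl : low l = true := by
    by_contra hc
    have h1 := fsucc l
    rw [if_neg hc] at h1
    have h2 := hlast (l + 1) (by omega) (by omega)
    omega
  have lowl' : low (l - 1) = false := by
    by_contra hc
    have hc : low (l - 1) = true := by simpa using hc
    have h1 := fsucc (l - 1)
    rw [if_pos hc, show l - 1 + 1 = l by omega] at h1
    have h2 := hmin (l - 1) (by omega)
    omega
  by_cases hex : ∃ s, l ≤ s ∧ s < n ∧ low s = true ∧ low (s - 1) = false ∧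
      (s + 1 = n ∨ low (s + 1) = false) ∧ f s ≤ f l + 1
  · left
    obtain ⟨s, hs1, hs2, hs3, hs4, hs5, hs6⟩ := hex
    refine ⟨s, by omega, hs2, hs3, hs4, hs5, ?_⟩
    intro t ht
    rcases Nat.lt_or_ge n (s + t) with h1 | h1
    · have h2 := hcl2 s t hs2 ht h1.le
      have h3 := hmin (s + t - n) (by omega)
      omega
    · have h2 := hcl1 s t hs2 ht h1
      rcases Nat.eq_zero_or_pos t with h0 | h0
      · omega
      · have h3 := hlast (s + t) (by omega) (by omega)
        omega
  · right
    push Not at hex
    refine ⟨l, by omega, ?_, lowl, lowl', ?_, ?_, ?_⟩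
    · by_contra hc
      have := hex l le_rfl hl' lowl lowl' (Or.inl (by omega))
      omega
    · by_contra hc
      have := hex l le_rfl hl' lowl lowl' (Or.inr (by simpa using hc))
      omega
    · intro t ht1 ht
      rcases Nat.lt_or_ge n (l + t) with h1 | h1
      · have h2 := hcl2 l t hl' ht h1.le
        have h3 := hmin (l + t - n) (by omega)
        omega
      · have h2 := hcl1 l t hl' ht h1
        have h3 := hlast (l + t) (by omega) (by omega)
        omega
    · intro t ht1 hst h3 h4 h5
      have h2 := hcl1 l t hl' (by omega) (by omega)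
      have h6 : f (l + t) = f l + 1 := by omega
      constructor
      · by_contra hc
        have := hex (l + t) (by omega) hst h3 h4 (Or.inl (by omega))
        omega
      · by_contra hc
        have := hex (l + t) (by omega) hst h3 h4 (Or.inr (by simpa using hc))
        omega

end H92SA
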