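import Pool.Agent.Lib.H92SA.PosLib

namespace H92SA

/-- final rank of the edge of even parity with full rank `y` (dummy included), when the final
ranks `c` and `r` are used by the two singles -/
def yf (y c r : ℕ) : ℕ := y - 1 + (if min c r < y then 1 else 0) + (if max c r ≤ y then 1 else 0)

/-- the allowed pairs `(c, r)`, `a1 = cE x` -/
def Allowed (a1 x q c r : ℕ) : Prop :=
  1 ≤ c ∧ ((a1 ≤ c ∧ c ≠ x - q ∧ r = x - q) ∨ (c ≤ a1 ∧ r = x - q + 1))

/-- labels for an even displaced edge `g` and a further even single with the rank `c` -/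
def fE (h g c r : ℕ) (pos : ℕ → ℕ) (e : ℕ) : ℕ :=
  if e = g then r
  else if e % 2 = 0 then yf (rk (2 * h - 1) pos e) c r
  else rk (2 * h - 1) pos e

/-- the same with an odd single with the rank `h - 1` -/
def fL (h g c r : ℕ) (pos : ℕ → ℕ) (e : ℕ) : ℕ :=
  if e = g then r
  else if e % 2 = 0 then yf (rk (2 * h - 1) pos e) c r
  else (if h - 1 ≤ rk (2 * h - 1) pos e then rk (2 * h - 1) pos e + 1
    else rk (2 * h - 1) pos e)

/-- labels for an odd displaced edge `g` and an even single with the rank `c` -/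
def fD (h g c r : ℕ) (pos : ℕ → ℕ) (e : ℕ) : ℕ :=
  if e = g then r
  else if e % 2 = 0 then
    (if c ≤ rk (2 * h - 1) pos e then rk (2 * h - 1) pos e + 1 else rk (2 * h - 1) pos e)
  else (if rk (2 * h - 1) pos e ≤ r then rk (2 * h - 1) pos e - 1 else rk (2 * h - 1) pos e)

/-- labels for a plain arrangement and an even single with the rank `c` -/
def fP (h c : ℕ) (pos : ℕ → ℕ) (e : ℕ) : ℕ :=
  if e % 2 = 0 then
    (if c ≤ rk (2 * h - 1) pos e then rk (2 * h - 1) pos e + 1 else rk (2 * h - 1) pos e)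
  else rk (2 * h - 1) pos e

end H92SA
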