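import Pool.Agent.Lib.H92SA.PosLib

namespace H92SA

/-- sum at an adjacent joint -/
lemma v1_sum {n : ℕ} {pos : ℕ → ℕ} (hp : IsPos n pos) {j : ℕ} (h1 : 1 ≤ j) (h2 : j < n)
    (hadj : pos j = pos (j - 1) + 1 ∨ pos (j - 1) = pos j + 1) :
    rk n pos (j - 1) + rk n pos j = max (pos (j - 1)) (pos j) := by
  obtain ⟨-, b, c⟩ := joint_vals hp h1 h2 hadj
  have := cE_add_cO hp b
  rcases c with c | c <;> omega

/-- Chunk V1: plain arrangements give a `CoreO` labelling by the ranks. Use `joint_vals`,
`level_inj`, `cE_add_cO`: the sum at a straight joint is its level. -/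
theorem coreO_plain (h ε : ℕ) (hh : 1 ≤ h) (low : ℕ → Bool) (pos : ℕ → ℕ)
    (P : Plain h ε low pos) : CoreO h ε low (rk (2 * h - 1) pos) := by
  have hp := P.isPos
  refine ⟨?_, ?_, ?_, ?_, ?_, ?_, ?_⟩
  · rcases P.eps with h | h
    · omega
    · omega
  · intro e he h0
    have := rk_bound_even hp he h0
    omega
  · intro e he h0
    have := rk_bound_odd hp he h0
    omega
  · intro e e' he he' hpar hee
    exact rk_inj hp he he' hpar hee
  · intro j j' hj hj' hs
    have a := P.adj j hj
    have a' := P.adj j' hj'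
    have s := v1_sum hp hj.1 hj.2.1 a
    have s' := v1_sum hp hj'.1 hj'.2.1 a'
    exact level_inj hp hj.1 hj.2.1 hj'.1 hj'.2.1 a a' (by omega)
  · intro j hj
    have a := P.adj j hj
    have s := v1_sum hp hj.1 hj.2.1 a
    have b := (joint_vals hp hj.1 hj.2.1 a).2.1
    rcases P.eps with e | ⟨e, he⟩
    · omega
    · have := he j hj
      omega
  · intro j hj
    have := P.top j hj
    omega

/-- labels for a displaced arrangement without further singles: the displaced edge gets the rank
`x - q`, the other edges of its parity lose their dummy and skip `x - q`. -/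
def fO (h g x q : ℕ) (pos : ℕ → ℕ) (e : ℕ) : ℕ :=
  if e = g then x - q
  else if e % 2 = g % 2 then
    (if rk (2 * h - 1) pos e ≤ x - q then rk (2 * h - 1) pos e - 1 else rk (2 * h - 1) pos e)
  else rk (2 * h - 1) pos e

/-- number of edges with the parity of `g` at level `p` -/
def v1c (n g : ℕ) (pos : ℕ → ℕ) (p : ℕ) : ℕ := if g % 2 = 0 then cE n pos p else cO n pos p

lemma v1c_mono {n g : ℕ} {pos : ℕ → ℕ} {p p' : ℕ} (h : p ≤ p') : v1c n g pos p ≤ v1c n g pos p' := by
  unfold v1c
  split_ifs
  · exact cE_mono h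
  · exact cO_mono h

lemma v1c_add {n g : ℕ} {pos : ℕ → ℕ} (hp : IsPos n pos) {p : ℕ} (h : p ≤ n) :
    v1c n g pos p + v1c n (g + 1) pos p = p := by
  have := cE_add_cO hp h
  unfold v1c
  split_ifs <;> omega

lemma v1c_rk {n g : ℕ} {pos : ℕ → ℕ} {e : ℕ} (h : e % 2 = g % 2) :
    rk n pos e = v1c n g pos (pos e) := by
  unfold v1c rk
  split_ifs <;> first | rfl | omega

lemma v1c_joint {n g : ℕ} {pos : ℕ → ℕ} (hp : IsPos n pos) {j : ℕ} (h1 : 1 ≤ j) (h2 : j < n)
    (hadj : pos j = pos (j - 1) + 1 ∨ pos (j - 1) = pos j + 1) :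
    (j % 2 = g % 2 ∧ rk n pos j = v1c n g pos (max (pos (j - 1)) (pos j)) ∧
        rk n pos (j - 1) = v1c n (g + 1) pos (max (pos (j - 1)) (pos j))) ∨
      (j % 2 ≠ g % 2 ∧ rk n pos j = v1c n (g + 1) pos (max (pos (j - 1)) (pos j)) ∧
        rk n pos (j - 1) = v1c n g pos (max (pos (j - 1)) (pos j))) := by
  obtain ⟨-, -, c⟩ := joint_vals hp h1 h2 hadj
  unfold v1c
  rcases c with ⟨c1, c2, c3⟩ | ⟨c1, c2, c3⟩
  · by_cases hg : g % 2 = 0
    · left
      rw [if_pos hg, if_neg (by omega)]
      exact ⟨by omega, c2, c3⟩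
    · right
      rw [if_neg hg, if_pos (by omega)]
      exact ⟨by omega, c2, c3⟩
  · by_cases hg : g % 2 = 0
    · right
      rw [if_pos hg, if_neg (by omega)]
      exact ⟨by omega, c2, c3⟩
    · left
      rw [if_neg hg, if_pos (by omega)]
      exact ⟨by omega, c2, c3⟩

/-- facts about a displaced arrangement -/
lemma v1_disp (h g x w q : ℕ) (hh : 1 ≤ h) (low : ℕ → Bool) (pos : ℕ → ℕ)
    (D : Disp h low g x w q pos) :
    q + 1 ≤ x ∧ v1c (2 * h - 1) g pos x + q ≤ x ∧ rk (2 * h - 1) pos g = 1 ∧
    (∀ e, e < 2 * h - 1 → e % 2 = g % 2 → e ≠ g → 2 ≤ rk (2 * h - 1) pos e) ∧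
    ¬ SJ h low g ∧ SJ h low (g + 1) ∧ TJ h low g ∧ ¬ TJ h low (g + 1) := by
  have hp := D.isPos
  have hg2 := D.g2
  have hx := D.xh
  have hr : rk (2 * h - 1) pos (g + 1) = v1c (2 * h - 1) (g + 1) pos (pos (g + 1)) := v1c_rk rfl
  rw [D.rkg1] at hr
  have m := v1c_mono (n := 2 * h - 1) (g := g + 1) (pos := pos) D.posg1
  have a := v1c_add (g := g) hp (p := x) (by omega)
  have hrg : rk (2 * h - 1) pos g = v1c (2 * h - 1) g pos (pos g) := v1c_rk rfl
  rw [D.posg] at hrg
  have a1 := v1c_add (g := g) hp (p := 1) (by omega)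
  have hge : 1 ≤ rk (2 * h - 1) pos g := by
    rcases Nat.mod_two_eq_zero_or_one g with h0 | h0
    · exact (rk_bound_even hp (by omega) h0).1
    · exact (rk_bound_odd hp (by omega) h0).1
  have m1 := v1c_mono (n := 2 * h - 1) (g := g) (pos := pos) (p := 1) (p' := x) (by
    have := D.wx; omega)
  have hsg : SJ h low (g + 1) := ⟨by omega, D.g2, by
    rw [Nat.add_sub_cancel, D.lowg, D.lowg1]⟩
  have htg : TJ h low g := ⟨D.g1, by omega, by rw [D.lowg, D.lowg']; simp⟩
  refine ⟨by omega, by omega, by omega, ?_, fun hs => htg.2.2 hs.2.2, hsg, htg,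
    fun ht => ht.2.2 hsg.2.2⟩
  intro e he hpar hne
  have hlt : pos g < pos e := by
    have h1 := hp.range e he
    have h2 : pos e ≠ pos g := fun h => hne (hp.inj e g he (by omega) h)
    have := D.posg
    omega
  have := rk_lt (n := 2 * h - 1) he hpar.symm hlt
  omega

/-- Chunk V1: displaced arrangements give a `CoreO` labelling with `ε = 1`. Let `A, B` be the two
counts at the level `p` of a straight joint `j ≠ g + 1` (`p ≠ x + 1`), `G` the one of the parity of `g`.
Its sum is `p - 1` if `G ≤ x - q`, and `p` otherwise. If `p ≤ x` then `G ≤ x - q` since the count of the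
other parity at level `x` is at least `q`. The joint `g + 1` has the sum `x`. Turning joints: a
sum `≥ h + 1` of ranks loses at most one; in the second and third alternative of `D.top` the top
rank of the parity of `g` (which is at least `h - 1 > x - q`) is not lowered, the other is at
least 1. -/
theorem coreO_disp (h g x w q : ℕ) (hh : 1 ≤ h) (low : ℕ → Bool) (pos : ℕ → ℕ)
    (D : Disp h low g x w q pos) : CoreO h 1 low (fO h g x q pos) := by
  have hp := D.isPos
  obtain ⟨d1, d2, d3, d4, d5, d6, d7, d8⟩ := v1_disp h g x w q hh low pos D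
  have hx := D.xh
  have hq := D.q1
  have hg1 := D.g1
  have hg2 := D.g2
  -- values
  have vg : fO h g x q pos g = x - q := by simp [fO]
  have vs : ∀ e, e ≠ g → e % 2 = g % 2 → fO h g x q pos e =
      (if rk (2 * h - 1) pos e ≤ x - q then rk (2 * h - 1) pos e - 1 else rk (2 * h - 1) pos e) := by
    intro e h1 h2
    simp [fO, h1, h2]
  have vo : ∀ e, e % 2 ≠ g % 2 → fO h g x q pos e = rk (2 * h - 1) pos e := by
    intro e h2
    have h1 : e ≠ g := by rintro rfl; exact h2 rfl
    simp [fO, h1, h2]
  have hv : ∀ e, (e = g ∧ fO h g x q pos e = x - q) ∨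
      (e ≠ g ∧ e % 2 = g % 2 ∧ rk (2 * h - 1) pos e ≤ x - q ∧
        fO h g x q pos e = rk (2 * h - 1) pos e - 1) ∨
      (e ≠ g ∧ e % 2 = g % 2 ∧ x - q < rk (2 * h - 1) pos e ∧
        fO h g x q pos e = rk (2 * h - 1) pos e) ∨
      (e ≠ g ∧ e % 2 ≠ g % 2 ∧ fO h g x q pos e = rk (2 * h - 1) pos e) := by
    intro e
    by_cases h1 : e = g
    · exact Or.inl ⟨h1, by rw [h1, vg]⟩
    · by_cases h2 : e % 2 = g % 2
      · have := vs e h1 h2
        split_ifs at this with h3
        · exact Or.inr (Or.inl ⟨h1, h2, h3, this⟩)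
        · exact Or.inr (Or.inr (Or.inl ⟨h1, h2, by omega, this⟩))
      · exact Or.inr (Or.inr (Or.inr ⟨h1, h2, vo e h2⟩))
  -- the sums at the straight joints
  have key : ∀ j, SJ h low j → j ≠ g + 1 → ∃ p, p = max (pos (j - 1)) (pos j) ∧ p ≤ 2 * h - 1 ∧ 2 ≤ p ∧
      p ≠ x + 1 ∧
      ((v1c (2 * h - 1) g pos p ≤ x - q ∧ fO h g x q pos (j - 1) + fO h g x q pos j + 1 = p) ∨
      (x - q < v1c (2 * h - 1) g pos p ∧ fO h g x q pos (j - 1) + fO h g x q pos j = p)) := by
    intro j hj hne
    have a := D.adj j hj hne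
    have b := joint_vals hp hj.1 hj.2.1 a
    have c := v1c_joint (g := g) hp hj.1 hj.2.1 a
    have s := v1c_add (g := g) hp b.2.1
    have hbx := D.bdx j hj hne
    have hjg : j ≠ g := fun h => d5 (h ▸ hj)
    have hj1 := hj.1
    have hj2 := hj.2.1
    refine ⟨_, rfl, b.2.1, b.1, hbx, ?_⟩
    rcases c with ⟨c1, c2, c3⟩ | ⟨c1, c2, c3⟩
    · rw [vo (j - 1) (by omega), vs j hjg c1]
      have := d4 j hj.2.1 c1 hjg
      split_ifs <;> omega
    · rw [vo j c1, vs (j - 1) (by omega) (by omega)]
      have := d4 (j - 1) (by omega) (by omega) (by omega)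
      split_ifs <;> omega
  have kg : fO h g x q pos (g + 1 - 1) + fO h g x q pos (g + 1) = x := by
    rw [Nat.add_sub_cancel, vg, vo (g + 1) (by omega), D.rkg1]
    omega
  refine ⟨le_refl _, ?_, ?_, ?_, ?_, ?_, ?_⟩
  · intro e he h0
    have b := rk_bound_even hp he h0
    have := hv e
    have d := d4 e he
    omega
  · intro e he h0
    have b := rk_bound_odd hp he h0
    have := hv e
    have d := d4 e he
    omega
  · intro e e' he he' hpar hee
    have v := hv e
    have v' := hv e'
    have i := rk_inj hp he he' hpar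
    have d := d4 e he
    have d' := d4 e' he'
    by_cases h1 : e = g
    · by_cases h2 : e' = g
      · omega
      · have := d' (by omega) h2
        omega
    · by_cases h2 : e' = g
      · have := d (by omega) h1
        omega
      · by_cases h3 : e % 2 = g % 2
        · have := d h3 h1
          have := d' (by omega) h2
          apply i
          omega
        · apply i
          omega
  · intro j j' hj hj' hs
    by_cases h1 : j = g + 1
    · by_cases h2 : j' = g + 1
      · omega
      · exfalso
        rw [h1] at hs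
        rw [kg] at hs
        obtain ⟨p, -, p1, p2, p3, p4⟩ := key j' hj' h2
        by_cases hpx : p ≤ x
        · have := v1c_mono (n := 2 * h - 1) (g := g) (pos := pos) hpx
          omega
        · omega
    · by_cases h2 : j' = g + 1
      · exfalso
        rw [h2] at hs
        rw [kg] at hs
        obtain ⟨p, -, p1, p2, p3, p4⟩ := key j hj h1
        by_cases hpx : p ≤ x
        · have := v1c_mono (n := 2 * h - 1) (g := g) (pos := pos) hpx
          omega
        · omega
      · obtain ⟨p, q0, p1, p2, p3, p4⟩ := key j hj h1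
        obtain ⟨p', q0', p1', p2', p3', p4'⟩ := key j' hj' h2
        have hpp : p = p' := by
          rcases lt_trichotomy p p' with hlt | heq | hgt
          · have := v1c_mono (n := 2 * h - 1) (g := g) (pos := pos) hlt.le
            omega
          · exact heq
          · have := v1c_mono (n := 2 * h - 1) (g := g) (pos := pos) hgt.le
            omega
        exact level_inj hp hj.1 hj.2.1 hj'.1 hj'.2.1 (D.adj j hj h1) (D.adj j' hj' h2) (by omega)
  · intro j hj
    by_cases h1 : j = g + 1
    · rw [h1, kg]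
      omega
    · obtain ⟨p, -, p1, p2, p3, p4⟩ := key j hj h1
      omega
  · intro j hj
    by_cases h1 : j = g
    · rw [h1, vg, vo (g - 1) (by omega)]
      have := D.vst
      omega
    · have hj1 := hj.1
      have hj2 := hj.2.1
      have hne : j ≠ g + 1 := fun hh => d8 (hh ▸ hj)
      have t := D.top j hj h1
      have v := hv j
      have v' := hv (j - 1)
      have b1 : 1 ≤ rk (2 * h - 1) pos j := by
        rcases Nat.mod_two_eq_zero_or_one j with h0 | h0
        · exact (rk_bound_even hp (by omega) h0).1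
        · exact (rk_bound_odd hp (by omega) h0).1
      have b2 : 1 ≤ rk (2 * h - 1) pos (j - 1) := by
        rcases Nat.mod_two_eq_zero_or_one (j - 1) with h0 | h0
        · exact (rk_bound_even hp (by omega) h0).1
        · exact (rk_bound_odd hp (by omega) h0).1
      have d := d4 j hj2
      have d' := d4 (j - 1) (by omega)
      have tE := cE_top hp
      have tO := cO_top hp
      rcases t with t | ⟨t1, t2⟩ | ⟨t1, t2⟩
      · by_cases h3 : j % 2 = g % 2
        · have := d h3 h1
          omega
        · have := d' (by omega) (by omega)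
          omega
      · have h4 : h - 1 ≤ rk (2 * h - 1) pos (j - 1) := by
          unfold rk
          rw [t1]
          split_ifs <;> omega
        have := d' t2 (by omega)
        omega
      · have h4 : h - 1 ≤ rk (2 * h - 1) pos j := by
          unfold rk
          rw [t1]
          split_ifs <;> omega
        have := d t2 (by omega)
        omega

end H92SA
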