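import Pool.Agent.Lib.H92SA.V0
import Pool.Agent.Lib.H92SA.V1

namespace H92SA

lemma v2_choice (h M y : ℕ) (h1 : 1 ≤ y) (h2 : y ≤ h) : ∃ c, 1 ≤ c ∧ c ≤ h + M + 1 ∧
    c + (if c ≤ y then y + 1 else y) = h + M + 2 := by
  by_cases hc : y < h + M + 2 - y
  · refine ⟨h + M + 2 - y, by omega, by omega, ?_⟩
    rw [if_neg (by omega)]
    omega
  · refine ⟨h + M + 1 - y, by omega, by omega, ?_⟩
    rw [if_pos (by omega)]
    omega

/-- Chunk V2, plain: with `y = rk 0` take `c = h + M + 2 - y` if this is `> y`, else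
`c = h + M + 1 - y`; labels `fP`, `s = 1`. -/
theorem coreZ_plain (h ε M : ℕ) (hh : 1 ≤ h) (low : ℕ → Bool) (pos : ℕ → ℕ)
    (P : Plain h ε low pos) : CoreZ h M low := by
  have hp := P.isPos
  have hy := rk_bound_even hp (e := 0) (by omega) rfl
  obtain ⟨c, c1, c2, c3⟩ := v2_choice h M (rk (2 * h - 1) pos 0) hy.1 (by omega)
  have vE : ∀ e, e % 2 = 0 → fP h c pos e =
      (if c ≤ rk (2 * h - 1) pos e then rk (2 * h - 1) pos e + 1 else rk (2 * h - 1) pos e) := by
    intro e he
    simp [fP, he]
  have vO : ∀ e, e % 2 = 1 → fP h c pos e = rk (2 * h - 1) pos e := by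
    intro e he
    simp [fP, he]
  have hge : ∀ e, rk (2 * h - 1) pos e ≤ fP h c pos e := by
    intro e
    rcases Nat.mod_two_eq_zero_or_one e with h0 | h0
    · rw [vE e h0]
      split_ifs <;> omega
    · rw [vO e h0]
  have hpos : ∀ e, e < 2 * h - 1 → 1 ≤ rk (2 * h - 1) pos e := by
    intro e he
    rcases Nat.mod_two_eq_zero_or_one e with h0 | h0
    · exact (rk_bound_even hp he h0).1
    · exact (rk_bound_odd hp he h0).1
  have key : ∀ j, SJ h low j → ∃ p, p = max (pos (j - 1)) (pos j) ∧ p ≤ 2 * h - 1 ∧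
      ((c ≤ cE (2 * h - 1) pos p ∧ fP h c pos (j - 1) + fP h c pos j = p + 1) ∨
      (cE (2 * h - 1) pos p < c ∧ fP h c pos (j - 1) + fP h c pos j = p)) := by
    intro j hj
    have a := P.adj j hj
    have hj1 := hj.1
    obtain ⟨b1, b2, b3⟩ := joint_vals hp hj.1 hj.2.1 a
    have s := cE_add_cO hp b2
    refine ⟨_, rfl, b2, ?_⟩
    rcases b3 with ⟨t1, t2, t3⟩ | ⟨t1, t2, t3⟩
    · rw [vE j t1, vO (j - 1) (by omega)]
      split_ifs <;> omega
    · rw [vO j t1, vE (j - 1) (by omega)]
      split_ifs <;> omega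
  refine ⟨c, 1, fP h c pos, c1, c2, le_refl _, ?_, ?_, ?_, ?_, ?_, ?_, ?_⟩
  · rw [vE 0 rfl, c3]
  · intro e he h0
    have b := rk_bound_even hp he h0
    rw [vE e h0]
    split_ifs <;> omega
  · intro e he h0
    have b := rk_bound_odd hp he h0
    rw [vO e h0]
    omega
  · intro e e' he he' hpar hee
    apply rk_inj hp he he' hpar
    rcases Nat.mod_two_eq_zero_or_one e with h0 | h0
    · rw [vE e h0, vE e' (by omega)] at hee
      split_ifs at hee <;> omega
    · rw [vO e h0, vO e' (by omega)] at hee
      exact hee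
  · intro j hj
    have hj1 := hj.1
    have := hge j
    have := hge (j - 1)
    have := hpos j hj.2.1
    have := hpos (j - 1) (by have := hj.2.1; omega)
    omega
  · intro j j' hj hj' hs
    obtain ⟨p, q0, p1, p2⟩ := key j hj
    obtain ⟨p', q0', p1', p2'⟩ := key j' hj'
    have hpp : p = p' := by
      rcases lt_trichotomy p p' with hlt | heq | hgt
      · have := cE_mono (n := 2 * h - 1) (pos := pos) hlt.le
        omega
      · exact heq
      · have := cE_mono (n := 2 * h - 1) (pos := pos) hgt.le
        omega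
    exact level_inj hp hj.1 hj.2.1 hj'.1 hj'.2.1 (P.adj j hj) (P.adj j' hj') (by omega)
  · intro j hj
    have := P.top j hj
    have := hge j
    have := hge (j - 1)
    omega

/-- Chunk V2, odd displaced edge: `c` as for plain arrangements (`y = rk 0`), labels `fD` with
`r = x` if `1 < c ≤ cE x` and `r = x - 1` otherwise; `s = 1`. The joint `g + 1` has the sum
`r + 1` or, if `c = 1`, `r + 2`. A straight joint `≠ g + 1` at level `p ≤ x` has a smaller sum and
at level `p ≥ x + 2` a larger one (`cO x ≤ x - 1`, as `cE x ≥ 1`). Turning joints: at least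
`h - 1`. -/
theorem coreZ_odd (h g x w M : ℕ) (hh : 1 ≤ h) (low : ℕ → Bool) (pos : ℕ → ℕ)
    (D : Disp h low g x w 1 pos) (hg : g % 2 = 1) : CoreZ h M low := by
  have hp := D.isPos
  obtain ⟨d1, d2, d3, d4, d5, d6, d7, d8⟩ := v1_disp h g x w 1 hh low pos D
  have hx := D.xh
  have hwx := D.wx
  have hw2 := D.w2
  have hg1 := D.g1
  have hg2 := D.g2
  have d2' : cO (2 * h - 1) pos x + 1 ≤ x := by
    have : v1c (2 * h - 1) g pos x = cO (2 * h - 1) pos x := by
      unfold v1c
      rw [if_neg (by omega)]
    omega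
  have hsx := cE_add_cO hp (p := x) (by omega)
  have hy := rk_bound_even hp (e := 0) (by omega) rfl
  obtain ⟨c, c1, c2, c3⟩ := v2_choice h M (rk (2 * h - 1) pos 0) hy.1 (by omega)
  obtain ⟨r, hr⟩ : ∃ r, (1 < c ∧ c ≤ cE (2 * h - 1) pos x ∧ r = x) ∨
      ((c = 1 ∨ cE (2 * h - 1) pos x < c) ∧ r + 1 = x) := by
    by_cases h1 : 1 < c ∧ c ≤ cE (2 * h - 1) pos x
    · exact ⟨x, Or.inl ⟨h1.1, h1.2, rfl⟩⟩
    · exact ⟨x - 1, Or.inr ⟨by omega, by omega⟩⟩
  have vg : fD h g c r pos g = r := by simp [fD]
  have vE : ∀ e, e % 2 = 0 → fD h g c r pos e =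
      (if c ≤ rk (2 * h - 1) pos e then rk (2 * h - 1) pos e + 1 else rk (2 * h - 1) pos e) := by
    intro e he
    have h1 : e ≠ g := by rintro rfl; omega
    simp [fD, he, h1]
  have vO : ∀ e, e ≠ g → e % 2 = 1 → fD h g c r pos e =
      (if rk (2 * h - 1) pos e ≤ r then rk (2 * h - 1) pos e - 1 else rk (2 * h - 1) pos e) := by
    intro e h1 he
    simp [fD, he, h1]
  have key : ∀ j, SJ h low j → j ≠ g + 1 → ∃ p, p = max (pos (j - 1)) (pos j) ∧ p ≤ 2 * h - 1 ∧
      p ≠ x + 1 ∧
      ((c ≤ cE (2 * h - 1) pos p ∧ cO (2 * h - 1) pos p ≤ r ∧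
        fD h g c r pos (j - 1) + fD h g c r pos j = p) ∨
      (c ≤ cE (2 * h - 1) pos p ∧ r < cO (2 * h - 1) pos p ∧
        fD h g c r pos (j - 1) + fD h g c r pos j = p + 1) ∨
      (cE (2 * h - 1) pos p < c ∧ cO (2 * h - 1) pos p ≤ r ∧
        fD h g c r pos (j - 1) + fD h g c r pos j + 1 = p) ∨
      (cE (2 * h - 1) pos p < c ∧ r < cO (2 * h - 1) pos p ∧
        fD h g c r pos (j - 1) + fD h g c r pos j = p)) := by
    intro j hj hne
    have a := D.adj j hj hne
    have hj1 := hj.1
    have hj2 := hj.2.1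
    have hjg : j ≠ g := fun h => d5 (h ▸ hj)
    obtain ⟨b1, b2, b3⟩ := joint_vals hp hj.1 hj.2.1 a
    have s := cE_add_cO hp b2
    refine ⟨_, rfl, b2, D.bdx j hj hne, ?_⟩
    rcases b3 with ⟨t1, t2, t3⟩ | ⟨t1, t2, t3⟩
    · have := d4 (j - 1) (by omega) (by omega) (by omega)
      rw [vE j t1, vO (j - 1) (by omega) (by omega)]
      split_ifs <;> omega
    · have := d4 j (by omega) (by omega) (by omega)
      rw [vO j hjg t1, vE (j - 1) (by omega)]
      split_ifs <;> omega
  have kg : (c ≤ 1 ∧ fD h g c r pos (g + 1 - 1) + fD h g c r pos (g + 1) = r + 2) ∨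
      (1 < c ∧ fD h g c r pos (g + 1 - 1) + fD h g c r pos (g + 1) = r + 1) := by
    rw [Nat.add_sub_cancel, vg, vE (g + 1) (by omega), D.rkg1]
    split_ifs <;> omega
  have hcx : 1 ≤ cE (2 * h - 1) pos x := by omega
  have hmono := fun (p p' : ℕ) (hpp : p ≤ p') => cE_mono (n := 2 * h - 1) (pos := pos) hpp
  have hmonoO := fun (p p' : ℕ) (hpp : p ≤ p') => cO_mono (n := 2 * h - 1) (pos := pos) hpp
  have hF : ∀ e, e < 2 * h - 1 → 1 ≤ fD h g c r pos e := by
    intro e he
    rcases Nat.mod_two_eq_zero_or_one e with h0 | h0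
    · have b := rk_bound_even hp he h0
      rw [vE e h0]
      split_ifs <;> omega
    · by_cases h1 : e = g
      · rw [h1, vg]; omega
      · have := d4 e he (by omega) h1
        rw [vO e h1 h0]
        split_ifs <;> omega
  refine ⟨c, 1, fD h g c r pos, c1, c2, le_refl _, ?_, ?_, ?_, ?_, ?_, ?_, ?_⟩
  · rw [vE 0 rfl, c3]
  · intro e he h0
    have b := rk_bound_even hp he h0
    rw [vE e h0]
    split_ifs <;> omega
  · intro e he h0
    have b := rk_bound_odd hp he h0
    by_cases h1 : e = g
    · rw [h1, vg]; omega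
    · have := d4 e he (by omega) h1
      rw [vO e h1 h0]
      split_ifs <;> omega
  · intro e e' he he' hpar hee
    rcases Nat.mod_two_eq_zero_or_one e with h0 | h0
    · apply rk_inj hp he he' hpar
      rw [vE e h0, vE e' (by omega)] at hee
      split_ifs at hee <;> omega
    · by_cases h1 : e = g
      · by_cases h2 : e' = g
        · omega
        · have := d4 e' he' (by omega) h2
          rw [h1, vg, vO e' h2 (by omega)] at hee
          split_ifs at hee <;> omega
      · have := d4 e he (by omega) h1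
        by_cases h2 : e' = g
        · rw [h2, vg, vO e h1 h0] at hee
          split_ifs at hee <;> omega
        · have := d4 e' he' (by omega) h2
          apply rk_inj hp he he' hpar
          rw [vO e h1 h0, vO e' h2 (by omega)] at hee
          split_ifs at hee <;> omega
  · intro j hj
    have hj1 := hj.1
    have := hF j hj.2.1
    have := hF (j - 1) (by have := hj.2.1; omega)
    omega
  · intro j j' hj hj' hs
    by_cases h1 : j = g + 1
    · by_cases h2 : j' = g + 1
      · omega
      · exfalso
        rw [h1] at hs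
        obtain ⟨p, -, p1, p3, p4⟩ := key j' hj' h2
        by_cases hpx : p ≤ x
        · have := hmono p x hpx
          have := hmonoO p x hpx
          omega
        · have := hmono x p (by omega)
          have := hmonoO x p (by omega)
          omega
    · by_cases h2 : j' = g + 1
      · exfalso
        rw [h2] at hs
        obtain ⟨p, -, p1, p3, p4⟩ := key j hj h1
        by_cases hpx : p ≤ x
        · have := hmono p x hpx
          have := hmonoO p x hpx
          omega
        · have := hmono x p (by omega)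
          have := hmonoO x p (by omega)
          omega
      · obtain ⟨p, q0, p1, p2, p3⟩ := key j hj h1
        obtain ⟨p', q0', p1', p2', p3'⟩ := key j' hj' h2
        have hpp : p = p' := by
          rcases lt_trichotomy p p' with hlt | heq | hgt
          · have := hmono p p' hlt.le
            have := hmonoO p p' hlt.le
            omega
          · exact heq
          · have := hmono p' p hgt.le
            have := hmonoO p' p hgt.le
            omega
        exact level_inj hp hj.1 hj.2.1 hj'.1 hj'.2.1 (D.adj j hj h1) (D.adj j' hj' h2) (by omega)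
  · intro j hj
    have hj1 := hj.1
    have hj2 := hj.2.1
    by_cases h1 : j = g
    · rw [h1, vg, vE (g - 1) (by omega)]
      have := D.vst
      split_ifs <;> omega
    · have hne : j ≠ g + 1 := fun hh => d8 (hh ▸ hj)
      have t := D.top j hj h1
      have tE := cE_top hp
      have tO := cO_top hp
      have F1 := hF j (by omega)
      have F2 := hF (j - 1) (by omega)
      rcases Nat.mod_two_eq_zero_or_one j with h0 | h0
      · have e1 := vE j h0
        have e2 := vO (j - 1) (by omega) (by omega)
        have := d4 (j - 1) (by omega) (by omega) (by omega)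
        rcases t with t | ⟨t1, t2⟩ | ⟨t1, t2⟩
        · split_ifs at e1 e2 <;> omega
        · have h4 : h - 1 ≤ rk (2 * h - 1) pos (j - 1) := by
            unfold rk
            rw [t1]
            split_ifs <;> omega
          split_ifs at e1 e2 <;> omega
        · omega
      · have e1 := vO j h1 h0
        have e2 := vE (j - 1) (by omega)
        have := d4 j (by omega) (by omega) (by omega)
        rcases t with t | ⟨t1, t2⟩ | ⟨t1, t2⟩
        · split_ifs at e1 e2 <;> omega
        · omega
        · have h4 : h - 1 ≤ rk (2 * h - 1) pos j := by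
            unfold rk
            rw [t1]
            split_ifs <;> omega
          split_ifs at e1 e2 <;> omega

end H92SA
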