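import Pool.Agent.Lib.H92SA.V0
import Pool.Agent.Lib.H92SA.V1

namespace H92SA

/-- the sums of `fE` at the straight joints -/
lemma v3_key (h g x w q c r : ℕ) (hh : 1 ≤ h) (low : ℕ → Bool) (pos : ℕ → ℕ)
    (D : Disp h low g x w q pos) (hg : g % 2 = 0) :
    (∀ j, SJ h low j → j ≠ g + 1 → ∃ p, p = max (pos (j - 1)) (pos j) ∧ p ≤ 2 * h - 1 ∧ 2 ≤ p ∧
      p ≠ x + 1 ∧ p ≠ w + 1 ∧ 2 ≤ cE (2 * h - 1) pos p ∧
      (x + 2 ≤ p → cE (2 * h - 1) pos x + 1 ≤ cE (2 * h - 1) pos p) ∧
      fE h g c r pos (j - 1) + fE h g c r pos j =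
        yf (cE (2 * h - 1) pos p) c r + cO (2 * h - 1) pos p) ∧
    fE h g c r pos (g + 1 - 1) + fE h g c r pos (g + 1) = r + q := by
  have hp := D.isPos
  obtain ⟨d1, d2, d3, d4, d5, d6, d7, d8⟩ := v1_disp h g x w q hh low pos D
  have hg1 := D.g1
  have vE : ∀ e, e ≠ g → e % 2 = 0 → fE h g c r pos e = yf (rk (2 * h - 1) pos e) c r := by
    intro e h1 he
    simp [fE, he, h1]
  have vO : ∀ e, e % 2 = 1 → fE h g c r pos e = rk (2 * h - 1) pos e := by
    intro e he
    have h1 : e ≠ g := by rintro rfl; omega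
    simp [fE, he, h1]
  have vg : fE h g c r pos g = r := by simp [fE]
  refine ⟨?_, ?_⟩
  · intro j hj hne
    have a := D.adj j hj hne
    have hj1 := hj.1
    have hj2 := hj.2.1
    have hjg : j ≠ g := fun h => d5 (h ▸ hj)
    obtain ⟨b1, b2, b3⟩ := joint_vals hp hj.1 hj.2.1 a
    refine ⟨_, rfl, b2, b1, D.bdx j hj hne, D.bdw j hj hne, ?_⟩
    rcases b3 with ⟨t1, t2, t3⟩ | ⟨t1, t2, t3⟩
    · have e1 := d4 j (by omega) (by omega) hjg
      refine ⟨by omega, ?_, ?_⟩
      · intro hx2
        have e2 := cE_lt (pos := pos) (p := x) hj2 t1 (by omega)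
        have e3 := cE_mono (n := 2 * h - 1) (pos := pos)
          (p := pos j) (p' := max (pos (j - 1)) (pos j)) (by omega)
        omega
      · rw [vE j hjg t1, vO (j - 1) (by omega), t2, t3]
        omega
    · have e1 := d4 (j - 1) (by omega) (by omega) (by omega)
      refine ⟨by omega, ?_, ?_⟩
      · intro hx2
        have e2 := cE_lt (n := 2 * h - 1) (pos := pos) (p := x) (e := j - 1) (by omega) (by omega)
          (by omega)
        have e3 := cE_mono (n := 2 * h - 1) (pos := pos)
          (p := pos (j - 1)) (p' := max (pos (j - 1)) (pos j)) (by omega)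
        omega
      · rw [vE (j - 1) (by omega) (by omega), vO j t1, t2, t3]
  · rw [Nat.add_sub_cancel, vg, vO (g + 1) (by omega), D.rkg1]

/-- Chunk V3: basic facts on the labels `fE` for an allowed pair. Let `a1 = cE x ≤ x - q`. At a straight
joint `≠ g + 1` with level `p`, counts `A, B`, the sum is `yf A c r + B`, strictly increasing in `p`.
The joint `g + 1` has the sum `r + q`, which is `x` if `r = x - q` and `x + 1` if
`r = x - q + 1`. Compare: at levels `p ≤ x` the sum is smaller (first case: `A ≤ a1 ≤ min c r` so it is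
`p - 1`; second case: `A < r` and it is at most `p`), at levels `p ≥ x + 2` it is larger (second case:
`A ≥ a1 + 1 > c`, since one of the two edges is even with position above `x`). -/
theorem fE_facts (h g x w q c r : ℕ) (hh : 1 ≤ h) (low : ℕ → Bool) (pos : ℕ → ℕ)
    (D : Disp h low g x w q pos) (hg : g % 2 = 0)
    (hA : Allowed (cE (2 * h - 1) pos x) x q c r) :
    (∀ e, e < 2 * h - 1 → e % 2 = 0 → 1 ≤ fE h g c r pos e ∧ fE h g c r pos e ≤ h + 1 ∧
      fE h g c r pos e ≠ c ∧ (h < c → fE h g c r pos e ≤ h)) ∧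
    (∀ e, e < 2 * h - 1 → e % 2 = 1 → 1 ≤ fE h g c r pos e ∧ fE h g c r pos e ≤ h - 1) ∧
    (∀ e e', e < 2 * h - 1 → e' < 2 * h - 1 → e % 2 = e' % 2 →
      fE h g c r pos e = fE h g c r pos e' → e = e') ∧
    (∀ j j', SJ h low j → SJ h low j' →
      fE h g c r pos (j - 1) + fE h g c r pos j = fE h g c r pos (j' - 1) + fE h g c r pos j' →
      j = j') ∧
    (∀ j, SJ h low j → 2 ≤ fE h g c r pos (j - 1) + fE h g c r pos j ∧
      fE h g c r pos (j - 1) + fE h g c r pos j ≤ 2 * h) ∧
    (∀ j, TJ h low j → h ≤ fE h g c r pos (j - 1) + fE h g c r pos j) := by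
  have hp := D.isPos
  obtain ⟨d1, d2, d3, d4, d5, d6, d7, d8⟩ := v1_disp h g x w q hh low pos D
  obtain ⟨key, kg⟩ := v3_key h g x w q c r hh low pos D hg
  have hx := D.xh
  have hwx := D.wx
  have hw2 := D.w2
  have hg1 := D.g1
  have hg2 := D.g2
  have hq1 := D.q1
  have d2' : cE (2 * h - 1) pos x + q ≤ x := by
    have : v1c (2 * h - 1) g pos x = cE (2 * h - 1) pos x := by
      unfold v1c
      rw [if_pos (by omega)]
    omega
  obtain ⟨hc1, hA⟩ := hA
  generalize ha1 : cE (2 * h - 1) pos x = a1 at hA d2'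
  have hcr : c ≠ r := by omega
  have hr1 : 1 ≤ r := by omega
  have hrh : r + 1 ≤ h := by omega
  have vE : ∀ e, e ≠ g → e % 2 = 0 → fE h g c r pos e = yf (rk (2 * h - 1) pos e) c r := by
    intro e h1 he
    simp [fE, he, h1]
  have vO : ∀ e, e % 2 = 1 → fE h g c r pos e = rk (2 * h - 1) pos e := by
    intro e he
    have h1 : e ≠ g := by rintro rfl; omega
    simp [fE, he, h1]
  have vg : fE h g c r pos g = r := by simp [fE]
  have hyf : ∀ y, (y ≤ min c r ∧ yf y c r = y - 1) ∨ (min c r < y ∧ y < max c r ∧ yf y c r = y) ∨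
      (max c r ≤ y ∧ yf y c r = y + 1) := by
    intro y
    unfold yf
    split_ifs <;> omega
  have hmono := fun (p p' : ℕ) (hpp : p ≤ p') => cE_mono (n := 2 * h - 1) (pos := pos) hpp
  have hmonoO := fun (p p' : ℕ) (hpp : p ≤ p') => cO_mono (n := 2 * h - 1) (pos := pos) hpp
  have c1 : ∀ e, e < 2 * h - 1 → e % 2 = 0 → 1 ≤ fE h g c r pos e ∧ fE h g c r pos e ≤ h + 1 ∧
      fE h g c r pos e ≠ c ∧ (h < c → fE h g c r pos e ≤ h) := by
    intro e he h0
    by_cases h1 : e = g
    · rw [h1, vg]; omega
    · have b := rk_bound_even hp he h0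
      have := d4 e he (by omega) h1
      have := hyf (rk (2 * h - 1) pos e)
      rw [vE e h1 h0]
      omega
  have c2 : ∀ e, e < 2 * h - 1 → e % 2 = 1 → 1 ≤ fE h g c r pos e ∧ fE h g c r pos e ≤ h - 1 := by
    intro e he h0
    have b := rk_bound_odd hp he h0
    rw [vO e h0]
    omega
  have hF : ∀ e, e < 2 * h - 1 → 1 ≤ fE h g c r pos e := by
    intro e he
    rcases Nat.mod_two_eq_zero_or_one e with h0 | h0
    · exact (c1 e he h0).1
    · exact (c2 e he h0).1
  refine ⟨c1, c2, ?_, ?_, ?_, ?_⟩
  · intro e e' he he' hpar hee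
    rcases Nat.mod_two_eq_zero_or_one e with h0 | h0
    · by_cases h1 : e = g
      · by_cases h2 : e' = g
        · omega
        · have := hyf (rk (2 * h - 1) pos e')
          rw [h1, vg, vE e' h2 (by omega)] at hee
          omega
      · have := hyf (rk (2 * h - 1) pos e)
        by_cases h2 : e' = g
        · rw [h2, vg, vE e h1 h0] at hee
          omega
        · have := hyf (rk (2 * h - 1) pos e')
          have := d4 e he (by omega) h1
          have := d4 e' he' (by omega) h2
          apply rk_inj hp he he' hpar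
          rw [vE e h1 h0, vE e' h2 (by omega)] at hee
          omega
    · apply rk_inj hp he he' hpar
      rw [vO e h0, vO e' (by omega)] at hee
      exact hee
  · have main : ∀ j, SJ h low j → j ≠ g + 1 →
        fE h g c r pos (j - 1) + fE h g c r pos j ≠ r + q := by
      intro j hj h1 hs
      obtain ⟨p, -, p1, p2, p3, p4, p5, p6, p7⟩ := key j hj h1
      have f := hyf (cE (2 * h - 1) pos p)
      have s := cE_add_cO hp p1
      by_cases hpx : p ≤ x
      · have := hmono p x hpx
        omega
      · have := p6 (by omega)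
        omega
    intro j j' hj hj' hs
    by_cases h1 : j = g + 1
    · by_cases h2 : j' = g + 1
      · omega
      · exfalso
        rw [h1, kg] at hs
        exact main j' hj' h2 hs.symm
    · by_cases h2 : j' = g + 1
      · exfalso
        rw [h2, kg] at hs
        exact main j hj h1 hs
      · obtain ⟨p, q0, p1, p2, p3, p4, p5, p6, p7⟩ := key j hj h1
        obtain ⟨p', q0', p1', p2', p3', p4', p5', p6', p7'⟩ := key j' hj' h2
        have f := hyf (cE (2 * h - 1) pos p)
        have f' := hyf (cE (2 * h - 1) pos p')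
        have s := cE_add_cO hp p1
        have s' := cE_add_cO hp p1'
        have hpp : p = p' := by
          rcases lt_trichotomy p p' with hlt | heq | hgt
          · have := hmono p p' hlt.le
            have := hmonoO p p' hlt.le
            omega
          · exact heq
          · have := hmono p' p hgt.le
            have := hmonoO p' p hgt.le
            omega
        exact level_inj hp hj.1 hj.2.1 hj'.1 hj'.2.1 (D.adj j hj h1) (D.adj j' hj' h2) (by omega)
  · intro j hj
    have hj1 := hj.1
    have hj2 := hj.2.1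
    have := hF j hj2
    have := hF (j - 1) (by omega)
    refine ⟨by omega, ?_⟩
    by_cases h1 : j = g + 1
    · rw [h1, kg]
      omega
    · obtain ⟨p, -, p1, p2, p3, p4, p5, p6, p7⟩ := key j hj h1
      have f := hyf (cE (2 * h - 1) pos p)
      have s := cE_add_cO hp p1
      omega
  · intro j hj
    have hj1 := hj.1
    have hj2 := hj.2.1
    by_cases h1 : j = g
    · rw [h1, vg, vO (g - 1) (by omega)]
      have := D.vst
      omega
    · have hne : j ≠ g + 1 := fun hh => d8 (hh ▸ hj)
      have t := D.top j hj h1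
      have tE := cE_top hp
      have F1 := hF j (by omega)
      have F2 := hF (j - 1) (by omega)
      rcases Nat.mod_two_eq_zero_or_one j with h0 | h0
      · have e1 := vE j h1 h0
        have e2 := vO (j - 1) (by omega)
        have f := hyf (rk (2 * h - 1) pos j)
        rcases t with t | ⟨t1, t2⟩ | ⟨t1, t2⟩
        · omega
        · omega
        · have h4 : rk (2 * h - 1) pos j = h := by
            rw [rk_even h0, t1, tE]
            omega
          omega
      · have e1 := vO j h0
        have e2 := vE (j - 1) (by omega) (by omega)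
        have f := hyf (rk (2 * h - 1) pos (j - 1))
        rcases t with t | ⟨t1, t2⟩ | ⟨t1, t2⟩
        · omega
        · have h4 : rk (2 * h - 1) pos (j - 1) = h := by
            rw [rk_even (by omega), t1, tE]
            omega
          omega
        · omega

/-- Chunk V3: `CoreZ` for an even displaced edge (`fE`, `s = 1`). -/
theorem coreZ_even (h g x w q c r M : ℕ) (hh : 1 ≤ h) (low : ℕ → Bool) (pos : ℕ → ℕ)
    (D : Disp h low g x w q pos) (hg : g % 2 = 0) (hy : 2 ≤ rk (2 * h - 1) pos 0)
    (hA : Allowed (cE (2 * h - 1) pos x) x q c r)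
    (hc : c + yf (rk (2 * h - 1) pos 0) c r = h + M + 2) : CoreZ h M low := by
  obtain ⟨a1, a2, a3, a4, a5, a6⟩ := fE_facts h g x w q c r hh low pos D hg hA
  have hg1 := D.g1
  have v0 : fE h g c r pos 0 = yf (rk (2 * h - 1) pos 0) c r := by
    have : (0 : ℕ) ≠ g := by omega
    simp [fE, this]
  have hyf : 1 ≤ yf (rk (2 * h - 1) pos 0) c r := by
    unfold yf
    omega
  refine ⟨c, 1, fE h g c r pos, hA.1, by omega, le_refl _, by omega, ?_, a2, a3, ?_, a4, ?_⟩
  · intro e he h0
    have := a1 e he h0
    omega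
  · intro j hj
    have := a5 j hj
    omega
  · intro j hj
    have := a6 j hj
    omega

end H92SA
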